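import Pool.Agent.Lib.MP_6bd702_perq.TwoDefs

/-!
# The two-sided cylinder: the lifted loop of two wrapping clusters
-/

set_option autoImplicit false

namespace Pool.Agent.Perc.TwoE

open Finset

variable {N : ℕ} {s : St}

theorem label_partner (hs : IsAnn N s) (x : ℕ) : s.2 (s.1 x) = s.2 x := by
  by_cases hx : x < N
  · obtain ⟨g, -, hg⟩ := hs.mark
    have h1 := hg x hx
    have h2 := hg (s.1 x) (hs.nc.lt x hx)
    rw [hs.nc.inv x] at h2
    have h3 : s.2 (s.1 x) = true ↔ s.2 x = true := by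
      rw [h1, h2]
      constructor
      · intro h h'; exact h h'.symm
      · intro h h'; exact h h'.symm
    exact Bool.eq_iff_iff.2 h3
  · rw [hs.nc.out x (by omega)]

theorem toNat_emod_lt (hN : 0 < N) (x : ℤ) : (x % N).toNat < N := by
  have h1 := Int.emod_nonneg x (by omega : (N : ℤ) ≠ 0)
  have h2 := Int.emod_lt_of_pos x (by omega : (0 : ℤ) < N)
  omega

theorem eq_div_add (hN : 0 < N) (x : ℤ) : x = x / N * N + ((x % N).toNat : ℤ) := by
  have h1 := Int.emod_nonneg x (by omega : (N : ℤ) ≠ 0)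
  have h2 := Int.ediv_mul_add_emod x N
  rw [Int.toNat_of_nonneg h1]
  omega

/-- The change of the period at a site. -/
def jump (s : St) (r : ℕ) : ℤ := if s.2 r = true then (if r < s.1 r then -1 else 1) else 0

theorem liftS_eq (s : St) (x : ℤ) :
    liftS N s x = (x / N + jump s (x % N).toNat) * N + (s.1 (x % N).toNat : ℤ) := by
  unfold liftS jump
  split_ifs <;> ring

theorem div_of_form (hN : 0 < N) (q : ℤ) {r : ℕ} (hr : r < N) : (q * N + r : ℤ) / N = q := by
  rw [add_comm, Int.add_mul_ediv_right _ _ (by omega : (N : ℤ) ≠ 0),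
    Int.ediv_eq_zero_of_lt (by omega) (by omega), zero_add]

theorem mod_of_form (q : ℤ) {r : ℕ} (hr : r < N) : ((q * N + r : ℤ) % N).toNat = r := by
  rw [add_comm, Int.add_mul_emod_self_right, Int.emod_eq_of_lt (by omega) (by omega)]
  simp

theorem liftS_form (hN : 0 < N) (s : St) (q : ℤ) {r : ℕ} (hr : r < N) :
    liftS N s (q * N + r) = (q + jump s r) * N + (s.1 r : ℤ) := by
  rw [liftS_eq, div_of_form hN q hr, mod_of_form q hr]

theorem liftS_add_mul (hN : 0 < N) (s : St) (x m : ℤ) :
    liftS N s (x + m * N) = liftS N s x + m * N := by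
  rw [liftS_eq, liftS_eq, Int.add_mul_emod_self_right,
    Int.add_mul_ediv_right _ _ (by omega : (N : ℤ) ≠ 0)]
  ring

theorem jump_partner (hs : IsAnn N s) {r : ℕ} (hr : r < N) : jump s (s.1 r) = - jump s r := by
  unfold jump
  rw [label_partner hs, hs.nc.inv]
  have := hs.nc.ne r hr
  split_ifs <;> omega

theorem liftS_mod (hN : 0 < N) (hs : IsAnn N s) (x : ℤ) :
    (liftS N s x % N).toNat = s.1 (x % N).toNat := by
  rw [liftS_eq, mod_of_form _ (hs.nc.lt _ (toNat_emod_lt hN x))]

theorem liftS_div (hN : 0 < N) (hs : IsAnn N s) (x : ℤ) :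
    liftS N s x / N = x / N + jump s (x % N).toNat := by
  rw [liftS_eq, div_of_form hN _ (hs.nc.lt _ (toNat_emod_lt hN x))]

theorem liftS_div_parity (hN : 0 < N) (hs : IsAnn N s) (x : ℤ) :
    (liftS N s x / N + x / N) % 2 = if s.2 (x % N).toNat = true then 1 else 0 := by
  rw [liftS_div hN hs]
  unfold jump
  split_ifs <;> omega

theorem liftS_liftS (hN : 0 < N) (hs : IsAnn N s) (x : ℤ) : liftS N s (liftS N s x) = x := by
  have hr := toNat_emod_lt hN x
  rw [liftS_eq (N := N) s x, liftS_form hN s _ (hs.nc.lt _ hr), jump_partner hs hr, hs.nc.inv]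
  conv_rhs => rw [eq_div_add hN x]
  ring

theorem liftS_parity (hN : 0 < N) (hs : IsAnn N s) (x : ℤ) : (liftS N s x + x) % 2 = 1 := by
  have hr := toNat_emod_lt hN x
  have h1 := hs.nc.parity hr
  obtain ⟨n, hn⟩ : ∃ n : ℤ, (N : ℤ) = 2 * n := ⟨(N : ℤ) / 2, by have := hs.nc.even; omega⟩
  have e : liftS N s x + x = 2 * ((2 * (x / N) + jump s (x % N).toNat) * n) +
      ((s.1 (x % N).toNat : ℤ) + ((x % N).toNat : ℤ)) := by
    rw [liftS_eq]
    conv_lhs => rw [eq_div_add hN x]
    rw [div_of_form hN _ hr, mod_of_form _ hr, hn]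
    ring
  rw [e]
  omega

theorem liftS_ne (hN : 0 < N) (hs : IsAnn N s) (x : ℤ) : liftS N s x ≠ x := by
  intro h
  have := liftS_parity hN hs x
  rw [h] at this
  omega

open Classical in
/-- Evenness: a set which is closed under the partner map has an even number of elements between
two gaps of the same region. -/
theorem sum_even (hN : 0 < N) (hs : IsAnn N s) {G : ℤ → Prop}
    (hG : ∀ x, G x → G (liftS N s x)) {k l : ℤ} (hkl : k ≤ l) (h : SameReg N s k l) :
    (∑ x ∈ Ico k l, (if G x then 1 else 0 : ZMod 2)) = 0 := by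
  have hG' : ∀ x, G (liftS N s x) ↔ G x := by
    intro x
    refine ⟨fun h => ?_, hG x⟩
    have := hG _ h
    rwa [liftS_liftS hN hs] at this
  refine Finset.sum_involution (fun x _ => liftS N s x) ?_ ?_ ?_ ?_
  · intro x _
    simp only [hG' x]
    split_ifs
    · decide
    · decide
  · intro x _ _
    exact liftS_ne hN hs x
  · intro x hx
    have := h x
    rw [mem_Ico] at hx ⊢
    omega
  · intro x _
    exact liftS_liftS hN hs x

theorem sumIco_add (f : ℤ → ZMod 2) {a b c : ℤ} (hab : a ≤ b) (hbc : b ≤ c) :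
    ∑ x ∈ Ico a b, f x + ∑ x ∈ Ico b c, f x = ∑ x ∈ Ico a c, f x := by
  rw [← Finset.sum_union (Finset.Ico_disjoint_Ico_consecutive a b c),
    Finset.Ico_union_Ico_eq_Ico hab hbc]

open Classical in
/-- The potential of a set. -/
noncomputable def pot (G : ℤ → Prop) (k : ℤ) : ZMod 2 :=
  (∑ x ∈ Ico 0 k, (if G x then 1 else 0 : ZMod 2)) + ∑ x ∈ Ico k 0, (if G x then 1 else 0 : ZMod 2)

open Classical in
theorem pot_add (G : ℤ → Prop) {k l : ℤ} (hkl : k ≤ l) :
    pot G k + ∑ x ∈ Ico k l, (if G x then 1 else 0 : ZMod 2) = pot G l := by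
  unfold pot
  set f : ℤ → ZMod 2 := fun x => if G x then 1 else 0 with hf
  have h2 : ∀ a : ZMod 2, a + a = 0 := by decide
  rcases le_total 0 k with hk | hk
  · have e1 : Ico k (0 : ℤ) = ∅ := Ico_eq_empty (by omega)
    have e2 : Ico l (0 : ℤ) = ∅ := Ico_eq_empty (by omega)
    rw [e1, e2, sum_empty, add_zero, add_zero]
    exact sumIco_add f hk hkl
  · rcases le_total 0 l with hl | hl
    · have e1 : Ico (0 : ℤ) k = ∅ := Ico_eq_empty (by omega)
      have e2 : Ico l (0 : ℤ) = ∅ := Ico_eq_empty (by omega)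
      rw [e1, e2, sum_empty, add_zero, zero_add]
      have e3 := sumIco_add f hk hl
      rw [← e3, ← add_assoc, h2, zero_add]
    · have e1 : Ico (0 : ℤ) k = ∅ := Ico_eq_empty (by omega)
      have e2 : Ico (0 : ℤ) l = ∅ := Ico_eq_empty (by omega)
      rw [e1, e2, sum_empty, zero_add, zero_add]
      have e3 := sumIco_add f hkl hl
      rw [← e3, add_comm (∑ x ∈ Ico k l, f x), add_assoc, h2, add_zero]

theorem sameReg_symm {k l : ℤ} (h : SameReg N s k l) : SameReg N s l k := fun x => (h x).symm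

theorem pot_eq (hN : 0 < N) (hs : IsAnn N s) {G : ℤ → Prop}
    (hG : ∀ x, G x → G (liftS N s x)) {k l : ℤ} (h : SameReg N s k l) : pot G k = pot G l := by
  classical
  rcases le_total k l with hkl | hkl
  · rw [← pot_add G hkl, sum_even hN hs hG hkl h, add_zero]
  · rw [← pot_add G hkl, sum_even hN hs hG hkl (sameReg_symm h), add_zero]

/-- Two wrapping clusters: the lifted orbit of `0` contains `N`. -/
theorem orbit_of_sameReg {s' : St} (hN : 0 < N) (hs' : IsAnn N s') (hs : IsAnn N s)
    (h0 : Relation.ReflTransGen (fun k l => SameReg N s' k l ∨ SameReg N s k l) 0 (N : ℤ))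
    (h1 : Relation.ReflTransGen (fun k l => SameReg N s' k l ∨ SameReg N s k l) 1
      ((N : ℤ) + 1)) :
    Relation.ReflTransGen (fun x y : ℤ => y = liftS N s' x ∨ y = liftS N s x) 0 (N : ℤ) := by
  classical
  set G : ℤ → Prop := Relation.ReflTransGen
    (fun x y : ℤ => y = liftS N s' x ∨ y = liftS N s x) 0 with hG
  have hG1 : ∀ x, G x → G (liftS N s' x) := fun x hx => hx.tail (Or.inl rfl)
  have hG2 : ∀ x, G x → G (liftS N s x) := fun x hx => hx.tail (Or.inr rfl)
  have key : ∀ k l, Relation.ReflTransGen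
      (fun k l => SameReg N s' k l ∨ SameReg N s k l) k l → pot G k = pot G l := by
    intro k l h
    induction h with
    | refl => rfl
    | tail _ h ih =>
      rw [ih]
      rcases h with h | h
      · exact pot_eq hN hs' hG1 h
      · exact pot_eq hN hs hG2 h
  have e0 := key _ _ h0
  have e1 := key _ _ h1
  have s0 := pot_add G (show (0 : ℤ) ≤ 0 + 1 by omega)
  have s1 := pot_add G (show (N : ℤ) ≤ (N : ℤ) + 1 by omega)
  have i0 : Ico (0 : ℤ) (0 + 1) = {0} := by ext x; simp only [mem_Ico, mem_singleton]; omega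
  have i1 : Ico (N : ℤ) (N + 1) = {(N : ℤ)} := by ext x; simp only [mem_Ico, mem_singleton]; omega
  rw [i0, sum_singleton, if_pos (show G 0 from Relation.ReflTransGen.refl)] at s0
  rw [i1, sum_singleton] at s1
  by_contra hc
  rw [if_neg hc, add_zero] at s1
  rw [zero_add] at s0
  rw [s1, e1.symm, ← s0] at e0
  have : ∀ a : ZMod 2, a ≠ a + 1 := by decide
  exact this _ e0

end Pool.Agent.Perc.TwoE
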