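import Pool.Agent.Lib.MP_6bd702_perq.TwoD
import Pool.Agent.Lib.MP_6bd702_perq.TwoE1
import Pool.Agent.Lib.MP_6bd702_perq.TwoE2

/-!
# The two-sided cylinder: two wrapping clusters give a non-contractible loop (task TwoE)
-/

set_option autoImplicit false

namespace Pool.Agent.Perc

open Finset

variable {L M : ℕ}

/-- Combinatorial form: if the gaps `0` and `L` are related by regions of the two states, and the
gaps `1` and `L + 1` too, then the loop of the site `0` is non-contractible. -/
theorem ncAt_of_sameReg {s' s : St} (hs' : IsAnn L s') (hs : IsAnn L s) (hL0 : 0 < L)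
    (h0 : Relation.ReflTransGen (fun k l => SameReg L s' k l ∨ SameReg L s k l) 0 (L : ℤ))
    (h1 : Relation.ReflTransGen (fun k l => SameReg L s' k l ∨ SameReg L s k l) 1
      ((L : ℤ) + 1)) : NCat L s' s 0 :=
  TwoE.ncAt_of_orbit hs' hs hL0 (TwoE.orbit_of_sameReg hL0 hs' hs h0 h1)

theorem TwoE.isAnn_run (ω : Cfg) (M : ℕ) : ∀ s : St, IsAnn L s → IsAnn L (run L ω M s) := by
  induction M with
  | zero => intro s hs; exact hs
  | succ M ih => intro s hs; exact ih _ (hs.trow _)

theorem ncAt_of_wrap (hL : L % 2 = 0) (hL0 : 0 < L) (ω : Cfg)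
    (h0 : Conn (perC L ω) (strip M) (0, 0) ((L : ℤ), 0))
    (h1 : Conn (perC L ω) (strip M) (1, 0) ((L : ℤ) + 1, 0)) :
    NCat L (upS L M ω) (loS L M ω) 0 := by
  have key : ∀ k l : ℤ, Conn (perC L ω) (strip M) (k, 0) (l, 0) →
      Relation.ReflTransGen
        (fun k l => SameReg L (upS L M ω) k l ∨ SameReg L (loS L M ω) k l) k l := by
    intro k l h
    have h' := conn_strip (perC L ω) h
    clear h
    induction h' with
    | refl => exact Relation.ReflTransGen.refl
    | tail _ hab ih =>
      refine ih.tail ?_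
      rcases hab with hab | hab
      · exact Or.inl (complete_run hL hL0 ω hab)
      · exact Or.inr (complete_low hL hL0 ω hab)
  exact ncAt_of_sameReg (TwoE.isAnn_run ω M _ (isAnn_s0 hL))
    (TwoE.isAnn_run (lowC ω) M _ (isAnn_s0 hL)) hL0 (key _ _ h0) (key _ _ h1)

end Pool.Agent.Perc
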