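import Pool.Agent.Lib.MP_6bd702_perq.TwoC
import Pool.Agent.Lib.MP_6bd702_perq.TwoE

/-!
# The two-sided cylinder: upper bound for two wrapping clusters (task TwoF)
-/

set_option autoImplicit false

namespace Pool.Agent.Perc

open Finset MvPolynomial Filter Topology

/-- The event that the clusters of `(0, 0)` and `(1, 0)` wrap around the cylinder. -/
def wrap2 (L M : ℕ) : Set Cfg :=
  {ω | Conn (perC L ω) (strip M) (0, 0) ((L : ℤ), 0) ∧
    Conn (perC L ω) (strip M) (1, 0) ((L : ℤ) + 1, 0)}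

namespace TwoF

theorem depOn_wrap2 {L : ℕ} (hL : 0 < L) (M : ℕ) :
    DepOn (RF 0 (L : ℤ) (-M) M : Set (ℤ × ℤ)) (wrap2 L M) := by
  intro ω ω' h
  have h1 : ∀ f ∈ strip M, perC L ω f = perC L ω' f := by
    intro f hf
    unfold perC
    apply h
    have h2 : (L : ℤ) ≠ 0 := by omega
    have h3 : (0 : ℤ) < L := by omega
    rw [mem_coe]
    unfold RF
    rw [mem_product, mem_Ico, mem_Ico]
    exact ⟨⟨Int.emod_nonneg _ h2, Int.emod_lt_of_pos _ h3⟩, hf.1, hf.2⟩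
  unfold wrap2
  rw [Set.mem_ofPred_eq, Set.mem_ofPred_eq, GridA.conn_iff (strip M) h1, GridA.conn_iff (strip M) h1]

theorem strip_mono {M M' : ℕ} (h : M ≤ M') : strip M ⊆ strip M' := by
  intro f hf
  have h1 := hf.1
  have h2 := hf.2
  constructor <;> omega

theorem RF_mono (L : ℕ) {M M' : ℕ} (h : M ≤ M') : RF 0 (L : ℤ) (-M) M ⊆ RF 0 (L : ℤ) (-M') M' := by
  intro f hf
  unfold RF at hf ⊢
  rw [mem_product, mem_Ico, mem_Ico] at hf ⊢
  omega

end TwoF

open TwoF in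
open Classical in
theorem pr_wrap2_le {q : ℂ} (hq : q ^ 2 + q + 1 = 0) {n : ℕ} (hn : 0 < n)
    (h0 : ∑ s ∈ anns (2 * n), eval (fun _ => 1) (PsiS q n s) ≠ 0) (M : ℕ) :
    pr (RF 0 ((2 * n : ℕ) : ℤ) (-M) M) (wrap2 (2 * n) M) ≤
      (exSt q n fun s' s => if NCat (2 * n) s' s 0 then 1 else 0).re := by
  have h1 := tendsto_ex_two hq h0 (fun s' s => if NCat (2 * n) s' s 0 then (1 : ℂ) else 0)
  have h2 := (Complex.continuous_re.tendsto _).comp h1
  refine ge_of_tendsto h2 ?_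
  filter_upwards [eventually_ge_atTop M] with M' hM'
  have h3 : pr (RF 0 ((2 * n : ℕ) : ℤ) (-M) M) (wrap2 (2 * n) M) =
      pr (RF 0 ((2 * n : ℕ) : ℤ) (-M') M') (wrap2 (2 * n) M) :=
    (pr_eq_of_depOn (depOn_wrap2 (by omega) M) (RF_mono (2 * n) hM')).symm
  rw [h3, Function.comp_apply,
    ex_indicator {ω : Cfg | NCat (2 * n) (upS (2 * n) M' ω) (loS (2 * n) M' ω) 0}
      (fun ω => if NCat (2 * n) (upS (2 * n) M' ω) (loS (2 * n) M' ω) 0 then (1 : ℂ) else 0)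
      (fun ω hω => if_pos hω) (fun ω hω => if_neg hω), Complex.ofReal_re]
  refine pr_mono _ fun ω hω => ?_
  exact ncAt_of_wrap (by omega) (by omega) ω (hω.1.mono (strip_mono hM'))
    (hω.2.mono (strip_mono hM'))

end Pool.Agent.Perc
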