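import Pool.Agent.Lib.MP_6bd702_perq.QStA
import Pool.Agent.Lib.MP_6bd702_perq.QStB

/-!
# Punctured link patterns: total length and valleys (task QStC)
-/

set_option autoImplicit false

namespace Pool.Agent.Perc

open Finset

variable {N : ℕ} {s s' : St}

namespace QStC

theorem lab_partner (h : IsAnn N s) {x : ℕ} (hx : x < N) : s.2 (s.1 x) = s.2 x := by
  obtain ⟨g, hg, hm⟩ := h.mark
  have h1 := hm x hx
  have h2 := hm (s.1 x) (h.nc.lt x hx)
  rw [h.nc.inv] at h2
  rw [Bool.eq_iff_iff, h1, h2]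
  tauto

theorem opS_true_iff (s : St) (x : ℕ) : opS s x = true ↔ (x < s.1 x ↔ s.2 x = false) := by
  unfold opS
  by_cases h : x < s.1 x <;> cases hs : s.2 x <;> simp [h]

theorem opS_false_iff (s : St) (x : ℕ) : opS s x = false ↔ (x < s.1 x ↔ s.2 x = true) := by
  unfold opS
  by_cases h : x < s.1 x <;> cases hs : s.2 x <;> simp [h]

theorem ea_left (i : ℕ) (p : ℕ → ℕ) : eAct i p i = i + 1 := by
  unfold eAct; rw [if_pos rfl]

theorem ea_right (i : ℕ) (p : ℕ → ℕ) : eAct i p (i + 1) = i := by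
  unfold eAct; rw [if_neg (by omega), if_pos rfl]

theorem ea_a {i x : ℕ} (p : ℕ → ℕ) (h1 : x ≠ i) (h2 : x ≠ i + 1) (h3 : p x = i) :
    eAct i p x = p (i + 1) := by
  unfold eAct; rw [if_neg h1, if_neg h2, if_pos h3]

theorem ea_b {i x : ℕ} (p : ℕ → ℕ) (h1 : x ≠ i) (h2 : x ≠ i + 1) (h3 : p x = i + 1) :
    eAct i p x = p i := by
  unfold eAct; rw [if_neg h1, if_neg h2, if_neg (by omega), if_pos h3]

theorem ea_other {i x : ℕ} (p : ℕ → ℕ) (h1 : x ≠ i) (h2 : x ≠ i + 1) (h3 : p x ≠ i)
    (h4 : p x ≠ i + 1) : eAct i p x = p x := by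
  unfold eAct; rw [if_neg h1, if_neg h2, if_neg h3, if_neg h4]

/-- the length of an arc `x — y` with the label `l` -/
def ln (N x y : ℕ) (l : Bool) : ℕ := if l = true then N - ((y - x) + (x - y)) else (y - x) + (x - y)

theorem ln_comm (N x y : ℕ) (l : Bool) : ln N x y l = ln N y x l := by
  unfold ln; rw [Nat.add_comm (y - x)]

theorem lenS_eq (N : ℕ) (s : St) (x : ℕ) : lenS N s x = ln N x (s.1 x) (s.2 x) := rfl

/-- the change of the total length -/
theorem totS_eL (h : IsAnn N s) {i : ℕ} (hi : i + 1 < N) (hs : s.1 i ≠ i + 1) :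
    totS N (eL i s) + 2 * (ln N i (s.1 i) (s.2 i) + ln N (i + 1) (s.1 (i + 1)) (s.2 (i + 1)))
      = totS N s + 2 * (ln N (s.1 i) (s.1 (i + 1)) (xor (s.2 i) (s.2 (i + 1))) + 1) := by
  have hnc := h.nc
  set a := s.1 i with ha
  set b := s.1 (i + 1) with hb
  have pa : s.1 a = i := hnc.inv i
  have pb : s.1 b = i + 1 := hnc.inv (i + 1)
  have haN : a < N := hnc.lt i (by omega)
  have hbN : b < N := hnc.lt (i + 1) hi
  have hai : a ≠ i := hnc.ne i (by omega)
  have hbi1 : b ≠ i + 1 := hnc.ne (i + 1) hi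
  have hbi : b ≠ i := by
    intro e
    rw [e] at pb
    exact hs (by rw [ha, pb])
  have hab : a ≠ b := by
    intro e
    rw [e, pb] at pa
    omega
  have la : s.2 a = s.2 i := lab_partner h (by omega)
  have lb : s.2 b = s.2 (i + 1) := lab_partner h hi
  have hsub : ({i, i + 1, a, b} : Finset ℕ) ⊆ range N := by
    intro x hx
    simp only [mem_insert, mem_singleton] at hx
    rw [mem_range]
    rcases hx with rfl | rfl | rfl | rfl <;> omega
  have hrest : ∑ x ∈ range N \ {i, i + 1, a, b}, lenS N s x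
      = ∑ x ∈ range N \ {i, i + 1, a, b}, lenS N (eL i s) x := by
    refine sum_congr rfl fun x hx => ?_
    rw [mem_sdiff] at hx
    simp only [mem_insert, mem_singleton, not_or] at hx
    obtain ⟨_, h1, h2, h3, h4⟩ := hx
    have h5 : s.1 x ≠ i := fun e => h3 (by rw [ha, ← e, hnc.inv])
    have h6 : s.1 x ≠ i + 1 := fun e => h4 (by rw [hb, ← e, hnc.inv])
    rw [lenS_eq, lenS_eq]
    have e1 : (eL i s).1 x = s.1 x := ea_other s.1 h1 h2 h5 h6
    have e2 : (eL i s).2 x = s.2 x := by
      unfold eL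
      simp only [h1, h2, h5, h6, or_self, if_false]
    rw [e1, e2]
  have hsplit : ∀ f : ℕ → ℕ, ∑ x ∈ range N, f x
      = ∑ x ∈ range N \ {i, i + 1, a, b}, f x + (f i + (f (i + 1) + (f a + f b))) := by
    intro f
    rw [← sum_sdiff hsub]
    congr 1
    rw [sum_insert (by simp; omega), sum_insert (by simp; omega), sum_insert (by simpa using hab),
      sum_singleton]
  have e1 : totS N s = _ := hsplit (lenS N s)
  have e2 : totS N (eL i s) = _ := hsplit (lenS N (eL i s))
  rw [e1, e2, ← hrest]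
  have f1 : lenS N s i = ln N i a (s.2 i) := rfl
  have f2 : lenS N s (i + 1) = ln N (i + 1) b (s.2 (i + 1)) := rfl
  have f3 : lenS N s a = ln N i a (s.2 i) := by rw [lenS_eq, pa, la, ln_comm]
  have f4 : lenS N s b = ln N (i + 1) b (s.2 (i + 1)) := by rw [lenS_eq, pb, lb, ln_comm]
  have g1 : lenS N (eL i s) i = 1 := by
    rw [lenS_eq]
    have e1 : (eL i s).1 i = i + 1 := ea_left i s.1
    have e2 : (eL i s).2 i = false := by unfold eL; simp
    rw [e1, e2]
    unfold ln
    simp
  have g2 : lenS N (eL i s) (i + 1) = 1 := by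
    rw [lenS_eq]
    have e1 : (eL i s).1 (i + 1) = i := ea_right i s.1
    have e2 : (eL i s).2 (i + 1) = false := by unfold eL; simp
    rw [e1, e2]
    unfold ln
    simp
  have g3 : lenS N (eL i s) a = ln N a b (xor (s.2 i) (s.2 (i + 1))) := by
    rw [lenS_eq]
    have e1 : (eL i s).1 a = b := ea_a s.1 hai hs pa
    have e2 : (eL i s).2 a = xor (s.2 i) (s.2 (i + 1)) := by
      unfold eL
      simp only [hai, hs, pa, or_self, if_false, true_or, if_true]
    rw [e1, e2]
  have g4 : lenS N (eL i s) b = ln N a b (xor (s.2 i) (s.2 (i + 1))) := by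
    rw [lenS_eq]
    have e1 : (eL i s).1 b = a := ea_b s.1 hbi hbi1 pb
    have e2 : (eL i s).2 b = xor (s.2 i) (s.2 (i + 1)) := by
      unfold eL
      simp only [hbi, hbi1, pb, or_self, if_false, or_true, if_true]
    rw [e1, e2, ln_comm]
  rw [f1, f2, f3, f4, g1, g2, g3, g4]
  ring

/-- the geometry of a state at two neighbouring sites -/
theorem geom (h : IsAnn N s) {i : ℕ} (hi : i + 1 < N) (hs : s.1 i ≠ i + 1) :
    (opS s i = false ∧ opS s (i + 1) = true ∧
      ln N (s.1 i) (s.1 (i + 1)) (xor (s.2 i) (s.2 (i + 1)))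
        = ln N i (s.1 i) (s.2 i) + ln N (i + 1) (s.1 (i + 1)) (s.2 (i + 1)) + 1) ∨
    (¬ (opS s i = false ∧ opS s (i + 1) = true) ∧
      ln N (s.1 i) (s.1 (i + 1)) (xor (s.2 i) (s.2 (i + 1))) + 1
        ≤ ln N i (s.1 i) (s.2 i) + ln N (i + 1) (s.1 (i + 1)) (s.2 (i + 1))) := by
  obtain ⟨g, hg, hm⟩ := h.mark
  have hnc := h.nc
  have m1 := hm i (by omega)
  have m2 := hm (i + 1) hi
  have o1 := opS_true_iff s i
  have o2 := opS_false_iff s i
  have o3 := opS_true_iff s (i + 1)
  have o4 := opS_false_iff s (i + 1)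
  set a := s.1 i with ha
  set b := s.1 (i + 1) with hb
  have pa : s.1 a = i := hnc.inv i
  have pb : s.1 b = i + 1 := hnc.inv (i + 1)
  have haN : a < N := hnc.lt i (by omega)
  have hbN : b < N := hnc.lt (i + 1) hi
  have hai : a ≠ i := hnc.ne i (by omega)
  have hbi1 : b ≠ i + 1 := hnc.ne (i + 1) hi
  have hbi : b ≠ i := by
    intro e
    rw [e] at pb
    exact hs (by rw [ha, pb])
  have hab : a ≠ b := by
    intro e
    rw [e, pb] at pa
    omega
  -- noncrossing
  have n1 : i < i + 1 → i + 1 < a → i < b ∧ b < a := hnc.nc i (i + 1)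
  have n2 : b < i → i < i + 1 → b < a ∧ a < i + 1 := by
    have := hnc.nc b i
    rw [pb] at this
    exact this
  unfold ln
  cases hl1 : s.2 i <;> cases hl2 : s.2 (i + 1) <;> rw [hl1] at m1 o1 o2 <;>
    rw [hl2] at m2 o3 o4 <;> cases ho1 : opS s i <;> cases ho2 : opS s (i + 1) <;>
    rw [ho1] at o1 o2 <;> rw [ho2] at o3 o4 <;> simp at m1 m2 o1 o2 o3 o4 ⊢ <;> omega

end QStC

open QStC

theorem totS_le (N : ℕ) (h : IsAnn N s) : totS N s ≤ N * N := by
  unfold totS
  calc ∑ x ∈ range N, lenS N s x ≤ ∑ _x ∈ range N, N := by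
        refine sum_le_sum fun x hx => ?_
        rw [mem_range] at hx
        have := h.nc.lt x hx
        rw [lenS_eq]
        unfold ln
        split_ifs <;> omega
    _ = N * N := by simp

theorem totS_rotL (h : IsAnn N s) : totS N (rotL N s) = totS N s := by
  have key : ∀ x < N, lenS N (rotL N s) x = lenS N s (if x + 1 = N then 0 else x + 1) := by
    intro x hx
    rw [lenS_eq, lenS_eq]
    have e1 : (rotL N s).1 x = (if s.1 (if x + 1 = N then 0 else x + 1) = 0 then N - 1
        else s.1 (if x + 1 = N then 0 else x + 1) - 1) := by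
      unfold rotL rotP
      simp only [hx, if_true]
    have e2 : (rotL N s).2 x = (if x + 1 = N ∨ s.1 (x + 1) = 0 then
        !s.2 (if x + 1 = N then 0 else x + 1) else s.2 (x + 1)) := by
      unfold rotL
      simp only [hx, if_true]
    rw [e1, e2]
    by_cases hN : x + 1 = N
    · simp only [hN, if_true, true_or]
      have h0 := h.nc.ne 0 (by omega)
      have h1 := h.nc.lt 0 (by omega)
      rw [if_neg h0]
      unfold ln
      cases s.2 0 <;> simp <;> omega
    · simp only [hN, if_false, false_or]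
      have h0 := h.nc.ne (x + 1) (by omega)
      have h1 := h.nc.lt (x + 1) (by omega)
      by_cases h2 : s.1 (x + 1) = 0
      · rw [if_pos h2, if_pos h2]
        unfold ln
        cases s.2 (x + 1) <;> simp <;> omega
      · rw [if_neg h2, if_neg h2]
        unfold ln
        cases s.2 (x + 1) <;> simp <;> omega
  unfold totS
  rw [sum_congr rfl fun x hx => key x (mem_range.1 hx)]
  rcases N with _ | N
  · simp
  · rw [sum_range_succ, sum_range_succ' (fun x => lenS (N + 1) s x)]
    simp only [if_true]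
    congr 1
    refine sum_congr rfl fun x hx => ?_
    rw [mem_range] at hx
    rw [if_neg (by omega)]

/-- the total length of a state and of its image -/
theorem QStC.totS_cases (h : IsAnn N s) {i : ℕ} (hi : i + 1 < N) :
    (opS s i = false ∧ opS s (i + 1) = true ∧ s.1 i ≠ i + 1 ∧ totS N (eL i s) = totS N s + 4) ∨
    (¬ (opS s i = false ∧ opS s (i + 1) = true ∧ s.1 i ≠ i + 1) ∧
      totS N (eL i s) ≤ totS N s) := by
  by_cases hs : s.1 i = i + 1
  · right
    refine ⟨fun hh => hh.2.2 hs, ?_⟩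
    have hsi : s.1 (i + 1) = i := by rw [← hs, h.nc.inv]
    unfold totS
    refine sum_le_sum fun x hx => ?_
    rw [mem_range] at hx
    rw [lenS_eq, lenS_eq]
    by_cases h1 : x = i
    · subst h1
      have e1 : (eL x s).1 x = x + 1 := ea_left x s.1
      have e2 : (eL x s).2 x = false := by unfold eL; simp
      rw [e1, e2, hs]
      unfold ln
      cases s.2 x
      · simp
      · simp
        omega
    by_cases h2 : x = i + 1
    · subst h2
      have e1 : (eL i s).1 (i + 1) = i := ea_right i s.1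
      have e2 : (eL i s).2 (i + 1) = false := by unfold eL; simp
      rw [e1, e2, hsi]
      unfold ln
      cases s.2 (i + 1)
      · simp
      · simp
        omega
    · have h5 : s.1 x ≠ i := fun e => h2 (by rw [← hs, ← e, h.nc.inv])
      have h6 : s.1 x ≠ i + 1 := fun e => h1 (by rw [← hsi, ← e, h.nc.inv])
      have e1 : (eL i s).1 x = s.1 x := ea_other s.1 h1 h2 h5 h6
      have e2 : (eL i s).2 x = s.2 x := by
        unfold eL
        simp only [h1, h2, h5, h6, or_self, if_false]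
      rw [e1, e2]
  · have h1 := totS_eL h hi hs
    rcases geom h hi hs with ⟨h2, h3, h4⟩ | ⟨h2, h3⟩
    · left
      exact ⟨h2, h3, hs, by omega⟩
    · right
      exact ⟨fun hh => h2 ⟨hh.1, hh.2.1⟩, by omega⟩

/-- the order of the partners at a valley -/
theorem QStC.valley_order (h : IsAnn N s) {i : ℕ} (hi : i + 1 < N)
    (h1 : opS s i = false) (h2 : opS s (i + 1) = true) (h3 : s.1 i ≠ i + 1) :
    (if i < s.1 (i + 1) then s.1 (i + 1) else s.1 (i + 1) + N)
      < (if i < s.1 i then s.1 i else s.1 i + N) := by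
  obtain ⟨g, hg, hm⟩ := h.mark
  have hnc := h.nc
  rw [opS_false_iff] at h1
  rw [opS_true_iff] at h2
  have m1 := hm i (by omega)
  have m2 := hm (i + 1) hi
  set a := s.1 i with ha
  set b := s.1 (i + 1) with hb
  have pa : s.1 a = i := hnc.inv i
  have pb : s.1 b = i + 1 := hnc.inv (i + 1)
  have haN : a < N := hnc.lt i (by omega)
  have hbN : b < N := hnc.lt (i + 1) hi
  have hai : a ≠ i := hnc.ne i (by omega)
  have hbi1 : b ≠ i + 1 := hnc.ne (i + 1) hi
  have hbi : b ≠ i := by
    intro e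
    rw [e] at pb
    exact h3 (by rw [ha, pb])
  have hab : a ≠ b := by
    intro e
    rw [e, pb] at pa
    omega
  have n1 : i < i + 1 → i + 1 < a → i < b ∧ b < a := hnc.nc i (i + 1)
  have n2 : b < i → i < i + 1 → b < a ∧ a < i + 1 := by
    have := hnc.nc b i
    rw [pb] at this
    exact this
  cases hl1 : s.2 i <;> cases hl2 : s.2 (i + 1) <;> rw [hl1] at m1 h1 <;> rw [hl2] at m2 h2 <;>
    simp at m1 m2 h1 h2 <;> split_ifs <;> omega

/-- one half of the uniqueness -/
theorem QStC.valley_le {π : St} (hπ : IsAnn N π) (h : IsAnn N s) {i : ℕ} (hi : i + 1 < N)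
    (h1 : opS π i = false) (h2 : opS π (i + 1) = true) (h3 : π.1 i ≠ i + 1)
    (k1 : opS s i = false) (k2 : opS s (i + 1) = true) (k3 : s.1 i ≠ i + 1)
    (he : eL i s = eL i π) :
    ¬ ((if i < π.1 (i + 1) then π.1 (i + 1) else π.1 (i + 1) + N)
      < (if i < s.1 (i + 1) then s.1 (i + 1) else s.1 (i + 1) + N)) := by
  intro hlt
  obtain ⟨g, hg, hm⟩ := hπ.mark
  obtain ⟨g', hg', hm'⟩ := h.mark
  have hnc := hπ.nc
  have hnc' := h.nc
  rw [opS_false_iff] at h1 k1
  rw [opS_true_iff] at h2 k2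
  have m1 := hm i (by omega)
  have m2 := hm (i + 1) hi
  have m1' := hm' i (by omega)
  have m2' := hm' (i + 1) hi
  set a := π.1 i with ha
  set b := π.1 (i + 1) with hb
  set a' := s.1 i with ha'
  set b' := s.1 (i + 1) with hb'
  have pa : π.1 a = i := hnc.inv i
  have pb : π.1 b = i + 1 := hnc.inv (i + 1)
  have haN : a < N := hnc.lt i (by omega)
  have hbN : b < N := hnc.lt (i + 1) hi
  have hai : a ≠ i := hnc.ne i (by omega)
  have hbi1 : b ≠ i + 1 := hnc.ne (i + 1) hi
  have hbi : b ≠ i := by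
    intro e
    rw [e] at pb
    exact h3 (by rw [ha, pb])
  have hab : a ≠ b := by
    intro e
    rw [e, pb] at pa
    omega
  have pa' : s.1 a' = i := hnc'.inv i
  have pb' : s.1 b' = i + 1 := hnc'.inv (i + 1)
  have haN' : a' < N := hnc'.lt i (by omega)
  have hbN' : b' < N := hnc'.lt (i + 1) hi
  have hai' : a' ≠ i := hnc'.ne i (by omega)
  have hbi1' : b' ≠ i + 1 := hnc'.ne (i + 1) hi
  have hbi' : b' ≠ i := by
    intro e
    rw [e] at pb'
    exact k3 (by rw [ha', pb'])
  have hab' : a' ≠ b' := by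
    intro e
    rw [e, pb'] at pa'
    omega
  have hbb : b ≠ b' := by
    rintro e
    rw [← e] at hlt
    exact lt_irrefl _ hlt
  -- the common image
  have hp : eAct i s.1 = eAct i π.1 := congrArg Prod.fst he
  have hl : (eL i s).2 = (eL i π).2 := congrArg Prod.snd he
  have qa : eAct i π.1 a = b := ea_a π.1 hai h3 pa
  have qb : eAct i π.1 b = a := ea_b π.1 hbi hbi1 pb
  have hba' : b ≠ a' := by
    intro e
    have : eAct i s.1 a' = b' := ea_a s.1 hai' k3 pa'
    rw [hp, ← e, qb] at this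
    have c1 := valley_order hπ hi (by rw [opS_false_iff]; exact h1)
      (by rw [opS_true_iff]; exact h2) h3
    have c2 := valley_order h hi (by rw [opS_false_iff]; exact k1)
      (by rw [opS_true_iff]; exact k2) k3
    rw [← ha, ← hb] at c1
    rw [← ha', ← hb', ← this, ← e] at c2
    exact lt_asymm c1 c2
  have hab2 : a ≠ b' := by
    intro e
    have : eAct i s.1 b' = a' := ea_b s.1 hbi' hbi1' pb'
    rw [hp, ← e, qa] at this
    exact hba' this
  have haa' : a ≠ a' := by
    intro e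
    have : eAct i s.1 a' = b' := ea_a s.1 hai' k3 pa'
    rw [hp, ← e, qa] at this
    exact hbb this
  have sb1 : s.1 b ≠ i := fun e => hba' (by rw [ha', ← e, hnc'.inv])
  have sb2 : s.1 b ≠ i + 1 := fun e => hbb (by rw [hb', ← e, hnc'.inv])
  have sb : s.1 b = a := by
    rw [← qb, ← hp]
    exact (ea_other s.1 hbi hbi1 sb1 sb2).symm
  have sa : s.1 a = b := by rw [← sb, hnc'.inv]
  have la : s.2 a = xor (π.2 i) (π.2 (i + 1)) := by
    have e1 : (eL i s).2 a = s.2 a := by
      unfold eL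
      simp only [hai, h3, sa, hbi, hbi1, or_self, if_false]
    have e2 : (eL i π).2 a = xor (π.2 i) (π.2 (i + 1)) := by
      unfold eL
      simp only [hai, h3, pa, or_self, if_false, true_or, if_true]
    rw [← e1, ← e2, hl]
  have m3 := hm' a haN
  rw [la, sa] at m3
  have n1 := hnc.nc i (i + 1) (by omega)
  have n2 := hnc.nc b i
  have n3 := hnc.nc (i + 1) a
  have n4 := hnc.nc a (i + 1)
  rw [← ha, ← hb] at n1
  rw [pb] at n2
  rw [← hb, pa] at n3
  rw [pa, ← hb] at n4
  have n1' := hnc'.nc i (i + 1) (by omega)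
  have n2' := hnc'.nc b' i
  have n3' := hnc'.nc (i + 1) a
  have n4' := hnc'.nc (i + 1) b
  have n5' := hnc'.nc a (i + 1)
  have n6' := hnc'.nc b (i + 1)
  have n7' := hnc'.nc b' a
  have n8' := hnc'.nc b' b
  have n9' := hnc'.nc a b'
  have n10' := hnc'.nc b b'
  rw [← ha', ← hb'] at n1'
  rw [pb'] at n2' n7' n8'
  rw [← hb', sa] at n3'
  rw [← hb', sb] at n4'
  rw [sa, ← hb'] at n5'
  rw [sb, ← hb'] at n6'
  rw [sa] at n7'
  rw [sb] at n8'
  rw [sa, pb'] at n9'
  rw [sb, pb'] at n10'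
  cases hl1 : π.2 i <;> cases hl2 : π.2 (i + 1) <;> cases hl3 : s.2 i <;>
    cases hl4 : s.2 (i + 1) <;> rw [hl1] at m1 h1 m3 <;> rw [hl2] at m2 h2 m3 <;>
    rw [hl3] at m1' k1 <;> rw [hl4] at m2' k2 <;> simp at m1 m2 m1' m2' m3 h1 h2 k1 k2 <;>
    split_ifs at hlt <;> omega

theorem QStC.valley_unique {π : St} (hπ : IsAnn N π) (h : IsAnn N s) {i : ℕ} (hi : i + 1 < N)
    (h1 : opS π i = false) (h2 : opS π (i + 1) = true) (h3 : π.1 i ≠ i + 1)
    (k1 : opS s i = false) (k2 : opS s (i + 1) = true) (k3 : s.1 i ≠ i + 1)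
    (he : eL i s = eL i π) : s = π := by
  have l1 := QStC.valley_le hπ h hi h1 h2 h3 k1 k2 k3 he
  have l2 := QStC.valley_le h hπ hi k1 k2 k3 h1 h2 h3 he.symm
  have hbN : π.1 (i + 1) < N := hπ.nc.lt (i + 1) hi
  have hbN' : s.1 (i + 1) < N := h.nc.lt (i + 1) hi
  have hb : s.1 (i + 1) = π.1 (i + 1) := by
    split_ifs at l1 l2 <;> omega
  have hbi1 : π.1 (i + 1) ≠ i + 1 := hπ.nc.ne (i + 1) hi
  have hbi : π.1 (i + 1) ≠ i := fun e => h3 (by have := hπ.nc.inv (i + 1); rwa [e] at this)
  have hp : eAct i s.1 = eAct i π.1 := congrArg Prod.fst he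
  have hl : (eL i s).2 = (eL i π).2 := congrArg Prod.snd he
  have ha : s.1 i = π.1 i := by
    have e1 := ea_b π.1 hbi hbi1 (hπ.nc.inv (i + 1))
    have e2 := ea_b s.1 (x := s.1 (i + 1)) (by rw [hb]; exact hbi) (by rw [hb]; exact hbi1)
      (h.nc.inv (i + 1))
    rw [hb, hp, e1] at e2
    exact e2.symm
  have haN : π.1 i < N := hπ.nc.lt i (by omega)
  have hai : π.1 i ≠ i := hπ.nc.ne i (by omega)
  have hpp : s.1 = π.1 := by
    funext x
    by_cases x1 : x = i
    · rw [x1, ha]
    by_cases x2 : x = i + 1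
    · rw [x2, hb]
    by_cases x3 : x = π.1 i
    · rw [x3, hπ.nc.inv, ← ha, h.nc.inv]
    by_cases x4 : x = π.1 (i + 1)
    · rw [x4, hπ.nc.inv, ← hb, h.nc.inv]
    · have y1 : s.1 x ≠ i := fun e => x3 (by rw [← ha, ← e, h.nc.inv])
      have y2 : s.1 x ≠ i + 1 := fun e => x4 (by rw [← hb, ← e, h.nc.inv])
      have y3 : π.1 x ≠ i := fun e => x3 (by rw [← e, hπ.nc.inv])
      have y4 : π.1 x ≠ i + 1 := fun e => x4 (by rw [← e, hπ.nc.inv])
      rw [← ea_other s.1 x1 x2 y1 y2, ← ea_other π.1 x1 x2 y3 y4, hp]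
  have li : s.2 i = π.2 i := by
    rw [opS_false_iff] at h1 k1
    rw [ha] at k1
    rw [Bool.eq_iff_iff]
    tauto
  have li1 : s.2 (i + 1) = π.2 (i + 1) := by
    rw [opS_true_iff] at h2 k2
    rw [hb] at k2
    have e3 : s.2 (i + 1) = false ↔ π.2 (i + 1) = false := k2.symm.trans h2
    cases e1 : s.2 (i + 1) <;> cases e2 : π.2 (i + 1) <;> simp [e1, e2] at e3 ⊢
  refine Prod.ext hpp ?_
  funext x
  by_cases x1 : x = i
  · rw [x1, li]
  by_cases x2 : x = i + 1
  · rw [x2, li1]
  by_cases x3 : x = π.1 i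
  · rw [x3, lab_partner hπ (by omega), ← ha, lab_partner h (by omega), li]
  by_cases x4 : x = π.1 (i + 1)
  · rw [x4, lab_partner hπ (by omega), ← hb, lab_partner h (by omega), li1]
  · have y3 : π.1 x ≠ i := fun e => x3 (by rw [← e, hπ.nc.inv])
    have y4 : π.1 x ≠ i + 1 := fun e => x4 (by rw [← e, hπ.nc.inv])
    have y1 : s.1 x ≠ i := by rw [hpp]; exact y3
    have y2 : s.1 x ≠ i + 1 := by rw [hpp]; exact y4
    have e1 : (eL i s).2 x = s.2 x := by
      unfold eL
      simp only [x1, x2, y1, y2, or_self, if_false]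
    have e2 : (eL i π).2 x = π.2 x := by
      unfold eL
      simp only [x1, x2, y3, y4, or_self, if_false]
    rw [← e1, ← e2, hl]

/-- Among the preimages under `e_i` of `e_i π`, where `π` has a valley at `i`, the state `π` is
the only one of minimal total length. -/
theorem totS_lt {π : St} (hπ : IsAnn N π) {i : ℕ} (hi : i + 1 < N) (h1 : opS π i = false)
    (h2 : opS π (i + 1) = true) (h3 : π.1 i ≠ i + 1) (h : IsAnn N s) (he : eL i s = eL i π)
    (hne : s ≠ π) : totS N π < totS N s := by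
  have e1 : totS N (eL i π) = totS N π + 4 := by
    rcases QStC.totS_cases hπ hi with ⟨_, _, _, h4⟩ | ⟨h4, _⟩
    · exact h4
    · exact absurd ⟨h1, h2, h3⟩ h4
  rcases QStC.totS_cases h hi with ⟨k1, k2, k3, _⟩ | ⟨_, h4⟩
  · exact absurd (QStC.valley_unique hπ h hi h1 h2 h3 k1 k2 k3 he) hne
  · rw [he, e1] at h4
    omega

theorem QStC.isAnn_iter (h : IsAnn N s) (k : ℕ) : IsAnn N ((rotL N)^[k] s) := by
  induction k with
  | zero => exact h
  | succ k ih => rw [Function.iterate_succ_apply']; exact ih.rotL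

theorem QStC.opS_iter (h : IsAnn N s) (k : ℕ) {x : ℕ} (hx : x < N) :
    opS ((rotL N)^[k] s) x = opS s ((x + k) % N) := by
  induction k generalizing x with
  | zero => rw [Nat.add_zero, Nat.mod_eq_of_lt hx]; rfl
  | succ k ih =>
    rw [Function.iterate_succ_apply', opS_rotL (QStC.isAnn_iter h k) hx]
    split_ifs with hN
    · rw [ih (by omega)]
      congr 1
      rw [show x + (k + 1) = N + k by omega, Nat.add_mod_left, Nat.zero_add]
    · rw [ih (by omega)]
      congr 1
      rw [show x + 1 + k = x + (k + 1) by omega]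

theorem QStC.rot_back (h : IsAnn N s) (k : ℕ) : ∃ k', s = (rotL N)^[k'] ((rotL N)^[k] s) := by
  have hfix : Function.IsFixedPt ((rotL N)^[N]) s := rotL_iterate h
  have h2 : ((rotL N)^[N])^[k] s = s := hfix.iterate k
  rcases Nat.eq_zero_or_pos N with hN | hN
  · subst hN
    have h3 : IsAnn 0 ((rotL 0)^[k] s) := QStC.isAnn_iter h k
    exact ⟨0, by rw [isAnn_zero h3, isAnn_zero h]; rfl⟩
  · refine ⟨(N - 1) * k, ?_⟩
    rw [← Function.iterate_add_apply]
    rw [← Function.iterate_mul] at h2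
    rw [show (N - 1) * k + k = N * k by
      obtain ⟨n, rfl⟩ := Nat.exists_eq_add_of_lt hN
      simp only [Nat.zero_add, Nat.add_sub_cancel]
      ring]
    exact h2.symm

/-- between a closing and an opening there is a valley -/
theorem QStC.exists_valley {f : ℕ → Bool} {x y : ℕ} (hxy : x < y) (hx : f x = false)
    (hy : f y = true) : ∃ z, x ≤ z ∧ z + 1 ≤ y ∧ f z = false ∧ f (z + 1) = true := by
  induction y, hxy using Nat.le_induction with
  | base => exact ⟨x, le_rfl, le_rfl, hx, hy⟩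
  | succ y hxy ih =>
    cases hf : f y
    · exact ⟨y, by omega, le_rfl, hf, hy⟩
    · obtain ⟨z, h1, h2, h3⟩ := ih hf
      exact ⟨z, h1, by omega, h3⟩

/-- Up to a rotation a state is completely nested or has a valley (a closing followed by an
opening, not matched with each other) away from the seam. -/
theorem nested_or_valley {m : ℕ} (h : IsAnn (2 * m) s) :
    (∃ k, s = (rotL (2 * m))^[k] (nestS m)) ∨
      ∃ k s', IsAnn (2 * m) s' ∧ s = (rotL (2 * m))^[k] s' ∧ ∃ i, i + 1 < 2 * m ∧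
        opS s' i = false ∧ opS s' (i + 1) = true ∧ s'.1 i ≠ i + 1 := by
  rcases Nat.eq_zero_or_pos m with hm | hm
  · subst hm
    exact Or.inl ⟨0, isAnn_zero h⟩
  -- a rotation such that the seam is at a peak
  obtain ⟨k, hk0, hk1⟩ : ∃ k, opS ((rotL (2 * m))^[k] s) 0 = false ∧
      opS ((rotL (2 * m))^[k] s) (2 * m - 1) = true := by
    obtain ⟨x, y, hx, hy, hx1, hy1⟩ : ∃ x y, x < 2 * m ∧ y < 2 * m ∧ opS s x = true ∧
        opS s y = false := by
      have h0 := opS_partner h (x := 0) (by omega)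
      have h1 := h.nc.lt 0 (by omega)
      cases hc : opS s 0
      · exact ⟨s.1 0, 0, h1, by omega, by rw [h0, hc]; rfl, hc⟩
      · exact ⟨0, s.1 0, by omega, h1, hc, by rw [h0, hc]; rfl⟩
    obtain ⟨z, _, _, hz1, hz2⟩ := QStC.exists_valley (f := fun t => !opS s (t % (2 * m)))
      (x := x) (y := y + 2 * m) (by omega)
      (by simp only [Nat.mod_eq_of_lt hx, hx1]; rfl)
      (by simp only [Nat.add_mod_right, Nat.mod_eq_of_lt hy, hy1]; rfl)
    refine ⟨z + 1, ?_, ?_⟩
    · rw [QStC.opS_iter h _ (by omega), Nat.zero_add]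
      simpa using hz2
    · rw [QStC.opS_iter h _ (by omega), show 2 * m - 1 + (z + 1) = z + 2 * m by omega,
        Nat.add_mod_right]
      simpa using hz1
  set s1 := (rotL (2 * m))^[k] s with hs1
  have hA : IsAnn (2 * m) s1 := QStC.isAnn_iter h k
  obtain ⟨k', hk'⟩ := QStC.rot_back h k
  rw [← hs1] at hk'
  by_cases hne : s1 = nestS m
  · left
    exact ⟨k', by rw [← hne]; exact hk'⟩
  right
  refine ⟨k', s1, hA, hk', ?_⟩
  obtain ⟨i, j, hij, hj, hi1, hj1⟩ := exists_op_cl hA hne
  have hi0 : 0 < i := by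
    rcases Nat.eq_zero_or_pos i with h0 | h0
    · rw [h0, hk0] at hi1; exact absurd hi1 (by decide)
    · exact h0
  have hjN : j < 2 * m - 1 := by
    rcases Nat.lt_or_ge j (2 * m - 1) with h0 | h0
    · exact h0
    · rw [show j = 2 * m - 1 by omega, hk1] at hj1; exact absurd hj1 (by decide)
  obtain ⟨y, _, hy2, hy3, hy4⟩ := QStC.exists_valley hi0 hk0 hi1
  obtain ⟨z, hz1, hz2, hz3, hz4⟩ := QStC.exists_valley hjN hj1 hk1
  by_cases hy : s1.1 y = y + 1
  · by_cases hz : s1.1 z = z + 1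
    · exfalso
      obtain ⟨g, hg, hmk⟩ := hA.mark
      have m1 := hmk y (by omega)
      have m2 := hmk z (by omega)
      rw [opS_false_iff] at hy3 hz3
      rw [hy] at m1 hy3
      rw [hz] at m2 hz3
      have e1 : s1.2 y = true := hy3.1 (by omega)
      have e2 : s1.2 z = true := hz3.1 (by omega)
      rw [e1] at m1
      rw [e2] at m2
      simp only [true_iff] at m1 m2
      omega
    · exact ⟨z, by omega, hz3, hz4, hz⟩
  · exact ⟨y, by omega, hy3, hy4, hy⟩

end Pool.Agent.Perc
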