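import Pool.Agent.Lib.MP_6bd702_perq.PsiMA

/-!
# The symmetric polynomial of the pairing: symmetry, degree, recursion (task SHatA)
-/

set_option autoImplicit false

namespace Pool.Agent.Perc

open Finset MvPolynomial

variable {q : ℂ} {m : ℕ}

/-- The pairing of the reciprocal solution with the solution, as a polynomial. -/
noncomputable def SH (q : ℂ) (m : ℕ) : MvPolynomial ℕ ℂ :=
  ∑ s' ∈ anns (2 * m), ∑ s ∈ anns (2 * m), C (BS (2 * m) s' s) * (PsiM q m s' * PsiS q m s)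

theorem eval_SH (q : ℂ) (m : ℕ) (z : ℕ → ℂ) :
    eval z (SH q m) = BV (2 * m) (PsiMV q m z) (PsiSV q m z) := by
  unfold SH BV
  rw [map_sum]
  refine sum_congr rfl fun s' hs' => ?_
  rw [map_sum]
  refine sum_congr rfl fun s hs => ?_
  rw [map_mul, map_mul, eval_C, PsiMV_apply z (mem_anns.1 hs'), PsiSV_apply z (mem_anns.1 hs)]
  ring

namespace SHatA

theorem degreeOf_recP_le {N n k : ℕ} (P : MvPolynomial ℕ ℂ) (h : k < N → N - 1 ≤ n) :
    (recP N P).degreeOf k ≤ n := by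
  unfold recP
  refine (degreeOf_sum_le k _ _).trans (Finset.sup_le fun d _ => ?_)
  rw [degreeOf_eq_sup]
  refine Finset.sup_le fun e he => ?_
  have h1 := MvPolynomial.support_monomial_subset he
  rw [Finset.mem_singleton] at h1
  rw [h1, RecP.recE_apply]
  by_cases hk : k < N
  · rw [if_pos hk]
    have := h hk
    omega
  · rw [if_neg hk]
    exact Nat.zero_le _

theorem degreeOf_SH_le' {k n n' : ℕ} (h : ∀ s, (PsiS q m s).degreeOf k ≤ n)
    (h' : ∀ s, (PsiM q m s).degreeOf k ≤ n') : (SH q m).degreeOf k ≤ n' + n := by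
  unfold SH
  refine (degreeOf_sum_le k _ _).trans (Finset.sup_le fun s' _ => ?_)
  refine (degreeOf_sum_le k _ _).trans (Finset.sup_le fun s _ => ?_)
  refine (degreeOf_mul_le k _ _).trans ?_
  rw [degreeOf_C, zero_add]
  exact (degreeOf_mul_le k _ _).trans (add_le_add (h' s') (h s))

theorem exch (hq : q ^ 2 + q + 1 = 0) {i : ℕ} (hi : i + 1 < 2 * m) (z : ℕ → ℂ) :
    ((q * z i - q ^ 2 * z (i + 1)) * (q * z (i + 1) - q ^ 2 * z i)) *
      (eval (swapV i z) (SH q m) - eval z (SH q m)) = 0 := by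
  have hM := suppA_PsiMV q m z
  have hS := suppA_PsiSV q m z
  have h1 : (q * z i - q ^ 2 * z (i + 1)) • PsiMV q m (swapV i z) =
      (q * z (i + 1) - q ^ 2 * z i) • PsiMV q m z +
        (-(z i - z (i + 1))) • (PsiMV q m z).mapDomain (eL i) := by
    rw [exchangeM hq hi z, neg_smul, ← sub_eq_add_neg]
  have h2 := exchangeS hq hi z
  have e1 := BV_eL hM hS hi
  have e2 : BV (2 * m) ((PsiMV q m z).mapDomain (eL i)) ((PsiSV q m z).mapDomain (eL i)) =
      BV (2 * m) (PsiMV q m z) ((PsiSV q m z).mapDomain (eL i)) := by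
    rw [BV_eL hM (hS.mapDomain fun s hs => hs.eL hi) hi, eV_idem hS hi]
  have h3 : (q * z i - q ^ 2 * z (i + 1)) * ((q * z (i + 1) - q ^ 2 * z i) *
      eval (swapV i z) (SH q m)) =
      BV (2 * m) ((q * z i - q ^ 2 * z (i + 1)) • PsiMV q m (swapV i z))
        ((q * z (i + 1) - q ^ 2 * z i) • PsiSV q m (swapV i z)) := by
    rw [BV_smul_left, BV_smul_right, eval_SH]
  rw [h1, h2, BV_add_left, BV_add_right, BV_add_right, BV_smul_left,
    BV_smul_left, BV_smul_left, BV_smul_left, BV_smul_right, BV_smul_right, BV_smul_right,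
    BV_smul_right, e1, e2, ← eval_SH] at h3
  have h4 : q ^ 3 = 1 := by linear_combination (q - 1) * hq
  set B := BV (2 * m) (PsiMV q m z) ((PsiSV q m z).mapDomain (eL i))
  rw [mul_sub, mul_assoc, h3]
  linear_combination (-(B * (z i - z (i + 1)) * (z i - z (i + 1)))) * hq

theorem q_ne (hq : q ^ 2 + q + 1 = 0) : q ≠ 0 := by
  rintro rfl
  norm_num at hq

theorem symm (hq : q ^ 2 + q + 1 = 0) {i : ℕ} (hi : i + 1 < 2 * m) (z : ℕ → ℂ) :
    eval (swapV i z) (SH q m) = eval z (SH q m) := by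
  have key : ∀ w : ℕ → ℂ, eval (swapV i w) (SH q m) =
      eval w (rename (Equiv.swap i (i + 1)) (SH q m)) := by
    intro w
    rw [eval_rename]
    rfl
  have hp : ((C q * X i - C (q ^ 2) * X (i + 1)) * (C q * X (i + 1) - C (q ^ 2) * X i)) *
      (rename (Equiv.swap i (i + 1)) (SH q m) - SH q m) = 0 := by
    refine MvPolynomial.funext fun w => ?_
    have h := exch (m := m) hq hi w
    rw [key] at h
    simp only [map_mul, map_sub, eval_C, eval_X, map_zero]
    exact h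
  have hne : (C q * X (i + 1) - C (q ^ 2) * X i : MvPolynomial ℕ ℂ) ≠ 0 := by
    intro h0
    have h1 := congrArg (eval fun k => if k = i then (1 : ℂ) else 0) h0
    rw [map_sub, map_mul, map_mul, eval_C, eval_C, eval_X, eval_X, map_zero, if_pos rfl,
      if_neg (by omega : ¬ i + 1 = i), mul_zero, zero_sub, mul_one, neg_eq_zero] at h1
    exact pow_ne_zero 2 (q_ne hq) h1
  have hne' : (C q * X i - C (q ^ 2) * X (i + 1) : MvPolynomial ℕ ℂ) ≠ 0 := by
    intro h0
    have h1 := congrArg (eval fun k => if k = i then (1 : ℂ) else 0) h0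
    rw [map_sub, map_mul, map_mul, eval_C, eval_C, eval_X, eval_X, map_zero, if_pos rfl,
      if_neg (by omega : ¬ i + 1 = i), mul_zero, sub_zero, mul_one] at h1
    exact (q_ne hq) h1
  have h2 := sub_eq_zero.1 ((mul_eq_zero.1 hp).resolve_left (mul_ne_zero hne' hne))
  rw [key, h2]

theorem ins_ne (hq : q ^ 2 + q + 1 = 0) (m : ℕ) {v : ℂ} (hv : v ≠ 0) (z : ℕ → ℂ) :
    eval (insV 0 (q ^ 2 * v) v z) (SH q (m + 1)) =
      (v ^ 2 * (∏ k ∈ range (2 * m), (z k - q * v) ^ 4) / (9 * q) ^ (2 * m)) *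
        eval z (SH q m) := by
  have hq0 := q_ne hq
  set κ : ℂ := v * (∏ k ∈ range (2 * m), (z k - q * v) ^ 2) / (9 * q) ^ m with hκ
  have hM := suppA_PsiMV q m z
  have hS := suppA_PsiSV q m z
  have h1 := eL_PsiMV_insV hq m (Nat.zero_le _) hv z
  rw [eval_SH, PsiSV_insV hq m (Nat.zero_le _) v z, show 2 * (m + 1) = 2 * m + 2 by ring,
    BV_smul_right]
  have h2 := BV_insL_right (f' := PsiMV q (m + 1) (insV 0 (q ^ 2 * v) v z))
    (f := κ • PsiMV q m z) (g := PsiSV q m z) (i := 0) (N := 2 * m)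
    (by have := suppA_PsiMV q (m + 1) (insV 0 (q ^ 2 * v) v z)
        rwa [show 2 * (m + 1) = 2 * m + 2 by ring] at this)
    (hM.smul κ) hS (Nat.zero_le _) (by rw [h1, Finsupp.mapDomain_smul])
  rw [h2, BV_smul_left, ← eval_SH, ← mul_assoc]
  congr 1
  rw [← hκ, hκ]
  have e1 : ∏ k ∈ range (2 * m), (z k - q * v) ^ 4 =
      (∏ k ∈ range (2 * m), (z k - q * v) ^ 2) * ∏ k ∈ range (2 * m), (z k - q * v) ^ 2 := by
    rw [← Finset.prod_mul_distrib]
    exact Finset.prod_congr rfl fun k _ => by ring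
  have h9 : (9 * q : ℂ) ^ m ≠ 0 := pow_ne_zero _ (mul_ne_zero (by norm_num) hq0)
  rw [e1, show (9 * q : ℂ) ^ (2 * m) = (9 * q) ^ m * (9 * q) ^ m by rw [← pow_add]; ring_nf]
  field_simp

end SHatA

theorem degreeOf_SH_le (hq : q ^ 2 + q + 1 = 0) (m k : ℕ) :
    (SH q m).degreeOf k ≤ 2 * (2 * m - 1) := by
  have h := SHatA.degreeOf_SH_le' (q := q) (m := m) (k := k) (n := 2 * m - 1) (n' := 2 * m - 1)
    (fun s => degreeOf_PsiS_le hq m s k) (fun s => SHatA.degreeOf_recP_le _ fun _ => le_rfl)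
  omega

theorem degreeOf_SH_out (hq : q ^ 2 + q + 1 = 0) (m : ℕ) {k : ℕ} (hk : 2 * m ≤ k) :
    (SH q m).degreeOf k = 0 := by
  have h := SHatA.degreeOf_SH_le' (q := q) (m := m) (k := k) (n := 0) (n' := 0)
    (fun s => ((dw_PsiS hq m s).out k hk).le)
    (fun s => SHatA.degreeOf_recP_le _ fun h => absurd h (by omega))
  omega

theorem eval_SH_swapV (hq : q ^ 2 + q + 1 = 0) {i : ℕ} (hi : i + 1 < 2 * m) (z : ℕ → ℂ) :
    eval (swapV i z) (SH q m) = eval z (SH q m) := SHatA.symm hq hi z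

theorem eval_SH_insV (hq : q ^ 2 + q + 1 = 0) (m : ℕ) (v : ℂ) (z : ℕ → ℂ) :
    eval (insV 0 (q ^ 2 * v) v z) (SH q (m + 1)) =
      (v ^ 2 * (∏ k ∈ range (2 * m), (z k - q * v) ^ 4) / (9 * q) ^ (2 * m)) *
        eval z (SH q m) := by
  refine PsiMA.ext_ne_one (F := fun v => eval (insV 0 (q ^ 2 * v) v z) (SH q (m + 1)))
    (G := fun v => (v ^ 2 * (∏ k ∈ range (2 * m), (z k - q * v) ^ 4) / (9 * q) ^ (2 * m)) *
        eval z (SH q m)) ?_ (by fun_prop) (fun v hv => SHatA.ins_ne hq m hv z) v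
  refine (MvPolynomial.continuous_eval _).comp (continuous_pi fun k => ?_)
  unfold insV
  by_cases h1 : k < 0
  · omega
  · by_cases h2 : k = 0
    · simp only [if_neg h1, if_pos h2]
      fun_prop
    · simp only [if_neg h1, if_neg h2]
      by_cases h3 : k = 0 + 1
      · simp only [if_pos h3]
        fun_prop
      · simp only [if_neg h3]
        fun_prop

theorem eval_SH_zero (hq : q ^ 2 + q + 1 = 0) (z : ℕ → ℂ) : eval z (SH q 0) = 1 := by
  have h1 : anns (2 * 0) = {nestS 0} := by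
    ext s
    rw [mem_anns, Finset.mem_singleton]
    exact ⟨fun h => isAnn_zero h, fun h => h ▸ isAnn_nestS 0⟩
  rw [eval_SH, PsiMV_zero hq, PsiSV_zero hq, BV, h1, Finset.sum_singleton, Finset.sum_singleton,
    Finsupp.single_eq_same, one_mul, one_mul]
  exact BS_zero _ _

end Pool.Agent.Perc
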