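import Pool.Agent.Lib.MP_6bd702_perc.Wheel

/-!
# Uniqueness of symmetric polynomials with a recursion (task UniF)
-/

set_option autoImplicit false

namespace Pool.Agent.Perc

open Finset MvPolynomial

/-- The properties which characterise the sum of the components. -/
structure RecF (q : ℂ) (c : ℕ → ℂ) (F : ℕ → MvPolynomial ℕ ℂ) : Prop where
  out : ∀ m k, 2 * m ≤ k → (F m).degreeOf k = 0
  deg : ∀ m, (F (m + 1)).degreeOf 0 ≤ 2 * m + 1
  symm : ∀ m i, i + 1 < 2 * m → ∀ z, eval (swapV i z) (F m) = eval z (F m)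
  ins : ∀ m v z, eval (insV 0 (q ^ 2 * v) v z) (F (m + 1)) =
    c m * v * (∏ k ∈ range (2 * m), (z k - q * v) ^ 2) * eval z (F m)

namespace UniF

/-- A value in front of a sequence. -/
def con (x : ℂ) (w : ℕ → ℂ) : ℕ → ℂ
  | 0 => x
  | k + 1 => w k

theorem poly_eval_aeval (P : MvPolynomial ℕ ℂ) (s : ℕ → Polynomial ℂ) (a : ℂ) :
    Polynomial.eval a (aeval s P) = eval (fun k => Polynomial.eval a (s k)) P := by
  induction P using MvPolynomial.induction_on with
  | C c => simp
  | add p r hp hr => rw [map_add, Polynomial.eval_add, hp, hr, map_add]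
  | mul_X p k hp => rw [map_mul, Polynomial.eval_mul, hp, map_mul, aeval_X, eval_X]

/-- The restriction to a line in the direction of the first coordinate. -/
theorem exists_line (P : MvPolynomial ℕ ℂ) (w : ℕ → ℂ) :
    ∃ g : Polynomial ℂ, g.natDegree ≤ P.degreeOf 0 ∧ ∀ x, g.eval x = eval (con x w) P := by
  let s : ℕ → Polynomial ℂ := fun k => Nat.casesOn k Polynomial.X fun k => Polynomial.C (w k)
  refine ⟨aeval s P, ?_, fun x => ?_⟩
  · rw [aeval_def, eval₂_eq]
    refine Polynomial.natDegree_sum_le_of_forall_le _ _ fun e he => ?_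
    refine le_trans Polynomial.natDegree_mul_le ?_
    have h1 : ((algebraMap ℂ (Polynomial ℂ)) (coeff e P)).natDegree = 0 :=
      Polynomial.natDegree_C _
    rw [h1, zero_add]
    refine le_trans (Polynomial.natDegree_prod_le _ _) ?_
    have h2 : ∀ k ∈ e.support, (s k ^ e k).natDegree ≤ if k = 0 then e 0 else 0 := by
      intro k _
      refine le_trans Polynomial.natDegree_pow_le ?_
      cases k with
      | zero =>
        change e 0 * (Polynomial.X : Polynomial ℂ).natDegree ≤ _
        rw [Polynomial.natDegree_X, mul_one, if_pos rfl]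
      | succ k =>
        change e (k + 1) * (Polynomial.C (w k)).natDegree ≤ _
        rw [Polynomial.natDegree_C, mul_zero]
        exact Nat.zero_le _
    refine le_trans (Finset.sum_le_sum h2) ?_
    rw [Finset.sum_ite_eq' e.support 0 fun _ => e 0]
    split_ifs
    · exact monomial_le_degreeOf 0 he
    · exact Nat.zero_le _
  · rw [poly_eval_aeval]
    congr 1
    congr 1
    funext k
    cases k with
    | zero => exact Polynomial.eval_X
    | succ k => exact Polynomial.eval_C

/-- Invariance under all transpositions. -/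
theorem swap_inv {L : ℕ} {H : MvPolynomial ℕ ℂ}
    (hs : ∀ i, i + 1 < L → ∀ z, eval (swapV i z) H = eval z H) {i j : ℕ} (hij : i < j)
    (hj : j < L) : ∀ z : ℕ → ℂ, eval (fun k => z (Equiv.swap i j k)) H = eval z H := by
  induction j, hij using Nat.le_induction with
  | base => exact fun z => hs i hj z
  | succ j hij ih =>
    intro z
    have hij' : i < j := hij
    have e : Equiv.swap i (j + 1) = Equiv.swap j (j + 1) * Equiv.swap i j * Equiv.swap j (j + 1) := by
      rw [Equiv.swap_mul_swap_mul_swap (by omega) (by omega), Equiv.swap_comm]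
    have h1 := hs j hj (fun k => z (Equiv.swap j (j + 1) (Equiv.swap i j k)))
    have h2 := ih (by omega) (fun k => z (Equiv.swap j (j + 1) k))
    have h3 := hs j hj z
    have e1 : (fun k => z (Equiv.swap i (j + 1) k)) =
        swapV j (fun k => z (Equiv.swap j (j + 1) (Equiv.swap i j k))) := by
      funext k
      rw [e]
      rfl
    rw [e1, h1, h2]
    exact h3

section Zeros

variable {q : ℂ} {L : ℕ} {H : MvPolynomial ℕ ℂ}
  (hs : ∀ i, i + 1 < L → ∀ z, eval (swapV i z) H = eval z H)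
  (hi : ∀ v z, eval (insV 0 (q ^ 2 * v) v z) H = 0)

include hs hi in
theorem zeroA {j : ℕ} (h0 : 0 < j) (hj : j < L) {z : ℕ → ℂ} (h : z 0 = q ^ 2 * z j) :
    eval z H = 0 := by
  have key : ∀ w : ℕ → ℂ, w 0 = q ^ 2 * w 1 → eval w H = 0 := by
    intro w hw
    have e : w = insV 0 (q ^ 2 * w 1) (w 1) (fun k => w (k + 2)) := by
      funext k
      unfold insV
      rw [if_neg (Nat.not_lt_zero k)]
      by_cases h0 : k = 0
      · rw [if_pos h0, h0, hw]
      · rw [if_neg h0]
        by_cases h1 : k = 0 + 1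
        · rw [if_pos h1, h1]
        · rw [if_neg h1]
          congr 1
          omega
    rw [e]
    exact hi _ _
  by_cases h1 : j = 1
  · subst h1
    exact key z h
  · rw [← swap_inv hs (i := 1) (j := j) (by omega) hj z]
    refine key _ ?_
    rw [Equiv.swap_apply_left, Equiv.swap_apply_of_ne_of_ne (by omega) (by omega)]
    exact h

include hs hi in
theorem zeroB {j : ℕ} (h0 : 0 < j) (hj : j < L) {z : ℕ → ℂ} (h : z j = q ^ 2 * z 0) :
    eval z H = 0 := by
  rw [← swap_inv hs h0 hj z]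
  refine zeroA hs hi h0 hj ?_
  rw [Equiv.swap_apply_left, Equiv.swap_apply_right]
  exact h

end Zeros

section Points

variable {q : ℂ}

theorem q_cube (hq : q ^ 2 + q + 1 = 0) : q ^ 3 = 1 := by linear_combination (q - 1) * hq

theorem q_ne_zero (hq : q ^ 2 + q + 1 = 0) : q ≠ 0 := by
  rintro rfl
  norm_num at hq

theorem q_ne_one (hq : q ^ 2 + q + 1 = 0) : q ≠ 1 := by
  rintro rfl
  norm_num at hq

/-- The zeros. -/
noncomputable def pts (q : ℂ) (n : ℕ) (a : ℕ → ℂ) : Finset ℂ :=
  (range n).image (fun k => q * a k) ∪ (range n).image fun k => q ^ 2 * a k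

theorem card_pts (hq : q ^ 2 + q + 1 = 0) {n : ℕ} {a : ℕ → ℂ} (h0 : ∀ k < n, a k ≠ 0)
    (hd : ∀ i < n, ∀ j < n, a i ^ 3 = a j ^ 3 → i = j) : (pts q n a).card = 2 * n := by
  have h3 := q_cube hq
  have hq0 := q_ne_zero hq
  have hq1 := q_ne_one hq
  rw [pts, Finset.card_union_of_disjoint, Finset.card_image_of_injOn,
    Finset.card_image_of_injOn, Finset.card_range]
  · ring
  · intro i hi j hj h
    simp only [coe_range, Set.mem_Iio] at hi hj
    refine hd i hi j hj ?_
    have h1 : a i = a j := mul_left_cancel₀ (pow_ne_zero 2 hq0) h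
    rw [h1]
  · intro i hi j hj h
    simp only [coe_range, Set.mem_Iio] at hi hj
    refine hd i hi j hj ?_
    have h1 : a i = a j := mul_left_cancel₀ hq0 h
    rw [h1]
  · rw [Finset.disjoint_left]
    intro x hx hx'
    rw [mem_image] at hx hx'
    obtain ⟨i, hi, rfl⟩ := hx
    obtain ⟨j, hj, h⟩ := hx'
    rw [mem_range] at hi hj
    have hij : i = j := by
      refine hd i hi j hj ?_
      have h' : q ^ 2 * a j = q * a i := h
      have h1 : (q ^ 2 * a j) ^ 3 = (q * a i) ^ 3 := by rw [h']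
      linear_combination (-1 : ℂ) * h1 + (a j ^ 3 * (q ^ 3 + 1) - a i ^ 3) * h3
    subst hij
    have h1 : q * a i * (q - 1) = 0 := by linear_combination h
    rcases mul_eq_zero.1 h1 with h2 | h2
    · exact mul_ne_zero hq0 (h0 i hi) h2
    · exact hq1 (sub_eq_zero.1 h2)

theorem zero_notMem_pts (hq : q ^ 2 + q + 1 = 0) {n : ℕ} {a : ℕ → ℂ} (h0 : ∀ k < n, a k ≠ 0) :
    (0 : ℂ) ∉ pts q n a := by
  have hq0 := q_ne_zero hq
  intro h
  rw [pts, mem_union, mem_image, mem_image] at h
  rcases h with ⟨k, hk, h⟩ | ⟨k, hk, h⟩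
  · exact mul_ne_zero hq0 (h0 k (mem_range.1 hk)) h
  · exact mul_ne_zero (pow_ne_zero 2 hq0) (h0 k (mem_range.1 hk)) h

end Points

section Main

variable {q : ℂ} {m : ℕ} {H : MvPolynomial ℕ ℂ} (hq : q ^ 2 + q + 1 = 0)
  (hdeg : H.degreeOf 0 ≤ 2 * m + 1)
  (hs : ∀ i, i + 1 < 2 * m + 2 → ∀ z, eval (swapV i z) H = eval z H)
  (hi : ∀ v z, eval (insV 0 (q ^ 2 * v) v z) H = 0)

include hq hs hi in
/-- The zeros on a line. -/
theorem eval_pts {w : ℕ → ℂ} {x : ℂ} (hx : x ∈ pts q (2 * m + 1) w) : eval (con x w) H = 0 := by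
  have h3 := q_cube hq
  rw [pts, mem_union, mem_image, mem_image] at hx
  rcases hx with ⟨k, hk, rfl⟩ | ⟨k, hk, rfl⟩
  · rw [mem_range] at hk
    refine zeroB hs hi (j := k + 1) (by omega) (by omega) ?_
    change w k = q ^ 2 * (q * w k)
    linear_combination (-(w k)) * h3
  · rw [mem_range] at hk
    exact zeroA hs hi (j := k + 1) (by omega) (by omega) rfl

include hq hdeg hs hi in
theorem eval_generic {w : ℕ → ℂ} (h0 : ∀ k < 2 * m + 1, w k ≠ 0)
    (hd : ∀ i < 2 * m + 1, ∀ j < 2 * m + 1, w i ^ 3 = w j ^ 3 → i = j) (x : ℂ) :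
    eval (con x w) H = 0 := by
  obtain ⟨g, hg, hg'⟩ := exists_line H w
  have hg0 : g = 0 := by
    refine Polynomial.eq_zero_of_natDegree_lt_card_of_eval_eq_zero' g
      (pts q (2 * m + 1) w) ?_ ?_
    · intro x hx
      rw [hg']
      exact eval_pts hq hs hi hx
    · rw [card_pts hq h0 hd]
      omega
  rw [← hg', hg0, Polynomial.eval_zero]

include hq hdeg hs hi in
theorem eq_zero : H = 0 := by
  classical
  let Δ : MvPolynomial ℕ ℂ := (∏ k ∈ range (2 * m + 1), X (k + 1)) *
    ∏ p ∈ (range (2 * m + 1) ×ˢ range (2 * m + 1)).filter (fun p => p.1 ≠ p.2),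
      (X (p.1 + 1) ^ 3 - X (p.2 + 1) ^ 3)
  have hΔ : Δ ≠ 0 := by
    intro h
    have h1 := congrArg (eval fun k : ℕ => (k : ℂ)) h
    simp only [Δ, map_mul, map_prod, eval_X, map_sub, map_pow, map_zero] at h1
    rcases mul_eq_zero.1 h1 with h2 | h2
    · obtain ⟨k, -, hk⟩ := Finset.prod_eq_zero_iff.1 h2
      have : ((k + 1 : ℕ) : ℂ) ≠ 0 := Nat.cast_ne_zero.2 (by omega)
      exact this hk
    · obtain ⟨p, hp, hk⟩ := Finset.prod_eq_zero_iff.1 h2
      rw [mem_filter] at hp
      have h3 : ((p.1 + 1 : ℕ) : ℂ) ^ 3 = ((p.2 + 1 : ℕ) : ℂ) ^ 3 := sub_eq_zero.1 hk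
      have h4 : (p.1 + 1) ^ 3 = (p.2 + 1) ^ 3 := by exact_mod_cast h3
      have h5 := Nat.pow_left_injective (n := 3) (by norm_num) h4
      exact hp.2 (by simpa using h5)
  have hprod : H * Δ = 0 := by
    refine MvPolynomial.funext fun z => ?_
    rw [map_mul, map_zero]
    by_cases hgen : (∀ k < 2 * m + 1, z (k + 1) ≠ 0) ∧
        ∀ i < 2 * m + 1, ∀ j < 2 * m + 1, z (i + 1) ^ 3 = z (j + 1) ^ 3 → i = j
    · have h1 := eval_generic hq hdeg hs hi (w := fun k => z (k + 1)) hgen.1 hgen.2 (z 0)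
      have h2 : con (z 0) (fun k => z (k + 1)) = z := by
        funext k
        cases k <;> rfl
      rw [h2] at h1
      rw [h1, zero_mul]
    · have h1 : eval z Δ = 0 := by
        simp only [Δ, map_mul, map_prod, eval_X, map_sub, map_pow]
        rw [not_and_or] at hgen
        rcases hgen with h | h
        · push Not at h
          obtain ⟨k, hk, h⟩ := h
          rw [Finset.prod_eq_zero (mem_range.2 hk) h, zero_mul]
        · push Not at h
          obtain ⟨i, hi', j, hj', h, hij⟩ := h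
          refine mul_eq_zero_of_right _ (Finset.prod_eq_zero (i := (i, j)) ?_ ?_)
          · rw [mem_filter, mem_product, mem_range, mem_range]
            exact ⟨⟨hi', hj'⟩, hij⟩
          · simp only
            rw [h, sub_self]
      rw [h1, mul_zero]
  exact (mul_eq_zero.1 hprod).resolve_right hΔ

end Main

end UniF

theorem RecF.unique {q : ℂ} (hq : q ^ 2 + q + 1 = 0) {c : ℕ → ℂ} {F G : ℕ → MvPolynomial ℕ ℂ}
    (hF : RecF q c F) (hG : RecF q c G) (h0 : ∀ z, eval z (F 0) = eval z (G 0)) (m : ℕ)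
    (z : ℕ → ℂ) : eval z (F m) = eval z (G m) := by
  induction m generalizing z with
  | zero => exact h0 z
  | succ m ih =>
    have hH : F (m + 1) - G (m + 1) = 0 := by
      refine UniF.eq_zero hq (m := m) ?_ ?_ ?_
      · refine le_trans (degreeOf_sub_le _ _ _) ?_
        exact max_le (hF.deg m) (hG.deg m)
      · intro i hi w
        rw [map_sub, map_sub, hF.symm (m + 1) i (by omega), hG.symm (m + 1) i (by omega)]
      · intro v w
        rw [map_sub, hF.ins, hG.ins, ih, sub_self]
    rw [sub_eq_zero.1 hH]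

end Pool.Agent.Perc
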