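import Pool.Agent.Lib.MP_6bd702_perq.PsiMA
import Pool.Agent.Lib.MP_6bd702_perq.SHatA
import Pool.Agent.Lib.MP_6bd702_perq.UniF

/-!
# The sum of the components (task FSumA)
-/

set_option autoImplicit false

namespace Pool.Agent.Perc

open Finset MvPolynomial

variable {q : ℂ} {m : ℕ}

/-- The sum of the components. -/
noncomputable def FH (q : ℂ) (m : ℕ) : MvPolynomial ℕ ℂ := ∑ s ∈ anns (2 * m), PsiS q m s

theorem eval_FH (q : ℂ) (m : ℕ) (z : ℕ → ℂ) :
    eval z (FH q m) = ∑ s ∈ anns (2 * m), PsiSV q m z s := by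
  rw [FH, map_sum]
  exact Finset.sum_congr rfl fun s hs => (PsiSV_apply z (mem_anns.1 hs)).symm

namespace FSumA

/-- The sum of the coefficients. -/
noncomputable def tot : (St →₀ ℂ) →ₗ[ℂ] ℂ := Finsupp.linearCombination ℂ (fun _ : St => (1 : ℂ))

theorem tot_single (s : St) (c : ℂ) : tot (Finsupp.single s c) = c := by
  rw [tot, Finsupp.linearCombination_single, smul_eq_mul, mul_one]

theorem tot_mapDomain (f : St →₀ ℂ) (g : St → St) : tot (f.mapDomain g) = tot f := by
  rw [tot, Finsupp.linearCombination_mapDomain]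
  rfl

theorem eval_FH_tot (q : ℂ) (m : ℕ) (z : ℕ → ℂ) : eval z (FH q m) = tot (PsiSV q m z) := by
  rw [FH, map_sum, PsiSV, map_sum]
  exact Finset.sum_congr rfl fun s _ => (tot_single s _).symm

theorem degreeOf_FH_le {k n : ℕ} (h : ∀ s, (PsiS q m s).degreeOf k ≤ n) :
    (FH q m).degreeOf k ≤ n := by
  rw [FH]
  exact (degreeOf_sum_le k _ _).trans (Finset.sup_le fun s _ => h s)

theorem exch (hq : q ^ 2 + q + 1 = 0) {i : ℕ} (hi : i + 1 < 2 * m) (z : ℕ → ℂ) :
    (q * z (i + 1) - q ^ 2 * z i) * (eval (swapV i z) (FH q m) - eval z (FH q m)) = 0 := by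
  have h := congrArg tot (exchangeS hq hi z)
  rw [map_smul, map_add, map_smul, map_smul, tot_mapDomain, smul_eq_mul, smul_eq_mul,
    smul_eq_mul, ← eval_FH_tot, ← eval_FH_tot] at h
  have e : q * z i - q ^ 2 * z (i + 1) + (z i - z (i + 1)) = q * z (i + 1) - q ^ 2 * z i := by
    linear_combination (z i - z (i + 1)) * hq
  rw [mul_sub, h, ← add_mul, e, sub_self]

theorem q_ne (hq : q ^ 2 + q + 1 = 0) : q ≠ 0 := by
  rintro rfl
  norm_num at hq

theorem symm (hq : q ^ 2 + q + 1 = 0) {i : ℕ} (hi : i + 1 < 2 * m) (z : ℕ → ℂ) :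
    eval (swapV i z) (FH q m) = eval z (FH q m) := by
  have key : ∀ w : ℕ → ℂ, eval (swapV i w) (FH q m) =
      eval w (rename (Equiv.swap i (i + 1)) (FH q m)) := by
    intro w
    rw [eval_rename]
    rfl
  have hp : (C q * X (i + 1) - C (q ^ 2) * X i) *
      (rename (Equiv.swap i (i + 1)) (FH q m) - FH q m) = 0 := by
    refine MvPolynomial.funext fun w => ?_
    have h := exch (m := m) hq hi w
    rw [key] at h
    rw [map_mul, map_sub, map_sub, map_mul, map_mul, eval_C, eval_C, eval_X, eval_X, map_zero]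
    exact h
  have hne : (C q * X (i + 1) - C (q ^ 2) * X i : MvPolynomial ℕ ℂ) ≠ 0 := by
    intro h0
    have h1 := congrArg (eval fun k => if k = i then (1 : ℂ) else 0) h0
    rw [map_sub, map_mul, map_mul, eval_C, eval_C, eval_X, eval_X, map_zero, if_pos rfl,
      if_neg (by omega : ¬ i + 1 = i), mul_zero, zero_sub, mul_one, neg_eq_zero] at h1
    exact pow_ne_zero 2 (q_ne hq) h1
  have h2 := sub_eq_zero.1 ((mul_eq_zero.1 hp).resolve_left hne)
  rw [key, h2]

end FSumA

theorem recF_FH (hq : q ^ 2 + q + 1 = 0) : RecF q (fun m => 1 / (9 * q) ^ m) (FH q) where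
  out m k hk := Nat.le_zero.1 (FSumA.degreeOf_FH_le fun s => ((dw_PsiS hq m s).out k hk).le)
  deg m := FSumA.degreeOf_FH_le fun s => degreeOf_PsiS_le hq (m + 1) s 0
  symm m i hi z := FSumA.symm hq hi z
  ins m v z := by
    rw [FSumA.eval_FH_tot, PsiSV_insV hq m (Nat.zero_le _) v z, map_smul, FSumA.tot_mapDomain,
      ← FSumA.eval_FH_tot, smul_eq_mul]
    ring

theorem eval_FH_zero (hq : q ^ 2 + q + 1 = 0) (z : ℕ → ℂ) : eval z (FH q 0) = 1 := by
  rw [FSumA.eval_FH_tot, PsiSV_zero hq z, FSumA.tot_single]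

end Pool.Agent.Perc
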