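import Pool.Agent.Lib.MP_6bd702_perc.SumA
import Pool.Agent.Lib.MP_6bd702_perc.SumB
import Pool.Agent.Lib.MP_6bd702_perc.QSchur
import Pool.Agent.Lib.MP_6bd702_perc.QSchurC
import Pool.Agent.Lib.MP_6bd702_perq.UniS
import Pool.Agent.Lib.MP_6bd702_perq.UniF

/-!
# The Schur side (task QSchur, helper13)
-/

set_option autoImplicit false

namespace Pool.Agent.Perc

open Finset MvPolynomial

/-- The exponents `0, 2, 3, 5, 6, 8, …`. -/
def eP2 (j : ℕ) : ℕ := 3 * (j / 2) + 2 * (j % 2)

/-- The Schur polynomial of `4 m` variables at doubled variables. -/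
noncomputable def TP (m : ℕ) : MvPolynomial ℕ ℂ := rename (fun k => k / 2) (schur (4 * m) eS3)

/-- The product of two Schur polynomials. -/
noncomputable def GP (m : ℕ) : MvPolynomial ℕ ℂ := schur (2 * m) eS3 * schur (2 * m) eP2

namespace QSchurQ

theorem eP2_eq : eP2 = SumB.eP := by
  funext j
  unfold eP2 SumB.eP eS3
  omega

theorem TP_eq (m : ℕ) : TP m = QSchur.SD (2 * m) := by
  unfold TP QSchur.SD
  rw [show 2 * (2 * m) = 4 * m by ring]

theorem GP_eq (m : ℕ) : GP m = QSchur.FS m := by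
  unfold GP QSchur.FS
  rw [eP2_eq]

theorem swapV_eq (i : ℕ) (z : ℕ → ℂ) : swapV i z = fun k => z (Equiv.swap i (i + 1) k) := rfl

theorem swap_fix {N i : ℕ} (hi : i + 1 < N) : ∀ k, N ≤ k → Equiv.swap i (i + 1) k = k := by
  intro k hk
  exact Equiv.swap_apply_of_ne_of_ne (by omega) (by omega)

theorem eval_aeval_poly (f : ℕ → Polynomial ℂ) (P : MvPolynomial ℕ ℂ) (y : ℂ) :
    Polynomial.eval y (aeval f P) = eval (fun k => Polynomial.eval y (f k)) P := by
  induction P using MvPolynomial.induction_on with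
  | C a => simp
  | add p r hp hr => rw [map_add, Polynomial.eval_add, hp, hr, map_add]
  | mul_X p k hp => rw [map_mul, Polynomial.eval_mul, hp, map_mul, aeval_X, eval_X]

/-- Two zeros at the beginning. -/
theorem two_zero {q : ℂ} (hq : q ^ 2 + q + 1 = 0) (M : ℕ) (w : ℕ → ℂ) (h0 : w 0 = 0)
    (h1 : w 1 = 0) : eval w (schur (2 * (M + 1)) eS3) =
      (∏ k ∈ range (2 * M), w (k + 2)) * eval (fun k => w (k + 2)) (schur (2 * M) eS3) := by
  have h := QSchur.eS3_restrict hq M (i := 0) (by omega) (fun k => w (k + 2)) 0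
  have h2 : insV 0 (q ^ 2 * 0) 0 (fun k => w (k + 2)) = w := by
    funext k
    unfold insV
    by_cases h3 : k = 0
    · subst h3
      rw [if_neg (by omega), if_pos rfl, h0, mul_zero]
    · by_cases h4 : k = 1
      · subst h4
        rw [if_neg (by omega), if_neg (by omega), if_pos rfl, h1]
      · rw [if_neg (by omega), if_neg h3, if_neg (by omega)]
        show w (k - 2 + 2) = w k
        congr 1
        omega
  rw [h2] at h
  rw [h]
  congr 1
  refine Finset.prod_congr rfl fun k _ => ?_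
  ring

theorem low_TP {q : ℂ} (hq : q ^ 2 + q + 1 = 0) (m : ℕ) (z : ℕ → ℂ) :
    ∃ G : Polynomial ℂ, aeval (putX 1 0 1 z) (TP (m + 1)) = Polynomial.X ^ 2 * G ∧
      G.coeff 0 = (∏ k ∈ range (2 * m), z k ^ 4) * eval z (TP m) := by
  have hprod : ∏ k ∈ range (2 * (2 * m)), z (k / 2) = ∏ k ∈ range (2 * m), z k ^ 2 := by
    rw [SumB.prod_two (fun k => z (k / 2)) (2 * m)]
    refine Finset.prod_congr rfl fun k _ => ?_
    rw [show 2 * k / 2 = k by omega, show (2 * k + 1) / 2 = k by omega, sq]
  refine ⟨Polynomial.C (∏ k ∈ range (2 * m), z k ^ 2) *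
    aeval (fun k => if k < 2 then (Polynomial.X : Polynomial ℂ) else
      Polynomial.C (z ((k - 2) / 2))) (schur (2 * (2 * m + 1)) eS3), ?_, ?_⟩
  · apply Polynomial.funext
    intro y
    rw [eval_aeval_poly, TP_eq, QSchur.eval_SD, show 2 * (2 * (m + 1)) = 2 * (2 * m + 1 + 1) by ring,
      two_zero hq, Polynomial.eval_mul, Polynomial.eval_mul, Polynomial.eval_pow, Polynomial.eval_X,
      Polynomial.eval_C, eval_aeval_poly]
    · have h1 : (fun k => Polynomial.eval y (putX 1 0 1 z ((k + 2) / 2))) =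
          fun k => Polynomial.eval y (if k < 2 then (Polynomial.X : Polynomial ℂ) else
            Polynomial.C (z ((k - 2) / 2))) := by
        funext k
        unfold putX
        by_cases h2 : k < 2
        · rw [if_neg (by omega), if_neg (by omega), if_pos (by omega), if_pos h2]
          simp
        · rw [if_neg (by omega), if_neg (by omega), if_neg (by omega), if_neg h2]
          congr 3
          omega
      rw [h1]
      have h2 : ∏ k ∈ range (2 * (2 * m + 1)), Polynomial.eval y (putX 1 0 1 z ((k + 2) / 2)) =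
          y ^ 2 * ∏ k ∈ range (2 * m), z k ^ 2 := by
        rw [← hprod, show 2 * (2 * m + 1) = 2 + 2 * (2 * m) by ring, prod_range_add,
          prod_range_succ, prod_range_one]
        have h3 : Polynomial.eval y (putX 1 0 1 z ((0 + 2) / 2)) = y := by
          unfold putX
          simp
        have h4 : Polynomial.eval y (putX 1 0 1 z ((1 + 2) / 2)) = y := by
          unfold putX
          simp
        first
          | rw [h3, h4, sq]
          | rw [h3, sq]
        congr 1
        refine Finset.prod_congr rfl fun k _ => ?_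
        unfold putX
        rw [if_neg (by omega), if_neg (by omega), if_neg (by omega), Polynomial.eval_C]
        congr 1
        omega
      have h5 : ∏ k ∈ range (2 * (2 * m + 1)), Polynomial.eval y
          (if k < 2 then (Polynomial.X : Polynomial ℂ) else Polynomial.C (z ((k - 2) / 2))) =
          y ^ 2 * ∏ k ∈ range (2 * m), z k ^ 2 := by
        rw [← h2]
        exact Finset.prod_congr rfl fun k _ => (congrFun h1 k).symm
      rw [h5]
      ring
    · unfold putX
      simp
    · unfold putX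
      simp
  · rw [Polynomial.coeff_zero_eq_eval_zero, Polynomial.eval_mul, Polynomial.eval_C,
      eval_aeval_poly, two_zero hq]
    · have h1 : (fun k => Polynomial.eval 0 (if k + 2 < 2 then (Polynomial.X : Polynomial ℂ) else
            Polynomial.C (z ((k + 2 - 2) / 2)))) = fun k => z (k / 2) := by
        funext k
        rw [if_neg (by omega), Polynomial.eval_C]
        congr 1
      rw [h1, hprod, TP_eq, QSchur.eval_SD, ← mul_assoc, ← Finset.prod_mul_distrib]
      congr 1
      refine Finset.prod_congr rfl fun k _ => ?_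
      ring
    · simp
    · simp

/-- The value at one. -/
theorem eval_one (N : ℕ) {e : ℕ → ℕ} (he : StrictMono e) :
    eval (fun _ => 1) (schur N e) =
      ((∏ j ∈ range N, ∏ i ∈ range j, (((e j : ℝ) - e i) / (j - i)) : ℝ) : ℂ) := by
  have h := SumB.value e he N
  have h1 := SumB.value_ne N
  rw [← eq_div_iff h1] at h
  rw [h, SumB.dd, SumB.dd]
  push_cast
  rw [← Finset.prod_div_distrib]
  refine Finset.prod_congr rfl fun j _ => ?_
  rw [← Finset.prod_div_distrib]

end QSchurQ

open QSchurQ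

theorem recS_TP {q : ℂ} (hq : q ^ 2 + q + 1 = 0) :
    RecS q (fun _ => 3 * q ^ 2) (fun _ => 1) TP := by
  refine ⟨?_, ?_, ?_, ?_, ?_, ?_, ?_⟩
  · intro m k hk
    rw [TP_eq]
    exact QSchur.degreeOf_SD_out _ hk
  · intro m
    rw [TP_eq]
    refine (QSchur.degreeOf_SD_le _ _).trans ?_
    omega
  · intro m i hi z
    rw [TP_eq, swapV_eq]
    exact QSchur.SD_perm _ _ (swap_fix hi) z
  · intro m v z
    rw [TP_eq, TP_eq, show 2 * (m + 1) = 2 * m + 2 by ring, QSchur.SD_restrict hq (2 * m) (by omega),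
      Finset.prod_pow]
  · intro m z _
    obtain ⟨G, h1, _⟩ := low_TP hq m z
    rw [h1, Polynomial.coeff_X_pow_mul', if_neg (by omega)]
  · intro m z _
    obtain ⟨G, h1, _⟩ := low_TP hq m z
    rw [h1, Polynomial.coeff_X_pow_mul', if_neg (by omega)]
  · intro m z _
    obtain ⟨G, h1, h2⟩ := low_TP hq m z
    rw [h1, Polynomial.coeff_X_pow_mul', if_pos (by omega), h2]
    ring

theorem recF_GP {q : ℂ} (hq : q ^ 2 + q + 1 = 0) : RecF q (fun _ => -q) GP := by
  refine ⟨?_, ?_, ?_, ?_⟩
  · intro m k hk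
    rw [GP_eq]
    exact QSchur.degreeOf_FS_out _ hk
  · intro m
    rw [GP_eq]
    refine (QSchur.degreeOf_FS_le _ _).trans ?_
    omega
  · intro m i hi z
    rw [GP_eq, swapV_eq]
    exact QSchur.FS_perm _ _ (swap_fix hi) z
  · intro m v z
    rw [GP_eq, GP_eq, QSchur.FS_restrict hq m (by omega), Finset.prod_pow]

theorem eval_TP_zero (z : ℕ → ℂ) : eval z (TP 0) = 1 := by
  unfold TP
  rw [mul_zero, QSchur.schur_zero, map_one, map_one]

theorem eval_GP_zero (z : ℕ → ℂ) : eval z (GP 0) = 1 := by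
  rw [GP_eq, QSchur.FS_zero, map_one]

/-- The exact probability. -/
noncomputable def pv (m : ℕ) : ℝ :=
  ((∏ j ∈ range (4 * m), ∏ i ∈ range j, (((eS3 j : ℝ) - eS3 i) / (j - i))) /
    (3 ^ m * ((∏ j ∈ range (2 * m), ∏ i ∈ range j, (((eS3 j : ℝ) - eS3 i) / (j - i))) *
      ∏ j ∈ range (2 * m), ∏ i ∈ range j, (((eP2 j : ℝ) - eP2 i) / (j - i))) ^ 2))

theorem eval_TP_one (m : ℕ) : eval (fun _ => 1) (TP m) =
    ((∏ j ∈ range (4 * m), ∏ i ∈ range j, (((eS3 j : ℝ) - eS3 i) / (j - i)) : ℝ) : ℂ) := by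
  rw [← eval_one (4 * m) SumB.strictMono_eS3, TP, eval_rename]
  rfl

theorem eval_GP_one (m : ℕ) : eval (fun _ => 1) (GP m) =
    (((∏ j ∈ range (2 * m), ∏ i ∈ range j, (((eS3 j : ℝ) - eS3 i) / (j - i))) *
      ∏ j ∈ range (2 * m), ∏ i ∈ range j, (((eP2 j : ℝ) - eP2 i) / (j - i)) : ℝ) : ℂ) := by
  have h : StrictMono eP2 := by rw [eP2_eq]; exact SumB.strictMono_eP
  rw [Complex.ofReal_mul, ← eval_one (2 * m) SumB.strictMono_eS3, ← eval_one (2 * m) h, GP, map_mul]

theorem eval_GP_one_ne (m : ℕ) : eval (fun _ => 1) (GP m) ≠ 0 := by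
  have h : StrictMono eP2 := by rw [eP2_eq]; exact SumB.strictMono_eP
  have key : ∀ {e : ℕ → ℕ}, StrictMono e → eval (fun _ => 1) (schur (2 * m) e) ≠ 0 := by
    intro e he h0
    have h1 := SumB.value e he (2 * m)
    rw [h0, zero_mul] at h1
    exact SumB.dd_ne_zero he (2 * m) h1.symm
  rw [GP, map_mul]
  exact mul_ne_zero (key SumB.strictMono_eS3) (key h)

end Pool.Agent.Perc
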