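import Pool.Agent.Lib.MP_6bd702_perq.PsiSB

/-!
# Stationarity on the cylinder (task StatS)
-/

set_option autoImplicit false

namespace Pool.Agent.Perc

open Finset MvPolynomial

namespace StatS

/-- One face: the average of the two states. -/
noncomputable def rPS (i : ℕ) (f : St →₀ ℂ) : St →₀ ℂ :=
  (1 / 2 : ℂ) • (f + f.mapDomain (eL i))

/-- The faces `0, …, k - 1` of a row. -/
noncomputable def rowPS : ℕ → (St →₀ ℂ) → (St →₀ ℂ)
  | 0, f => f
  | k + 1, f => rPS k (rowPS k f)

theorem rPS_smul (i : ℕ) (c : ℂ) (f : St →₀ ℂ) : rPS i (c • f) = c • rPS i f := by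
  unfold rPS
  rw [Finsupp.mapDomain_smul, ← smul_add, smul_comm]

theorem rowPS_smul (k : ℕ) (c : ℂ) (f : St →₀ ℂ) : rowPS k (c • f) = c • rowPS k f := by
  induction k with
  | zero => rfl
  | succ k ih =>
    change rPS k (rowPS k (c • f)) = c • rPS k (rowPS k f)
    rw [ih, rPS_smul]

/-- The point with `-q ^ 2` at `k` and `-q` at the last place. -/
def apt (q : ℂ) (n k : ℕ) : ℕ → ℂ := fun j =>
  if j = k then -q ^ 2 else if j = 2 * n + 1 then -q else 1

variable {q : ℂ}

theorem q3 (hq : q ^ 2 + q + 1 = 0) : q ^ 3 = 1 := by linear_combination (q - 1) * hq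

theorem q_ne (hq : q ^ 2 + q + 1 = 0) : q ≠ 0 := by
  rintro rfl
  norm_num at hq

theorem swap_apt (n k : ℕ) (hk : k < 2 * n) : swapV k (apt q n k) = apt q n (k + 1) := by
  ext j
  unfold swapV apt
  by_cases h1 : j = k
  · subst h1
    rw [Equiv.swap_apply_left, if_neg (by omega), if_neg (by omega), if_neg (by omega),
      if_neg (by omega)]
  · by_cases h2 : j = k + 1
    · subst h2
      rw [Equiv.swap_apply_right, if_pos rfl, if_pos rfl]
    · rw [Equiv.swap_apply_of_ne_of_ne h1 h2, if_neg h1, if_neg h2]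

theorem apt_step (hq : q ^ 2 + q + 1 = 0) (n k : ℕ) (hk : k < 2 * n) :
    PsiSV q (n + 1) (apt q n (k + 1)) = rPS k (PsiSV q (n + 1) (apt q n k)) := by
  have hq0 := q_ne hq
  have h := exchangeS hq (m := n + 1) (i := k) (by omega) (apt q n k)
  have hz : apt q n k k = -q ^ 2 := if_pos rfl
  have hz' : apt q n k (k + 1) = 1 := by
    unfold apt
    rw [if_neg (by omega), if_neg (by omega)]
  rw [swap_apt n k hk, hz, hz'] at h
  have e1 : q * 1 - q ^ 2 * -q ^ 2 = 2 * q := by
    linear_combination q * q3 hq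
  have e2 : q * -q ^ 2 - q ^ 2 * 1 = q := by
    linear_combination -q3 hq - hq
  have e3 : -q ^ 2 - 1 = q := by linear_combination -hq
  rw [e1, e2, e3] at h
  have h2 : (2 * q : ℂ) ≠ 0 := mul_ne_zero two_ne_zero hq0
  have h3 : PsiSV q (n + 1) (apt q n (k + 1)) = (2 * q)⁻¹ • ((2 * q) •
      PsiSV q (n + 1) (apt q n (k + 1))) := by
    rw [smul_smul, inv_mul_cancel₀ h2, one_smul]
  rw [h3, h, ← smul_add, smul_smul]
  unfold rPS
  congr 1
  field_simp

theorem apt_row (hq : q ^ 2 + q + 1 = 0) (n k : ℕ) (hk : k ≤ 2 * n) :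
    PsiSV q (n + 1) (apt q n k) = rowPS k (PsiSV q (n + 1) (apt q n 0)) := by
  induction k with
  | zero => rfl
  | succ k ih =>
    rw [apt_step hq n k (by omega), ih (by omega)]
    rfl

/-- The constant. -/
noncomputable def cst (q : ℂ) (n : ℕ) : ℂ := -q ^ 2 * (4 : ℂ) ^ (2 * n) / (9 * q) ^ n

theorem cst_ne (hq : q ^ 2 + q + 1 = 0) (n : ℕ) : cst q n ≠ 0 := by
  have hq0 := q_ne hq
  exact div_ne_zero (mul_ne_zero (neg_ne_zero.mpr (pow_ne_zero _ hq0))
    (pow_ne_zero _ (by norm_num))) (pow_ne_zero _ (mul_ne_zero (by norm_num) hq0))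

theorem ins_one (hq : q ^ 2 + q + 1 = 0) (n i : ℕ) (hi : i ≤ 2 * n) :
    PsiSV q (n + 1) (insV i (q ^ 2 * -q ^ 2) (-q ^ 2) fun _ => 1) =
      cst q n • (PsiSV q n fun _ => 1).mapDomain (insL i) := by
  rw [PsiSV_insV hq n hi]
  congr 1
  unfold cst
  have : ∀ k ∈ range (2 * n), ((1 : ℂ) - q * -q ^ 2) ^ 2 = 4 := fun k _ => by
    have h1 : (1 : ℂ) - q * -q ^ 2 = 2 := by linear_combination q3 hq
    rw [h1]
    norm_num
  rw [Finset.prod_congr rfl this, Finset.prod_const, Finset.card_range]

theorem apt_zero (hq : q ^ 2 + q + 1 = 0) (n : ℕ) :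
    PsiSV q (n + 1) (apt q n 0) = cst q n • (PsiSV q n fun _ => 1).mapDomain (cupL (2 * n)) := by
  have h1 : ∀ k < 2 * (n + 1), apt q n 0 k =
      rotV (2 * (n + 1)) (insV 0 (q ^ 2 * -q ^ 2) (-q ^ 2) fun _ => 1) k := by
    intro k hk
    unfold apt rotV insV
    by_cases h1 : k = 0
    · subst h1
      rw [if_pos rfl, if_pos (by omega), if_neg (by omega), if_neg (by omega), if_pos (by omega)]
    · rw [if_neg h1]
      by_cases h2 : k = 2 * n + 1
      · rw [if_pos h2, if_neg (by omega), if_pos (by omega), if_neg (by omega), if_pos rfl]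
        linear_combination q * q3 hq
      · rw [if_neg h2, if_pos (by omega), if_neg (by omega), if_neg (by omega),
          if_neg (by omega)]
  rw [PsiSV_congr hq h1, PsiSV_rot hq, ins_one hq n 0 (Nat.zero_le _), Finsupp.mapDomain_smul,
    ← Finsupp.mapDomain_comp]
  congr 1
  rw [PsiSA.mapDomain_PsiSV, PsiSA.mapDomain_PsiSV]
  refine Finset.sum_congr rfl fun p hp => ?_
  rw [Function.comp_apply, show 2 * (n + 1) = 2 * n + 2 by ring,
    rotL_insL_zero (mem_anns.mp hp)]

theorem apt_last (hq : q ^ 2 + q + 1 = 0) (n : ℕ) :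
    (PsiSV q (n + 1) (apt q n (2 * n))).mapDomain (eL (2 * n)) =
      cst q n • (PsiSV q n fun _ => 1).mapDomain (insL (2 * n)) := by
  have hq0 := q_ne hq
  have h := exchangeS hq (m := n + 1) (i := 2 * n) (by omega) (apt q n (2 * n))
  have hz : apt q n (2 * n) (2 * n) = -q ^ 2 := if_pos rfl
  have hz' : apt q n (2 * n) (2 * n + 1) = -q := by
    unfold apt
    rw [if_neg (by omega), if_pos rfl]
  have h1 : ∀ k < 2 * (n + 1), swapV (2 * n) (apt q n (2 * n)) k =
      insV (2 * n) (q ^ 2 * -q ^ 2) (-q ^ 2) (fun _ => 1) k := by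
    intro k hk
    unfold swapV insV
    by_cases h1 : k = 2 * n
    · subst h1
      rw [Equiv.swap_apply_left, hz', if_neg (lt_irrefl _), if_pos rfl]
      linear_combination q * q3 hq
    · by_cases h2 : k = 2 * n + 1
      · subst h2
        rw [Equiv.swap_apply_right, hz, if_neg (by omega), if_neg (by omega), if_pos rfl]
      · rw [Equiv.swap_apply_of_ne_of_ne h1 h2]
        unfold apt
        rw [if_neg h1, if_neg h2, if_pos (by omega)]
  rw [PsiSV_congr hq h1, ins_one hq n (2 * n) le_rfl, hz, hz'] at h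
  have e1 : q * -q - q ^ 2 * -q ^ 2 = q - q ^ 2 := by
    linear_combination q * q3 hq
  have e2 : q * -q ^ 2 - q ^ 2 * -q = 0 := by ring
  have e3 : -q ^ 2 - -q = q - q ^ 2 := by ring
  rw [e1, e2, e3, zero_smul, zero_add] at h
  have h2 : q - q ^ 2 ≠ 0 := by
    intro h0
    have h4 : q * (1 - q) = 0 := by linear_combination h0
    rcases mul_eq_zero.mp h4 with h5 | h5
    · exact hq0 h5
    · have h6 : q = 1 := by linear_combination -h5
      rw [h6] at hq
      norm_num at hq
  have h3 := congrArg (fun f => (q - q ^ 2)⁻¹ • f) h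
  simp only [smul_smul _ (q - q ^ 2), inv_mul_cancel₀ h2, one_smul] at h3
  exact h3.symm

/-- Stationarity as an identity of vectors. -/
theorem statV (hq : q ^ 2 + q + 1 = 0) (n : ℕ) :
    (rowPS (2 * n) ((PsiSV q n fun _ => 1).mapDomain (cupL (2 * n)))).mapDomain (eL (2 * n)) =
      (PsiSV q n fun _ => 1).mapDomain (insL (2 * n)) := by
  have h := apt_last hq n
  rw [apt_row hq n (2 * n) le_rfl, apt_zero hq n, rowPS_smul, Finsupp.mapDomain_smul] at h
  have h3 := congrArg (fun f => (cst q n)⁻¹ • f) h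
  simp only [smul_smul, inv_mul_cancel₀ (cst_ne hq n), one_smul] at h3
  exact h3

theorem resL_insL {L : ℕ} {s : St} (h : IsAnn L s) : resL L (insL L s) = s := by
  refine Prod.ext ?_ ?_
  · funext x
    change resP L (insArc L s.1) x = s.1 x
    unfold resP insArc
    by_cases hx : x < L
    · have h1 := h.nc.lt x hx
      simp only [hx, if_true]
      rw [if_neg (by omega), if_neg (by omega), if_pos h1]
    · rw [if_neg hx]
      exact (h.nc.out x (by omega)).symm
  · funext x
    change (if x < L then (insL L s).2 x else false) = s.2 x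
    by_cases hx : x < L
    · rw [if_pos hx]
      unfold insL
      simp only
      rw [if_neg (by omega), if_pos hx]
    · rw [if_neg hx, h.out x (by omega)]

/-- Pairing of a vector with a function. -/
noncomputable def pr (f : St → ℂ) (g : St →₀ ℂ) : ℂ := g.sum fun s c => c * f s

theorem pr_add (f : St → ℂ) (g g' : St →₀ ℂ) : pr f (g + g') = pr f g + pr f g' :=
  Finsupp.sum_add_index' (fun _ => zero_mul _) fun _ _ _ => add_mul _ _ _

theorem pr_smul (f : St → ℂ) (c : ℂ) (g : St →₀ ℂ) : pr f (c • g) = c * pr f g := by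
  unfold pr
  rw [Finsupp.sum_smul_index' (fun _ => zero_mul _), Finsupp.mul_sum]
  refine Finsupp.sum_congr fun s _ => ?_
  rw [smul_eq_mul, mul_assoc]

theorem pr_mapDomain (f : St → ℂ) (h : St → St) (g : St →₀ ℂ) :
    pr f (g.mapDomain h) = pr (fun s => f (h s)) g :=
  Finsupp.sum_mapDomain_index (fun _ => zero_mul _) fun _ _ _ => add_mul _ _ _

theorem rowL_congr {w w' : ℕ → Bool} {k : ℕ} (h : ∀ i < k, w i = w' i) (s : St) :
    rowL w k s = rowL w' k s := by
  induction k with
  | zero => rfl
  | succ k ih =>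
    change (if w k then eL k (rowL w k s) else rowL w k s) =
      if w' k then eL k (rowL w' k s) else rowL w' k s
    rw [ih fun i hi => h i (by omega), h k (by omega)]

theorem pr_rowPS (k : ℕ) (f : St → ℂ) (g : St →₀ ℂ) : pr f (rowPS k g) =
    (∑ T ∈ (range k).powerset, pr (fun s => f (rowL (fun i => decide (i ∈ T)) k s)) g) /
      2 ^ k := by
  classical
  induction k generalizing f with
  | zero =>
    rw [Finset.range_zero, Finset.powerset_empty, Finset.sum_singleton, pow_zero, div_one]
    rfl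
  | succ k ih =>
    change pr f (rPS k (rowPS k g)) = _
    unfold rPS
    rw [pr_smul, pr_add, pr_mapDomain, ih, ih, Finset.range_add_one,
      Finset.sum_powerset_insert (by simp)]
    have h1 : ∀ T ∈ (range k).powerset,
        pr (fun s => f (rowL (fun i => decide (i ∈ T)) (k + 1) s)) g =
          pr (fun s => f (rowL (fun i => decide (i ∈ T)) k s)) g := by
      intro T hT
      rw [mem_powerset] at hT
      congr 1
      funext s
      congr 1
      change (if decide (k ∈ T) = true then _ else _) = _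
      rw [if_neg]
      intro hk
      have := hT (of_decide_eq_true hk)
      simp at this
    have h2 : ∀ T ∈ (range k).powerset,
        pr (fun s => f (rowL (fun i => decide (i ∈ insert k T)) (k + 1) s)) g =
          pr (fun s => f (eL k (rowL (fun i => decide (i ∈ T)) k s))) g := by
      intro T hT
      rw [mem_powerset] at hT
      congr 1
      funext s
      congr 1
      change (if decide (k ∈ insert k T) = true then _ else _) = _
      rw [if_pos (by simp)]
      congr 1
      refine rowL_congr (fun i hi => ?_) s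
      congr 1
      rw [Finset.mem_insert]
      simp only [eq_iff_iff, or_iff_right_iff_imp]
      intro h
      omega
    rw [Finset.sum_congr rfl h1, Finset.sum_congr rfl h2, pow_succ]
    field_simp

end StatS

open StatS

/-- The homogeneous solution is stationary for the rows of the cylinder. -/
theorem stationaryS {q : ℂ} (hq : q ^ 2 + q + 1 = 0) (n : ℕ) (f : St → ℂ) :
    ∑ s ∈ anns (2 * n), eval (fun _ => 1) (PsiS q n s) * avgL (2 * n) f s =
      ∑ s ∈ anns (2 * n), eval (fun _ => 1) (PsiS q n s) * f s := by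
  classical
  have h0 := congrArg (fun g => pr (fun s => f (resL (2 * n) s)) g) (statV hq n)
  simp only at h0
  have hpr : ∀ F : St → ℂ, pr F (PsiSV q n fun _ => 1) =
      ∑ s ∈ anns (2 * n), eval (fun _ => 1) (PsiS q n s) * F s := by
    intro F
    unfold PsiSV pr
    rw [← Finsupp.sum_finsetSum_index (fun _ => zero_mul _) fun _ _ _ => add_mul _ _ _]
    refine Finset.sum_congr rfl fun s _ => ?_
    rw [Finsupp.sum_single_index (zero_mul _)]
  rw [pr_mapDomain, pr_rowPS, pr_mapDomain, hpr] at h0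
  have h1 : ∑ s ∈ anns (2 * n), eval (fun _ => 1) (PsiS q n s) *
      f (resL (2 * n) (insL (2 * n) s)) =
      ∑ s ∈ anns (2 * n), eval (fun _ => 1) (PsiS q n s) * f s := by
    refine Finset.sum_congr rfl fun s hs => ?_
    rw [resL_insL (mem_anns.mp hs)]
  rw [h1] at h0
  rw [← h0]
  have h2 : ∀ T ∈ (range (2 * n)).powerset,
      pr (fun s => f (resL (2 * n) (eL (2 * n) (rowL (fun i => decide (i ∈ T)) (2 * n) s))))
        ((PsiSV q n fun _ => 1).mapDomain (cupL (2 * n))) =
      ∑ s ∈ anns (2 * n), eval (fun _ => 1) (PsiS q n s) *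
        f (trow (2 * n) (fun k => decide (k ∈ T)) s) := by
    intro T _
    rw [pr_mapDomain, hpr]
    rfl
  rw [Finset.sum_congr rfl h2, Finset.sum_comm, Finset.sum_div]
  refine Finset.sum_congr rfl fun s _ => ?_
  unfold avgL
  rw [← Finset.mul_sum, mul_div_assoc]

end Pool.Agent.Perc
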