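import Pool.Agent.Lib.MP_6bd702_perq.LowB
import Pool.Agent.Lib.MP_6bd702_perq.FSumA
import Pool.Agent.Lib.MP_6bd702_perq.QSchur
import Pool.Agent.Lib.MP_6bd702_perq.StatS

/-!
# The exact value of the pairing at the homogeneous point (task IdentA)
-/

set_option autoImplicit false

namespace Pool.Agent.Perc

open Finset MvPolynomial

variable {q : ℂ}

/-- The constants of the recursion of the pairing. -/
noncomputable def KS (q : ℂ) : ℕ → ℂ
  | 0 => 1
  | m + 1 => KS q m / (3 * q ^ 2 * (9 * q) ^ (2 * m))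

/-- The constants of the recursion of the sum. -/
noncomputable def KF (q : ℂ) : ℕ → ℂ
  | 0 => 1
  | m + 1 => KF q m / (-q * (9 * q) ^ m)

theorem IdentA.q_ne (hq : q ^ 2 + q + 1 = 0) : q ≠ 0 := by
  rintro rfl; norm_num at hq

theorem IdentA.nine_ne (hq : q ^ 2 + q + 1 = 0) : 9 * q ≠ 0 :=
  mul_ne_zero (by norm_num) (IdentA.q_ne hq)

theorem KF_sq (hq : q ^ 2 + q + 1 = 0) (m : ℕ) : KF q m ^ 2 = 3 ^ m * KS q m := by
  have h0 := IdentA.q_ne hq
  have h9 := IdentA.nine_ne hq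
  induction m with
  | zero => simp [KF, KS]
  | succ m ih =>
    rw [KF, KS, div_pow, ih]
    have h1 : (9 * q) ^ (2 * m) = ((9 * q) ^ m) ^ 2 := by rw [← pow_mul, Nat.mul_comm]
    have h2 : (9 * q) ^ m ≠ 0 := pow_ne_zero _ h9
    rw [h1]
    generalize (9 * q) ^ m = t at h2 ⊢
    field_simp
    ring

theorem IdentA.recS_SH (hq : q ^ 2 + q + 1 = 0) :
    RecS q (fun m => 1 / (9 * q) ^ (2 * m)) (fun m => 1 / (3 * q ^ 2 * (9 * q) ^ (2 * m)))
      (SH q) where
  out m k hk := degreeOf_SH_out hq m hk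
  deg m := by
    refine (degreeOf_SH_le hq (m + 1) 0).trans ?_
    omega
  symm m i hi z := eval_SH_swapV hq hi z
  ins m v z := by
    rw [eval_SH_insV hq m v z]
    ring
  low0 m z hz := (coeff_SH hq m hz).1
  low1 m z hz := (coeff_SH hq m hz).2.1
  low2 m z hz := by
    rw [(coeff_SH hq m hz).2.2]
    ring

theorem IdentA.recS_KTP (hq : q ^ 2 + q + 1 = 0) :
    RecS q (fun m => 1 / (9 * q) ^ (2 * m)) (fun m => 1 / (3 * q ^ 2 * (9 * q) ^ (2 * m)))
      (fun m => C (KS q m) * TP m) := by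
  have h0 := IdentA.q_ne hq
  have h9 := IdentA.nine_ne hq
  have hT := recS_TP hq
  refine ⟨?_, ?_, ?_, ?_, ?_, ?_, ?_⟩
  · intro m k hk
    have h1 := degreeOf_C_mul_le (TP m) k (KS q m)
    rw [hT.out m k hk] at h1
    exact Nat.le_zero.1 h1
  · intro m
    exact (degreeOf_C_mul_le _ _ _).trans (hT.deg m)
  · intro m i hi z
    rw [map_mul, map_mul, hT.symm m i hi z, eval_C, eval_C]
  · intro m v z
    rw [map_mul, map_mul, hT.ins m v z, eval_C, eval_C, KS]
    have h2 : (9 * q) ^ (2 * m) ≠ 0 := pow_ne_zero _ h9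
    field_simp
  · intro m z hz
    rw [map_mul, aeval_C, Polynomial.algebraMap_eq, Polynomial.coeff_C_mul, hT.low0 m z hz,
      mul_zero]
  · intro m z hz
    rw [map_mul, aeval_C, Polynomial.algebraMap_eq, Polynomial.coeff_C_mul, hT.low1 m z hz,
      mul_zero]
  · intro m z hz
    rw [map_mul, aeval_C, Polynomial.algebraMap_eq, Polynomial.coeff_C_mul, hT.low2 m z hz,
      map_mul, eval_C, KS]
    ring

theorem eval_SH_eq (hq : q ^ 2 + q + 1 = 0) (m : ℕ) (z : ℕ → ℂ) :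
    eval z (SH q m) = KS q m * eval z (TP m) := by
  have h := RecS.unique hq (IdentA.recS_SH hq) (IdentA.recS_KTP hq) (fun z => by
    rw [eval_SH_zero hq z, map_mul, eval_TP_zero, eval_C, KS, mul_one]) m z
  rw [h, map_mul, eval_C]

theorem IdentA.recF_KGP (hq : q ^ 2 + q + 1 = 0) :
    RecF q (fun m => 1 / (9 * q) ^ m) (fun m => C (KF q m) * GP m) := by
  have h0 := IdentA.q_ne hq
  have h9 := IdentA.nine_ne hq
  have hT := recF_GP hq
  refine ⟨?_, ?_, ?_, ?_⟩
  · intro m k hk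
    have h1 := degreeOf_C_mul_le (GP m) k (KF q m)
    rw [hT.out m k hk] at h1
    exact Nat.le_zero.1 h1
  · intro m
    exact (degreeOf_C_mul_le _ _ _).trans (hT.deg m)
  · intro m i hi z
    rw [map_mul, map_mul, hT.symm m i hi z, eval_C, eval_C]
  · intro m v z
    rw [map_mul, map_mul, hT.ins m v z, eval_C, eval_C, KF]
    have h2 : (9 * q) ^ m ≠ 0 := pow_ne_zero _ h9
    field_simp

theorem eval_FH_eq (hq : q ^ 2 + q + 1 = 0) (m : ℕ) (z : ℕ → ℂ) :
    eval z (FH q m) = KF q m * eval z (GP m) := by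
  have h := RecF.unique hq (recF_FH hq) (IdentA.recF_KGP hq) (fun z => by
    rw [eval_FH_zero hq z, map_mul, eval_GP_zero, eval_C, KF, mul_one]) m z
  rw [h, map_mul, eval_C]

theorem IdentA.KF_ne (hq : q ^ 2 + q + 1 = 0) (m : ℕ) : KF q m ≠ 0 := by
  have h0 := IdentA.q_ne hq
  have h9 := IdentA.nine_ne hq
  induction m with
  | zero => simp [KF]
  | succ m ih =>
    rw [KF]
    exact div_ne_zero ih (mul_ne_zero (neg_ne_zero.2 h0) (pow_ne_zero _ h9))

theorem IdentA.sum_eq (hq : q ^ 2 + q + 1 = 0) (m : ℕ) :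
    ∑ s ∈ anns (2 * m), eval (fun _ => 1) (PsiS q m s) = KF q m * eval (fun _ => 1) (GP m) := by
  rw [← eval_FH_eq hq m, FH, map_sum]

/-- The sum of the components at the homogeneous point is not zero. -/
theorem sum_PsiS_ne (hq : q ^ 2 + q + 1 = 0) (m : ℕ) :
    ∑ s ∈ anns (2 * m), eval (fun _ => 1) (PsiS q m s) ≠ 0 := by
  rw [IdentA.sum_eq hq m]
  exact mul_ne_zero (IdentA.KF_ne hq m) (eval_GP_one_ne m)

theorem IdentA.TP_one (m : ℕ) : eval (fun _ => 1) (TP m) =
    ((pv m : ℝ) : ℂ) * (3 ^ m * eval (fun _ => 1) (GP m) ^ 2) := by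
  have h1 := eval_GP_one_ne m
  have h2 := eval_GP_one m
  rw [eval_TP_one, pv]
  push_cast at h2 ⊢
  rw [← h2]
  have h3 : (3 : ℂ) ^ m ≠ 0 := pow_ne_zero _ (by norm_num)
  field_simp

/-- The exact value of the pairing at the homogeneous point. -/
theorem pairing_one (hq : q ^ 2 + q + 1 = 0) (m : ℕ) :
    ∑ s' ∈ anns (2 * m), ∑ s ∈ anns (2 * m), eval (fun _ => 1) (PsiS q m s') *
      eval (fun _ => 1) (PsiS q m s) * BS (2 * m) s' s =
      ((pv m : ℝ) : ℂ) * (∑ s ∈ anns (2 * m), eval (fun _ => 1) (PsiS q m s)) ^ 2 := by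
  have h1 : ∑ s' ∈ anns (2 * m), ∑ s ∈ anns (2 * m), eval (fun _ => 1) (PsiS q m s') *
      eval (fun _ => 1) (PsiS q m s) * BS (2 * m) s' s = eval (fun _ => 1) (SH q m) := by
    rw [SH, map_sum]
    refine Finset.sum_congr rfl fun s' _ => ?_
    rw [map_sum]
    refine Finset.sum_congr rfl fun s _ => ?_
    rw [map_mul, map_mul, eval_C, PsiM, eval_one_recP]
    ring
  rw [h1, eval_SH_eq hq, IdentA.TP_one, IdentA.sum_eq hq, mul_pow, KF_sq hq]
  ring

/-- The stationary law is invariant under the rotation. -/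
theorem sum_PsiS_rotL (hq : q ^ 2 + q + 1 = 0) (m : ℕ) (g : St → ℂ) :
    ∑ s ∈ anns (2 * m), eval (fun _ => 1) (PsiS q m s) * g (rotL (2 * m) s) =
      ∑ s ∈ anns (2 * m), eval (fun _ => 1) (PsiS q m s) * g s := by
  have h1 : (fun k => rotV (2 * m) (fun _ => (1 : ℂ)) k) = fun _ => 1 := by
    funext k
    unfold rotV
    split_ifs <;> rfl
  have h2 := PsiSV_rot hq m (fun _ => 1)
  have h3 := sum_mapDomain (suppA_PsiSV q m fun _ => 1) (φ := rotL (2 * m)) (M := 2 * m)
    (fun s hs => hs.rotL) g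
  rw [← h2] at h3
  have h4 : rotV (2 * m) (fun _ => (1 : ℂ)) = fun _ => 1 := h1
  rw [h4] at h3
  have h5 : ∀ h : St → ℂ, ∑ s ∈ anns (2 * m), PsiSV q m (fun _ => 1) s * h s =
      ∑ s ∈ anns (2 * m), eval (fun _ => 1) (PsiS q m s) * h s := by
    intro h
    refine Finset.sum_congr rfl fun s hs => ?_
    rw [PsiSV_apply _ (mem_anns.1 hs)]
  rw [h5, h5] at h3
  exact h3.symm

open Classical in
/-- The exact value of the pairing restricted to the event that the loop of the site `0` is not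
contractible. -/
theorem sum_NCat (hq : q ^ 2 + q + 1 = 0) {m : ℕ} (hm : 0 < m) :
    ∑ s' ∈ anns (2 * m), ∑ s ∈ anns (2 * m), eval (fun _ => 1) (PsiS q m s') *
      eval (fun _ => 1) (PsiS q m s) *
        (if NCat (2 * m) s' s 0 then BS (2 * m) s' s else 0) =
      ((pv m : ℝ) : ℂ) * (∑ s ∈ anns (2 * m), eval (fun _ => 1) (PsiS q m s)) ^ 2 := by
  have key : ∑ s' ∈ anns (2 * m), ∑ s ∈ anns (2 * m), eval (fun _ => 1) (PsiS q m s') *
      eval (fun _ => 1) (PsiS q m s) * BS (2 * m) (rotL (2 * m) s') (rotL (2 * m) s) =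
      ∑ s' ∈ anns (2 * m), ∑ s ∈ anns (2 * m), eval (fun _ => 1) (PsiS q m s') *
      eval (fun _ => 1) (PsiS q m s) * BS (2 * m) s' s := by
    have h1 : ∀ s' : St, ∑ s ∈ anns (2 * m), eval (fun _ => 1) (PsiS q m s') *
        eval (fun _ => 1) (PsiS q m s) * BS (2 * m) (rotL (2 * m) s') (rotL (2 * m) s) =
        eval (fun _ => 1) (PsiS q m s') * ∑ s ∈ anns (2 * m), eval (fun _ => 1) (PsiS q m s) *
          BS (2 * m) (rotL (2 * m) s') s := by
      intro s'
      rw [← sum_PsiS_rotL hq m (fun s => BS (2 * m) (rotL (2 * m) s') s), Finset.mul_sum]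
      refine Finset.sum_congr rfl fun s _ => ?_
      ring
    have h2 : ∀ s' : St, ∑ s ∈ anns (2 * m), eval (fun _ => 1) (PsiS q m s') *
        eval (fun _ => 1) (PsiS q m s) * BS (2 * m) s' s =
        eval (fun _ => 1) (PsiS q m s') * ∑ s ∈ anns (2 * m), eval (fun _ => 1) (PsiS q m s) *
          BS (2 * m) s' s := by
      intro s'
      rw [Finset.mul_sum]
      refine Finset.sum_congr rfl fun s _ => ?_
      ring
    simp only [h1, h2]
    exact sum_PsiS_rotL hq m (fun s' => ∑ s ∈ anns (2 * m), eval (fun _ => 1) (PsiS q m s) *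
          BS (2 * m) s' s)
  have h3 := pairing_one hq m
  have h4 : (2 : ℂ) * ∑ s' ∈ anns (2 * m), ∑ s ∈ anns (2 * m), eval (fun _ => 1) (PsiS q m s') *
      eval (fun _ => 1) (PsiS q m s) *
        (if NCat (2 * m) s' s 0 then BS (2 * m) s' s else 0) =
      2 * (((pv m : ℝ) : ℂ) * (∑ s ∈ anns (2 * m), eval (fun _ => 1) (PsiS q m s)) ^ 2) := by
    have h7 : 2 * (((pv m : ℝ) : ℂ) * (∑ s ∈ anns (2 * m), eval (fun _ => 1) (PsiS q m s)) ^ 2) =
        ∑ s' ∈ anns (2 * m), ∑ s ∈ anns (2 * m), eval (fun _ => 1) (PsiS q m s') *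
          eval (fun _ => 1) (PsiS q m s) * BS (2 * m) s' s +
        ∑ s' ∈ anns (2 * m), ∑ s ∈ anns (2 * m), eval (fun _ => 1) (PsiS q m s') *
          eval (fun _ => 1) (PsiS q m s) * BS (2 * m) (rotL (2 * m) s') (rotL (2 * m) s) := by
      rw [key, h3, two_mul]
    rw [h7, ← Finset.sum_add_distrib, Finset.mul_sum]
    refine Finset.sum_congr rfl fun s' hs' => ?_
    rw [← Finset.sum_add_distrib, Finset.mul_sum]
    refine Finset.sum_congr rfl fun s hs => ?_
    have h5 := BS_add_BS_rotL (N := 2 * m) (by omega) (mem_anns.1 hs') (mem_anns.1 hs)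
    rw [← mul_add, h5]
    split_ifs <;> ring
  exact mul_left_cancel₀ (by norm_num) h4

end Pool.Agent.Perc
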