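import Pool.Agent.Lib.MP_6bd702_perq.DWG

/-!
# The polynomial solution on the punctured disc: definitions
-/

set_option autoImplicit false

namespace Pool.Agent.Perc

open Finset MvPolynomial

open Classical in
/-- The component of the solution at the state `s` (zero if `s` is not a state). -/
noncomputable def PsiS (q : ℂ) (m : ℕ) (s : St) : MvPolynomial ℕ ℂ :=
  if h : q ^ 2 + q + 1 = 0 ∧ IsAnn (2 * m) s then (exists_dualS h.1 h.2).choose else 0

/-- The finite set of states. -/
noncomputable def anns (N : ℕ) : Finset St := (finite_ann N).toFinset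

theorem mem_anns {N : ℕ} {s : St} : s ∈ anns N ↔ IsAnn N s := by
  rw [anns, Set.Finite.mem_toFinset]; rfl

/-- The vector `Ψ(z)`. -/
noncomputable def PsiSV (q : ℂ) (m : ℕ) (z : ℕ → ℂ) : St →₀ ℂ :=
  ∑ s ∈ anns (2 * m), Finsupp.single s (eval z (PsiS q m s))

end Pool.Agent.Perc
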