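import Pool.Agent.Lib.MP_6bd702_perq.PairC
import Pool.Agent.Lib.MP_6bd702_perq.PsiSDefs

/-!
# The pairing of vectors (task PairE)
-/

set_option autoImplicit false

namespace Pool.Agent.Perc

open Finset

variable {N : ℕ}

/-- Vectors supported on states. -/
def SuppA (N : ℕ) (f : St →₀ ℂ) : Prop := ∀ s, f s ≠ 0 → IsAnn N s

/-- The bilinear extension of the pairing. -/
noncomputable def BV (N : ℕ) (f g : St →₀ ℂ) : ℂ :=
  ∑ s' ∈ anns N, ∑ s ∈ anns N, f s' * g s * BS N s' s

theorem SuppA.add {f g : St →₀ ℂ} (hf : SuppA N f) (hg : SuppA N g) : SuppA N (f + g) := by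
  intro s hs
  by_cases h : f s = 0
  · refine hg s fun h' => hs ?_
    rw [Finsupp.add_apply, h, h', add_zero]
  · exact hf s h

theorem SuppA.smul {f : St →₀ ℂ} (hf : SuppA N f) (c : ℂ) : SuppA N (c • f) := by
  intro s hs
  refine hf s fun h => hs ?_
  rw [Finsupp.smul_apply, h, smul_zero]

theorem PairE.support_subset {f : St →₀ ℂ} (hf : SuppA N f) : f.support ⊆ anns N := by
  intro s hs
  rw [mem_anns]
  exact hf s (Finsupp.mem_support_iff.1 hs)

theorem SuppA.mapDomain {M : ℕ} {f : St →₀ ℂ} (hf : SuppA N f) {φ : St → St}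
    (hφ : ∀ s, IsAnn N s → IsAnn M (φ s)) : SuppA M (f.mapDomain φ) := by
  classical
  intro s hs
  have h1 : s ∈ (f.mapDomain φ).support := Finsupp.mem_support_iff.2 hs
  obtain ⟨t, ht, rfl⟩ := Finset.mem_image.1 (Finsupp.mapDomain_support h1)
  exact hφ t (hf t (Finsupp.mem_support_iff.1 ht))

/-- Sums over the states of a push-forward. -/
theorem sum_mapDomain {M : ℕ} {f : St →₀ ℂ} (hf : SuppA N f) {φ : St → St}
    (hφ : ∀ s, IsAnn N s → IsAnn M (φ s)) (h : St → ℂ) :
    ∑ s ∈ anns M, f.mapDomain φ s * h s = ∑ s ∈ anns N, f s * h (φ s) := by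
  have h1 : (f.mapDomain φ).sum (fun s c => c * h s) = f.sum fun s c => c * h (φ s) :=
    Finsupp.sum_mapDomain_index (fun b => by simp) (fun b m₁ m₂ => by ring)
  rw [Finsupp.sum_of_support_subset _ (PairE.support_subset (hf.mapDomain hφ)) _
    (fun s _ => by simp),
    Finsupp.sum_of_support_subset _ (PairE.support_subset hf) _ (fun s _ => by simp)] at h1
  exact h1

theorem BV_add_left (f g h : St →₀ ℂ) : BV N (f + g) h = BV N f h + BV N g h := by
  unfold BV
  rw [← sum_add_distrib]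
  refine sum_congr rfl fun s' _ => ?_
  rw [← sum_add_distrib]
  refine sum_congr rfl fun s _ => ?_
  rw [Finsupp.add_apply]
  ring

theorem BV_add_right (f g h : St →₀ ℂ) : BV N f (g + h) = BV N f g + BV N f h := by
  unfold BV
  rw [← sum_add_distrib]
  refine sum_congr rfl fun s' _ => ?_
  rw [← sum_add_distrib]
  refine sum_congr rfl fun s _ => ?_
  rw [Finsupp.add_apply]
  ring

theorem BV_smul_left (c : ℂ) (f g : St →₀ ℂ) : BV N (c • f) g = c * BV N f g := by
  unfold BV
  rw [mul_sum]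
  refine sum_congr rfl fun s' _ => ?_
  rw [mul_sum]
  refine sum_congr rfl fun s _ => ?_
  rw [Finsupp.smul_apply, smul_eq_mul]
  ring

theorem BV_smul_right (c : ℂ) (f g : St →₀ ℂ) : BV N f (c • g) = c * BV N f g := by
  unfold BV
  rw [mul_sum]
  refine sum_congr rfl fun s' _ => ?_
  rw [mul_sum]
  refine sum_congr rfl fun s _ => ?_
  rw [Finsupp.smul_apply, smul_eq_mul]
  ring

/-- Push-forward of the first vector. -/
theorem PairE.BV_map_left {M : ℕ} {f : St →₀ ℂ} (hf : SuppA N f) {φ : St → St}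
    (hφ : ∀ s, IsAnn N s → IsAnn M (φ s)) (g : St →₀ ℂ) :
    BV M (f.mapDomain φ) g = ∑ s' ∈ anns N, ∑ s ∈ anns M, f s' * g s * BS M (φ s') s := by
  unfold BV
  have h1 := sum_mapDomain hf hφ fun s' => ∑ s ∈ anns M, g s * BS M s' s
  refine Eq.trans ?_ (h1.trans ?_)
  · refine sum_congr rfl fun s' _ => ?_
    rw [mul_sum]
    exact sum_congr rfl fun s _ => by ring
  · refine sum_congr rfl fun s' _ => ?_
    rw [mul_sum]
    exact sum_congr rfl fun s _ => by ring

/-- Push-forward of the second vector. -/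
theorem PairE.BV_map_right {M : ℕ} {g : St →₀ ℂ} (hg : SuppA N g) {φ : St → St}
    (hφ : ∀ s, IsAnn N s → IsAnn M (φ s)) (f : St →₀ ℂ) :
    BV M f (g.mapDomain φ) = ∑ s' ∈ anns M, ∑ s ∈ anns N, f s' * g s * BS M s' (φ s) := by
  unfold BV
  refine sum_congr rfl fun s' _ => ?_
  have h1 := sum_mapDomain hg hφ fun s => f s' * BS M s' s
  refine Eq.trans ?_ (h1.trans ?_)
  · exact sum_congr rfl fun s _ => by ring
  · exact sum_congr rfl fun s _ => by ring

theorem BV_eL {f g : St →₀ ℂ} (hf : SuppA N f) (hg : SuppA N g) {i : ℕ} (hi : i + 1 < N) :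
    BV N (f.mapDomain (eL i)) g = BV N f (g.mapDomain (eL i)) := by
  rw [PairE.BV_map_left hf (fun s hs => hs.eL hi), PairE.BV_map_right hg (fun s hs => hs.eL hi)]
  refine sum_congr rfl fun s' hs' => sum_congr rfl fun s hs => ?_
  rw [BS_eL (mem_anns.1 hs') (mem_anns.1 hs) hi]

theorem eV_idem {f : St →₀ ℂ} (hf : SuppA N f) {i : ℕ} (hi : i + 1 < N) :
    (f.mapDomain (eL i)).mapDomain (eL i) = f.mapDomain (eL i) := by
  rw [← Finsupp.mapDomain_comp]
  refine Finsupp.mapDomain_congr fun s hs => ?_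
  exact eL_idem (hf s (Finsupp.mem_support_iff.1 hs)) hi

theorem BV_insL_insL {f g : St →₀ ℂ} (hf : SuppA N f) (hg : SuppA N g) {i : ℕ} (hi : i ≤ N) :
    BV (N + 2) (f.mapDomain (insL i)) (g.mapDomain (insL i)) = BV N f g := by
  rw [PairE.BV_map_left hf (fun s hs => hs.insL hi)]
  unfold BV
  refine sum_congr rfl fun s' hs' => ?_
  have h1 := sum_mapDomain hg (fun s hs => hs.insL hi) fun s => f s' * BS (N + 2) (insL i s') s
  refine Eq.trans ?_ (h1.trans ?_)
  · exact sum_congr rfl fun s _ => by ring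
  · refine sum_congr rfl fun s hs => ?_
    rw [BS_insL_insL (mem_anns.1 hs') (mem_anns.1 hs) hi]
    ring

theorem BV_cupL_cupL {f g : St →₀ ℂ} (hf : SuppA N f) (hg : SuppA N g) :
    BV (N + 2) (f.mapDomain (cupL N)) (g.mapDomain (cupL N)) = -BV N f g := by
  rw [PairE.BV_map_left hf (fun s hs => hs.cupL)]
  unfold BV
  rw [← sum_neg_distrib]
  refine sum_congr rfl fun s' hs' => ?_
  have h1 := sum_mapDomain hg (fun s hs => hs.cupL) fun s => f s' * BS (N + 2) (cupL N s') s
  rw [← sum_neg_distrib]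
  refine Eq.trans ?_ (h1.trans ?_)
  · exact sum_congr rfl fun s _ => by ring
  · refine sum_congr rfl fun s hs => ?_
    rw [BS_cupL_cupL (mem_anns.1 hs') (mem_anns.1 hs)]
    ring

/-- Contraction: if `e_i f' = ins_i f` then the pairing of `f'` with `ins_i g` is that of `f`
with `g`. -/
theorem BV_insL_right {f' f g : St →₀ ℂ} (hf' : SuppA (N + 2) f') (hf : SuppA N f)
    (hg : SuppA N g) {i : ℕ} (hi : i ≤ N) (he : f'.mapDomain (eL i) = f.mapDomain (insL i)) :
    BV (N + 2) f' (g.mapDomain (insL i)) = BV N f g := by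
  have h1 : f'.mapDomain (capL i) = f := by
    have h2 : f'.mapDomain (capL i) = (f'.mapDomain (eL i)).mapDomain (capL i) := by
      rw [← Finsupp.mapDomain_comp]
      refine Finsupp.mapDomain_congr fun s hs => ?_
      exact (capL_eL (hf' s (Finsupp.mem_support_iff.1 hs)) hi).symm
    rw [h2, he, ← Finsupp.mapDomain_comp]
    conv_rhs => rw [← Finsupp.mapDomain_id (v := f)]
    refine Finsupp.mapDomain_congr fun s hs => ?_
    exact capL_insL (hf s (Finsupp.mem_support_iff.1 hs)) hi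
  have h3 : BV (N + 2) f' (g.mapDomain (insL i)) = BV N (f'.mapDomain (capL i)) g := by
    rw [PairE.BV_map_right hg (fun s hs => hs.insL hi),
      PairE.BV_map_left hf' (fun s hs => hs.capL hi)]
    refine sum_congr rfl fun s' hs' => sum_congr rfl fun s hs => ?_
    rw [BS_insL (mem_anns.1 hs') (mem_anns.1 hs) hi]
  rw [h3, h1]

/-- Two operators which are inverse to the adjoint of each other. -/
theorem BV_adj {q : ℂ} (hq : q ^ 2 + q + 1 = 0) {f g : St →₀ ℂ} (hf : SuppA N f)
    (hg : SuppA N g) {i : ℕ} (hi : i + 1 < N) :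
    BV N ((-q ^ 2) • f + (-q) • f.mapDomain (eL i)) ((-q) • g + (-q ^ 2) • g.mapDomain (eL i)) =
      BV N f g := by
  have h1 := BV_eL hf hg hi
  have h2 : BV N (f.mapDomain (eL i)) (g.mapDomain (eL i)) = BV N f (g.mapDomain (eL i)) := by
    rw [BV_eL hf (hg.mapDomain fun s hs => hs.eL hi) hi, eV_idem hg hi]
  rw [BV_add_left, BV_smul_left, BV_smul_left, BV_add_right, BV_add_right, BV_smul_right,
    BV_smul_right, BV_smul_right, BV_smul_right, h1, h2]
  have h3 : q ^ 3 = 1 := by linear_combination (q - 1) * hq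
  linear_combination (BV N f g) * h3 + (BV N f (g.mapDomain (eL i))) * (q ^ 2) * hq

end Pool.Agent.Perc
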