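import Mathlib

/-!
# Reciprocal polynomials (task RecP)
-/

set_option autoImplicit false

namespace Pool.Agent.Perc

open Finset MvPolynomial

/-- The exponents `N - 1 - d k`, `k < N`. -/
noncomputable def recE (N : ℕ) (d : ℕ →₀ ℕ) : ℕ →₀ ℕ :=
  ∑ k ∈ range N, Finsupp.single k (N - 1 - d k)

/-- The reciprocal polynomial `∏ z_k ^ (N - 1) · P(1 / z)`. -/
noncomputable def recP (N : ℕ) (P : MvPolynomial ℕ ℂ) : MvPolynomial ℕ ℂ :=
  ∑ d ∈ P.support, monomial (recE N d) (coeff d P)

namespace RecP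

theorem recE_apply (N : ℕ) (d : ℕ →₀ ℕ) (k : ℕ) :
    recE N d k = if k < N then N - 1 - d k else 0 := by
  unfold recE
  rw [Finsupp.finsetSum_apply]
  simp only [Finsupp.single_apply]
  rw [Finset.sum_ite_eq' (range N) k (fun j => N - 1 - d j)]
  simp only [Finset.mem_range]

theorem recE_prod (N : ℕ) (d : ℕ →₀ ℕ) (z : ℕ → ℂ) :
    ((recE N d).prod fun k e => z k ^ e) = ∏ k ∈ range N, z k ^ (N - 1 - d k) := by
  rw [Finsupp.prod_of_support_subset (s := range N)]
  · refine Finset.prod_congr rfl fun k hk => ?_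
    rw [recE_apply, if_pos (Finset.mem_range.1 hk)]
  · intro k hk
    rw [Finset.mem_range]
    by_contra hc
    rw [Finsupp.mem_support_iff, recE_apply, if_neg hc] at hk
    exact hk rfl
  · intro k _
    exact pow_zero _

theorem eval_recP_eq (N : ℕ) (P : MvPolynomial ℕ ℂ) (z : ℕ → ℂ) :
    eval z (recP N P) = ∑ d ∈ P.support, coeff d P * ∏ k ∈ range N, z k ^ (N - 1 - d k) := by
  unfold recP
  rw [map_sum]
  refine Finset.sum_congr rfl fun d _ => ?_
  rw [eval_monomial, recE_prod]

end RecP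

open RecP

theorem eval_recP (N : ℕ) {P : MvPolynomial ℕ ℂ} (h : ∀ k < N, P.degreeOf k ≤ N - 1)
    (h' : ∀ k, N ≤ k → P.degreeOf k = 0) {z : ℕ → ℂ} (hz : ∀ k < N, z k ≠ 0) :
    eval z (recP N P) = (∏ k ∈ range N, z k ^ (N - 1)) * eval (fun k => (z k)⁻¹) P := by
  rw [eval_recP_eq, eval_eq, Finset.mul_sum]
  refine Finset.sum_congr rfl fun d hd => ?_
  have hsub : d.support ⊆ range N := by
    intro k hk
    rw [Finset.mem_range]
    by_contra hc
    have h1 : d k ≤ P.degreeOf k := MvPolynomial.monomial_le_degreeOf k hd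
    rw [h' k (not_lt.1 hc)] at h1
    exact (Finsupp.mem_support_iff.1 hk) (Nat.le_zero.1 h1)
  have h2 : (∏ i ∈ d.support, (z i)⁻¹ ^ d i) = ∏ i ∈ range N, (z i)⁻¹ ^ d i := by
    refine Finset.prod_subset hsub fun k _ hk => ?_
    rw [Finsupp.notMem_support_iff.1 hk, pow_zero]
  rw [h2]
  have h3 : (∏ k ∈ range N, z k ^ (N - 1 - d k))
      = (∏ k ∈ range N, z k ^ (N - 1)) * ∏ i ∈ range N, (z i)⁻¹ ^ d i := by
    rw [← Finset.prod_mul_distrib]
    refine Finset.prod_congr rfl fun k hk => ?_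
    have hk' := Finset.mem_range.1 hk
    have h4 : d k ≤ N - 1 := (MvPolynomial.monomial_le_degreeOf k hd).trans (h k hk')
    rw [inv_pow, ← div_eq_mul_inv, pow_sub₀ _ (hz k hk') h4, div_eq_mul_inv]
  rw [h3]
  ring

theorem eval_one_recP (N : ℕ) (P : MvPolynomial ℕ ℂ) :
    eval (fun _ => 1) (recP N P) = eval (fun _ => 1) P := by
  rw [eval_recP_eq, eval_eq]
  simp

theorem degreeOf_recP_le (N : ℕ) (P : MvPolynomial ℕ ℂ) (k : ℕ) :
    (recP N P).degreeOf k ≤ N - 1 := by
  unfold recP
  refine (MvPolynomial.degreeOf_sum_le k P.support _).trans ?_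
  refine Finset.sup_le fun d _ => ?_
  refine (MvPolynomial.degreeOf_le_iff).2 fun e he => ?_
  have he' : e = recE N d := by
    have := MvPolynomial.support_monomial_subset he
    exact Finset.mem_singleton.1 this
  rw [he', recE_apply]
  split_ifs
  · exact Nat.sub_le _ _
  · exact Nat.zero_le _

theorem degreeOf_recP_out (N : ℕ) (P : MvPolynomial ℕ ℂ) {k : ℕ} (hk : N ≤ k) :
    (recP N P).degreeOf k = 0 := by
  refine Nat.le_zero.1 ?_
  unfold recP
  refine (MvPolynomial.degreeOf_sum_le k P.support _).trans ?_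
  refine Finset.sup_le fun d _ => ?_
  refine (MvPolynomial.degreeOf_le_iff).2 fun e he => ?_
  have he' : e = recE N d := by
    have := MvPolynomial.support_monomial_subset he
    exact Finset.mem_singleton.1 this
  rw [he', recE_apply, if_neg (not_lt.2 hk)]

/-- Exponents which never reach `2 (N - 1)` in two variables: the reciprocal polynomial vanishes
when two variables vanish. -/
theorem eval_recP_eq_zero (N : ℕ) {P : MvPolynomial ℕ ℂ} {i j : ℕ} (hij : i ≠ j) (hi : i < N)
    (hj : j < N) (h : ∀ d ∈ P.support, d i + d j < 2 * (N - 1)) {z : ℕ → ℂ} (hzi : z i = 0)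
    (hzj : z j = 0) : eval z (recP N P) = 0 := by
  have _ := hij
  rw [eval_recP_eq]
  refine Finset.sum_eq_zero fun d hd => ?_
  have h1 := h d hd
  have h2 : d i < N - 1 ∨ d j < N - 1 := by omega
  rcases h2 with h2 | h2
  · rw [Finset.prod_eq_zero (Finset.mem_range.2 hi), mul_zero]
    rw [hzi, zero_pow]
    omega
  · rw [Finset.prod_eq_zero (Finset.mem_range.2 hj), mul_zero]
    rw [hzj, zero_pow]
    omega

/-- Two polynomials in the first `N` variables which agree when no variable vanishes are equal. -/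
theorem eval_eq_of_forall_ne_zero (N : ℕ) {P Q : MvPolynomial ℕ ℂ}
    (h : ∀ z : ℕ → ℂ, (∀ k, z k ≠ 0) → eval z P = eval z Q) : P = Q := by
  have _ := N
  have key : (∏ k ∈ P.vars ∪ Q.vars, (X k : MvPolynomial ℕ ℂ)) * P
      = (∏ k ∈ P.vars ∪ Q.vars, (X k : MvPolynomial ℕ ℂ)) * Q := by
    refine MvPolynomial.funext fun z => ?_
    rw [map_mul, map_mul, map_prod]
    simp only [eval_X]
    by_cases hz : ∀ k ∈ P.vars ∪ Q.vars, z k ≠ 0
    · congr 1
      classical
      let z' : ℕ → ℂ := fun k => if k ∈ P.vars ∪ Q.vars then z k else 1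
      have hP : eval z P = eval z' P := by
        refine MvPolynomial.eval₂Hom_congr' rfl (fun k hk _ => ?_) rfl
        have : k ∈ P.vars ∪ Q.vars := Finset.mem_union_left _ hk
        show z k = if k ∈ P.vars ∪ Q.vars then z k else 1
        rw [if_pos this]
      have hQ : eval z Q = eval z' Q := by
        refine MvPolynomial.eval₂Hom_congr' rfl (fun k hk _ => ?_) rfl
        have : k ∈ P.vars ∪ Q.vars := Finset.mem_union_right _ hk
        show z k = if k ∈ P.vars ∪ Q.vars then z k else 1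
        rw [if_pos this]
      rw [hP, hQ]
      refine h z' fun k => ?_
      show (if k ∈ P.vars ∪ Q.vars then z k else 1) ≠ 0
      split_ifs with hk
      · exact hz k hk
      · exact one_ne_zero
    · push Not at hz
      obtain ⟨k, hk, hk0⟩ := hz
      rw [Finset.prod_eq_zero hk hk0, zero_mul, zero_mul]
  refine mul_left_cancel₀ ?_ key
  exact Finset.prod_ne_zero_iff.2 fun k _ => X_ne_zero k

end Pool.Agent.Perc
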