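import Pool.Agent.Lib.MP_6bd702_perq.PsiSB
import Pool.Agent.Lib.MP_6bd702_perq.PairE
import Pool.Agent.Lib.MP_6bd702_perq.RecP

/-!
# The reciprocal solution (task PsiMA)
-/

set_option autoImplicit false

namespace Pool.Agent.Perc

open Finset MvPolynomial

variable {q : ℂ} {m : ℕ} {s : St}

/-- The components of the reciprocal solution `∏ z_k ^ (2 m - 1) · Ψ(1 / z)`. -/
noncomputable def PsiM (q : ℂ) (m : ℕ) (s : St) : MvPolynomial ℕ ℂ := recP (2 * m) (PsiS q m s)

/-- The reciprocal solution. -/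
noncomputable def PsiMV (q : ℂ) (m : ℕ) (z : ℕ → ℂ) : St →₀ ℂ :=
  ∑ s ∈ anns (2 * m), Finsupp.single s (eval z (PsiM q m s))

theorem suppA_PsiSV (q : ℂ) (m : ℕ) (z : ℕ → ℂ) : SuppA (2 * m) (PsiSV q m z) := by
  intro s hs
  by_contra h
  exact hs (PsiSV_apply_of_not z h)

namespace PsiMA

theorem PsiMV_apply_of_not (z : ℕ → ℂ) (hs : ¬ IsAnn (2 * m) s) : PsiMV q m z s = 0 := by
  classical
  unfold PsiMV
  rw [Finsupp.finsetSum_apply]
  refine Finset.sum_eq_zero fun b hb => ?_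
  rw [Finsupp.single_eq_of_ne]
  rintro rfl
  exact hs (mem_anns.mp hb)

/-- Push-forwards of maps which agree on the states. -/
theorem mapDomain_congr_ann {N : ℕ} {f : St →₀ ℂ} (hf : SuppA N f) {φ ψ : St → St}
    (h : ∀ s, IsAnn N s → φ s = ψ s) : f.mapDomain φ = f.mapDomain ψ :=
  Finsupp.mapDomain_congr fun s hs => h s (hf s (Finsupp.mem_support_iff.mp hs))

end PsiMA

open PsiMA

theorem suppA_PsiMV (q : ℂ) (m : ℕ) (z : ℕ → ℂ) : SuppA (2 * m) (PsiMV q m z) := by
  intro s hs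
  by_contra h
  exact hs (PsiMV_apply_of_not z h)

theorem PsiMV_apply (z : ℕ → ℂ) (hs : IsAnn (2 * m) s) :
    PsiMV q m z s = eval z (PsiM q m s) := by
  classical
  unfold PsiMV
  rw [Finsupp.finsetSum_apply, Finset.sum_eq_single s]
  · rw [Finsupp.single_eq_same]
  · intro b _ hb
    rw [Finsupp.single_eq_of_ne (Ne.symm hb)]
  · intro h
    exact absurd (mem_anns.mpr hs) h

theorem degreeOf_PsiS_le (hq : q ^ 2 + q + 1 = 0) (m : ℕ) (s : St) (k : ℕ) :
    (PsiS q m s).degreeOf k ≤ 2 * m - 1 := by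
  by_cases hk : k < 2 * m
  · rw [degreeOf_eq_sup]
    refine Finset.sup_le fun d hd => ?_
    have h := (dw_PsiS hq m s).maj d hd {k} (by simpa using hk)
    simpa using h
  · rw [(dw_PsiS hq m s).out k (by omega)]
    exact Nat.zero_le _

theorem PsiMV_eq (hq : q ^ 2 + q + 1 = 0) (m : ℕ) {z : ℕ → ℂ} (hz : ∀ k < 2 * m, z k ≠ 0) :
    PsiMV q m z = (∏ k ∈ range (2 * m), z k ^ (2 * m - 1)) • PsiSV q m fun k => (z k)⁻¹ := by
  classical
  ext s
  rw [Finsupp.smul_apply, smul_eq_mul]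
  by_cases hs : IsAnn (2 * m) s
  · rw [PsiMV_apply _ hs, PsiSV_apply _ hs]
    exact eval_recP (2 * m) (fun k _ => degreeOf_PsiS_le hq m s k) (dw_PsiS hq m s).out hz
  · rw [PsiMV_apply_of_not _ hs, PsiSV_apply_of_not _ hs, mul_zero]

namespace PsiMA

/-- Continuous functions which agree where no variable vanishes. -/
theorem ext_ne {F G : (ℕ → ℂ) → ℂ} (hF : Continuous F) (hG : Continuous G)
    (h : ∀ z : ℕ → ℂ, (∀ k, z k ≠ 0) → F z = G z) (z : ℕ → ℂ) : F z = G z := by
  have hd : Dense (Set.pi Set.univ (fun _ : ℕ => ({0}ᶜ : Set ℂ))) :=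
    dense_pi Set.univ fun i _ => dense_compl_singleton 0
  have h1 := Continuous.ext_on hd hF hG fun z hz => h z fun k => hz k (Set.mem_univ k)
  rw [h1]

theorem ext_ne_one {F G : ℂ → ℂ} (hF : Continuous F) (hG : Continuous G)
    (h : ∀ v : ℂ, v ≠ 0 → F v = G v) (v : ℂ) : F v = G v := by
  have h1 := Continuous.ext_on (dense_compl_singleton (0 : ℂ)) hF hG fun z hz => h z hz
  rw [h1]

theorem cont_PsiMV {α : Type} [TopologicalSpace α] {f : α → ℕ → ℂ}
    (hf : ∀ k, Continuous fun a => f a k) (s : St) :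
    Continuous fun a => PsiMV q m (f a) s := by
  by_cases hs : IsAnn (2 * m) s
  · simp only [PsiMV_apply _ hs]
    exact (MvPolynomial.continuous_eval _).comp (continuous_pi hf)
  · simp only [PsiMV_apply_of_not _ hs]
    exact continuous_const

theorem mapDomain_PsiMV (q : ℂ) (m : ℕ) (z : ℕ → ℂ) (f : St → St) :
    (PsiMV q m z).mapDomain f =
      ∑ s ∈ anns (2 * m), Finsupp.single (f s) (eval z (PsiM q m s)) := by
  unfold PsiMV
  rw [Finsupp.mapDomain_finsetSum]
  exact Finset.sum_congr rfl fun π _ => Finsupp.mapDomain_single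

open Classical in
theorem mapDomain_PsiMV_apply (q : ℂ) (m : ℕ) (z : ℕ → ℂ) (f : St → St) (s : St) :
    (PsiMV q m z).mapDomain f s =
      ∑ p ∈ anns (2 * m), (if f p = s then eval z (PsiM q m p) else 0) := by
  rw [mapDomain_PsiMV, Finsupp.finsetSum_apply]
  refine Finset.sum_congr rfl fun p _ => ?_
  rw [Finsupp.single_apply]

theorem cont_mapDomain {α : Type} [TopologicalSpace α] {f : α → ℕ → ℂ}
    (hf : ∀ k, Continuous fun a => f a k) (φ : St → St) (s : St) :
    Continuous fun a => (PsiMV q m (f a)).mapDomain φ s := by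
  classical
  simp only [mapDomain_PsiMV_apply]
  refine continuous_finsetSum _ fun p _ => ?_
  by_cases h : φ p = s
  · simp only [if_pos h]
    exact (MvPolynomial.continuous_eval _).comp (continuous_pi hf)
  · simp only [if_neg h]
    exact continuous_const

theorem prod_insV {N i : ℕ} (hi : i ≤ N) (x y : ℂ) (z : ℕ → ℂ) (g : ℂ → ℂ) :
    ∏ k ∈ range (N + 2), g (insV i x y z k) = g x * g y * ∏ k ∈ range N, g (z k) := by
  obtain ⟨j, rfl⟩ := Nat.exists_eq_add_of_le hi
  rw [show i + j + 2 = i + 2 + j by ring, Finset.prod_range_add _ (i + 2) j,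
    Finset.prod_range_add _ i j, Finset.prod_range_succ, Finset.prod_range_succ]
  have h1 : ∏ k ∈ range i, g (insV i x y z k) = ∏ k ∈ range i, g (z k) :=
    Finset.prod_congr rfl fun k hk => by
      have := mem_range.mp hk
      unfold insV
      rw [if_pos this]
  have h2 : ∏ k ∈ range j, g (insV i x y z (i + 2 + k)) = ∏ k ∈ range j, g (z (i + k)) :=
    Finset.prod_congr rfl fun k _ => by
      unfold insV
      rw [if_neg (by omega), if_neg (by omega), if_neg (by omega)]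
      congr 2
      omega
  have h3 : insV i x y z i = x := by simp [insV]
  have h4 : insV i x y z (i + 1) = y := by simp [insV]
  rw [h1, h2, h3, h4]
  ring

/-- The scalar in the recursion. -/
theorem scal (hq : q ^ 2 + q + 1 = 0) (m : ℕ) {v : ℂ} (hv : v ≠ 0) {z : ℕ → ℂ}
    (hz : ∀ k, z k ≠ 0) :
    (v ^ (2 * (m + 1) - 1) * (q ^ 2 * v) ^ (2 * (m + 1) - 1) *
      ∏ k ∈ range (2 * m), z k ^ (2 * (m + 1) - 1)) *
      ((q / v) * (∏ k ∈ range (2 * m), ((z k)⁻¹ - q * (q / v)) ^ 2) / (9 * q) ^ m) =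
    (v * (∏ k ∈ range (2 * m), (z k - q * v) ^ 2) / (9 * q) ^ m) *
      ∏ k ∈ range (2 * m), z k ^ (2 * m - 1) := by
  have hq3 : q ^ 3 = 1 := by linear_combination (q - 1) * hq
  have h1 : (∏ k ∈ range (2 * m), z k ^ (2 * (m + 1) - 1)) *
      (∏ k ∈ range (2 * m), ((z k)⁻¹ - q * (q / v)) ^ 2) =
      (q / v ^ 2) ^ (2 * m) * ((∏ k ∈ range (2 * m), z k ^ (2 * m - 1)) *
        (∏ k ∈ range (2 * m), (z k - q * v) ^ 2)) := by
    rw [← Finset.prod_mul_distrib, ← Finset.prod_mul_distrib]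
    have h2 : (q / v ^ 2) ^ (2 * m) = ∏ k ∈ range (2 * m), (q / v ^ 2) := by
      rw [Finset.prod_const, Finset.card_range]
    rw [h2, ← Finset.prod_mul_distrib]
    refine Finset.prod_congr rfl fun k hk => ?_
    have hk := mem_range.mp hk
    have e : 2 * (m + 1) - 1 = (2 * m - 1) + 2 := by omega
    rw [e, pow_add]
    have h3 : z k ^ 2 * ((z k)⁻¹ - q * (q / v)) ^ 2 = q / v ^ 2 * (z k - q * v) ^ 2 := by
      have h4 := hz k
      field_simp
      linear_combination (q * z k ^ 2 - v ^ 2) * hq3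
    linear_combination z k ^ (2 * m - 1) * h3
  have h5 : v ^ (2 * (m + 1) - 1) * (q ^ 2 * v) ^ (2 * (m + 1) - 1) * (q / v) *
      (q / v ^ 2) ^ (2 * m) = v := by
    have e : 2 * (m + 1) - 1 = 2 * m + 1 := by omega
    have h7 : (q ^ 2) ^ (2 * m + 1) * q * q ^ (2 * m) = 1 := by
      have : (q ^ 2) ^ (2 * m + 1) * q * q ^ (2 * m) = (q ^ 3) ^ (2 * m + 1) := by ring
      rw [this, hq3, one_pow]
    have h8 : v ^ (2 * m + 1) * v ^ (2 * m + 1) * v⁻¹ * ((v ^ 2) ^ (2 * m))⁻¹ = v := by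
      have h9 : v ^ (2 * m + 1) * v ^ (2 * m + 1) = (v ^ 2) ^ (2 * m) * v * v := by ring
      rw [h9, mul_assoc _ v v⁻¹, mul_inv_cancel₀ hv, mul_one, mul_comm, ← mul_assoc,
        inv_mul_cancel₀ (pow_ne_zero _ (pow_ne_zero _ hv)), one_mul]
    calc _ = (q ^ 2) ^ (2 * m + 1) * q * q ^ (2 * m) *
          (v ^ (2 * m + 1) * v ^ (2 * m + 1) * v⁻¹ * ((v ^ 2) ^ (2 * m))⁻¹) := by
          rw [e, div_pow, mul_pow, div_eq_mul_inv, div_eq_mul_inv]; ring
      _ = v := by rw [h7, h8, one_mul]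
  calc _ = (v ^ (2 * (m + 1) - 1) * (q ^ 2 * v) ^ (2 * (m + 1) - 1) * (q / v)) *
        ((∏ k ∈ range (2 * m), z k ^ (2 * (m + 1) - 1)) *
      (∏ k ∈ range (2 * m), ((z k)⁻¹ - q * (q / v)) ^ 2)) / (9 * q) ^ m := by ring
    _ = (v ^ (2 * (m + 1) - 1) * (q ^ 2 * v) ^ (2 * (m + 1) - 1) * (q / v) *
      (q / v ^ 2) ^ (2 * m)) * ((∏ k ∈ range (2 * m), z k ^ (2 * m - 1)) *
        (∏ k ∈ range (2 * m), (z k - q * v) ^ 2)) / (9 * q) ^ m := by rw [h1]; ring
    _ = _ := by rw [h5]; ring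

end PsiMA

/-- Exchange relation. -/
theorem exchangeM (hq : q ^ 2 + q + 1 = 0) {i : ℕ} (hi : i + 1 < 2 * m) (z : ℕ → ℂ) :
    (q * z i - q ^ 2 * z (i + 1)) • PsiMV q m (swapV i z) =
      (q * z (i + 1) - q ^ 2 * z i) • PsiMV q m z -
        (z i - z (i + 1)) • (PsiMV q m z).mapDomain (eL i) := by
  classical
  ext s
  have hsw : ∀ k, Continuous fun z : ℕ → ℂ => swapV i z k := fun k => continuous_apply _
  have hid : ∀ k, Continuous fun z : ℕ → ℂ => z k := fun k => continuous_apply _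
  refine ext_ne
    (F := fun z => ((q * z i - q ^ 2 * z (i + 1)) • PsiMV q m (swapV i z)) s)
    (G := fun z => ((q * z (i + 1) - q ^ 2 * z i) • PsiMV q m z -
        (z i - z (i + 1)) • (PsiMV q m z).mapDomain (eL i)) s) ?_ ?_ ?_ z
  · simp only [Finsupp.smul_apply, smul_eq_mul]
    exact (by fun_prop : Continuous fun z : ℕ → ℂ => q * z i - q ^ 2 * z (i + 1)).mul
      (cont_PsiMV hsw s)
  · simp only [Finsupp.smul_apply, smul_eq_mul, Finsupp.sub_apply]
    exact ((by fun_prop : Continuous fun z : ℕ → ℂ => q * z (i + 1) - q ^ 2 * z i).mul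
      (cont_PsiMV hid s)).sub
      ((by fun_prop : Continuous fun z : ℕ → ℂ => z i - z (i + 1)).mul (cont_mapDomain hid _ s))
  · intro z hz
    have hz2 : ∀ k < 2 * m, swapV i z k ≠ 0 := fun k _ => hz _
    have hc : ∏ k ∈ range (2 * m), swapV i z k ^ (2 * m - 1) =
        ∏ k ∈ range (2 * m), z k ^ (2 * m - 1) := by
      refine Equiv.Perm.prod_comp (Equiv.swap i (i + 1)) (range (2 * m))
        (fun k => z k ^ (2 * m - 1)) ?_
      intro a ha
      by_contra hcon
      have hcon' : ¬ a < 2 * m := fun h => hcon (by simpa using h)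
      exact ha (Equiv.swap_apply_of_ne_of_ne (by omega) (by omega))
    have h := exchangeS hq hi (fun k => (z k)⁻¹)
    have h1 := PsiMV_eq hq m (fun k _ => hz k)
    have h2 := PsiMV_eq hq m hz2
    rw [hc] at h2
    have h3 : (fun k => (swapV i z k)⁻¹) = swapV i (fun k => (z k)⁻¹) := rfl
    rw [h3] at h2
    rw [h1, h2, Finsupp.mapDomain_smul]
    have h4 := DFunLike.congr_fun h s
    simp only [Finsupp.smul_apply, Finsupp.sub_apply, Finsupp.add_apply, smul_eq_mul] at h4 ⊢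
    have hi1 := hz i
    have hi2 := hz (i + 1)
    have e1 : q * z i - q ^ 2 * z (i + 1) =
      z i * z (i + 1) * (q * (z (i + 1))⁻¹ - q ^ 2 * (z i)⁻¹) := by field_simp
    have e2 : q * z (i + 1) - q ^ 2 * z i =
      z i * z (i + 1) * (q * (z i)⁻¹ - q ^ 2 * (z (i + 1))⁻¹) := by field_simp
    have e3 : z i - z (i + 1) = -(z i * z (i + 1) * ((z i)⁻¹ - (z (i + 1))⁻¹)) := by
      field_simp
      ring
    rw [e1, e2, e3]
    linear_combination (∏ k ∈ range (2 * m), z k ^ (2 * m - 1)) * (z i * z (i + 1)) * h4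

namespace PsiMA

theorem cont_insV {i : ℕ} {v : ℂ} (k : ℕ) :
    Continuous fun z : ℕ → ℂ => insV i v (q ^ 2 * v) z k := by
  unfold insV
  by_cases h1 : k < i
  · simp only [if_pos h1]
    exact continuous_apply _
  · by_cases h2 : k = i
    · simp only [if_neg h1, if_pos h2]
      exact continuous_const
    · by_cases h3 : k = i + 1
      · simp only [if_neg h1, if_neg h2, if_pos h3]
        exact continuous_const
      · simp only [if_neg h1, if_neg h2, if_neg h3]
        exact continuous_apply _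

theorem cont_insV' {i : ℕ} {z : ℕ → ℂ} (k : ℕ) :
    Continuous fun v : ℂ => insV i v (q ^ 2 * v) z k := by
  unfold insV
  by_cases h1 : k < i
  · simp only [if_pos h1]
    exact continuous_const
  · by_cases h2 : k = i
    · simp only [if_neg h1, if_pos h2]
      exact continuous_id
    · by_cases h3 : k = i + 1
      · simp only [if_neg h1, if_neg h2, if_pos h3]
        fun_prop
      · simp only [if_neg h1, if_neg h2, if_neg h3]
        exact continuous_const

theorem insV_inv (hq : q ^ 2 + q + 1 = 0) {i : ℕ} {v : ℂ} (hv : v ≠ 0) (z : ℕ → ℂ) :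
    (fun k => (insV i v (q ^ 2 * v) z k)⁻¹) =
      insV i (q ^ 2 * (q / v)) (q / v) (fun k => (z k)⁻¹) := by
  have hq3 : q ^ 3 = 1 := by linear_combination (q - 1) * hq
  have hq0 : q ≠ 0 := by
    rintro rfl
    norm_num at hq
  have e1 : v⁻¹ = q ^ 2 * (q / v) := by
    field_simp
    exact hq3.symm
  have e2 : (q ^ 2 * v)⁻¹ = q / v := by
    field_simp
    exact hq3.symm
  funext k
  unfold insV
  split_ifs
  · rfl
  · exact e1
  · exact e2
  · rfl

/-- The recursion where no variable vanishes. -/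
theorem PsiMV_insV_ne (hq : q ^ 2 + q + 1 = 0) (m : ℕ) {i : ℕ} (hi : i ≤ 2 * m) {v : ℂ}
    (hv : v ≠ 0) {z : ℕ → ℂ} (hz : ∀ k, z k ≠ 0) :
    PsiMV q (m + 1) (insV i v (q ^ 2 * v) z) =
      (v * (∏ k ∈ range (2 * m), (z k - q * v) ^ 2) / (9 * q) ^ m) •
        (PsiMV q m z).mapDomain (insL i) := by
  have hq0 : q ≠ 0 := by
    rintro rfl
    norm_num at hq
  have hins : ∀ k < 2 * (m + 1), insV i v (q ^ 2 * v) z k ≠ 0 := by
    intro k _
    unfold insV
    split_ifs
    · exact hz _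
    · exact hv
    · exact mul_ne_zero (pow_ne_zero _ hq0) hv
    · exact hz _
  rw [PsiMV_eq hq (m + 1) hins, PsiMV_eq hq m (fun k _ => hz k), insV_inv hq hv,
    PsiSV_insV hq m hi, Finsupp.mapDomain_smul, smul_smul, smul_smul, ← scal hq m hv hz]
  congr 2
  have h := prod_insV hi v (q ^ 2 * v) z (fun x => x ^ (2 * (m + 1) - 1))
  rw [show 2 * (m + 1) = 2 * m + 2 by ring] at h ⊢
  exact h

end PsiMA

theorem PsiMV_insV (hq : q ^ 2 + q + 1 = 0) (m : ℕ) {i : ℕ} (hi : i ≤ 2 * m) (v : ℂ)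
    (z : ℕ → ℂ) : PsiMV q (m + 1) (insV i v (q ^ 2 * v) z) =
      (v * (∏ k ∈ range (2 * m), (z k - q * v) ^ 2) / (9 * q) ^ m) •
        (PsiMV q m z).mapDomain (insL i) := by
  classical
  have hid : ∀ k, Continuous fun z : ℕ → ℂ => z k := fun k => continuous_apply _
  ext s
  have key : ∀ v : ℂ, v ≠ 0 → ∀ z : ℕ → ℂ, PsiMV q (m + 1) (insV i v (q ^ 2 * v) z) s =
      ((v * (∏ k ∈ range (2 * m), (z k - q * v) ^ 2) / (9 * q) ^ m) •
        (PsiMV q m z).mapDomain (insL i)) s := by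
    intro v hv z
    refine ext_ne (F := fun z => PsiMV q (m + 1) (insV i v (q ^ 2 * v) z) s)
      (G := fun z => ((v * (∏ k ∈ range (2 * m), (z k - q * v) ^ 2) / (9 * q) ^ m) •
        (PsiMV q m z).mapDomain (insL i)) s) ?_ ?_ ?_ z
    · exact cont_PsiMV cont_insV s
    · simp only [Finsupp.smul_apply, smul_eq_mul]
      exact (by fun_prop : Continuous fun z : ℕ → ℂ =>
        v * (∏ k ∈ range (2 * m), (z k - q * v) ^ 2) / (9 * q) ^ m).mul
        (cont_mapDomain hid _ s)
    · intro z hz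
      rw [PsiMV_insV_ne hq m hi hv hz]
  refine ext_ne_one (F := fun v => PsiMV q (m + 1) (insV i v (q ^ 2 * v) z) s)
    (G := fun v => ((v * (∏ k ∈ range (2 * m), (z k - q * v) ^ 2) / (9 * q) ^ m) •
      (PsiMV q m z).mapDomain (insL i)) s) ?_ ?_ (fun v hv => key v hv z) v
  · exact cont_PsiMV cont_insV' s
  · simp only [Finsupp.smul_apply, smul_eq_mul]
    exact (by fun_prop : Continuous fun v : ℂ =>
      v * (∏ k ∈ range (2 * m), (z k - q * v) ^ 2) / (9 * q) ^ m).mul continuous_const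

/-- The reciprocal solution at the point where the solution is an insertion. -/
theorem eL_PsiMV_insV (hq : q ^ 2 + q + 1 = 0) (m : ℕ) {i : ℕ} (hi : i ≤ 2 * m) {v : ℂ}
    (hv : v ≠ 0) (z : ℕ → ℂ) : (PsiMV q (m + 1) (insV i (q ^ 2 * v) v z)).mapDomain (eL i) =
      (v * (∏ k ∈ range (2 * m), (z k - q * v) ^ 2) / (9 * q) ^ m) •
        (PsiMV q m z).mapDomain (insL i) := by
  have hq3 : q ^ 3 = 1 := by linear_combination (q - 1) * hq
  rw [← PsiMV_insV hq m hi v z]
  have h := exchangeM hq (m := m + 1) (i := i) (by omega) (insV i (q ^ 2 * v) v z)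
  have e1 : insV i (q ^ 2 * v) v z i = q ^ 2 * v := by simp [insV]
  have e2 : insV i (q ^ 2 * v) v z (i + 1) = v := by simp [insV]
  have e3 : swapV i (insV i (q ^ 2 * v) v z) = insV i v (q ^ 2 * v) z := by
    funext k
    unfold swapV
    by_cases h1 : k = i
    · subst h1
      rw [Equiv.swap_apply_left, e2]
      simp [insV]
    · by_cases h2 : k = i + 1
      · subst h2
        rw [Equiv.swap_apply_right, e1]
        simp [insV]
      · rw [Equiv.swap_apply_of_ne_of_ne h1 h2]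
        unfold insV
        simp only [if_neg h1, if_neg h2]
  rw [e1, e2, e3] at h
  have c1 : q * (q ^ 2 * v) - q ^ 2 * v = (1 - q ^ 2) * v := by linear_combination v * hq3
  have c2 : q * v - q ^ 2 * (q ^ 2 * v) = 0 := by linear_combination (-(q * v)) * hq3
  have c3 : q ^ 2 * v - v = -((1 - q ^ 2) * v) := by ring
  rw [c1, c2, c3, zero_smul, zero_sub, neg_smul, neg_neg] at h
  have h0 : (1 - q ^ 2) * v ≠ 0 := by
    refine mul_ne_zero ?_ hv
    intro h0
    have h1 : q = -2 := by linear_combination hq + h0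
    rw [h1] at hq
    norm_num at hq
  have h3 := congrArg (fun f => ((1 - q ^ 2) * v)⁻¹ • f) h
  simp only [smul_smul _ ((1 - q ^ 2) * v), inv_mul_cancel₀ h0, one_smul] at h3
  exact h3.symm

/-- The value at `x` at the place `0`, `y` at the place `j`, the other places from `z`. -/
def put2 (j : ℕ) (x y : ℂ) (z : ℕ → ℂ) : ℕ → ℂ := fun k =>
  if k = 0 then x else if k < j then z (k - 1) else if k = j then y else z (k - 2)

/-- Recursion at the seam. -/
theorem PsiSV_seam (hq : q ^ 2 + q + 1 = 0) (m : ℕ) (v : ℂ) (z : ℕ → ℂ) :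
    PsiSV q (m + 1) (put2 (2 * m + 1) v (q ^ 2 * v) z) =
      (v * (∏ k ∈ range (2 * m), (z k - q * v) ^ 2) / (9 * q) ^ m) •
        (PsiSV q m z).mapDomain (cupL (2 * m)) := by
  have hN : 2 * (m + 1) = 2 * m + 2 := by ring
  have h1 : ∀ k < 2 * (m + 1), put2 (2 * m + 1) v (q ^ 2 * v) z k =
      rotV (2 * (m + 1)) (insV 0 (q ^ 2 * v) v z) k := by
    intro k hk
    unfold put2 rotV insV
    by_cases c1 : k = 0
    · subst c1
      rw [if_pos rfl, if_pos (by omega), if_neg (by omega), if_neg (by omega), if_pos (by omega)]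
    · by_cases c2 : k < 2 * m + 1
      · rw [if_neg c1, if_pos c2, if_pos (by omega), if_neg (by omega), if_neg (by omega),
          if_neg (by omega)]
        congr 1
      · rw [if_neg c1, if_neg c2, if_pos (by omega), if_neg (by omega), if_pos (by omega),
          if_neg (by omega), if_pos rfl]
  rw [PsiSV_congr hq h1, PsiSV_rot hq, PsiSV_insV hq m (Nat.zero_le _), Finsupp.mapDomain_smul,
    ← Finsupp.mapDomain_comp]
  congr 1
  refine mapDomain_congr_ann (suppA_PsiSV q m _) fun s hs => ?_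
  change rotL (2 * (m + 1)) (insL 0 s) = cupL (2 * m) s
  rw [hN, rotL_insL_zero hs]

namespace PsiMA

theorem cont_put2 {j : ℕ} {v : ℂ} (k : ℕ) :
    Continuous fun z : ℕ → ℂ => put2 j (q ^ 2 * v) v z k := by
  unfold put2
  by_cases h1 : k = 0
  · simp only [if_pos h1]
    exact continuous_const
  · by_cases h2 : k < j
    · simp only [if_neg h1, if_pos h2]
      exact continuous_apply _
    · by_cases h3 : k = j
      · simp only [if_neg h1, if_neg h2, if_pos h3]
        exact continuous_const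
      · simp only [if_neg h1, if_neg h2, if_neg h3]
        exact continuous_apply _

theorem cont_put2' {j : ℕ} {z : ℕ → ℂ} (k : ℕ) :
    Continuous fun v : ℂ => put2 j (q ^ 2 * v) v z k := by
  unfold put2
  by_cases h1 : k = 0
  · simp only [if_pos h1]
    fun_prop
  · by_cases h2 : k < j
    · simp only [if_neg h1, if_pos h2]
      exact continuous_const
    · by_cases h3 : k = j
      · simp only [if_neg h1, if_neg h2, if_pos h3]
        exact continuous_id
      · simp only [if_neg h1, if_neg h2, if_neg h3]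
        exact continuous_const

theorem put2_inv (hq : q ^ 2 + q + 1 = 0) {j : ℕ} {v : ℂ} (hv : v ≠ 0) (z : ℕ → ℂ) :
    (fun k => (put2 j (q ^ 2 * v) v z k)⁻¹) =
      put2 j (q / v) (q ^ 2 * (q / v)) (fun k => (z k)⁻¹) := by
  have hq3 : q ^ 3 = 1 := by linear_combination (q - 1) * hq
  have hq0 : q ≠ 0 := by
    rintro rfl
    norm_num at hq
  have e1 : v⁻¹ = q ^ 2 * (q / v) := by
    field_simp
    exact hq3.symm
  have e2 : (q ^ 2 * v)⁻¹ = q / v := by
    field_simp
    exact hq3.symm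
  funext k
  unfold put2
  split_ifs
  · exact e2
  · rfl
  · exact e1
  · rfl

theorem prod_put2 (N : ℕ) (x y : ℂ) (z : ℕ → ℂ) (g : ℂ → ℂ) :
    ∏ k ∈ range (N + 2), g (put2 (N + 1) x y z k) = g x * g y * ∏ k ∈ range N, g (z k) := by
  rw [Finset.prod_range_succ, Finset.prod_range_succ']
  have h1 : ∏ k ∈ range N, g (put2 (N + 1) x y z (k + 1)) = ∏ k ∈ range N, g (z k) :=
    Finset.prod_congr rfl fun k hk => by
      have := mem_range.mp hk
      unfold put2
      rw [if_neg (by omega), if_pos (by omega)]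
      rfl
  have h3 : put2 (N + 1) x y z 0 = x := by simp [put2]
  have h4 : put2 (N + 1) x y z (N + 1) = y := by simp [put2]
  rw [h1, h3, h4]
  ring

/-- The recursion at the seam where no variable vanishes. -/
theorem PsiMV_seam_ne (hq : q ^ 2 + q + 1 = 0) (m : ℕ) {v : ℂ}
    (hv : v ≠ 0) {z : ℕ → ℂ} (hz : ∀ k, z k ≠ 0) :
    PsiMV q (m + 1) (put2 (2 * m + 1) (q ^ 2 * v) v z) =
      (v * (∏ k ∈ range (2 * m), (z k - q * v) ^ 2) / (9 * q) ^ m) •
        (PsiMV q m z).mapDomain (cupL (2 * m)) := by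
  have hq0 : q ≠ 0 := by
    rintro rfl
    norm_num at hq
  have hins : ∀ k < 2 * (m + 1), put2 (2 * m + 1) (q ^ 2 * v) v z k ≠ 0 := by
    intro k _
    unfold put2
    split_ifs
    · exact mul_ne_zero (pow_ne_zero _ hq0) hv
    · exact hz _
    · exact hv
    · exact hz _
  rw [PsiMV_eq hq (m + 1) hins, PsiMV_eq hq m (fun k _ => hz k), put2_inv hq hv,
    PsiSV_seam hq m, Finsupp.mapDomain_smul, smul_smul, smul_smul, ← scal hq m hv hz]
  congr 2
  have h := prod_put2 (2 * m) (q ^ 2 * v) v z (fun x => x ^ (2 * (m + 1) - 1))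
  rw [show 2 * (m + 1) = 2 * m + 2 by ring] at h ⊢
  rw [h]
  ring

end PsiMA

theorem PsiMV_seam (hq : q ^ 2 + q + 1 = 0) (m : ℕ) (v : ℂ) (z : ℕ → ℂ) :
    PsiMV q (m + 1) (put2 (2 * m + 1) (q ^ 2 * v) v z) =
      (v * (∏ k ∈ range (2 * m), (z k - q * v) ^ 2) / (9 * q) ^ m) •
        (PsiMV q m z).mapDomain (cupL (2 * m)) := by
  classical
  have hid : ∀ k, Continuous fun z : ℕ → ℂ => z k := fun k => continuous_apply _
  ext s
  have key : ∀ v : ℂ, v ≠ 0 → ∀ z : ℕ → ℂ,
      PsiMV q (m + 1) (put2 (2 * m + 1) (q ^ 2 * v) v z) s =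
      ((v * (∏ k ∈ range (2 * m), (z k - q * v) ^ 2) / (9 * q) ^ m) •
        (PsiMV q m z).mapDomain (cupL (2 * m))) s := by
    intro v hv z
    refine ext_ne (F := fun z => PsiMV q (m + 1) (put2 (2 * m + 1) (q ^ 2 * v) v z) s)
      (G := fun z => ((v * (∏ k ∈ range (2 * m), (z k - q * v) ^ 2) / (9 * q) ^ m) •
        (PsiMV q m z).mapDomain (cupL (2 * m))) s) ?_ ?_ ?_ z
    · exact cont_PsiMV cont_put2 s
    · simp only [Finsupp.smul_apply, smul_eq_mul]
      exact (by fun_prop : Continuous fun z : ℕ → ℂ =>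
        v * (∏ k ∈ range (2 * m), (z k - q * v) ^ 2) / (9 * q) ^ m).mul
        (cont_mapDomain hid _ s)
    · intro z hz
      rw [PsiMV_seam_ne hq m hv hz]
  refine ext_ne_one (F := fun v => PsiMV q (m + 1) (put2 (2 * m + 1) (q ^ 2 * v) v z) s)
    (G := fun v => ((v * (∏ k ∈ range (2 * m), (z k - q * v) ^ 2) / (9 * q) ^ m) •
      (PsiMV q m z).mapDomain (cupL (2 * m))) s) ?_ ?_ (fun v hv => key v hv z) v
  · exact cont_PsiMV cont_put2' s
  · simp only [Finsupp.smul_apply, smul_eq_mul]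
    exact (by fun_prop : Continuous fun v : ℂ =>
      v * (∏ k ∈ range (2 * m), (z k - q * v) ^ 2) / (9 * q) ^ m).mul continuous_const

theorem PsiMV_zero (hq : q ^ 2 + q + 1 = 0) (z : ℕ → ℂ) :
    PsiMV q 0 z = Finsupp.single (nestS 0) 1 := by
  have h := PsiMV_eq hq 0 (z := z) (fun k hk => absurd hk (by omega))
  rw [h, PsiSV_zero hq]
  simp

end Pool.Agent.Perc
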