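import Pool.Agent.Lib.MP_6bd702_perq.TwoA

/-!
# The two-sided cylinder: a non-contractible loop gives two arms (task TwoB)
-/

set_option autoImplicit false

namespace Pool.Agent.Perc

open Finset

variable {L M : ℕ}

/-- The labels of the two ends of an arc agree. -/
theorem TwoB.label_partner {s : St} (h : IsAnn L s) {x : ℕ} (hx : x < L) :
    s.2 (s.1 x) = s.2 x := by
  obtain ⟨g, -, hg⟩ := h.mark
  have h1 := hg x hx
  have h2 := hg (s.1 x) (h.nc.lt x hx)
  rw [h.nc.inv] at h2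
  rw [Bool.eq_iff_iff, h1, h2]
  tauto

/-- The parity argument along the loop of the site `0`: `U x` is the coordinate attached to the
site `x`, the two ends of an arc are related with an odd number of turns iff the label of the arc
is `true`. -/
theorem TwoB.abstract {s' s : St} (hs' : IsAnn L s') (hs : IsAnn L s) (hL0 : 0 < L)
    {E : ℤ → ℤ → Prop} (hE : Equivalence E)
    (hsh : ∀ a b : ℤ, E a b → ∀ m : ℤ, E (a + m * L) (b + m * L)) (U : ℕ → ℤ)
    (h1 : ∀ x < L, ∃ m : ℤ, (m % 2 = 1 ↔ s'.2 x = true) ∧ E (U x) (U (s'.1 x) + m * L))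
    (h2 : ∀ x < L, ∃ m : ℤ, (m % 2 = 1 ↔ s.2 x = true) ∧ E (U x) (U (s.1 x) + m * L))
    (hnc : NCat L s' s 0) : ∃ m : ℤ, m % 2 = 1 ∧ E (U 0) (U 0 + m * L) := by
  classical
  by_contra H
  push Not at H
  -- the parity is well defined
  have hpar : ∀ (a : ℤ) (m m' : ℤ), E (U 0) (a + m * L) → E (U 0) (a + m' * L) →
      (m % 2 = 1 ↔ m' % 2 = 1) := by
    intro a m m' h h'
    by_contra hne
    have h3 : (m' - m) % 2 = 1 := by
      rcases Int.emod_two_eq_zero_or_one m with h4 | h4 <;>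
        rcases Int.emod_two_eq_zero_or_one m' with h5 | h5 <;> omega
    refine H _ h3 ?_
    have h4 := hsh _ _ h (m' - m)
    have h5 : a + m * (L : ℤ) + (m' - m) * L = a + m' * L := by ring
    rw [h5] at h4
    exact hE.trans h' (hE.symm h4)
  have hlt : ∀ x, LoopR s' s 0 x → x < L := by
    intro x hx
    induction hx with
    | refl => exact hL0
    | tail _ hyz ih =>
      rcases hyz with rfl | rfl
      · exact hs'.nc.lt _ ih
      · exact hs.nc.lt _ ih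
  have hex : ∀ x, LoopR s' s 0 x → ∃ m : ℤ, E (U 0) (U x + m * L) := by
    intro x hx
    induction hx with
    | refl => exact ⟨0, by simpa using hE.refl _⟩
    | @tail y z hy hyz ih =>
      obtain ⟨m, hm⟩ := ih
      rcases hyz with rfl | rfl
      · obtain ⟨m', -, hm'⟩ := h1 y (hlt y hy)
        refine ⟨m' + m, ?_⟩
        have h4 := hE.trans hm (hsh _ _ hm' m)
        have h5 : U (s'.1 y) + m' * (L : ℤ) + m * L = U (s'.1 y) + (m' + m) * L := by ring
        rwa [h5] at h4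
      · obtain ⟨m', -, hm'⟩ := h2 y (hlt y hy)
        refine ⟨m' + m, ?_⟩
        have h4 := hE.trans hm (hsh _ _ hm' m)
        have h5 : U (s.1 y) + m' * (L : ℤ) + m * L = U (s.1 y) + (m' + m) * L := by ring
        rwa [h5] at h4
  -- the parity of a site
  set t : ℕ → ZMod 2 := fun x => if ∃ m : ℤ, m % 2 = 1 ∧ E (U 0) (U x + m * L) then 1 else 0
    with ht
  have htval : ∀ x (m : ℤ), E (U 0) (U x + m * L) → t x = (m : ZMod 2) := by
    intro x m hm
    rcases Int.emod_two_eq_zero_or_one m with h4 | h4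
    · have h5 : ¬ ∃ m : ℤ, m % 2 = 1 ∧ E (U 0) (U x + m * L) := by
        rintro ⟨m', hm', hm''⟩
        have := (hpar _ m m' hm hm'').2 hm'
        omega
      rw [ht]
      simp only [h5, if_false]
      symm
      rw [ZMod.intCast_zmod_eq_zero_iff_dvd]
      exact Int.dvd_of_emod_eq_zero (by exact_mod_cast h4)
    · have h5 : ∃ m : ℤ, m % 2 = 1 ∧ E (U 0) (U x + m * L) := ⟨m, h4, hm⟩
      rw [ht]
      simp only [h5, if_true]
      have h6 : ((m : ℤ) : ZMod 2) = ((1 : ℤ) : ZMod 2) := by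
        rw [ZMod.intCast_eq_intCast_iff]
        exact h4
      rw [h6]
      simp
  have hlab : ∀ (u : St), (∀ x < L, ∃ m : ℤ, (m % 2 = 1 ↔ u.2 x = true) ∧
      E (U x) (U (u.1 x) + m * L)) → ∀ x, LoopR s' s 0 x →
      (if u.2 x = true then 1 else 0 : ZMod 2) = t x + t (u.1 x) := by
    intro u hu x hx
    obtain ⟨m, hm⟩ := hex x hx
    obtain ⟨m', hm1, hm2⟩ := hu x (hlt x hx)
    have h4 := hE.trans hm (hsh _ _ hm2 m)
    have h5 : U (u.1 x) + m' * (L : ℤ) + m * L = U (u.1 x) + (m' + m) * L := by ring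
    rw [h5] at h4
    rw [htval x m hm, htval _ _ h4]
    push_cast
    have h6 : (m : ZMod 2) + ((m' : ZMod 2) + m) = m' := by
      have : (m : ZMod 2) + m = 0 := CharTwo.add_self_eq_zero _
      linear_combination this
    rw [h6]
    rcases Int.emod_two_eq_zero_or_one m' with h7 | h7
    · have h8 : u.2 x ≠ true := fun h => by have := hm1.2 h; omega
      rw [if_neg h8]
      symm
      rw [ZMod.intCast_zmod_eq_zero_iff_dvd]
      exact Int.dvd_of_emod_eq_zero (by exact_mod_cast h7)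
    · rw [if_pos (hm1.1 h7)]
      have h6 : ((m' : ℤ) : ZMod 2) = ((1 : ℤ) : ZMod 2) := by
        rw [ZMod.intCast_eq_intCast_iff]
        exact h7
      rw [h6]
      simp
  -- the sites of the loop
  set Ke := (range L).filter fun x => x % 2 = 0 ∧ LoopR s' s 0 x with hKe
  set Ko := (range L).filter fun x => x % 2 = 1 ∧ LoopR s' s 0 x with hKo
  have hsum : ∀ (u : St), IsAnn L u → (∀ x, LoopR s' s 0 x → LoopR s' s 0 (u.1 x)) →
      ∑ x ∈ Ke, t (u.1 x) = ∑ x ∈ Ko, t x := by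
    intro u hu hstep
    refine sum_bij' (fun x _ => u.1 x) (fun x _ => u.1 x) ?_ ?_ ?_ ?_ ?_
    · intro x hx
      rw [hKe, mem_filter, mem_range] at hx
      rw [hKo, mem_filter, mem_range]
      refine ⟨hu.nc.lt x hx.1, ?_, hstep x hx.2.2⟩
      have := hu.nc.parity hx.1
      omega
    · intro x hx
      rw [hKo, mem_filter, mem_range] at hx
      rw [hKe, mem_filter, mem_range]
      refine ⟨hu.nc.lt x hx.1, ?_, hstep x hx.2.2⟩
      have := hu.nc.parity hx.1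
      omega
    · intro x _
      exact hu.nc.inv x
    · intro x _
      exact hu.nc.inv x
    · intro x _
      rfl
  have hA : ((loopA L s' s 0 : ℕ) : ZMod 2) = ∑ x ∈ Ke, t x + ∑ x ∈ Ko, t x := by
    rw [← hsum s' hs' fun x hx => hx.tail (Or.inl rfl), ← sum_add_distrib]
    have h3 : loopA L s' s 0 = (Ke.filter fun x => s'.2 x = true).card := by
      unfold loopA
      congr 1
      ext x
      simp only [hKe, mem_filter]
      tauto
    rw [h3, card_eq_sum_ones, sum_filter, Nat.cast_sum]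
    refine sum_congr rfl fun x hx => ?_
    rw [hKe, mem_filter] at hx
    rw [← hlab s' h1 x hx.2.2]
    push_cast
    rfl
  have hB : ((loopB L s' s 0 : ℕ) : ZMod 2) = ∑ x ∈ Ke, t x + ∑ x ∈ Ko, t x := by
    rw [← hsum s hs fun x hx => hx.tail (Or.inr rfl), ← sum_add_distrib]
    have h3 : loopB L s' s 0 = (Ke.filter fun x => s.2 x = true).card := by
      unfold loopB
      congr 1
      ext x
      simp only [hKe, mem_filter]
      tauto
    rw [h3, card_eq_sum_ones, sum_filter, Nat.cast_sum]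
    refine sum_congr rfl fun x hx => ?_
    rw [hKe, mem_filter] at hx
    rw [← hlab s h2 x hx.2.2]
    push_cast
    rfl
  have hAB : ((loopA L s' s 0 + loopB L s' s 0 : ℕ) : ZMod 2) = 0 := by
    rw [Nat.cast_add, hA, hB]
    exact CharTwo.add_self_eq_zero _
  rw [ZMod.natCast_eq_zero_iff] at hAB
  have h3 : (loopA L s' s 0 + loopB L s' s 0) % 2 = 1 := hnc
  omega

theorem TwoB.equivE (L M : ℕ) (ω : Cfg) :
    Equivalence fun a b : ℤ => RelZ L M ω (a, 0) (b, 0) := by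
  have h := relZ_equivalence L M ω
  exact ⟨fun a => h.refl _, fun hab => h.symm hab, fun hab hbc => h.trans hab hbc⟩

theorem TwoB.shiftE (L M : ℕ) (ω : Cfg) (a b : ℤ) (h : RelZ L M ω (a, 0) (b, 0)) (m : ℤ) :
    RelZ L M ω (a + m * L, 0) (b + m * L, 0) := relZ_shift h m

theorem TwoB.isAnn_up (hL : L % 2 = 0) (hL0 : 0 < L) (ω : Cfg) : IsAnn L (upS L M ω) :=
  isAnn_run hL hL0 ω

theorem TwoB.isAnn_lo (hL : L % 2 = 0) (hL0 : 0 < L) (ω : Cfg) : IsAnn L (loS L M ω) :=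
  isAnn_run hL hL0 (lowC ω)

/-- From soundness to the left positions. -/
theorem TwoB.left {ω : Cfg} {u : St} (hu : IsAnn L u)
    (h : ∀ x < L, ∃ m : ℤ, (m % 2 = 1 ↔ u.2 x = true) ∧
      RelZ L M ω ((x : ℤ), 0) (((u.1 x : ℕ) : ℤ) + 1 + m * L, 0)) (x : ℕ) (hx : x < L) :
    ∃ m : ℤ, (m % 2 = 1 ↔ u.2 x = true) ∧
      RelZ L M ω ((x : ℤ) + ((x % 2 : ℕ) : ℤ), 0)
        (((u.1 x : ℕ) : ℤ) + ((u.1 x % 2 : ℕ) : ℤ) + m * L, 0) := by
  have hp := hu.nc.parity hx
  rcases Nat.mod_two_eq_zero_or_one x with hx2 | hx2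
  · obtain ⟨m, hm1, hm2⟩ := h x hx
    refine ⟨m, hm1, ?_⟩
    have h3 : u.1 x % 2 = 1 := by omega
    rw [hx2, h3]
    simpa using hm2
  · obtain ⟨m, hm1, hm2⟩ := h (u.1 x) (hu.nc.lt x hx)
    rw [TwoB.label_partner hu hx] at hm1
    rw [hu.nc.inv] at hm2
    refine ⟨-m, by rw [← hm1]; omega, ?_⟩
    have h3 : u.1 x % 2 = 0 := by omega
    rw [hx2, h3]
    have h4 := TwoB.shiftE L M ω _ _ ((relZ_equivalence L M ω).symm hm2) (-m)
    have h5 : (x : ℤ) + 1 + m * L + -m * L = x + 1 := by ring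
    rw [h5] at h4
    simpa using h4

/-- From soundness to the right positions. -/
theorem TwoB.right {ω : Cfg} {u : St} (hu : IsAnn L u)
    (h : ∀ x < L, ∃ m : ℤ, (m % 2 = 1 ↔ u.2 x = true) ∧
      RelZ L M ω ((x : ℤ), 0) (((u.1 x : ℕ) : ℤ) + 1 + m * L, 0)) (x : ℕ) (hx : x < L) :
    ∃ m : ℤ, (m % 2 = 1 ↔ u.2 x = true) ∧
      RelZ L M ω ((x : ℤ) + (((x + 1) % 2 : ℕ) : ℤ), 0)
        (((u.1 x : ℕ) : ℤ) + (((u.1 x + 1) % 2 : ℕ) : ℤ) + m * L, 0) := by
  have hp := hu.nc.parity hx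
  rcases Nat.mod_two_eq_zero_or_one x with hx2 | hx2
  · obtain ⟨m, hm1, hm2⟩ := h (u.1 x) (hu.nc.lt x hx)
    rw [TwoB.label_partner hu hx] at hm1
    rw [hu.nc.inv] at hm2
    refine ⟨-m, by rw [← hm1]; omega, ?_⟩
    have h3 : (u.1 x + 1) % 2 = 0 := by omega
    have h3' : (x + 1) % 2 = 1 := by omega
    rw [h3', h3]
    have h4 := TwoB.shiftE L M ω _ _ ((relZ_equivalence L M ω).symm hm2) (-m)
    have h5 : (x : ℤ) + 1 + m * L + -m * L = x + 1 := by ring
    rw [h5] at h4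
    simpa using h4
  · obtain ⟨m, hm1, hm2⟩ := h x hx
    refine ⟨m, hm1, ?_⟩
    have h3 : (u.1 x + 1) % 2 = 1 := by omega
    have h3' : (x + 1) % 2 = 0 := by omega
    rw [h3', h3]
    simpa using hm2

theorem relZ_of_ncAt_left (hL : L % 2 = 0) (hL0 : 0 < L) (ω : Cfg)
    (h : NCat L (upS L M ω) (loS L M ω) 0) :
    ∃ m : ℤ, m % 2 = 1 ∧ RelZ L M ω (0, 0) (m * L, 0) := by
  obtain ⟨m, hm, h1⟩ := TwoB.abstract (TwoB.isAnn_up hL hL0 ω) (TwoB.isAnn_lo hL hL0 ω) hL0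
    (TwoB.equivE L M ω) (TwoB.shiftE L M ω) (fun x => (x : ℤ) + ((x % 2 : ℕ) : ℤ))
    (TwoB.left (TwoB.isAnn_up hL hL0 ω) fun x hx => sound_up hL hL0 ω hx)
    (TwoB.left (TwoB.isAnn_lo hL hL0 ω) fun x hx => sound_lo hL hL0 ω hx) h
  refine ⟨m, hm, ?_⟩
  simpa using h1

theorem relZ_of_ncAt_right (hL : L % 2 = 0) (hL0 : 0 < L) (ω : Cfg)
    (h : NCat L (upS L M ω) (loS L M ω) 0) :
    ∃ m : ℤ, m % 2 = 1 ∧ RelZ L M ω (1, 0) (1 + m * L, 0) := by
  obtain ⟨m, hm, h1⟩ := TwoB.abstract (TwoB.isAnn_up hL hL0 ω) (TwoB.isAnn_lo hL hL0 ω) hL0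
    (TwoB.equivE L M ω) (TwoB.shiftE L M ω) (fun x => (x : ℤ) + (((x + 1) % 2 : ℕ) : ℤ))
    (TwoB.right (TwoB.isAnn_up hL hL0 ω) fun x hx => sound_up hL hL0 ω hx)
    (TwoB.right (TwoB.isAnn_lo hL hL0 ω) fun x hx => sound_lo hL hL0 ω hx) h
  refine ⟨m, hm, ?_⟩
  simpa using h1

/-- A vertex which is related to a vertex far away reaches the boundary of the box. -/
theorem TwoB.toBd {n : ℕ} (hM : n ≤ M) {ω : Cfg} {u v : ℤ × ℤ}
    (h : RelZ (2 * n) M ω u v) (hu : -(n : ℤ) ≤ u.1 ∧ u.1 ≤ n ∧ -(n : ℤ) ≤ u.2 ∧ u.2 ≤ n)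
    (hv : (n : ℤ) ≤ v.1 ∨ v.1 ≤ -(n : ℤ)) : ToBd (-n) n (-n) n (perC (2 * n) ω) u := by
  have hM' : (n : ℤ) ≤ M := by exact_mod_cast hM
  have h1 : ∃ w, Conn (perC (2 * n) ω) (strip M) u w ∧
      ¬ (-(n : ℤ) < w.1 ∧ w.1 < n ∧ -(n : ℤ) < w.2 ∧ w.2 < n) := by
    rcases h with h | ⟨⟨u', hu', h'⟩, -⟩
    · exact ⟨v, h, by omega⟩
    · exact ⟨u', hu', by omega⟩
  obtain ⟨w, hw, hw'⟩ := h1
  obtain ⟨w', h2, h3⟩ := Conn.toBd hw hu hw'
  exact ⟨w', h2.mono Set.inter_subset_right, h3⟩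

/-- The two arms in the box of radius `n`. -/
theorem twoArm_of_ncAt {n : ℕ} (hn : 0 < n) (hM : n ≤ M) (ω : Cfg)
    (h : NCat (2 * n) (upS (2 * n) M ω) (loS (2 * n) M ω) 0) :
    perC (2 * n) ω ∈ twoArm n := by
  have hn' : (0 : ℤ) < n := by exact_mod_cast hn
  obtain ⟨m, hm, h1⟩ := relZ_of_ncAt_left (by omega) (by omega) ω h
  obtain ⟨m', hm', h2⟩ := relZ_of_ncAt_right (by omega) (by omega) ω h
  refine ⟨TwoB.toBd hM h1 ?_ ?_, TwoB.toBd hM h2 ?_ ?_⟩
  · simp only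
    omega
  · simp only
    push_cast
    rcases lt_or_ge 0 m with h3 | h3
    · left
      nlinarith
    · right
      have : m ≤ -1 := by omega
      nlinarith
  · simp only
    omega
  · simp only
    push_cast
    rcases lt_or_ge 0 m' with h3 | h3
    · left
      nlinarith
    · right
      have : m' ≤ -1 := by omega
      nlinarith

end Pool.Agent.Perc
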