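import Pool.Agent.Lib.MP_6bd702_perq.StatS
import Pool.Agent.Lib.MP_6bd702_perc.AnnB

/-!
# Convergence to the stationary law (task LimS)
-/

set_option autoImplicit false

namespace Pool.Agent.Perc

open Finset MvPolynomial Filter Topology

namespace LimS

/-- Doeblin's argument for a bounded function. -/
theorem avgL_iterate_sub_le {L : ℕ} {f : St → ℂ} {B : ℝ}
    (hB : ∀ s s' : St, IsAnn L s → IsAnn L s' → ‖f s - f s'‖ ≤ B) (M : ℕ) {s s' : St}
    (h : IsAnn L s) (h' : IsAnn L s') :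
    ‖((avgL L)^[M] f) s - ((avgL L)^[M] f) s'‖ ≤ (1 - 1 / 2 ^ L) ^ M * B := by
  induction M generalizing s s' with
  | zero => simpa using hB s s' h h'
  | succ M ih =>
    rw [Function.iterate_succ_apply']
    set F := (avgL L)^[M] f with hF
    unfold avgL
    rw [← sub_div, ← Finset.sum_sub_distrib]
    set T0 : Finset ℕ := (range L).filter (fun k => k % 2 = 0) with hT0
    have hT0m : T0 ∈ (range L).powerset := by
      rw [Finset.mem_powerset]
      exact Finset.filter_subset _ _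
    have hreset : ∀ t : St, IsAnn L t → trow L (fun k => decide (k ∈ T0)) t = s0 L := by
      intro t ht
      rw [← trow_reset ht]
      refine AnnB.trow_congr (fun j hj => ?_) t
      simp [hT0, hj]
    rw [norm_div]
    have h2 : ‖(2 : ℂ) ^ L‖ = 2 ^ L := by simp
    rw [h2, div_le_iff₀ (by positivity)]
    have h3 : ‖∑ T ∈ (range L).powerset, (F (trow L (fun k => decide (k ∈ T)) s)
        - F (trow L (fun k => decide (k ∈ T)) s'))‖
        ≤ ∑ T ∈ (range L).powerset, if T = T0 then (0 : ℝ) else (1 - 1 / 2 ^ L) ^ M * B := by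
      refine (norm_sum_le _ _).trans (Finset.sum_le_sum fun T _ => ?_)
      split_ifs with hT
      · rw [hT, hreset s h, hreset s' h', sub_self, norm_zero]
      · exact ih (h.trow _) (h'.trow _)
    refine h3.trans (le_of_eq ?_)
    rw [← Finset.sum_erase_add _ _ hT0m, if_pos rfl, add_zero]
    have h4 : ∀ T ∈ (range L).powerset.erase T0,
        (if T = T0 then (0 : ℝ) else (1 - 1 / 2 ^ L) ^ M * B)
        = (1 - 1 / 2 ^ L) ^ M * B := fun T hT => if_neg (Finset.ne_of_mem_erase hT)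
    rw [Finset.sum_congr rfl h4, Finset.sum_const, Finset.card_erase_of_mem hT0m,
      Finset.card_powerset, Finset.card_range, nsmul_eq_mul, pow_succ,
      Nat.cast_sub Nat.one_le_two_pow]
    push_cast
    have : (2 : ℝ) ^ L ≠ 0 := by positivity
    field_simp

/-- Stationarity for the iterates. -/
theorem stationary_iterate {q : ℂ} (hq : q ^ 2 + q + 1 = 0) (n : ℕ) (f : St → ℂ) (M : ℕ) :
    ∑ s ∈ anns (2 * n), eval (fun _ => 1) (PsiS q n s) * ((avgL (2 * n))^[M] f) s =
      ∑ s ∈ anns (2 * n), eval (fun _ => 1) (PsiS q n s) * f s := by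
  induction M with
  | zero => rfl
  | succ M ih =>
    rw [Function.iterate_succ_apply']
    rw [stationaryS hq n ((avgL (2 * n))^[M] f), ih]

end LimS

theorem tendsto_avgL {q : ℂ} (hq : q ^ 2 + q + 1 = 0) {n : ℕ}
    (h0 : ∑ s ∈ anns (2 * n), eval (fun _ => 1) (PsiS q n s) ≠ 0) (f : St → ℂ) :
    Tendsto (fun M => ((avgL (2 * n))^[M] f) (s0 (2 * n))) atTop
      (𝓝 ((∑ s ∈ anns (2 * n), eval (fun _ => 1) (PsiS q n s) * f s) /
        ∑ s ∈ anns (2 * n), eval (fun _ => 1) (PsiS q n s))) := by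
  classical
  set S := ∑ s ∈ anns (2 * n), eval (fun _ => 1) (PsiS q n s) with hS
  set W := ∑ s ∈ anns (2 * n), eval (fun _ => 1) (PsiS q n s) * f s with hW
  -- a bound for the differences
  set B : ℝ := 2 * ∑ s ∈ anns (2 * n), ‖f s‖ with hBdef
  have hB : ∀ s s' : St, IsAnn (2 * n) s → IsAnn (2 * n) s' → ‖f s - f s'‖ ≤ B := by
    intro s s' h h'
    have h1 : ‖f s‖ ≤ ∑ t ∈ anns (2 * n), ‖f t‖ :=
      Finset.single_le_sum (f := fun t => ‖f t‖) (fun t _ => norm_nonneg _) (mem_anns.2 h)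
    have h2 : ‖f s'‖ ≤ ∑ t ∈ anns (2 * n), ‖f t‖ :=
      Finset.single_le_sum (f := fun t => ‖f t‖) (fun t _ => norm_nonneg _) (mem_anns.2 h')
    calc ‖f s - f s'‖ ≤ ‖f s‖ + ‖f s'‖ := norm_sub_le _ _
      _ ≤ B := by rw [hBdef]; linarith
  have hann0 : IsAnn (2 * n) (s0 (2 * n)) := isAnn_s0 (by omega)
  set g : ℕ → ℂ := fun M => ((avgL (2 * n))^[M] f) (s0 (2 * n)) with hg
  -- the difference
  have hdiff : ∀ M, ‖W - S * g M‖ ≤
      (∑ s ∈ anns (2 * n), ‖eval (fun _ => 1) (PsiS q n s)‖) * B * (1 - 1 / 2 ^ (2 * n)) ^ M := by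
    intro M
    have h1 : W - S * g M = ∑ s ∈ anns (2 * n), eval (fun _ => 1) (PsiS q n s)
        * (((avgL (2 * n))^[M] f) s - g M) := by
      rw [hW, ← LimS.stationary_iterate hq n f M, hS, Finset.sum_mul, ← Finset.sum_sub_distrib]
      refine Finset.sum_congr rfl fun s _ => ?_
      ring
    rw [h1, mul_assoc, Finset.sum_mul]
    refine (norm_sum_le _ _).trans (Finset.sum_le_sum fun s hs => ?_)
    rw [norm_mul, mul_comm B]
    exact mul_le_mul_of_nonneg_left
      (LimS.avgL_iterate_sub_le hB M (mem_anns.1 hs) hann0) (norm_nonneg _)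
  have hlim : Tendsto (fun M : ℕ => (∑ s ∈ anns (2 * n), ‖eval (fun _ => 1) (PsiS q n s)‖) * B
      * ((1 : ℝ) - 1 / 2 ^ (2 * n)) ^ M) atTop (𝓝 0) := by
    have h1 : Tendsto (fun M : ℕ => ((1 : ℝ) - 1 / 2 ^ (2 * n)) ^ M) atTop (𝓝 0) := by
      refine tendsto_pow_atTop_nhds_zero_of_lt_one ?_ ?_
      · rw [sub_nonneg, div_le_one (by positivity)]
        exact one_le_pow₀ (by norm_num)
      · have : (0 : ℝ) < 1 / 2 ^ (2 * n) := by positivity
        linarith
    simpa using h1.const_mul ((∑ s ∈ anns (2 * n), ‖eval (fun _ => 1) (PsiS q n s)‖) * B)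
  have h2 : Tendsto (fun M => W - S * g M) atTop (𝓝 0) :=
    squeeze_zero_norm hdiff hlim
  have h3 : Tendsto (fun M => S * g M) atTop (𝓝 W) := by
    have := h2.const_sub W
    simpa using this
  have h4 := h3.div_const S
  refine h4.congr fun M => ?_
  rw [mul_div_cancel_left₀ _ h0]

end Pool.Agent.Perc
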