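import Pool.Agent.Lib.MP_6bd702_perq.TwoB
import Pool.Agent.Lib.MP_6bd702_perq.LimS
import Pool.Agent.Lib.MP_6bd702_perc.CylArmB

/-!
# The two-sided cylinder: probabilities (task TwoC)
-/

set_option autoImplicit false

namespace Pool.Agent.Perc

open Finset MvPolynomial Filter Topology

variable {L M : ℕ}

namespace TwoC

open CylArmB

theorem ex_union {S1 S2 : Finset (ℤ × ℤ)} (hd : Disjoint S1 S2) (g : Cfg → ℂ) :
    ex (S1 ∪ S2) g = ex S1 (fun ω₁ => ex S2 (fun ω₂ => g (fun f => ω₁ f || ω₂ f))) := by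
  unfold ex
  rw [card_union_of_disjoint hd, pow_add, ← sum_div, div_div, mul_comm ((2 : ℂ) ^ S2.card)]
  congr 1
  rw [← sum_product']
  refine sum_nbij' (fun T => (T ∩ S1, T ∩ S2)) (fun X => X.1 ∪ X.2) ?_ ?_ ?_ ?_ ?_
  · intro T _
    rw [mem_product, mem_powerset, mem_powerset]
    exact ⟨inter_subset_right, inter_subset_right⟩
  · rintro ⟨T1, T2⟩ h
    rw [mem_product, mem_powerset, mem_powerset] at h
    rw [mem_powerset]
    exact union_subset_union h.1 h.2
  · intro T hT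
    rw [mem_powerset] at hT
    simp only
    rw [← inter_union_distrib_left, inter_eq_left.mpr hT]
  · rintro ⟨T1, T2⟩ h
    rw [mem_product, mem_powerset, mem_powerset] at h
    have h1 : T1 ⊆ S1 := h.1
    have h2 : T2 ⊆ S2 := h.2
    refine Prod.ext ?_ ?_
    · ext f
      simp only [mem_inter, mem_union]
      constructor
      · rintro ⟨h3 | h3, h4⟩
        · exact h3
        · exact absurd h4 (fun h5 => disjoint_left.1 hd h5 (h2 h3))
      · intro h3; exact ⟨Or.inl h3, h1 h3⟩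
    · ext f
      simp only [mem_inter, mem_union]
      constructor
      · rintro ⟨h3 | h3, h4⟩
        · exact absurd h4 (fun h5 => disjoint_left.1 hd (h1 h3) h5)
        · exact h3
      · intro h3; exact ⟨Or.inr h3, h2 h3⟩
  · intro T hT
    rw [mem_powerset] at hT
    congr 1
    funext f
    unfold cfg
    rw [← Bool.decide_or]
    apply decide_eq_decide.2
    simp only [mem_inter]
    constructor
    · intro hf
      rcases mem_union.1 (hT hf) with h1 | h1
      · exact Or.inl ⟨hf, h1⟩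
      · exact Or.inr ⟨hf, h1⟩
    · rintro (h1 | h1)
      · exact h1.1
      · exact h1.1

theorem card_low (L M : ℕ) : (RF 0 L (-(M : ℤ)) 0).card = L * M := by
  unfold RF
  rw [card_product, Int.card_Ico, Int.card_Ico]
  simp

/-- The lower half. -/
theorem ex_low (L M : ℕ) (h : St → ℂ) :
    ex (RF 0 L (-(M : ℤ)) 0) (fun ω => h (loS L M ω)) =
      ex (RF 0 L 0 M) (fun ω => h (run L ω M (s0 L))) := by
  unfold ex
  rw [card_RF, card_low]
  congr 1
  refine sum_nbij' (fun T => (RF 0 L 0 M).filter (fun f => (f.1, -1 - f.2) ∉ T))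
    (fun T => (RF 0 L (-(M : ℤ)) 0).filter (fun f => (f.1, -1 - f.2) ∉ T)) ?_ ?_ ?_ ?_ ?_
  · intro T _; rw [mem_powerset]; exact filter_subset _ _
  · intro T _; rw [mem_powerset]; exact filter_subset _ _
  · intro T hT
    rw [mem_powerset] at hT
    ext f
    simp only [mem_filter, mem_RF]
    have e : (f.1, -1 - (-1 - f.2)) = f := by
      ext
      · rfl
      · simp
    rw [e]
    constructor
    · rintro ⟨h1, h2⟩
      by_contra h3
      exact h2 ⟨⟨h1.1, by omega, by omega⟩, h3⟩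
    · intro h1
      have h2 := mem_RF.1 (hT h1)
      refine ⟨h2, fun h3 => h3.2 h1⟩
  · intro T hT
    rw [mem_powerset] at hT
    ext f
    simp only [mem_filter, mem_RF]
    have e : (f.1, -1 - (-1 - f.2)) = f := by
      ext
      · rfl
      · simp
    rw [e]
    constructor
    · rintro ⟨h1, h2⟩
      by_contra h3
      exact h2 ⟨⟨h1.1, by omega, by omega⟩, h3⟩
    · intro h1
      have h2 := mem_RF.1 (hT h1)
      refine ⟨h2, fun h3 => h3.2 h1⟩
  · intro T hT
    unfold loS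
    show h (run L (lowC (cfg T)) M (s0 L)) = h (run L _ M (s0 L))
    congr 1
    apply run_congr
    intro i hi m hm
    unfold lowC cfg
    rw [← decide_not]
    apply decide_eq_decide.2
    simp only [mem_filter, mem_RF]
    constructor
    · intro h1
      exact ⟨⟨⟨by omega, by omega⟩, by omega, by omega⟩, h1⟩
    · intro h1; exact h1.2

theorem RF_union (L M : ℕ) :
    RF 0 L (-(M : ℤ)) M = RF 0 L 0 M ∪ RF 0 L (-(M : ℤ)) 0 := by
  ext f
  rw [mem_union, mem_RF, mem_RF, mem_RF]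
  constructor
  · rintro ⟨h1, h2, h3⟩
    by_cases h4 : 0 ≤ f.2
    · exact Or.inl ⟨h1, h4, h3⟩
    · exact Or.inr ⟨h1, h2, by omega⟩
  · rintro (⟨h1, h2, h3⟩ | ⟨h1, h2, h3⟩)
    · exact ⟨h1, by omega, by omega⟩
    · exact ⟨h1, by omega, by omega⟩

theorem disj (L M : ℕ) : Disjoint (RF 0 L 0 M) (RF 0 L (-(M : ℤ)) 0) := by
  rw [disjoint_left]
  intro f h1 h2
  rw [mem_RF] at h1 h2
  omega

end TwoC

open TwoC CylArmB

/-- The two halves are independent. -/
theorem ex_two (L M : ℕ) (f : St → St → ℂ) :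
    ex (RF 0 L (-M) M) (fun ω => f (upS L M ω) (loS L M ω)) =
      ((avgL L)^[M] (fun s' => ((avgL L)^[M] (fun s => f s' s)) (s0 L))) (s0 L) := by
  rw [← ex_run, RF_union, ex_union (disj L M)]
  apply ex_congr
  intro T1 hT1
  rw [← ex_run]
  have e1 : ∀ h : St → ℂ, ex (RF 0 L 0 M) (fun ω => h (run L ω M (s0 L))) =
      ex (RF 0 L (-(M : ℤ)) 0) (fun ω => h (loS L M ω)) := fun h => (ex_low L M h).symm
  rw [e1]
  apply ex_congr
  intro T2 hT2
  have e2 : upS L M (fun x => cfg T1 x || cfg T2 x) = run L (cfg T1) M (s0 L) := by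
    unfold upS
    apply run_congr
    intro i _ m hm
    have h1 : ((i : ℤ), (m : ℤ)) ∉ T2 := by
      intro h1
      have := (mem_RF.1 (hT2 h1)).2.2
      simp only at this
      omega
    simp [cfg, h1]
  have e3 : loS L M (fun x => cfg T1 x || cfg T2 x) = loS L M (cfg T2) := by
    unfold loS
    apply run_congr
    intro i _ m hm
    have h1 : ((i : ℤ), -1 - (m : ℤ)) ∉ T1 := by
      intro h1
      have := (mem_RF.1 (hT1 h1)).2.1
      simp only at this
      omega
    simp [lowC, cfg, h1]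
  rw [e2, e3]

/-- The stationary law of the pair of states. -/
noncomputable def exSt (q : ℂ) (n : ℕ) (f : St → St → ℂ) : ℂ :=
  (∑ s' ∈ anns (2 * n), ∑ s ∈ anns (2 * n),
    eval (fun _ => 1) (PsiS q n s') * eval (fun _ => 1) (PsiS q n s) * f s' s) /
    (∑ s ∈ anns (2 * n), eval (fun _ => 1) (PsiS q n s)) ^ 2

namespace TwoC

theorem isAnn_run' (ω : Cfg) (M : ℕ) {s : St} (hs : IsAnn L s) : IsAnn L (run L ω M s) := by
  induction M generalizing s with
  | zero => exact hs
  | succ M ih => exact ih (hs.trow _)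

open Classical in
/-- The law of the state after `M` rows. -/
noncomputable def muM (L M : ℕ) (t : St) : ℂ :=
  ((avgL L)^[M] (fun s => if s = t then 1 else 0)) (s0 L)

theorem iter_eq {n : ℕ} (M : ℕ) (h : St → ℂ) :
    ((avgL (2 * n))^[M] h) (s0 (2 * n)) = ∑ t ∈ anns (2 * n), muM (2 * n) M t * h t := by
  classical
  unfold muM
  rw [← ex_run]
  have e1 : ∀ t ∈ anns (2 * n), ((avgL (2 * n))^[M] (fun s => if s = t then 1 else 0))
      (s0 (2 * n)) * h t = ex (RF 0 ((2 * n : ℕ) : ℤ) 0 M) (fun ω =>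
        (if run (2 * n) ω M (s0 (2 * n)) = t then (1 : ℂ) else 0) * h t) := by
    intro t _
    rw [← ex_run]
    unfold ex
    rw [← sum_mul]
    ring
  rw [sum_congr rfl e1, ← ex_sum]
  apply ex_congr
  intro T _
  simp only [ite_mul, one_mul, zero_mul]
  rw [sum_ite_eq, if_pos]
  rw [mem_anns]
  exact isAnn_run' _ _ (isAnn_s0 (by omega))

theorem tendsto_muM {q : ℂ} (hq : q ^ 2 + q + 1 = 0) {n : ℕ}
    (h0 : ∑ s ∈ anns (2 * n), eval (fun _ => 1) (PsiS q n s) ≠ 0) {t : St}
    (ht : t ∈ anns (2 * n)) :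
    Tendsto (fun M : ℕ => muM (2 * n) M t) atTop
      (𝓝 (eval (fun _ => 1) (PsiS q n t) / ∑ s ∈ anns (2 * n), eval (fun _ => 1) (PsiS q n s))) := by
  classical
  have h1 := tendsto_avgL hq h0 (fun s => if s = t then (1 : ℂ) else 0)
  have e : ∑ s ∈ anns (2 * n), eval (fun _ => 1) (PsiS q n s) * (if s = t then (1 : ℂ) else 0) =
      eval (fun _ => 1) (PsiS q n t) := by
    simp only [mul_ite, mul_one, mul_zero]
    rw [sum_ite_eq' , if_pos ht]
  rw [e] at h1
  refine h1.congr fun M => ?_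
  unfold muM
  congr 1

end TwoC

theorem tendsto_ex_two {q : ℂ} (hq : q ^ 2 + q + 1 = 0) {n : ℕ}
    (h0 : ∑ s ∈ anns (2 * n), eval (fun _ => 1) (PsiS q n s) ≠ 0) (f : St → St → ℂ) :
    Tendsto (fun M : ℕ => ex (RF 0 ((2 * n : ℕ) : ℤ) (-M) M)
      (fun ω => f (upS (2 * n) M ω) (loS (2 * n) M ω))) atTop (𝓝 (exSt q n f)) := by
  have e1 : ∀ M : ℕ, ex (RF 0 ((2 * n : ℕ) : ℤ) (-M) M)
      (fun ω => f (upS (2 * n) M ω) (loS (2 * n) M ω)) =
      ∑ s' ∈ anns (2 * n), ∑ s ∈ anns (2 * n), muM (2 * n) M s' * muM (2 * n) M s * f s' s := by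
    intro M
    rw [ex_two, iter_eq]
    refine sum_congr rfl fun s' _ => ?_
    rw [iter_eq, mul_sum]
    refine sum_congr rfl fun s _ => ?_
    ring
  simp only [e1]
  unfold exSt
  rw [sum_div]
  refine tendsto_finsetSum _ fun s' hs' => ?_
  rw [sum_div]
  refine tendsto_finsetSum _ fun s hs => ?_
  have h1 := ((tendsto_muM hq h0 hs').mul (tendsto_muM hq h0 hs)).mul_const (f s' s)
  convert h1 using 2
  ring

open Classical in
/-- The lower bound for the two-arm probability. -/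
theorem p2_ge_exSt {q : ℂ} (hq : q ^ 2 + q + 1 = 0) {n : ℕ} (hn : 0 < n)
    (h0 : ∑ s ∈ anns (2 * n), eval (fun _ => 1) (PsiS q n s) ≠ 0) :
    (exSt q n fun s' s => if NCat (2 * n) s' s 0 then 1 else 0).re ≤ p2 n := by
  have h1 := tendsto_ex_two hq h0 (fun s' s => if NCat (2 * n) s' s 0 then 1 else 0)
  have h2 := (Complex.continuous_re.tendsto _).comp h1
  refine le_of_tendsto h2 ?_
  filter_upwards [eventually_ge_atTop n] with M hM
  simp only [Function.comp]
  rw [ex_indicator {ω : Cfg | NCat (2 * n) (upS (2 * n) M ω) (loS (2 * n) M ω) 0}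
    (fun ω => if NCat (2 * n) (upS (2 * n) M ω) (loS (2 * n) M ω) 0 then 1 else 0)
    (fun ω hω => if_pos hω) (fun ω hω => if_neg hω), Complex.ofReal_re]
  have h3 : pr (RF 0 ((2 * n : ℕ) : ℤ) (-M) M)
      {ω : Cfg | NCat (2 * n) (upS (2 * n) M ω) (loS (2 * n) M ω) 0} ≤
      pr (RF 0 ((2 * n : ℕ) : ℤ) (-M) M)
        {ω : Cfg | (fun x : ℤ × ℤ => ω (x.1 % ((2 * n : ℕ) : ℤ), x.2)) ∈ twoArm n} :=
    pr_mono _ fun ω hω => twoArm_of_ncAt hn hM ω hω
  refine h3.trans (le_of_eq ?_)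
  refine pr_comp (S := RF (-(n : ℤ)) n (-n) n) (S' := RF 0 ((2 * n : ℕ) : ℤ) (-M) M)
    (f := fun x : ℤ × ℤ => (x.1 % ((2 * n : ℕ) : ℤ), x.2)) ?_ ?_ (depOn_twoArm n)
  · intro x hx x' hx' h
    rw [mem_coe, mem_RF] at hx hx'
    simp only [Prod.mk.injEq] at h
    obtain ⟨h3, h4⟩ := h
    ext
    · have h6 : ((2 * n : ℕ) : ℤ) ∣ x.1 - x'.1 := by
        exact Int.dvd_of_emod_eq_zero (by rw [Int.sub_emod, h3]; simp)
      obtain ⟨c, hc⟩ := h6
      push_cast at hc
      have hc0 : c = 0 := by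
        by_contra hne
        rcases lt_or_gt_of_ne hne with h7 | h7
        · nlinarith
        · nlinarith
      rw [hc0] at hc
      omega
    · exact h4
  · intro x hx
    rw [mem_RF] at hx ⊢
    refine ⟨⟨Int.emod_nonneg _ (by omega), Int.emod_lt_of_pos _ (by omega)⟩, ?_, ?_⟩
    · have := hx.2.1
      simp only
      omega
    · have := hx.2.2
      simp only
      omega

end Pool.Agent.Perc
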