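import Pool.Agent.Lib.MP_6bd702_perq.DWDefs

/-!
# The double wheel space: restriction (task DWA)
-/

set_option autoImplicit false

namespace Pool.Agent.Perc

open Finset MvPolynomial

variable {q : ℂ} {L m : ℕ} {P Q : MvPolynomial ℕ ℂ}

namespace DWA

/-- the degree in the variables of `A` -/
def dA (A : Finset ℕ) (s : ℕ →₀ ℕ) : ℕ := ∑ k ∈ A, s k

lemma dA_add (A : Finset ℕ) (s t : ℕ →₀ ℕ) : dA A (s + t) = dA A s + dA A t := by
  simp [dA, Finset.sum_add_distrib]

/-- the grading homomorphism -/
noncomputable def gr (A : Finset ℕ) : MvPolynomial ℕ ℂ →ₐ[ℂ] Polynomial (MvPolynomial ℕ ℂ) :=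
  aeval fun k => if k ∈ A then Polynomial.C (X k) * Polynomial.X else Polynomial.C (X k)

lemma gr_X (A : Finset ℕ) (k : ℕ) : gr A (X k) =
    if k ∈ A then Polynomial.C (X k) * Polynomial.X else Polynomial.C (X k) := by
  rw [gr, aeval_X]

lemma gr_monomial (A : Finset ℕ) (s : ℕ →₀ ℕ) (c : ℂ) :
    gr A (monomial s c) = Polynomial.C (monomial s c) * Polynomial.X ^ (dA A s) := by
  induction s using Finsupp.induction_linear generalizing c with
  | zero =>
    have h1 : (monomial (0 : ℕ →₀ ℕ) c : MvPolynomial ℕ ℂ) = algebraMap ℂ (MvPolynomial ℕ ℂ) c := rfl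
    rw [h1, AlgHom.commutes]
    simp [dA]
  | add s t hs ht =>
    have h1 : (monomial (s + t) c : MvPolynomial ℕ ℂ) = monomial s c * monomial t 1 := by
      rw [monomial_mul, mul_one]
    rw [h1, map_mul, hs, ht, dA_add, map_mul, pow_add]
    ring
  | single k n =>
    have h1 : (monomial (Finsupp.single k n) c : MvPolynomial ℕ ℂ) =
        algebraMap ℂ (MvPolynomial ℕ ℂ) c * X k ^ n := by
      rw [algebraMap_eq, C_mul_X_pow_eq_monomial]
    have h2 : dA A (Finsupp.single k n) = if k ∈ A then n else 0 := by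
      unfold dA
      by_cases hk : k ∈ A
      · rw [Finset.sum_eq_single_of_mem k hk, Finsupp.single_eq_same, if_pos hk]
        intro b _ hb
        exact Finsupp.single_eq_of_ne hb
      · rw [if_neg hk]
        refine Finset.sum_eq_zero fun b hb => Finsupp.single_eq_of_ne ?_
        rintro rfl
        exact hk hb
    rw [h1, map_mul, map_pow, AlgHom.commutes, gr_X, h2]
    have h3 : (algebraMap ℂ (Polynomial (MvPolynomial ℕ ℂ)) c) =
        Polynomial.C (algebraMap ℂ (MvPolynomial ℕ ℂ) c) := rfl
    rw [h3]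
    by_cases hk : k ∈ A
    · rw [if_pos hk, if_pos hk, mul_pow, map_mul, map_pow]; ring
    · rw [if_neg hk, if_neg hk, map_mul, map_pow]; ring

lemma gr_eq (A : Finset ℕ) (P : MvPolynomial ℕ ℂ) : gr A P =
    ∑ s ∈ P.support, Polynomial.C (monomial s (coeff s P)) * Polynomial.X ^ (dA A s) := by
  conv_lhs => rw [P.as_sum]
  rw [map_sum]
  exact Finset.sum_congr rfl fun s _ => gr_monomial A s _

lemma coeff_gr (A : Finset ℕ) (P : MvPolynomial ℕ ℂ) (m : ℕ) : (gr A P).coeff m =
    ∑ s ∈ P.support with dA A s = m, monomial s (coeff s P) := by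
  rw [gr_eq, Polynomial.finsetSum_coeff, Finset.sum_filter]
  refine Finset.sum_congr rfl fun s _ => ?_
  rw [Polynomial.coeff_C_mul_X_pow]
  by_cases h : dA A s = m
  · rw [if_pos h, if_pos h.symm]
  · rw [if_neg h, if_neg (Ne.symm h)]

lemma coeff_coeff_gr (A : Finset ℕ) (P : MvPolynomial ℕ ℂ) (m : ℕ) (s : ℕ →₀ ℕ) :
    coeff s ((gr A P).coeff m) = if dA A s = m then coeff s P else 0 := by
  classical
  rw [coeff_gr, coeff_sum]
  simp only [coeff_monomial]
  rw [Finset.sum_ite_eq']
  by_cases h : dA A s = m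
  · by_cases hs : s ∈ P.support
    · simp [h, hs]
    · have : coeff s P = 0 := by simpa using hs
      simp [h, this]
  · simp [h]

lemma gr_injective (A : Finset ℕ) : Function.Injective (gr A) := by
  rw [injective_iff_map_eq_zero]
  intro P hP
  ext s
  have := coeff_coeff_gr A P (dA A s) s
  rw [hP] at this
  simpa using this.symm

lemma natDegree_gr_le_iff (A : Finset ℕ) (P : MvPolynomial ℕ ℂ) (d : ℕ) :
    (gr A P).natDegree ≤ d ↔ ∀ s ∈ P.support, dA A s ≤ d := by
  constructor
  · intro h s hs
    by_contra hlt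
    have h1 : (gr A P).coeff (dA A s) = 0 :=
      Polynomial.coeff_eq_zero_of_natDegree_lt (by omega)
    have h2 := coeff_coeff_gr A P (dA A s) s
    rw [h1, if_pos rfl, coeff_zero] at h2
    rw [mem_support_iff] at hs
    exact hs h2.symm
  · intro h
    rw [Polynomial.natDegree_le_iff_coeff_eq_zero]
    intro m hm
    rw [coeff_gr]
    refine Finset.sum_eq_zero fun s hs => ?_
    rw [Finset.mem_filter] at hs
    have := h s hs.1
    omega

lemma degA_le_iff (A : Finset ℕ) (P : MvPolynomial ℕ ℂ) (d : ℕ) :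
    degA A P ≤ d ↔ ∀ s ∈ P.support, ∑ i ∈ A, s i ≤ d := by
  rw [degA, Finset.sup_le_iff]

lemma degA_eq (A : Finset ℕ) (P : MvPolynomial ℕ ℂ) : degA A P = (gr A P).natDegree := by
  apply le_antisymm
  · rw [degA_le_iff]
    exact (natDegree_gr_le_iff A P _).mp le_rfl
  · rw [natDegree_gr_le_iff]
    exact (degA_le_iff A P _).mp le_rfl

lemma lt_of_mem (hout : ∀ k, L ≤ k → P.degreeOf k = 0) {d : ℕ →₀ ℕ} (hd : d ∈ P.support) {k : ℕ}
    (hk : k ∈ d.support) : k < L := by
  by_contra h
  have h1 := hout k (by omega)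
  have h2 := MvPolynomial.monomial_le_degreeOf k hd
  rw [Finsupp.mem_support_iff] at hk
  omega

lemma mem_support_add {d : ℕ →₀ ℕ} (hd : d ∈ (P + Q).support) :
    d ∈ P.support ∨ d ∈ Q.support := by
  rw [mem_support_iff, mem_support_iff]
  rw [mem_support_iff, coeff_add] at hd
  by_contra h
  push Not at h
  rw [h.1, h.2, add_zero] at hd
  exact hd rfl

end DWA

/-- The degree in the variables of `A` is a valuation. -/
theorem degA_mul (A : Finset ℕ) (hP : P ≠ 0) (hQ : Q ≠ 0) :
    degA A (P * Q) = degA A P + degA A Q := by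
  rw [DWA.degA_eq, DWA.degA_eq, DWA.degA_eq, map_mul, Polynomial.natDegree_mul]
  · rwa [Ne, map_eq_zero_iff _ (DWA.gr_injective A)]
  · rwa [Ne, map_eq_zero_iff _ (DWA.gr_injective A)]

theorem DW.add (h : DW q L P) (h' : DW q L Q) : DW q L (P + Q) := by
  refine ⟨?_, ?_, ?_, ?_, ?_⟩
  · intro k hk
    rw [← Nat.le_zero]
    refine (degreeOf_add_le _ _ _).trans ?_
    rw [h.out k hk, h'.out k hk]
    simp
  · intro d hd A hA
    rcases DWA.mem_support_add hd with hd | hd
    · exact h.maj d hd A hA
    · exact h'.maj d hd A hA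
  · intro d hd
    rcases DWA.mem_support_add hd with hd | hd
    · exact h.tot d hd
    · exact h'.tot d hd
  · intro z i j k h1 h2 h3 h4 h5
    obtain ⟨a1, a2⟩ := h.wp z i j k h1 h2 h3 h4 h5
    obtain ⟨b1, b2⟩ := h'.wp z i j k h1 h2 h3 h4 h5
    refine ⟨by rw [map_add, a1, b1, add_zero], fun l => ?_⟩
    rw [map_add, map_add, a2, b2, add_zero]
  · intro z i j k h1 h2 h3 h4 h5
    rw [map_add, h.wm z i j k h1 h2 h3 h4 h5, h'.wm z i j k h1 h2 h3 h4 h5, add_zero]

theorem DW.smul (h : DW q L P) (c : ℂ) : DW q L (C c * P) := by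
  have hs : ∀ d ∈ (C c * P).support, d ∈ P.support := by
    intro d hd
    rw [mem_support_iff, coeff_C_mul] at hd
    rw [mem_support_iff]
    exact right_ne_zero_of_mul hd
  refine ⟨?_, ?_, ?_, ?_, ?_⟩
  · intro k hk
    rw [← Nat.le_zero]
    refine (degreeOf_C_mul_le _ _ _).trans ?_
    rw [h.out k hk]
  · intro d hd A hA
    exact h.maj d (hs d hd) A hA
  · intro d hd
    exact h.tot d (hs d hd)
  · intro z i j k h1 h2 h3 h4 h5
    obtain ⟨a1, a2⟩ := h.wp z i j k h1 h2 h3 h4 h5
    refine ⟨by rw [map_mul, a1, mul_zero], fun l => ?_⟩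
    rw [pderiv_C_mul, map_mul, a2, mul_zero]
  · intro z i j k h1 h2 h3 h4 h5
    rw [map_mul, h.wm z i j k h1 h2 h3 h4 h5, mul_zero]

theorem dw_zero : DW q L 0 := by
  refine ⟨?_, ?_, ?_, ?_, ?_⟩
  · intro k _; exact degreeOf_zero k
  · intro d hd; simp at hd
  · intro d hd; simp at hd
  · intro z i j k _ _ _ _ _
    exact ⟨map_zero _, fun l => by rw [map_zero, map_zero]⟩
  · intro z i j k _ _ _ _ _
    exact map_zero _

theorem DW.sum {ι : Type*} (t : Finset ι) (F : ι → MvPolynomial ℕ ℂ)
    (h : ∀ i ∈ t, DW q L (F i)) : DW q L (∑ i ∈ t, F i) := by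
  classical
  induction t using Finset.induction_on with
  | empty => rw [Finset.sum_empty]; exact dw_zero
  | insert a s ha ih =>
    rw [Finset.sum_insert ha]
    exact (h a (Finset.mem_insert_self a s)).add
      (ih fun i hi => h i (Finset.mem_insert_of_mem hi))

theorem DW.eval_congr (h : DW q L P) {z z' : ℕ → ℂ} (hz : ∀ k < L, z k = z' k) :
    eval z P = eval z' P := by
  rw [eval_eq, eval_eq]
  refine Finset.sum_congr rfl fun d hd => ?_
  congr 1
  refine Finset.prod_congr rfl fun k hk => ?_
  rw [hz k (DWA.lt_of_mem h.out hd hk)]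

namespace DWA

open WheelA (natDegree_aeval_le eval_eval_aeval eval_aeval sum_mul_le_of_two insV_self insV_succ q_cube q_ne_zero)


theorem prod_dvd_of_mult {R : Type*} [CommRing R] [IsDomain R] (F : Polynomial R) (hF : F ≠ 0)
    (S : Finset R) (m : R → ℕ) (h : ∀ a ∈ S, m a ≤ F.rootMultiplicity a) :
    ∏ a ∈ S, (Polynomial.X - Polynomial.C a) ^ m a ∣ F := by
  classical
  have h1 : (∑ a ∈ S, m a • ({a} : Multiset R)) ≤ F.roots := by
    rw [Multiset.le_iff_count]
    intro b
    rw [Multiset.count_sum', Polynomial.count_roots]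
    have : ∀ a ∈ S, Multiset.count b (m a • ({a} : Multiset R)) = if a = b then m b else 0 := by
      intro a _
      rw [Multiset.count_nsmul, Multiset.count_singleton]
      by_cases hab : a = b
      · subst hab
        simp
      · rw [if_neg (Ne.symm hab), if_neg hab, mul_zero]
    rw [Finset.sum_congr rfl this, Finset.sum_ite_eq']
    split_ifs with hb
    · exact h b hb
    · exact Nat.zero_le _
  have h2 := (Multiset.prod_X_sub_C_dvd_iff_le_roots hF _).mpr h1
  convert h2 using 1
  clear h h1 h2
  induction S using Finset.induction_on with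
  | empty => simp
  | insert a S ha ih =>
    rw [Finset.prod_insert ha, Finset.sum_insert ha, Multiset.map_add, Multiset.prod_add, ih,
      Multiset.map_nsmul, Multiset.prod_nsmul]
    simp

theorem eq_zero_of_mult {R : Type*} [CommRing R] [IsDomain R] (F : Polynomial R)
    (S : Finset R) (m : R → ℕ) (h : F ≠ 0 → ∀ a ∈ S, m a ≤ F.rootMultiplicity a)
    (hd : F.natDegree < ∑ a ∈ S, m a) : F = 0 := by
  by_contra hF
  have h1 := Polynomial.natDegree_le_of_dvd (prod_dvd_of_mult F hF S m (h hF)) hF
  rw [Polynomial.natDegree_prod _ _ (fun a _ => pow_ne_zero _ (Polynomial.X_sub_C_ne_zero a))] at h1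
  simp only [Polynomial.natDegree_pow, Polynomial.natDegree_X_sub_C, mul_one] at h1
  omega

/-- The chain rule. -/
theorem chain_rule {B : Type*} [CommRing B] [Algebra ℂ B] (D : B → B)
    (h0 : ∀ a : ℂ, D (algebraMap ℂ B a) = 0) (hadd : ∀ a b, D (a + b) = D a + D b)
    (hmul : ∀ a b, D (a * b) = D a * b + a * D b) (s : ℕ → B) (T : Finset ℕ)
    (hT : ∀ k, k ∉ T → D (s k) = 0) (P : MvPolynomial ℕ ℂ) :
    D (aeval s P) = ∑ k ∈ T, aeval s (pderiv k P) * D (s k) := by
  classical
  induction P using MvPolynomial.induction_on with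
  | C a =>
    rw [aeval_C, h0]
    symm
    refine Finset.sum_eq_zero fun k _ => ?_
    rw [pderiv_C, map_zero, zero_mul]
  | add p r hp hr =>
    rw [map_add, hadd, hp, hr, ← Finset.sum_add_distrib]
    refine Finset.sum_congr rfl fun k _ => ?_
    rw [map_add, map_add, add_mul]
  | mul_X p n hp =>
    rw [map_mul, aeval_X, hmul, hp, Finset.sum_mul]
    have h1 : ∀ k ∈ T, aeval s (pderiv k (p * X n)) * D (s k) =
        aeval s (pderiv k p) * D (s k) * s n +
          (if k = n then aeval s p * D (s n) else 0) := by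
      intro k _
      rw [pderiv_mul, map_add, map_mul, map_mul, aeval_X, pderiv_X]
      by_cases hk : k = n
      · subst hk
        rw [if_pos rfl, Pi.single_eq_same, map_one]
        ring
      · rw [if_neg hk, Pi.single_eq_of_ne (Ne.symm hk), map_zero]
        ring
    rw [Finset.sum_congr rfl h1, Finset.sum_add_distrib]
    congr 1
    rw [Finset.sum_ite_eq']
    split_ifs with hn
    · rfl
    · rw [hT n hn, mul_zero]

theorem chain_poly {A : Type*} [CommRing A] [Algebra ℂ A] (s : ℕ → Polynomial A) (T : Finset ℕ)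
    (hT : ∀ k, k ∉ T → Polynomial.derivative (s k) = 0) (P : MvPolynomial ℕ ℂ) :
    Polynomial.derivative (aeval s P) =
      ∑ k ∈ T, aeval s (pderiv k P) * Polynomial.derivative (s k) := by
  refine chain_rule (fun a => Polynomial.derivative a) ?_ ?_ ?_ s T hT P
  · intro a
    change Polynomial.derivative (algebraMap ℂ (Polynomial A) a) = 0
    rw [Polynomial.algebraMap_apply, Polynomial.derivative_C]
  · intro a b
    exact map_add _ a b
  · intro a b
    exact Polynomial.derivative_mul

theorem chain_mv (l : ℕ) (s : ℕ → MvPolynomial ℕ ℂ) (T : Finset ℕ)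
    (hT : ∀ k, k ∉ T → pderiv l (s k) = 0) (P : MvPolynomial ℕ ℂ) :
    pderiv l (aeval s P) = ∑ k ∈ T, aeval s (pderiv k P) * pderiv l (s k) :=
  chain_rule (fun a => pderiv l a) (fun a => pderiv_C) (fun a b => map_add _ _ _)
    (fun a b => pderiv_mul) s T hT P

open WheelA (sh sh_strictMono insV_sh)

/-- The substitution. -/
noncomputable def subs (q : ℂ) (i : ℕ) : ℕ → Polynomial (MvPolynomial ℕ ℂ) := fun k =>
  if k < i then Polynomial.C (X k) else if k = i then Polynomial.C (C (q ^ 2)) * Polynomial.X
    else if k = i + 1 then Polynomial.X else Polynomial.C (X (k - 2))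

theorem prod_subs (q : ℂ) (i : ℕ) (d : ℕ →₀ ℕ) :
    d.prod (fun k n => subs q i k ^ n) =
      Polynomial.C (C (q ^ (2 * d i)) *
        monomial (d.comapDomain (sh i) (sh_strictMono i).injective.injOn) 1) *
          Polynomial.X ^ (d i + d (i + 1)) := by
  classical
  induction d using Finsupp.induction_linear with
  | zero =>
    rw [Finsupp.prod_zero_index]
    have : (0 : ℕ →₀ ℕ).comapDomain (sh i) (sh_strictMono i).injective.injOn = 0 := by
      ext k
      simp
    rw [this]
    simp
  | add f g hf hg =>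
    rw [Finsupp.prod_add_index' (fun k => pow_zero _) (fun k m n => pow_add _ m n), hf, hg]
    have h1 : (f + g).comapDomain (sh i) (sh_strictMono i).injective.injOn =
        f.comapDomain (sh i) (sh_strictMono i).injective.injOn +
        g.comapDomain (sh i) (sh_strictMono i).injective.injOn := by
      ext k
      simp
    rw [h1, Finsupp.add_apply, Finsupp.add_apply]
    have h2 : (monomial (f.comapDomain (sh i) (sh_strictMono i).injective.injOn +
        g.comapDomain (sh i) (sh_strictMono i).injective.injOn) (1 : ℂ)) =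
        monomial (f.comapDomain (sh i) (sh_strictMono i).injective.injOn) 1 *
          monomial (g.comapDomain (sh i) (sh_strictMono i).injective.injOn) 1 := by
      rw [monomial_mul, one_mul]
    rw [h2]
    simp only [mul_add, pow_add, map_mul]
    ring
  | single a b =>
    have h0 : (Finsupp.single a b).prod (fun k n => subs q i k ^ n) = subs q i a ^ b :=
      Finsupp.prod_single_index (pow_zero _)
    rw [h0]
    unfold subs
    by_cases h1 : a < i
    · rw [if_pos h1]
      have e1 : (Finsupp.single a b) i = 0 := Finsupp.single_eq_of_ne (by omega)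
      have e2 : (Finsupp.single a b) (i + 1) = 0 := Finsupp.single_eq_of_ne (by omega)
      have e3 : (Finsupp.single a b).comapDomain (sh i) (sh_strictMono i).injective.injOn =
          Finsupp.single a b := by
        ext k
        rw [Finsupp.comapDomain_apply, Finsupp.single_apply, Finsupp.single_apply]
        have : a = sh i k ↔ a = k := by
          unfold sh
          split_ifs <;> omega
        simp only [this]
      rw [e1, e2, e3]
      simp only [mul_zero, pow_zero, C_1, one_mul, add_zero, mul_one]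
      rw [X_pow_eq_monomial.symm, map_pow]
    · by_cases h2 : a = i
      · subst h2
        rw [if_neg h1, if_pos rfl]
        have e2 : (Finsupp.single a b) (a + 1) = 0 := Finsupp.single_eq_of_ne (by omega)
        have e3 : (Finsupp.single a b).comapDomain (sh a) (sh_strictMono a).injective.injOn = 0 := by
          ext k
          rw [Finsupp.comapDomain_apply, Finsupp.single_apply, Finsupp.zero_apply, if_neg]
          unfold sh
          split_ifs <;> omega
        rw [Finsupp.single_eq_same, e2, e3]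
        have : (monomial (0 : ℕ →₀ ℕ)) (1 : ℂ) = (1 : MvPolynomial ℕ ℂ) := rfl
        rw [this, mul_one, add_zero, mul_pow, ← map_pow, ← map_pow, pow_mul]
      · by_cases h3 : a = i + 1
        · subst h3
          rw [if_neg h1, if_neg h2, if_pos rfl]
          have e2 : (Finsupp.single (i + 1) b) i = 0 := Finsupp.single_eq_of_ne (by omega)
          have e3 : (Finsupp.single (i + 1) b).comapDomain (sh i)
              (sh_strictMono i).injective.injOn = 0 := by
            ext k
            rw [Finsupp.comapDomain_apply, Finsupp.single_apply, Finsupp.zero_apply, if_neg]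
            unfold sh
            split_ifs <;> omega
          rw [Finsupp.single_eq_same, e2, e3]
          have : (monomial (0 : ℕ →₀ ℕ)) (1 : ℂ) = (1 : MvPolynomial ℕ ℂ) := rfl
          rw [this]
          simp
        · rw [if_neg h1, if_neg h2, if_neg h3]
          have e1 : (Finsupp.single a b) i = 0 := Finsupp.single_eq_of_ne (by omega)
          have e2 : (Finsupp.single a b) (i + 1) = 0 := Finsupp.single_eq_of_ne (by omega)
          have e3 : (Finsupp.single a b).comapDomain (sh i) (sh_strictMono i).injective.injOn =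
              Finsupp.single (a - 2) b := by
            ext k
            rw [Finsupp.comapDomain_apply, Finsupp.single_apply, Finsupp.single_apply]
            have : a = sh i k ↔ a - 2 = k := by
              unfold sh
              split_ifs <;> omega
            simp only [this]
          rw [e1, e2, e3]
          simp only [mul_zero, pow_zero, C_1, one_mul, add_zero, mul_one]
          rw [X_pow_eq_monomial.symm, map_pow]

theorem coeff_subs (q : ℂ) (i : ℕ) (P : MvPolynomial ℕ ℂ) (N : ℕ) :
    (aeval (subs q i) P).coeff N = ∑ d ∈ P.support, if d i + d (i + 1) = N then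
      monomial (d.comapDomain (sh i) (sh_strictMono i).injective.injOn)
        (coeff d P * q ^ (2 * d i)) else 0 := by
  classical
  rw [aeval_def, eval₂_eq, Polynomial.finsetSum_coeff]
  refine Finset.sum_congr rfl fun d _ => ?_
  have h1 : (∏ k ∈ d.support, subs q i k ^ d k) = d.prod (fun k n => subs q i k ^ n) := rfl
  rw [h1, prod_subs, ← mul_assoc, Polynomial.algebraMap_apply, ← map_mul, Polynomial.coeff_C_mul,
    Polynomial.coeff_X_pow]
  by_cases h : d i + d (i + 1) = N
  · rw [if_pos h.symm, if_pos h, mul_one, MvPolynomial.algebraMap_eq, ← mul_assoc, ← C_mul,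
      C_mul_monomial, mul_one]
  · rw [if_neg (Ne.symm h), if_neg h, mul_zero]

theorem support_coeff_subs (q : ℂ) (i : ℕ) (P : MvPolynomial ℕ ℂ) (N : ℕ) {e : ℕ →₀ ℕ}
    (he : e ∈ ((aeval (subs q i) P).coeff N).support) :
    ∃ d ∈ P.support, d i + d (i + 1) = N ∧ ∀ k, e k = d (sh i k) := by
  classical
  rw [coeff_subs, mem_support_iff, coeff_sum] at he
  obtain ⟨d, hd, hne⟩ := Finset.exists_ne_zero_of_sum_ne_zero he
  by_cases h : d i + d (i + 1) = N
  · rw [if_pos h, coeff_monomial] at hne
    refine ⟨d, hd, h, fun k => ?_⟩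
    by_contra hk
    apply hne
    rw [if_neg]
    rintro rfl
    exact hk (by rw [Finsupp.comapDomain_apply])
  · rw [if_neg h, coeff_zero] at hne
    exact absurd rfl hne

theorem subs_pt (q : ℂ) (i : ℕ) (a : MvPolynomial ℕ ℂ) (z : ℕ → ℂ) :
    (fun k => eval z (Polynomial.eval a (subs q i k))) =
      insV i (q ^ 2 * eval z a) (eval z a) z := by
  funext k
  simp only [subs, insV]
  split_ifs <;> simp

theorem pair_le (h : DW q (L + 2) P) {i : ℕ} (hi : i < L + 1) {d : ℕ →₀ ℕ}
    (hd : d ∈ P.support) : d i + d (i + 1) ≤ 2 * L + 1 := by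
  have h1 := h.maj d hd {i, i + 1} (by
    intro k hk
    rw [mem_insert, mem_singleton] at hk
    rw [mem_range]
    omega)
  rw [Finset.sum_pair (by omega), Finset.card_pair (by omega)] at h1
  rw [Finset.sum_range_succ, Finset.sum_range_one] at h1
  omega

theorem pair_ge (h : DW q (L + 2) P) {i : ℕ} (hi : i < L + 1) {d : ℕ →₀ ℕ}
    (hd : d ∈ P.support) : 1 ≤ d i + d (i + 1) := by
  have hsub : ({i, i + 1} : Finset ℕ) ⊆ range (L + 2) := by
    intro k hk
    rw [mem_insert, mem_singleton] at hk
    rw [mem_range]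
    omega
  have h1 := h.maj d hd (range (L + 2) \ {i, i + 1}) Finset.sdiff_subset
  have h2 := h.tot d hd
  rw [← Finset.sum_sdiff hsub, Finset.sum_pair (by omega)] at h2
  rw [Finset.card_sdiff_of_subset hsub, card_range, Finset.card_pair (by omega),
    Nat.add_sub_cancel] at h1
  have h3 : ∑ j ∈ range (L + 2), j = ∑ j ∈ range (L + 2), (L + 2 - 1 - j) :=
    (Finset.sum_range_reflect (fun j => j) (L + 2)).symm
  rw [h3, Finset.sum_range_succ, Finset.sum_range_succ] at h2
  omega

theorem natDegree_subs_le (h : DW q (L + 2) P) {i : ℕ} (hi : i < L + 1) :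
    (aeval (subs q i) P).natDegree ≤ 2 * L + 1 := by
  refine natDegree_aeval_le P _ _ fun e he => ?_
  refine le_trans (sum_mul_le_of_two (i := i) (j := i + 1) (by omega) ?_ ?_ ?_)
    (pair_le h hi he)
  · simp only [subs, lt_irrefl, if_false, if_true]
    refine le_trans Polynomial.natDegree_mul_le ?_
    simp
  · simp only [subs]
    rw [if_neg (by omega), if_neg (by omega)]
    simp
  · intro k hk hk'
    simp only [subs]
    split_ifs
    all_goals simp_all

theorem mult_zero (h : DW q (L + 2) P) {i : ℕ} (hi : i < L + 1) (hF : aeval (subs q i) P ≠ 0) :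
    1 ≤ (aeval (subs q i) P).rootMultiplicity 0 := by
  rw [Nat.succ_le_iff, Polynomial.rootMultiplicity_pos hF, Polynomial.IsRoot,
    ← Polynomial.coeff_zero_eq_eval_zero, coeff_subs]
  refine Finset.sum_eq_zero fun d hd => ?_
  rw [if_neg]
  have := pair_ge h hi hd
  omega

theorem mult_two (hq : q ^ 2 + q + 1 = 0) (h : DW q (L + 2) P) {i : ℕ} (hi : i < L + 1)
    {k : ℕ} (hk : k < L) (hF : aeval (subs q i) P ≠ 0) :
    2 ≤ (aeval (subs q i) P).rootMultiplicity (C (q ^ 2) * X k) := by
  have hq3 := q_cube hq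
  -- the point is on the wheel
  have key : ∀ (z : ℕ → ℂ) (Q : MvPolynomial ℕ ℂ), (∀ (z : ℕ → ℂ) (i j k : ℕ), i < j → j < k →
      k < L + 2 → z i = q ^ 2 * z j → z j = q ^ 2 * z k → eval z Q = 0) →
      eval (fun n => eval z (Polynomial.eval (C (q ^ 2) * X k) (subs q i n))) Q = 0 := by
    intro z Q hQ
    rw [subs_pt]
    have hv : eval z (C (q ^ 2) * X k : MvPolynomial ℕ ℂ) = q ^ 2 * z k := by simp
    rw [hv]
    by_cases hki : k < i
    · refine hQ _ k i (i + 1) hki (by omega) (by omega) ?_ ?_
      · rw [insV_self]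
        have : insV i (q ^ 2 * (q ^ 2 * z k)) (q ^ 2 * z k) z k = z k := by simp [insV, hki]
        rw [this]
        linear_combination (-(q ^ 3 + 1) * z k) * hq3
      · rw [insV_self, insV_succ]
    · refine hQ _ i (i + 1) (k + 2) (by omega) (by omega) (by omega) ?_ ?_
      · rw [insV_self, insV_succ]
      · rw [insV_succ]
        have h1 := insV_sh i (q ^ 2 * (q ^ 2 * z k)) (q ^ 2 * z k) z k
        rw [sh, if_neg hki] at h1
        rw [h1]
  rw [Nat.succ_le_iff, Polynomial.one_lt_rootMultiplicity_iff_isRoot hF]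
  constructor
  · rw [Polynomial.IsRoot]
    apply MvPolynomial.funext
    intro z
    rw [eval_eval_aeval, map_zero]
    exact key z P fun z a b c hab hbc hc h1 h2 => (h.wp z a b c hab hbc hc h1 h2).1
  · rw [Polynomial.IsRoot]
    have h1 := chain_poly (subs q i) {i, i + 1} (by
      intro n hn
      rw [mem_insert, mem_singleton, not_or] at hn
      simp only [subs]
      rw [if_neg hn.1, if_neg hn.2]
      split_ifs <;> exact Polynomial.derivative_C) P
    rw [h1, Polynomial.eval_finsetSum]
    refine Finset.sum_eq_zero fun n _ => ?_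
    rw [Polynomial.eval_mul]
    have h2 : Polynomial.eval (C (q ^ 2) * X k) (aeval (subs q i) (pderiv n P)) = 0 := by
      apply MvPolynomial.funext
      intro z
      rw [eval_eval_aeval, map_zero]
      exact key z _ fun z a b c hab hbc hc h1 h2 => (h.wp z a b c hab hbc hc h1 h2).2 n
    rw [h2, zero_mul]

/-- The factorisation. -/
theorem exists_fact (hq : q ^ 2 + q + 1 = 0) (h : DW q (L + 2) P) {i : ℕ} (hi : i < L + 1) :
    ∃ r : MvPolynomial ℕ ℂ, aeval (subs q i) P =
      (Polynomial.X * ∏ k ∈ range L, (Polynomial.X - Polynomial.C (C (q ^ 2) * X k)) ^ 2) *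
        Polynomial.C r := by
  classical
  have hq0 := q_ne_zero hq
  set F := aeval (subs q i) P with hFdef
  by_cases hF : F = 0
  · exact ⟨0, by rw [hF, map_zero, mul_zero]⟩
  have hC2 : (C (q ^ 2) : MvPolynomial ℕ ℂ) ≠ 0 := by
    rw [Ne, C_eq_zero]
    exact pow_ne_zero _ hq0
  have hinj : Function.Injective (fun k => (C (q ^ 2) * X k : MvPolynomial ℕ ℂ)) := by
    intro a b hab
    exact X_injective (mul_left_cancel₀ hC2 hab)
  have hne : ∀ k, (C (q ^ 2) * X k : MvPolynomial ℕ ℂ) ≠ 0 := fun k =>
    mul_ne_zero hC2 (X_ne_zero k)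
  set S : Finset (MvPolynomial ℕ ℂ) := (range L).image (fun k => C (q ^ 2) * X k) with hS
  have h0S : (0 : MvPolynomial ℕ ℂ) ∉ S := by
    rw [hS, Finset.mem_image]
    rintro ⟨k, _, hk⟩
    exact hne k hk
  have h1 := prod_dvd_of_mult F hF (insert 0 S) (fun a => if a = 0 then 1 else 2) (by
    intro a ha
    rw [Finset.mem_insert] at ha
    rcases ha with rfl | ha
    · rw [if_pos rfl]
      exact mult_zero h hi hF
    · rw [if_neg (by rintro rfl; exact h0S ha)]
      rw [hS, Finset.mem_image] at ha
      obtain ⟨k, hk, rfl⟩ := ha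
      exact mult_two hq h hi (mem_range.mp hk) hF)
  have h2 : ∏ a ∈ insert 0 S, (Polynomial.X - Polynomial.C a) ^ (if a = 0 then 1 else 2) =
      Polynomial.X * ∏ k ∈ range L, (Polynomial.X - Polynomial.C (C (q ^ 2) * X k)) ^ 2 := by
    rw [Finset.prod_insert h0S, if_pos rfl, pow_one, map_zero, sub_zero]
    congr 1
    rw [hS, Finset.prod_image (fun a _ b _ hab => hinj hab)]
    refine Finset.prod_congr rfl fun k _ => ?_
    rw [if_neg (hne k)]
  rw [h2] at h1
  have hmon : (Polynomial.X * ∏ k ∈ range L,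
      (Polynomial.X - Polynomial.C (C (q ^ 2) * X k : MvPolynomial ℕ ℂ)) ^ 2).Monic :=
    Polynomial.monic_X.mul (Polynomial.monic_prod_of_monic _ _ fun k _ =>
      (Polynomial.monic_X_sub_C _).pow 2)
  have hdeg : (Polynomial.X * ∏ k ∈ range L,
      (Polynomial.X - Polynomial.C (C (q ^ 2) * X k : MvPolynomial ℕ ℂ)) ^ 2).natDegree =
        2 * L + 1 := by
    rw [Polynomial.Monic.natDegree_mul Polynomial.monic_X (Polynomial.monic_prod_of_monic _ _
      fun k _ => (Polynomial.monic_X_sub_C _).pow 2), Polynomial.natDegree_X,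
      Polynomial.natDegree_prod_of_monic _ _ fun k _ => (Polynomial.monic_X_sub_C _).pow 2]
    simp only [Polynomial.natDegree_pow, Polynomial.natDegree_X_sub_C, Finset.sum_const, card_range,
      smul_eq_mul]
    ring
  obtain ⟨G, hG⟩ := h1
  have hG0 : G ≠ 0 := by
    rintro rfl
    rw [mul_zero] at hG
    exact hF hG
  have h3 : F.natDegree = 2 * L + 1 + G.natDegree := by
    rw [hG, hmon.natDegree_mul' hG0, hdeg]
  have h4 := natDegree_subs_le h hi
  rw [← hFdef] at h4
  have h5 : G.natDegree = 0 := by omega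
  refine ⟨G.coeff 0, ?_⟩
  rw [← Polynomial.eq_C_of_natDegree_eq_zero h5]
  exact hG

end DWA

open DWA WheelA

/-- Restriction to `z_i = q² v`, `z_{i+1} = v`. -/
theorem DW.restrict (hq : q ^ 2 + q + 1 = 0) (h : DW q (m + 2) P) {i : ℕ} (hi : i ≤ m) :
    ∃ R, DW q m R ∧ ∀ (v : ℂ) (z : ℕ → ℂ), eval (insV i (q ^ 2 * v) v z) P =
      v * (∏ k ∈ range m, (z k - q * v) ^ 2) * eval z R := by
  classical
  obtain ⟨L, rfl⟩ : ∃ L, L = m := ⟨m, rfl⟩
  have hq3 := q_cube hq
  have hq0 := q_ne_zero hq
  obtain ⟨r, hr⟩ := exists_fact hq h (Nat.lt_succ_of_le hi)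
  have hev : ∀ (z : ℕ → ℂ) (v : ℂ), eval (insV i (q ^ 2 * v) v z) P =
      v * (∏ k ∈ range L, (v - q ^ 2 * z k) ^ 2) * eval z r := by
    intro z v
    have h1 := eval_eval_aeval P (subs q i) (C v) z
    rw [subs_pt, eval_C] at h1
    rw [← h1, hr]
    rw [Polynomial.eval_mul, Polynomial.eval_mul, Polynomial.eval_prod, Polynomial.eval_C,
      Polynomial.eval_X, map_mul, map_mul, map_prod, eval_C]
    congr 2
    refine Finset.prod_congr rfl fun k _ => ?_
    simp
  -- the exponents
  have hmon : (Polynomial.X * ∏ k ∈ range L,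
      (Polynomial.X - Polynomial.C (C (q ^ 2) * X k : MvPolynomial ℕ ℂ)) ^ 2).Monic :=
    Polynomial.monic_X.mul (Polynomial.monic_prod_of_monic _ _ fun k _ =>
      (Polynomial.monic_X_sub_C _).pow 2)
  have hdeg : (Polynomial.X * ∏ k ∈ range L,
      (Polynomial.X - Polynomial.C (C (q ^ 2) * X k : MvPolynomial ℕ ℂ)) ^ 2).natDegree =
        2 * L + 1 := by
    rw [Polynomial.Monic.natDegree_mul Polynomial.monic_X (Polynomial.monic_prod_of_monic _ _
      fun k _ => (Polynomial.monic_X_sub_C _).pow 2), Polynomial.natDegree_X,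
      Polynomial.natDegree_prod_of_monic _ _ fun k _ => (Polynomial.monic_X_sub_C _).pow 2]
    simp only [Polynomial.natDegree_pow, Polynomial.natDegree_X_sub_C, Finset.sum_const, card_range,
      smul_eq_mul]
    ring
  have hco : (aeval (subs q i) P).coeff (2 * L + 1) = r := by
    rw [hr, Polynomial.coeff_mul_C, ← hdeg, hmon.coeff_natDegree, one_mul]
  have hsupp : ∀ e ∈ r.support, ∃ d ∈ P.support, d i + d (i + 1) = 2 * L + 1 ∧
      ∀ k, e k = d (sh i k) := by
    intro e he
    rw [← hco] at he
    exact support_coeff_subs q i P _ he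
  have hsuppR : ∀ e ∈ (C (q ^ L) * r).support, e ∈ r.support := by
    intro e he
    rw [mem_support_iff] at he ⊢
    intro h0
    apply he
    rw [coeff_C_mul, h0, mul_zero]
  have hsum : ∀ (d : ℕ →₀ ℕ) (A : Finset ℕ), d i + d (i + 1) = 2 * L + 1 →
      ∑ k ∈ (A.image (sh i)) ∪ {i, i + 1}, d k = ∑ k ∈ A, d (sh i k) + (2 * L + 1) := by
    intro d A hd
    rw [Finset.sum_union, Finset.sum_image, Finset.sum_pair (by omega), hd]
    · intro a _ b _ hab
      exact (sh_strictMono i).injective hab
    · rw [Finset.disjoint_right]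
      intro k hk hk'
      rw [mem_insert, mem_singleton] at hk
      rw [Finset.mem_image] at hk'
      obtain ⟨a, _, rfl⟩ := hk'
      unfold sh at hk
      split_ifs at hk <;> omega
  have hcard : ∀ A : Finset ℕ, ((A.image (sh i)) ∪ {i, i + 1}).card = A.card + 2 := by
    intro A
    rw [Finset.card_union_of_disjoint, Finset.card_image_of_injective _ (sh_strictMono i).injective,
      Finset.card_pair (by omega)]
    rw [Finset.disjoint_right]
    intro k hk hk'
    rw [mem_insert, mem_singleton] at hk
    rw [Finset.mem_image] at hk'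
    obtain ⟨a, _, rfl⟩ := hk'
    unfold sh at hk
    split_ifs at hk <;> omega
  have hrange : ((range L).image (sh i)) ∪ {i, i + 1} = range (L + 2) := by
    apply Finset.eq_of_subset_of_card_le
    · intro k hk
      rw [Finset.mem_union, Finset.mem_image, mem_insert, mem_singleton] at hk
      rw [mem_range]
      rcases hk with ⟨a, ha, rfl⟩ | hk
      · rw [mem_range] at ha
        unfold sh
        split_ifs <;> omega
      · omega
    · rw [hcard, card_range, card_range]
  have htri : ∀ n, ∑ j ∈ range (n + 2), (L + 2 - 1 - j) =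
      ∑ j ∈ range n, (L - 1 - j) + (2 * L + 1) := by
    intro n
    rw [Finset.sum_range_succ', Finset.sum_range_succ']
    have : ∀ j ∈ range n, (L + 2 - 1 - (j + 1 + 1)) = L - 1 - j := fun j _ => by omega
    rw [Finset.sum_congr rfl this]
    have e1 : L + 2 - 1 - (0 + 1) = L := by omega
    have e2 : L + 2 - 1 - 0 = L + 1 := by omega
    rw [e1, e2]
    ring
  have hpoint : ∀ z : ℕ → ℂ, ∃ v : ℂ, v * ∏ k ∈ range L, (v - q ^ 2 * z k) ^ 2 ≠ 0 := by
    intro z
    obtain ⟨v, hv⟩ := Infinite.exists_notMem_finset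
      (insert 0 ((range L).image fun k => q ^ 2 * z k))
    rw [Finset.mem_insert, not_or] at hv
    refine ⟨v, mul_ne_zero hv.1 ?_⟩
    rw [Finset.prod_ne_zero_iff]
    intro k hk h3
    exact hv.2 (Finset.mem_image.2 ⟨k, hk, (sub_eq_zero.1 (pow_eq_zero_iff (two_ne_zero)|>.mp h3)).symm⟩)
  refine ⟨C (q ^ L) * r, ⟨?_, ?_, ?_, ?_, ?_⟩, ?_⟩
  · intro k hk
    rw [← Nat.le_zero, degreeOf_le_iff]
    intro e he
    obtain ⟨d, hd, hdi, hde⟩ := hsupp e (hsuppR e he)
    rw [hde]
    have h1 := monomial_le_degreeOf (sh i k) hd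
    rw [h.out (sh i k) (by unfold sh; split_ifs <;> omega)] at h1
    exact h1
  · intro e he A hA
    obtain ⟨d, hd, hdi, hde⟩ := hsupp e (hsuppR e he)
    have h1 := h.maj d hd ((A.image (sh i)) ∪ {i, i + 1}) (by
      rw [← hrange]
      exact Finset.union_subset_union (Finset.image_subset_image hA) subset_rfl)
    rw [hsum d A hdi, hcard, htri] at h1
    simp only [hde]
    omega
  · intro e he
    obtain ⟨d, hd, hdi, hde⟩ := hsupp e (hsuppR e he)
    have h1 := h.tot d hd
    rw [← hrange, hsum d _ hdi, hrange, Finset.sum_range_succ, Finset.sum_range_succ] at h1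
    simp only [hde]
    omega
  · intro z a b c hab hbc hc h1 h2
    obtain ⟨v, hv⟩ := hpoint z
    have hw := h.wp (insV i (q ^ 2 * v) v z) (sh i a) (sh i b) (sh i c) (sh_strictMono i hab)
      (sh_strictMono i hbc) (by unfold sh; split_ifs <;> omega)
      (by rw [insV_sh, insV_sh]; exact h1) (by rw [insV_sh, insV_sh]; exact h2)
    have h5 : eval z r = 0 := by
      have h3 := hev z v
      rw [hw.1] at h3
      rcases mul_eq_zero.1 h3.symm with h4 | h4
      · exact absurd h4 hv
      · exact h4
    refine ⟨by rw [map_mul, h5, mul_zero], fun l => ?_⟩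
    -- the polynomial identity
    set t : ℕ → MvPolynomial ℕ ℂ := fun k =>
      if k < i then X k else if k = i then C (q ^ 2 * v) else if k = i + 1 then C v else X (k - 2)
      with ht
    have htp : ∀ w : ℕ → ℂ, (fun k => eval w (t k)) = insV i (q ^ 2 * v) v w := by
      intro w
      funext k
      simp only [ht, insV]
      split_ifs <;> simp
    set D : MvPolynomial ℕ ℂ := C v * ∏ k ∈ range L, (C v - C (q ^ 2) * X k) ^ 2 with hD
    have hDv : ∀ w : ℕ → ℂ, eval w D = v * ∏ k ∈ range L, (v - q ^ 2 * w k) ^ 2 := by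
      intro w
      rw [hD, map_mul, map_prod, eval_C]
      congr 1
      refine Finset.prod_congr rfl fun k _ => ?_
      rw [map_pow, map_sub, map_mul, eval_C, eval_C, eval_X]
    have hid : aeval t P = D * r := by
      apply MvPolynomial.funext
      intro w
      rw [eval_aeval, htp, hev, map_mul, hDv]
    have h3 : eval z (pderiv l (aeval t P)) = eval z (pderiv l (D * r)) := by rw [hid]
    rw [chain_mv l t {sh i l} (by
      intro k hk
      rw [mem_singleton] at hk
      simp only [ht]
      split_ifs with c1 c2 c3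
      · rw [pderiv_X, Pi.single_eq_of_ne]
        rintro rfl
        apply hk
        unfold sh
        rw [if_pos c1]
      · exact pderiv_C
      · exact pderiv_C
      · rw [pderiv_X, Pi.single_eq_of_ne]
        rintro rfl
        apply hk
        unfold sh
        rw [if_neg (by omega)]
        omega), Finset.sum_singleton, map_mul (eval z), eval_aeval, htp, hw.2, zero_mul,
      pderiv_mul, map_add (eval z), map_mul (eval z), map_mul (eval z), h5, mul_zero,
      zero_add] at h3
    rcases mul_eq_zero.1 h3.symm with h4 | h4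
    · rw [hDv] at h4
      exact absurd h4 hv
    · rw [pderiv_C_mul, map_mul, h4, mul_zero]
  · intro z a b c hab hbc hc h1 h2
    obtain ⟨v, hv⟩ := hpoint z
    have h3 := hev z v
    rw [h.wm _ (sh i a) (sh i b) (sh i c) (sh_strictMono i hab) (sh_strictMono i hbc)
      (by unfold sh; split_ifs <;> omega) (by rw [insV_sh, insV_sh]; exact h1)
      (by rw [insV_sh, insV_sh]; exact h2)] at h3
    rcases mul_eq_zero.1 h3.symm with h4 | h4
    · exact absurd h4 hv
    · rw [map_mul, h4, mul_zero]
  · intro v z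
    rw [hev, map_mul, eval_C]
    have h1 : ∏ k ∈ range L, (z k - q * v) ^ 2 = (∏ k ∈ range L, (q ^ 2 : ℂ)) *
        ∏ k ∈ range L, (v - q ^ 2 * z k) ^ 2 := by
      rw [← Finset.prod_mul_distrib]
      refine Finset.prod_congr rfl fun k _ => ?_
      linear_combination (-(z k) ^ 2 * (q ^ 3 + 1) + 2 * z k * q * v) * hq3
    rw [h1, Finset.prod_const, card_range]
    have h2 : (q ^ 2) ^ L * q ^ L = 1 := by
      rw [← mul_pow]
      have : q ^ 2 * q = 1 := by linear_combination hq3
      rw [this, one_pow]
    linear_combination (-(v * (∏ k ∈ range L, (v - q ^ 2 * z k) ^ 2)) * eval z r) * h2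

end Pool.Agent.Perc
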