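import Pool.Agent.Lib.MP_6bd702_perq.DWA
import Pool.Agent.Lib.MP_6bd702_perq.DWC

/-!
# The double wheel space: uniqueness (task DWB)
-/

set_option autoImplicit false

namespace Pool.Agent.Perc

open Finset MvPolynomial

variable {q : ℂ} {L m : ℕ} {P : MvPolynomial ℕ ℂ}

namespace DWB

open WheelA WheelC WheelD

/-- A polynomial with too many zeros, counted with multiplicity. -/
theorem eq_zero_of_mult {R ι : Type*} [CommRing R] [IsDomain R] (F : Polynomial R)
    (T : Finset ι) (f : ι → R) (hf : Set.InjOn f T) (m : ι → ℕ)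
    (h : F ≠ 0 → ∀ t ∈ T, m t ≤ F.rootMultiplicity (f t)) (hd : F.natDegree < ∑ t ∈ T, m t) :
    F = 0 := by
  classical
  by_contra hF
  have h1 : ∑ t ∈ T, m t ≤ ∑ a ∈ T.image f, F.roots.count a := by
    rw [Finset.sum_image hf]
    refine Finset.sum_le_sum fun t ht => ?_
    rw [Polynomial.count_roots]
    exact h hF t ht
  have h2 : ∑ a ∈ T.image f, F.roots.count a ≤ Multiset.card F.roots := by
    rw [← Multiset.toFinset_sum_count_eq]
    refine le_trans (b := ∑ a ∈ T.image f ∩ F.roots.toFinset, F.roots.count a) ?_ ?_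
    · refine le_of_eq ?_
      symm
      refine Finset.sum_subset Finset.inter_subset_left fun a ha hb => ?_
      rw [Multiset.count_eq_zero]
      intro hc
      exact hb (Finset.mem_inter.2 ⟨ha, Multiset.mem_toFinset.2 hc⟩)
    · exact Finset.sum_le_sum_of_subset Finset.inter_subset_right
  have h3 := Polynomial.card_roots' F
  omega

/-- The chain rule. -/
theorem chain_rule {B : Type*} [CommRing B] [Algebra ℂ B] (D : B → B)
    (h0 : ∀ a : ℂ, D (algebraMap ℂ B a) = 0) (hadd : ∀ a b, D (a + b) = D a + D b)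
    (hmul : ∀ a b, D (a * b) = D a * b + a * D b) (s : ℕ → B) (T : Finset ℕ)
    (hT : ∀ k, k ∉ T → D (s k) = 0) (P : MvPolynomial ℕ ℂ) :
    D (aeval s P) = ∑ k ∈ T, aeval s (pderiv k P) * D (s k) := by
  classical
  induction P using MvPolynomial.induction_on with
  | C a =>
    rw [aeval_C, h0]
    symm
    refine Finset.sum_eq_zero fun k _ => ?_
    rw [pderiv_C, map_zero, zero_mul]
  | add p r hp hr =>
    rw [map_add, hadd, hp, hr, ← Finset.sum_add_distrib]
    refine Finset.sum_congr rfl fun k _ => ?_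
    rw [map_add, map_add, add_mul]
  | mul_X p n hp =>
    rw [map_mul, aeval_X, hmul, hp, Finset.sum_mul]
    have h1 : ∀ k ∈ T, aeval s (pderiv k (p * X n)) * D (s k) =
        aeval s (pderiv k p) * D (s k) * s n +
          (if k = n then aeval s p * D (s n) else 0) := by
      intro k _
      rw [pderiv_mul, map_add, map_mul, map_mul, aeval_X, pderiv_X]
      by_cases hk : k = n
      · subst hk
        rw [if_pos rfl, Pi.single_eq_same, map_one]
        ring
      · rw [if_neg hk, Pi.single_eq_of_ne (Ne.symm hk), map_zero]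
        ring
    rw [Finset.sum_congr rfl h1, Finset.sum_add_distrib]
    congr 1
    rw [Finset.sum_ite_eq']
    split_ifs with hn
    · rfl
    · rw [hT n hn, mul_zero]

theorem chain_poly {A : Type*} [CommRing A] [Algebra ℂ A] (s : ℕ → Polynomial A) (T : Finset ℕ)
    (hT : ∀ k, k ∉ T → Polynomial.derivative (s k) = 0) (P : MvPolynomial ℕ ℂ) :
    Polynomial.derivative (aeval s P) =
      ∑ k ∈ T, aeval s (pderiv k P) * Polynomial.derivative (s k) := by
  refine chain_rule (fun a => Polynomial.derivative a) ?_ ?_ ?_ s T hT P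
  · intro a
    change Polynomial.derivative (algebraMap ℂ (Polynomial A) a) = 0
    rw [Polynomial.algebraMap_apply, Polynomial.derivative_C]
  · intro a b
    exact map_add _ a b
  · intro a b
    exact Polynomial.derivative_mul

/-! ### Degrees in two variables -/

theorem pair_le (h : DW q L P) {i j : ℕ} (hij : i < j) (hj : j < L) {d : ℕ →₀ ℕ}
    (hd : d ∈ P.support) : d i + d j ≤ 2 * L - 3 := by
  have h1 := h.maj d hd {i, j} (by
    intro k hk
    rw [mem_insert, mem_singleton] at hk
    rw [mem_range]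
    omega)
  rw [Finset.sum_pair (by omega), Finset.card_pair (by omega)] at h1
  rw [Finset.sum_range_succ, Finset.sum_range_one] at h1
  omega

theorem pair_ge (h : DW q L P) {i j : ℕ} (hij : i < j) (hj : j < L) {d : ℕ →₀ ℕ}
    (hd : d ∈ P.support) : 1 ≤ d i + d j := by
  obtain ⟨L, rfl⟩ : ∃ L', L = L' + 2 := ⟨L - 2, by omega⟩
  have hsub : ({i, j} : Finset ℕ) ⊆ range (L + 2) := by
    intro k hk
    rw [mem_insert, mem_singleton] at hk
    rw [mem_range]
    omega
  have h1 := h.maj d hd (range (L + 2) \ {i, j}) Finset.sdiff_subset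
  have h2 := h.tot d hd
  rw [← Finset.sum_sdiff hsub, Finset.sum_pair (by omega)] at h2
  rw [Finset.card_sdiff_of_subset hsub, card_range, Finset.card_pair (by omega),
    Nat.add_sub_cancel] at h1
  have h3 : ∑ j ∈ range (L + 2), j = ∑ j ∈ range (L + 2), (L + 2 - 1 - j) :=
    (Finset.sum_range_reflect (fun j => j) (L + 2)).symm
  rw [h3, Finset.sum_range_succ, Finset.sum_range_succ] at h2
  omega

/-! ### The first step: vanishing at `z_i = q² z_j` -/

/-- The substitution `z_i = q² v`, `z_j = v`. -/
noncomputable def sb (q : ℂ) (i j : ℕ) : ℕ → Polynomial (MvPolynomial ℕ ℂ) := fun k =>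
  if k = i then Polynomial.C (C (q ^ 2)) * Polynomial.X
  else if k = j then Polynomial.X else Polynomial.C (X k)

/-- The point. -/
noncomputable def pt (q : ℂ) (i j : ℕ) (v : ℂ) (z : ℕ → ℂ) : ℕ → ℂ := fun k =>
  if k = i then q ^ 2 * v else if k = j then v else z k

theorem pt_i (i j : ℕ) (v : ℂ) (z : ℕ → ℂ) : pt q i j v z i = q ^ 2 * v := by
  unfold pt
  rw [if_pos rfl]

theorem pt_j {i j : ℕ} (hij : i < j) (v : ℂ) (z : ℕ → ℂ) : pt q i j v z j = v := by
  unfold pt
  rw [if_neg (by omega), if_pos rfl]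

theorem pt_k {i j k : ℕ} (hi : k ≠ i) (hj : k ≠ j) (v : ℂ) (z : ℕ → ℂ) :
    pt q i j v z k = z k := by
  unfold pt
  rw [if_neg hi, if_neg hj]

theorem sb_pt (i j : ℕ) (a : MvPolynomial ℕ ℂ) (z : ℕ → ℂ) :
    (fun k => eval z (Polynomial.eval a (sb q i j k))) = pt q i j (eval z a) z := by
  funext k
  simp only [sb, pt]
  split_ifs <;> simp

theorem isRoot_of (i j : ℕ) (a Q : MvPolynomial ℕ ℂ)
    (h : ∀ z : ℕ → ℂ, eval (pt q i j (eval z a) z) Q = 0) :
    Polynomial.eval a (aeval (sb q i j) Q) = 0 := by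
  apply MvPolynomial.funext
  intro z
  rw [eval_eval_aeval, sb_pt, map_zero]
  exact h z

theorem natDegree_sb_le (h : DW q L P) {i j : ℕ} (hij : i < j) (hj : j < L) :
    (aeval (sb q i j) P).natDegree ≤ 2 * L - 3 := by
  refine natDegree_aeval_le P _ _ fun e he => ?_
  refine le_trans (sum_mul_le_of_two (i := i) (j := j) (by omega) ?_ ?_ ?_) (pair_le h hij hj he)
  · simp only [sb, if_true]
    refine le_trans Polynomial.natDegree_mul_le ?_
    simp
  · simp only [sb]
    rw [if_neg (by omega)]
    simp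
  · intro k hk hk'
    simp only [sb]
    rw [if_neg hk, if_neg hk', Polynomial.natDegree_C]

theorem root_zero (h : DW q L P) {i j : ℕ} (hij : i < j) (hj : j < L) :
    Polynomial.eval 0 (aeval (sb q i j) P) = 0 := by
  apply isRoot_of
  intro z
  rw [map_zero, eval_eq]
  refine Finset.sum_eq_zero fun d hd => ?_
  have h1 := pair_ge h hij hj hd
  have h2 : ∃ k ∈ d.support, pt q i j 0 z k = 0 := by
    by_cases hi : d i = 0
    · refine ⟨j, ?_, ?_⟩
      · rw [Finsupp.mem_support_iff]; omega
      · rw [pt_j hij]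
    · refine ⟨i, ?_, ?_⟩
      · rw [Finsupp.mem_support_iff]; omega
      · rw [pt_i, mul_zero]
  obtain ⟨k, hk, hk'⟩ := h2
  rw [Finset.prod_eq_zero hk, mul_zero]
  rw [hk', zero_pow]
  exact Finsupp.mem_support_iff.1 hk

/-- The double roots. -/
theorem two_le_mult (hq : q ^ 2 + q + 1 = 0) (h : DW q L P) {i j k : ℕ} (hij : i < j) (hj : j < L)
    (hk : k < i ∨ j < k) (hkL : k < L) (hF : aeval (sb q i j) P ≠ 0) :
    2 ≤ (aeval (sb q i j) P).rootMultiplicity (C (q ^ 2) * X k) := by
  have hq3 := q_cube hq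
  have key : ∀ (Q : MvPolynomial ℕ ℂ), (∀ (z : ℕ → ℂ) (i j k : ℕ), i < j → j < k →
      k < L → z i = q ^ 2 * z j → z j = q ^ 2 * z k → eval z Q = 0) →
      Polynomial.eval (C (q ^ 2) * X k) (aeval (sb q i j) Q) = 0 := by
    intro Q hQ
    apply isRoot_of
    intro z
    have hv : eval z (C (q ^ 2) * X k : MvPolynomial ℕ ℂ) = q ^ 2 * z k := by simp
    rw [hv]
    rcases hk with hk | hk
    · refine hQ _ k i j hk hij hj ?_ ?_
      · rw [pt_i, pt_k (by omega) (by omega)]
        linear_combination (-(q ^ 3 + 1) * z k) * hq3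
      · rw [pt_i, pt_j hij]
    · refine hQ _ i j k hij hk hkL ?_ ?_
      · rw [pt_i, pt_j hij]
      · rw [pt_j hij, pt_k (by omega) (by omega)]
  rw [Nat.succ_le_iff, Polynomial.one_lt_rootMultiplicity_iff_isRoot hF]
  constructor
  · exact key P fun z a b c hab hbc hc h1 h2 => (h.wp z a b c hab hbc hc h1 h2).1
  · rw [Polynomial.IsRoot]
    have h1 := chain_poly (sb q i j) {i, j} (by
      intro n hn
      rw [mem_insert, mem_singleton, not_or] at hn
      simp only [sb]
      rw [if_neg hn.1, if_neg hn.2]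
      exact Polynomial.derivative_C) P
    rw [h1, Polynomial.eval_finsetSum]
    refine Finset.sum_eq_zero fun n _ => ?_
    rw [Polynomial.eval_mul, key _ fun z a b c hab hbc hc h1 h2 => (h.wp z a b c hab hbc hc h1 h2).2 n,
      zero_mul]

/-- The roots: `q ^ c * z_k`, and `0` (for `c = 3`). -/
noncomputable def rt (q : ℂ) (t : ℕ × ℕ) : MvPolynomial ℕ ℂ :=
  if t.2 = 3 then 0 else C (q ^ t.2) * X t.1

theorem pow_inj (hq : q ^ 2 + q + 1 = 0) {a b : ℕ} (ha : a < 3) (hb : b < 3)
    (h : q ^ a = q ^ b) : a = b := by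
  have hq0 := q_ne_zero hq
  have hq1 := q_ne_one hq
  have hq3 := q_cube hq
  have h2 : q ^ 2 ≠ 1 := by
    intro h2
    apply hq1
    linear_combination hq3 - q * h2
  have h3 : q ^ 2 ≠ q := by
    intro h3
    apply hq1
    exact mul_left_cancel₀ hq0 (by linear_combination h3)
  have ha' : a = 0 ∨ a = 1 ∨ a = 2 := by omega
  have hb' : b = 0 ∨ b = 1 ∨ b = 2 := by omega
  rcases ha' with rfl | rfl | rfl <;> rcases hb' with rfl | rfl | rfl
  · rfl
  · rw [pow_zero, pow_one] at h
    exact absurd h.symm hq1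
  · rw [pow_zero] at h
    exact absurd h.symm h2
  · rw [pow_zero, pow_one] at h
    exact absurd h hq1
  · rfl
  · rw [pow_one] at h
    exact absurd h.symm h3
  · rw [pow_zero] at h
    exact absurd h h2
  · rw [pow_one] at h
    exact absurd h h3
  · rfl

theorem eval_eq_zero_of_adj (hq : q ^ 2 + q + 1 = 0) (h : DW q L P)
    (h1 : ∀ i, i + 1 < L → ∀ z : ℕ → ℂ, z i = q ^ 2 * z (i + 1) → eval z P = 0) :
    ∀ d i : ℕ, 0 < d → i + d < L → ∀ z : ℕ → ℂ, z i = q ^ 2 * z (i + d) → eval z P = 0 := by
  classical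
  have hq3 := q_cube hq
  have hq0 := q_ne_zero hq
  intro d
  induction d using Nat.strong_induction_on with
  | _ d ih =>
  intro i hd hid z hz
  by_cases hd1 : d = 1
  · subst hd1
    exact h1 i hid z hz
  obtain ⟨j, hj⟩ : ∃ j, j = i + d := ⟨_, rfl⟩
  rw [← hj] at hid hz
  have hij : i < j := by omega
  set F := aeval (sb q i j) P with hF
  -- the inner roots
  have r0 : ∀ l, i < l → l < j → Polynomial.eval (C (q ^ 0) * X l) F = 0 := by
    intro l h1 h2
    apply isRoot_of
    intro z
    have hv : eval z (C (q ^ 0) * X l : MvPolynomial ℕ ℂ) = z l := by simp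
    rw [hv]
    refine ih (l - i) (by omega) i (by omega) (by omega) _ ?_
    have e1 : i + (l - i) = l := by omega
    rw [e1, pt_i, pt_k (by omega) (by omega)]
  have r1 : ∀ l, i < l → l < j → Polynomial.eval (C (q ^ 1) * X l) F = 0 := by
    intro l h1 h2
    apply isRoot_of
    intro z
    have hv : eval z (C (q ^ 1) * X l : MvPolynomial ℕ ℂ) = q * z l := by simp
    rw [hv]
    refine ih (j - l) (by omega) l (by omega) (by omega) _ ?_
    have e1 : l + (j - l) = j := by omega
    rw [e1, pt_j hij, pt_k (by omega) (by omega)]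
    linear_combination (-z l) * hq3
  have r2 : ∀ l, i < l → l < j → Polynomial.eval (C (q ^ 2) * X l) F = 0 := by
    intro l h1 h2
    apply isRoot_of
    intro z
    have hv : eval z (C (q ^ 2) * X l : MvPolynomial ℕ ℂ) = q ^ 2 * z l := by simp
    rw [hv]
    refine h.wm _ i l j h1 h2 hid ?_ ?_
    · rw [pt_j hij, pt_k (by omega) (by omega)]
    · rw [pt_i, pt_k (by omega) (by omega)]
      linear_combination (-(q ^ 3 + 1) * z l) * hq3
  set Rest : Finset ℕ := ((range L).erase i).erase j with hRest
  have hRm : ∀ k, k ∈ Rest ↔ k ≠ j ∧ k ≠ i ∧ k < L := by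
    intro k
    rw [hRest, Finset.mem_erase, Finset.mem_erase, mem_range]
  have hRc : Rest.card = L - 2 := by
    rw [hRest, Finset.card_erase_of_mem, Finset.card_erase_of_mem, card_range]
    · omega
    · rw [mem_range]; omega
    · rw [Finset.mem_erase, mem_range]; omega
  set In : Finset ℕ := Rest.filter (fun k => i < k ∧ k < j) with hIn
  set T : Finset (ℕ × ℕ) := ({(0, 3)} : Finset (ℕ × ℕ)) ∪ (Rest ×ˢ {2} ∪ (In ×ˢ {0} ∪ {(i + 1, 1)}))
    with hT
  set μ : ℕ × ℕ → ℕ := fun t => if t.2 = 2 ∧ ¬ (i < t.1 ∧ t.1 < j) then 2 else 1 with hμ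
  have hTm : ∀ t, t ∈ T ↔ t = (0, 3) ∨ (t.1 ∈ Rest ∧ t.2 = 2) ∨ (t.1 ∈ In ∧ t.2 = 0) ∨
      t = (i + 1, 1) := by
    intro t
    rw [hT, Finset.mem_union, Finset.mem_union, Finset.mem_union, mem_singleton,
      Finset.mem_product, Finset.mem_product, mem_singleton, mem_singleton, mem_singleton]
  have hTi : ∀ t ∈ T, t = (0, 3) ∨ t.2 < 3 := by
    intro t ht
    rw [hTm] at ht
    rcases ht with h | h | h | h
    · exact Or.inl h
    · right; omega
    · right; omega
    · right; rw [h]; norm_num
  have hinj : Set.InjOn (rt q) T := by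
    intro a ha b hb hab
    have ha' := hTi a ha
    have hb' := hTi b hb
    have hne : ∀ t : ℕ × ℕ, t.2 < 3 → rt q t ≠ 0 := by
      intro t ht
      unfold rt
      rw [if_neg (by omega)]
      exact mul_ne_zero (by rw [Ne, C_eq_zero]; exact pow_ne_zero _ hq0) (X_ne_zero _)
    rcases ha' with ha' | ha' <;> rcases hb' with hb' | hb'
    · rw [ha', hb']
    · exfalso
      apply hne b hb'
      rw [← hab, ha']
      rfl
    · exfalso
      apply hne a ha'
      rw [hab, hb']
      rfl
    · unfold rt at hab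
      rw [if_neg (by omega), if_neg (by omega)] at hab
      have := C_mul_X_inj (pow_ne_zero _ hq0) hab
      exact Prod.ext this.1 (pow_inj hq ha' hb' this.2)
  have hF0 : F = 0 := by
    refine eq_zero_of_mult F T (rt q) hinj μ ?_ ?_
    · intro hF1 t ht
      have hone : Polynomial.eval (rt q t) F = 0 → 1 ≤ F.rootMultiplicity (rt q t) := by
        intro h2
        rw [Nat.succ_le_iff, Polynomial.rootMultiplicity_pos hF1]
        exact h2
      rw [hTm] at ht
      rcases ht with h2 | h2 | h2 | h2
      · have e1 : μ t = 1 := by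
          simp only [hμ]
          rw [if_neg (by rw [h2]; norm_num)]
        rw [e1]
        apply hone
        rw [h2]
        exact root_zero h hij hid
      · obtain ⟨h3, h4⟩ := h2
        rw [hRm] at h3
        have e0 : rt q t = C (q ^ 2) * X t.1 := by
          unfold rt
          rw [if_neg (by omega), h4]
        by_cases hin : i < t.1 ∧ t.1 < j
        · have e1 : μ t = 1 := by
            simp only [hμ]
            rw [if_neg (fun hc => hc.2 hin)]
          rw [e1]
          apply hone
          rw [e0]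
          exact r2 _ hin.1 hin.2
        · have e1 : μ t = 2 := by
            simp only [hμ]
            rw [if_pos ⟨h4, hin⟩]
          rw [e1, e0]
          exact two_le_mult hq h hij hid (by omega) h3.2.2 hF1
      · obtain ⟨h3, h4⟩ := h2
        rw [hIn, Finset.mem_filter] at h3
        have e1 : μ t = 1 := by
          simp only [hμ]
          rw [if_neg (fun hc => by omega)]
        have e0 : rt q t = C (q ^ 0) * X t.1 := by
          unfold rt
          rw [if_neg (by omega), h4]
        rw [e1]
        apply hone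
        rw [e0]
        exact r0 _ h3.2.1 h3.2.2
      · have e1 : μ t = 1 := by
          simp only [hμ]
          rw [if_neg (by rw [h2]; norm_num)]
        have e0 : rt q t = C (q ^ 1) * X (i + 1) := by
          unfold rt
          rw [h2, if_neg (by norm_num)]
        rw [e1]
        apply hone
        rw [e0]
        exact r1 _ (by omega) (by omega)
    · refine lt_of_le_of_lt (natDegree_sb_le h hij hid) ?_
      have d1 : Disjoint (In ×ˢ ({0} : Finset ℕ)) {(i + 1, 1)} := by
        rw [Finset.disjoint_left]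
        intro t h1 h2
        rw [Finset.mem_product, mem_singleton] at h1
        rw [mem_singleton] at h2
        rw [h2] at h1
        exact absurd h1.2 (by norm_num)
      have d2 : Disjoint (Rest ×ˢ ({2} : Finset ℕ)) (In ×ˢ ({0} : Finset ℕ) ∪ {(i + 1, 1)}) := by
        rw [Finset.disjoint_left]
        intro t h1 h2
        rw [Finset.mem_product, mem_singleton] at h1
        rw [Finset.mem_union, Finset.mem_product, mem_singleton, mem_singleton] at h2
        rcases h2 with h2 | h2
        · omega
        · rw [h2] at h1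
          exact absurd h1.2 (by norm_num)
      have d3 : Disjoint ({(0, 3)} : Finset (ℕ × ℕ))
          (Rest ×ˢ ({2} : Finset ℕ) ∪ (In ×ˢ ({0} : Finset ℕ) ∪ {(i + 1, 1)})) := by
        rw [Finset.disjoint_left]
        intro t h1 h2
        rw [mem_singleton] at h1
        rw [Finset.mem_union, Finset.mem_union, Finset.mem_product, Finset.mem_product,
          mem_singleton, mem_singleton, mem_singleton] at h2
        rw [h1] at h2
        rcases h2 with h2 | h2 | h2
        · exact absurd h2.2 (by norm_num)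
        · exact absurd h2.2 (by norm_num)
        · have := congrArg Prod.snd h2
          exact absurd this (by norm_num)
      rw [hT, Finset.sum_union d3, Finset.sum_union d2, Finset.sum_union d1, Finset.sum_singleton,
        Finset.sum_singleton, Finset.sum_product, Finset.sum_product]
      simp only [Finset.sum_singleton]
      have s1 : μ (0, 3) = 1 := by
        simp only [hμ]
        rw [if_neg (by norm_num)]
      have s2 : μ (i + 1, 1) = 1 := by
        simp only [hμ]
        rw [if_neg (by norm_num)]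
      have s3 : ∑ x ∈ Rest, μ (x, 2) + ∑ x ∈ In, μ (x, 0) = 2 * (L - 2) := by
        rw [hIn, Finset.sum_filter, ← Finset.sum_add_distrib, ← hRc]
        rw [Finset.sum_congr rfl (g := fun _ => 2)]
        · rw [Finset.sum_const, smul_eq_mul, mul_comm]
        · intro k _
          simp only [hμ]
          by_cases hin : i < k ∧ k < j
          · rw [if_neg (fun hc => hc.2 hin), if_pos hin, if_neg (by norm_num)]
          · rw [if_pos ⟨trivial, hin⟩, if_neg hin, add_zero]
      rw [s1, s2]
      omega
  have h2 := eval_eval_aeval P (sb q i j) (C (z j)) z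
  rw [sb_pt, ← hF, hF0, Polynomial.eval_zero, map_zero, eval_C] at h2
  have h3 : pt q i j (z j) z = z := by
    funext k
    simp only [pt]
    split_ifs with c1 c2
    · rw [c1, hz]
    · rw [c2]
    · rfl
  rw [h3] at h2
  exact h2.symm

/-! ### Divisibility -/

theorem prod_dvd_of_prime {ι R : Type*} [CommRing R] [IsDomain R] (T : Finset ι) (f : ι → R)
    (hp : ∀ t ∈ T, Prime (f t)) (hn : ∀ s ∈ T, ∀ t ∈ T, s ≠ t → ¬ f s ∣ f t) (P : R)
    (hd : ∀ t ∈ T, f t ∣ P) : ∏ t ∈ T, f t ∣ P := by
  classical
  induction T using Finset.induction_on with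
  | empty => simp
  | insert a S ha ih =>
    obtain ⟨Q, hQ⟩ := ih (fun t ht => hp t (Finset.mem_insert_of_mem ht))
      (fun s hs t ht => hn s (Finset.mem_insert_of_mem hs) t (Finset.mem_insert_of_mem ht))
      (fun t ht => hd t (Finset.mem_insert_of_mem ht))
    have h1 := hd a (Finset.mem_insert_self _ _)
    rw [hQ] at h1
    rcases (hp a (Finset.mem_insert_self _ _)).dvd_or_dvd h1 with h2 | h2
    · exfalso
      obtain ⟨t, ht, h3⟩ := (hp a (Finset.mem_insert_self _ _)).exists_mem_finset_dvd h2
      exact hn a (Finset.mem_insert_self _ _) t (Finset.mem_insert_of_mem ht)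
        (by rintro rfl; exact ha ht) h3
    · obtain ⟨Q', hQ'⟩ := h2
      rw [Finset.prod_insert ha]
      exact ⟨Q', by rw [hQ, hQ']; ring⟩

/-- The substitution `X_i ↦ a X_j`. -/
noncomputable def sub1 (a : ℂ) (i j : ℕ) : ℕ → MvPolynomial ℕ ℂ := fun k =>
  if k = i then C a * X j else X k

theorem dvd_iff (a : ℂ) {i j : ℕ} (hij : i ≠ j) (P : MvPolynomial ℕ ℂ) :
    (X i - C a * X j : MvPolynomial ℕ ℂ) ∣ P ↔ aeval (sub1 a i j) P = 0 := by
  constructor
  · rintro ⟨Q, rfl⟩
    rw [map_mul, map_sub, map_mul, aeval_X, aeval_X, aeval_C]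
    have : (sub1 a i j i) - algebraMap ℂ (MvPolynomial ℕ ℂ) a * sub1 a i j j = 0 := by
      unfold sub1
      rw [if_pos rfl, if_neg (Ne.symm hij), MvPolynomial.algebraMap_eq, sub_self]
    rw [this, zero_mul]
  · intro h
    rw [← Ideal.mem_span_singleton, ← Ideal.Quotient.eq_zero_iff_mem]
    set I := Ideal.span {(X i - C a * X j : MvPolynomial ℕ ℂ)} with hI
    have h1 : ((Ideal.Quotient.mkₐ ℂ I).comp (aeval (sub1 a i j))) = Ideal.Quotient.mkₐ ℂ I := by
      apply MvPolynomial.algHom_ext
      intro k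
      rw [AlgHom.comp_apply, aeval_X]
      simp only [sub1]
      split_ifs with hk
      · rw [hk]
        symm
        show Ideal.Quotient.mk I _ = Ideal.Quotient.mk I _
        rw [Ideal.Quotient.eq]
        exact Ideal.mem_span_singleton_self _
      · rfl
    have h2 : Ideal.Quotient.mk I P = Ideal.Quotient.mk I (aeval (sub1 a i j) P) :=
      (congrArg (fun f : MvPolynomial ℕ ℂ →ₐ[ℂ] _ => f P) h1).symm
    rw [h2, h, map_zero]

theorem prime_lin (a : ℂ) {i j : ℕ} (hij : i ≠ j) : Prime (X i - C a * X j : MvPolynomial ℕ ℂ) := by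
  refine ⟨?_, ?_, ?_⟩
  · intro h
    have h1 := congrArg (eval (fun n => if n = i then (1 : ℂ) else 0)) h
    simp [Ne.symm hij] at h1
  · intro h
    have h1 : (X i - C a * X j : MvPolynomial ℕ ℂ) ∣ 1 := isUnit_iff_dvd_one.1 h
    rw [dvd_iff a hij, map_one] at h1
    exact one_ne_zero h1
  · intro A B h
    rw [dvd_iff a hij, map_mul] at h
    rw [dvd_iff a hij, dvd_iff a hij]
    exact mul_eq_zero.1 h

theorem not_dvd_lin {a : ℂ} (ha : a ≠ 0) {i j k l : ℕ} (hij : i < j) (hkl : k < l)
    (hne : (j, i) ≠ (l, k)) :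
    ¬ (X i - C a * X j : MvPolynomial ℕ ℂ) ∣ (X k - C a * X l : MvPolynomial ℕ ℂ) := by
  rw [dvd_iff a (by omega), map_sub, map_mul, aeval_X, aeval_X, aeval_C,
    MvPolynomial.algebraMap_eq, sub_eq_zero]
  intro h
  simp only [sub1] at h
  split_ifs at h with h1 h2 h3
  · omega
  · have := (C_mul_X_inj ha h).1
    apply hne
    rw [h1, this]
  · rw [← one_mul (X k), ← C_1, ← mul_assoc, ← C_mul] at h
    have := (C_mul_X_inj one_ne_zero h).1
    omega
  · rw [← one_mul (X k), ← C_1] at h
    have := (C_mul_X_inj one_ne_zero h).1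
    omega

theorem eval_sub1 (a : ℂ) (i j : ℕ) (P : MvPolynomial ℕ ℂ) (z : ℕ → ℂ) :
    eval z (aeval (sub1 a i j) P) = eval (fun k => if k = i then a * z j else z k) P := by
  rw [eval_aeval]
  have h1 : (fun k => eval z (sub1 a i j k)) = fun k => if k = i then a * z j else z k := by
    funext k
    simp only [sub1]
    split_ifs <;> simp
  rw [h1]

theorem dvd_of_eval (a : ℂ) {i j : ℕ} (hij : i ≠ j)
    (h : ∀ z : ℕ → ℂ, z i = a * z j → eval z P = 0) :
    (X i - C a * X j : MvPolynomial ℕ ℂ) ∣ P := by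
  rw [dvd_iff a hij]
  apply MvPolynomial.funext
  intro z
  rw [map_zero, eval_sub1]
  apply h
  rw [if_pos rfl, if_neg (Ne.symm hij)]

theorem isHomogeneous_minPoly (q : ℂ) (L : ℕ) :
    (minPoly q L).IsHomogeneous (∑ j ∈ range L, j) := by
  unfold minPoly
  refine IsHomogeneous.prod _ _ _ fun j _ => ?_
  have h1 := IsHomogeneous.prod (range j) (fun i => (X i - C (q ^ 2) * X j : MvPolynomial ℕ ℂ))
    (fun _ => 1) (fun i _ => (isHomogeneous_X _ _).sub (isHomogeneous_C_mul_X _ _))
  rw [Finset.sum_const, card_range, smul_eq_mul, mul_one] at h1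
  exact h1

theorem minPoly_ne_zero (q : ℂ) (L : ℕ) : minPoly q L ≠ 0 := by
  unfold minPoly
  rw [Finset.prod_ne_zero_iff]
  intro j _
  rw [Finset.prod_ne_zero_iff]
  intro i hi
  rw [mem_range] at hi
  exact (prime_lin _ (by omega)).ne_zero

theorem degree_eq (h : DW q L P) {d : ℕ →₀ ℕ} (hd : d ∈ P.support) :
    d.sum (fun _ e => e) = ∑ j ∈ range L, j := by
  rw [← h.tot d hd, Finsupp.sum]
  refine Finset.sum_subset ?_ ?_
  · intro k hk
    rw [mem_range]
    by_contra hc
    have h1 := le_degreeOf hd k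
    rw [h.out k (by omega)] at h1
    rw [Finsupp.mem_support_iff] at hk
    omega
  · intro k _ hk
    exact Finsupp.notMem_support_iff.1 hk

theorem totalDegree_le (h : DW q L P) : P.totalDegree ≤ ∑ j ∈ range L, j := by
  unfold totalDegree
  refine Finset.sup_le fun d hd => ?_
  rw [degree_eq h hd]

end DWB

open WheelA WheelC WheelD DWB

/-- A polynomial of the space which vanishes at `z_i = q² z_{i+1}` for all `i` is a multiple of
the product. -/
theorem DW.eq_minPoly (hq : q ^ 2 + q + 1 = 0) (h : DW q L P)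
    (h0 : ∀ i, i + 1 < L → ∀ z : ℕ → ℂ, z i = q ^ 2 * z (i + 1) → eval z P = 0) :
    ∃ c, P = C c * minPoly q L := by
  classical
  have hq0 := q_ne_zero hq
  have h1 := eval_eq_zero_of_adj hq h h0
  have h2 : minPoly q L ∣ P := by
    unfold minPoly
    rw [Finset.prod_sigma']
    refine prod_dvd_of_prime _ (fun t : (Σ _ : ℕ, ℕ) => (X t.2 - C (q ^ 2) * X t.1 : MvPolynomial ℕ ℂ))
      ?_ ?_ _ ?_
    · intro t ht
      rw [Finset.mem_sigma, mem_range, mem_range] at ht
      exact prime_lin _ (by omega)
    · intro s hs t ht hst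
      rw [Finset.mem_sigma, mem_range, mem_range] at hs ht
      refine not_dvd_lin (pow_ne_zero _ hq0) hs.2 ht.2 ?_
      intro hc
      apply hst
      obtain ⟨s1, s2⟩ := s
      obtain ⟨t1, t2⟩ := t
      simp only [Prod.mk.injEq] at hc
      obtain ⟨rfl, rfl⟩ := hc
      rfl
    · intro t ht
      rw [Finset.mem_sigma, mem_range, mem_range] at ht
      refine dvd_of_eval _ (by omega) fun z hz => ?_
      refine h1 (t.1 - t.2) t.2 (by omega) (by omega) z ?_
      have e1 : t.2 + (t.1 - t.2) = t.1 := by omega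
      rw [e1]
      exact hz
  obtain ⟨Q, hQ⟩ := h2
  by_cases hQ0 : Q = 0
  · exact ⟨0, by rw [hQ, hQ0]; simp⟩
  have h3 := totalDegree_mul_of_isDomain (minPoly_ne_zero q L) hQ0
  rw [← hQ, (isHomogeneous_minPoly q L).totalDegree (minPoly_ne_zero q L)] at h3
  have h4 := totalDegree_le h
  have h5 : Q.totalDegree = 0 := by omega
  rw [totalDegree_eq_zero_iff_eq_C] at h5
  refine ⟨coeff 0 Q, ?_⟩
  rw [← h5, mul_comm]
  exact hQ

/-- A polynomial of the space is determined by its values at the states. -/
theorem DW.eq_zero (hq : q ^ 2 + q + 1 = 0) (h : DW q (2 * m) P)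
    (h0 : ∀ s, IsAnn (2 * m) s → eval (zptS q s) P = 0) : P = 0 := by
  classical
  have hq0 := q_ne_zero hq
  have hq1 := q_ne_one hq
  have hq3 := q_cube hq
  induction m generalizing P with
  | zero =>
    obtain ⟨c, hc⟩ := h.eq_minPoly hq (fun i hi => absurd hi (by omega))
    have h1 := h0 _ (isAnn_nestS 0)
    rw [hc] at h1
    simp only [minPoly, mul_zero, Finset.range_zero, Finset.prod_empty, mul_one, eval_C] at h1
    rw [hc, h1]
    simp
  | succ m ih =>
    have hN : 2 * (m + 1) = 2 * m + 2 := by ring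
    rw [hN] at h h0
    have hres : ∀ (P : MvPolynomial ℕ ℂ), DW q (2 * m + 2) P → ∀ i ≤ 2 * m,
        (∀ s, IsAnn (2 * m) s → eval (zptS q (insL i s)) P = 0) →
        ∀ z : ℕ → ℂ, z i = q ^ 2 * z (i + 1) → eval z P = 0 := by
      intro P hP i hi h1 z hz
      obtain ⟨R, hR, hPR⟩ := hP.restrict hq hi
      have hR0 : R = 0 := by
        apply ih hR
        intro s hs
        have h2 := hPR 1 (zptS q s)
        simp only [mul_one, one_mul] at h2
        rw [← zptS_insL q hs hi, h1 s hs, prod_zptS hq hs] at h2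
        rcases mul_eq_zero.1 h2.symm with h3 | h3
        · exfalso
          exact pow_ne_zero _ (mul_ne_zero (by norm_num) hq0) h3
        · exact h3
      have h2 := hPR (z (i + 1)) (fun k => z (sh i k))
      rw [← eq_insV hz, hR0, map_zero, mul_zero] at h2
      exact h2
    obtain ⟨c, hc⟩ := h.eq_minPoly hq (fun i hi => hres P h i (by omega)
      (fun s hs => h0 _ (hs.insL (by omega))))
    obtain ⟨Q, hQ, hPQ⟩ := h.exists_rot hq
    have h1 := hres Q hQ 0 (by omega) (fun s hs => by
      rw [hPQ, ← zptS_rotL q (hs.insL (by omega))]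
      exact h0 _ (hs.insL (by omega)).rotL)
    -- the value at the seam
    have h2 := h1 (fun k => if k = 0 then q ^ 2 else 1) (by simp)
    rw [hPQ, hc, map_mul, eval_C] at h2
    rcases mul_eq_zero.1 h2 with h3 | h3
    · rw [hc, h3]
      simp
    · exfalso
      revert h3
      unfold minPoly
      rw [map_prod, imp_false, ← ne_eq, Finset.prod_ne_zero_iff]
      intro j hj
      rw [map_prod, Finset.prod_ne_zero_iff]
      intro i hi
      rw [mem_range] at hi hj
      rw [map_sub, map_mul, eval_X, eval_X, eval_C]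
      have h4 : rotV (2 * m + 2) (fun k => if k = 0 then q ^ 2 else 1) i = 1 := by
        unfold rotV
        rw [if_pos (by omega)]
        exact if_neg (by omega)
      rw [h4]
      by_cases hj2 : j + 1 = 2 * m + 2
      · have h5 : rotV (2 * m + 2) (fun k => if k = 0 then q ^ 2 else 1) j = q ^ 2 := by
          unfold rotV
          rw [if_neg (by omega), if_pos hj2]
          exact if_pos rfl
        rw [h5]
        intro h6
        apply hq1
        linear_combination (-1) * h6 - q * hq3
      · have h5 : rotV (2 * m + 2) (fun k => if k = 0 then q ^ 2 else 1) j = 1 := by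
          unfold rotV
          rw [if_pos (by omega)]
          exact if_neg (by omega)
        rw [h5]
        intro h6
        apply hq1
        linear_combination hq3 + q * h6

end Pool.Agent.Perc
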