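import Pool.Agent.Lib.MP_6bd702_perq.DWA

/-!
# The double wheel space: the operators E_i preserve it (task DWE)
-/

set_option autoImplicit false

namespace Pool.Agent.Perc

open Finset MvPolynomial

variable {q : ℂ} {L : ℕ} {P : MvPolynomial ℕ ℂ}

namespace DWE

open WheelE (eval_sw num eval_num exists_quot X_sub_X_ne norm_q q_ne_one q_ne_zero q_cube
  q2_ne_one degreeOf_sw_of_ne degreeOf_num_le degreeOf_sw_left degreeOf_sw_right)

/-! ### degrees -/

lemma sum_single (A : Finset ℕ) (i : ℕ) :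
    ∑ k ∈ A, (Finsupp.single i 1 : ℕ →₀ ℕ) k = if i ∈ A then 1 else 0 := by
  by_cases h : i ∈ A
  · rw [if_pos h, Finset.sum_eq_single_of_mem i h, Finsupp.single_eq_same]
    intro b _ hb
    exact Finsupp.single_eq_of_ne hb
  · rw [if_neg h]
    refine Finset.sum_eq_zero fun b hb => Finsupp.single_eq_of_ne ?_
    rintro rfl
    exact h hb

lemma degA_X_le (A : Finset ℕ) (i : ℕ) (c : ℂ) :
    degA A (C c * X i : MvPolynomial ℕ ℂ) ≤ if i ∈ A then 1 else 0 := by
  rw [DWA.degA_le_iff]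
  intro s hs
  have h1 : s = Finsupp.single i 1 := by
    rw [C_mul_X_eq_monomial] at hs
    have := support_monomial_subset hs
    rwa [mem_singleton] at this
  rw [h1, sum_single]

lemma degA_sub_le (A : Finset ℕ) (P Q : MvPolynomial ℕ ℂ) {d : ℕ} (hP : degA A P ≤ d)
    (hQ : degA A Q ≤ d) : degA A (P - Q) ≤ d := by
  rw [DWA.degA_le_iff] at *
  intro s hs
  rw [sub_eq_add_neg] at hs
  rcases DWA.mem_support_add hs with h | h
  · exact hP s h
  · rw [support_neg] at h
    exact hQ s h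

lemma degA_lin_le (A : Finset ℕ) (i : ℕ) (a b : ℂ) :
    degA A (C a * X i - C b * X (i + 1) : MvPolynomial ℕ ℂ)
      ≤ if i ∈ A ∨ i + 1 ∈ A then 1 else 0 := by
  refine degA_sub_le A _ _ ((degA_X_le A i a).trans ?_) ((degA_X_le A (i + 1) b).trans ?_) <;>
    split_ifs <;> simp_all

lemma degA_lin_le' (A : Finset ℕ) (i : ℕ) (a b : ℂ) :
    degA A (C a * X (i + 1) - C b * X i : MvPolynomial ℕ ℂ)
      ≤ if i ∈ A ∨ i + 1 ∈ A then 1 else 0 := by
  refine degA_sub_le A _ _ ((degA_X_le A (i + 1) a).trans ?_) ((degA_X_le A i b).trans ?_) <;>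
    split_ifs <;> simp_all

lemma le_degA_X_sub_X (A : Finset ℕ) (i : ℕ) :
    (if i ∈ A ∨ i + 1 ∈ A then 1 else 0) ≤ degA A (X i - X (i + 1) : MvPolynomial ℕ ℂ) := by
  have hne : (Finsupp.single i 1 : ℕ →₀ ℕ) ≠ Finsupp.single (i + 1) 1 := by
    intro h
    have := (Finsupp.single_left_injective one_ne_zero) h
    omega
  have h1 : (Finsupp.single i 1 : ℕ →₀ ℕ) ∈ (X i - X (i + 1) : MvPolynomial ℕ ℂ).support := by
    rw [mem_support_iff, coeff_sub, coeff_X, coeff_X, if_pos rfl, if_neg hne.symm, sub_zero]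
    exact one_ne_zero
  have h2 : (Finsupp.single (i + 1) 1 : ℕ →₀ ℕ) ∈ (X i - X (i + 1) : MvPolynomial ℕ ℂ).support := by
    rw [mem_support_iff, coeff_sub, coeff_X, coeff_X, if_pos rfl, if_neg hne, zero_sub]
    exact neg_ne_zero.mpr one_ne_zero
  by_cases h : i ∈ A
  · have h3 := (DWA.degA_le_iff A _ _).mp le_rfl _ h1
    rw [sum_single, if_pos h] at h3
    rw [if_pos (Or.inl h)]
    exact h3
  · by_cases h' : i + 1 ∈ A
    · have h3 := (DWA.degA_le_iff A _ _).mp le_rfl _ h2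
      rw [sum_single, if_pos h'] at h3
      rw [if_pos (Or.inr h')]
      exact h3
    · rw [if_neg (by tauto)]
      exact Nat.zero_le _

/-- exponents of the exchanged polynomial -/
lemma support_sw {i : ℕ} {d : ℕ →₀ ℕ} (hd : d ∈ (WheelE.sw i P).support) :
    ∃ e ∈ P.support, ∀ k, d k = e (Equiv.swap i (i + 1) k) := by
  classical
  unfold WheelE.sw at hd
  rw [support_rename_of_injective (Equiv.injective _), Finset.mem_image] at hd
  obtain ⟨e, he, rfl⟩ := hd
  refine ⟨e, he, fun k => ?_⟩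
  conv_lhs => rw [← Equiv.swap_apply_self i (i + 1) k]
  exact Finsupp.mapDomain_apply (Equiv.injective _) _ _

lemma degA_sw_le (h : DW q L P) {i : ℕ} (hi : i + 1 < L) {A : Finset ℕ} (hA : A ⊆ range L) :
    degA A (WheelE.sw i P) ≤ ∑ j ∈ range A.card, (L - 1 - j) := by
  classical
  rw [DWA.degA_le_iff]
  intro d hd
  obtain ⟨e, he, hde⟩ := support_sw hd
  have h1 := h.maj e he (A.image (Equiv.swap i (i + 1))) (by
    intro k hk
    rw [Finset.mem_image] at hk
    obtain ⟨a, ha, rfl⟩ := hk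
    have ha' := hA ha
    rw [mem_range] at ha' ⊢
    rw [Equiv.swap_apply_def]
    split_ifs <;> omega)
  rw [Finset.card_image_of_injective _ (Equiv.injective _),
    Finset.sum_image (fun a _ b _ hab => (Equiv.injective _) hab)] at h1
  refine le_trans (le_of_eq ?_) h1
  exact Finset.sum_congr rfl fun k _ => hde k

lemma degA_mul_le (A : Finset ℕ) (P Q : MvPolynomial ℕ ℂ) {a b : ℕ} (hP : degA A P ≤ a)
    (hQ : degA A Q ≤ b) : degA A (P * Q) ≤ a + b := by
  by_cases hP0 : P = 0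
  · subst hP0
    rw [zero_mul]
    simp [degA]
  by_cases hQ0 : Q = 0
  · subst hQ0
    rw [mul_zero]
    simp [degA]
  rw [degA_mul A hP0 hQ0]
  exact add_le_add hP hQ

lemma degA_num_le (h : DW q L P) {i : ℕ} (hi : i + 1 < L) {A : Finset ℕ} (hA : A ⊆ range L) :
    degA A (num q i P) ≤ (if i ∈ A ∨ i + 1 ∈ A then 1 else 0) + ∑ j ∈ range A.card, (L - 1 - j) := by
  unfold WheelE.num
  refine degA_sub_le A _ _ ?_ ?_
  · exact degA_mul_le A _ _ (degA_lin_le' A i _ _) (degA_sw_le h hi hA)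
  · exact degA_mul_le A _ _ (degA_lin_le A i _ _) ((DWA.degA_le_iff A P _).mpr fun d hd => h.maj d hd A hA)

/-! ### homogeneity -/

lemma gr_of_tot {A : Finset ℕ} {D : ℕ} (h : ∀ d ∈ P.support, ∑ i ∈ A, d i = D) :
    DWA.gr A P = Polynomial.C P * Polynomial.X ^ D := by
  rw [DWA.gr_eq]
  have h1 : ∑ s ∈ P.support, Polynomial.C (monomial s (coeff s P)) * Polynomial.X ^ (DWA.dA A s)
      = ∑ s ∈ P.support, Polynomial.C (monomial s (coeff s P)) * Polynomial.X ^ D :=
    Finset.sum_congr rfl fun s hs => by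
      have : DWA.dA A s = D := h s hs
      rw [this]
  rw [h1, ← Finset.sum_mul, ← map_sum, ← P.as_sum]

lemma tot_of_gr {A : Finset ℕ} {D : ℕ} (h : DWA.gr A P = Polynomial.C P * Polynomial.X ^ D) :
    ∀ d ∈ P.support, ∑ i ∈ A, d i = D := by
  intro d hd
  have h1 := DWA.coeff_coeff_gr A P (DWA.dA A d) d
  rw [if_pos rfl, h, Polynomial.coeff_C_mul_X_pow] at h1
  by_contra hne
  rw [if_neg (show ¬ DWA.dA A d = D from hne), coeff_zero] at h1
  exact (mem_support_iff.mp hd) h1.symm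

lemma tot_sw (h : DW q L P) {i : ℕ} (hi : i + 1 < L) :
    ∀ d ∈ (WheelE.sw i P).support, ∑ k ∈ range L, d k = ∑ j ∈ range L, j := by
  intro d hd
  obtain ⟨e, he, hde⟩ := support_sw hd
  rw [← h.tot e he]
  refine Finset.sum_bij (fun k _ => Equiv.swap i (i + 1) k) ?_ ?_ ?_ ?_
  · intro k hk
    rw [mem_range] at hk ⊢
    rw [Equiv.swap_apply_def]
    split_ifs <;> omega
  · intro a _ b _ hab
    exact (Equiv.injective _) hab
  · intro b hb
    refine ⟨Equiv.swap i (i + 1) b, ?_, Equiv.swap_apply_self _ _ _⟩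
    rw [mem_range] at hb ⊢
    rw [Equiv.swap_apply_def]
    split_ifs <;> omega
  · intro k _
    exact hde k

lemma gr_lin {i : ℕ} (hi : i + 1 < L) (a b : ℂ) :
    DWA.gr (range L) (C a * X i - C b * X (i + 1)) =
      Polynomial.C (C a * X i - C b * X (i + 1)) * Polynomial.X := by
  have hC : ∀ c : ℂ, DWA.gr (range L) (C c) = Polynomial.C (C c) := fun c => by
    have h1 : (C c : MvPolynomial ℕ ℂ) = algebraMap ℂ (MvPolynomial ℕ ℂ) c := rfl
    rw [h1, AlgHom.commutes]
    rfl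
  rw [map_sub, map_mul, map_mul, DWA.gr_X, DWA.gr_X, if_pos (mem_range.mpr (by omega)),
    if_pos (mem_range.mpr (by omega)), hC, hC]
  simp only [map_sub, map_mul]
  ring

lemma gr_lin' {i : ℕ} (hi : i + 1 < L) (a b : ℂ) :
    DWA.gr (range L) (C a * X (i + 1) - C b * X i) =
      Polynomial.C (C a * X (i + 1) - C b * X i) * Polynomial.X := by
  have hC : ∀ c : ℂ, DWA.gr (range L) (C c) = Polynomial.C (C c) := fun c => by
    have h1 : (C c : MvPolynomial ℕ ℂ) = algebraMap ℂ (MvPolynomial ℕ ℂ) c := rfl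
    rw [h1, AlgHom.commutes]
    rfl
  rw [map_sub, map_mul, map_mul, DWA.gr_X, DWA.gr_X, if_pos (mem_range.mpr (by omega)),
    if_pos (mem_range.mpr (by omega)), hC, hC]
  simp only [map_sub, map_mul]
  ring

lemma gr_num (h : DW q L P) {i : ℕ} (hi : i + 1 < L) :
    DWA.gr (range L) (num q i P) =
      Polynomial.C (num q i P) * Polynomial.X ^ (∑ j ∈ range L, j + 1) := by
  unfold WheelE.num
  rw [map_sub, map_mul (DWA.gr (range L)), map_mul (DWA.gr (range L)), gr_lin' hi, gr_lin hi,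
    gr_of_tot h.tot, gr_of_tot (tot_sw h hi)]
  simp only [map_sub, map_mul]
  ring

lemma tot_quot (h : DW q L P) {i : ℕ} (hi : i + 1 < L) {Q : MvPolynomial ℕ ℂ}
    (hQ : (X i - X (i + 1)) * Q = num q i P) :
    ∀ d ∈ Q.support, ∑ k ∈ range L, d k = ∑ j ∈ range L, j := by
  apply tot_of_gr
  have h1 := gr_num h hi
  rw [← hQ, map_mul (DWA.gr (range L))] at h1
  have h2 := gr_lin hi (1 : ℂ) 1
  simp only [C_1, one_mul] at h2
  rw [h2, map_mul Polynomial.C] at h1
  have h3 : (Polynomial.C (X i - X (i + 1) : MvPolynomial ℕ ℂ) * Polynomial.X) ≠ 0 :=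
    mul_ne_zero (by rw [Ne, Polynomial.C_eq_zero]; exact X_sub_X_ne (by omega)) Polynomial.X_ne_zero
  refine mul_left_cancel₀ h3 ?_
  rw [h1]
  ring

/-! ### wheel conditions of the numerator -/

lemma hs (i : ℕ) (z : ℕ → ℂ) (k : ℕ) : swapV i z (Equiv.swap i (i + 1) k) = z k := by
  rw [swapV, Equiv.swap_apply_self]

lemma swap_eq (i k : ℕ) : Equiv.swap i (i + 1) k = if k = i then i + 1 else if k = i + 1 then i else k :=
  Equiv.swap_apply_def _ _ _

lemma swapV_self (i : ℕ) (z : ℕ → ℂ) : swapV i z i = z (i + 1) := by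
  rw [swapV, Equiv.swap_apply_left]

lemma swapV_succ (i : ℕ) (z : ℕ → ℂ) : swapV i z (i + 1) = z i := by
  rw [swapV, Equiv.swap_apply_right]

lemma swapV_of_ne (i : ℕ) (z : ℕ → ℂ) {k : ℕ} (h1 : k ≠ i) (h2 : k ≠ i + 1) : swapV i z k = z k := by
  rw [swapV, Equiv.swap_apply_of_ne_of_ne h1 h2]

lemma wm_num (h : DW q L P) (hq : q ^ 2 + q + 1 = 0) {i : ℕ} (hi : i + 1 < L)
    {z : ℕ → ℂ} {a b c : ℕ} (hab : a < b) (hbc : b < c) (hc : c < L)
    (h1 : z c = q ^ 2 * z b) (h2 : z b = q ^ 2 * z a) : eval z (num q i P) = 0 := by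
  have hq3 := q_cube hq
  rw [eval_num, h.wm z a b c hab hbc hc h1 h2, mul_zero, sub_zero]
  by_cases hA : a = i ∧ b = i + 1
  · obtain ⟨rfl, rfl⟩ := hA
    rw [(h.wp (swapV a z) a (a + 1) c (by omega) hbc hc ?_ ?_).1, mul_zero]
    · rw [swapV_self, swapV_succ]
      exact h2
    · rw [swapV_succ, swapV_of_ne a z (by omega) (by omega), h1, h2]
      linear_combination (-(q ^ 3 + 1) * z a) * hq3
  by_cases hB : b = i ∧ c = i + 1
  · obtain ⟨rfl, rfl⟩ := hB
    rw [(h.wp (swapV b z) a b (b + 1) hab (by omega) (by omega) ?_ ?_).1, mul_zero]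
    · rw [swapV_self, swapV_of_ne b z (by omega) (by omega), h1, h2]
      linear_combination (-(q ^ 3 + 1) * z a) * hq3
    · rw [swapV_self, swapV_succ]
      exact h1
  rw [h.wm (swapV i z) (Equiv.swap i (i + 1) a) (Equiv.swap i (i + 1) b)
    (Equiv.swap i (i + 1) c) ?_ ?_ ?_ ?_ ?_, mul_zero]
  · rw [swap_eq, swap_eq]
    split_ifs <;> omega
  · rw [swap_eq, swap_eq]
    split_ifs <;> omega
  · rw [swap_eq]
    split_ifs <;> omega
  · rw [hs, hs, h1]
  · rw [hs, hs, h2]

/-- value and derivatives of the exchanged polynomial -/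
lemma pderiv_sw (i l : ℕ) (P : MvPolynomial ℕ ℂ) :
    pderiv l (WheelE.sw i P) = WheelE.sw i (pderiv (Equiv.swap i (i + 1) l) P) := by
  unfold WheelE.sw
  have h := pderiv_rename (R := ℂ) (f := Equiv.swap i (i + 1)) (Equiv.injective _)
    (Equiv.swap i (i + 1) l) P
  rwa [Equiv.swap_apply_self] at h

lemma wp_num (h : DW q L P) (hq : q ^ 2 + q + 1 = 0) {i : ℕ} (hi : i + 1 < L)
    {z : ℕ → ℂ} {a b c : ℕ} (hab : a < b) (hbc : b < c) (hc : c < L)
    (h1 : z a = q ^ 2 * z b) (h2 : z b = q ^ 2 * z c) :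
    eval z (num q i P) = 0 ∧ ∀ l, eval z (pderiv l (num q i P)) = 0 := by
  have hq3 := q_cube hq
  obtain ⟨p0, p1⟩ := h.wp z a b c hab hbc hc h1 h2
  -- the two cases for the exchanged point
  have key : eval (swapV i z) P = 0 ∧ ((q * z (i + 1) - q ^ 2 * z i) = 0 ∨
      ∀ l, eval (swapV i z) (pderiv l P) = 0) := by
    by_cases hA : a = i ∧ b = i + 1
    · obtain ⟨rfl, rfl⟩ := hA
      refine ⟨h.wm (swapV a z) a (a + 1) c (by omega) hbc hc ?_ ?_, Or.inl ?_⟩
      · rw [swapV_succ, swapV_of_ne a z (by omega) (by omega), h1, h2]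
        linear_combination (-(q ^ 3 + 1) * z c) * hq3
      · rw [swapV_self, swapV_succ]
        exact h1
      · rw [h1]
        linear_combination (-q * z (a + 1)) * hq3
    by_cases hB : b = i ∧ c = i + 1
    · obtain ⟨rfl, rfl⟩ := hB
      refine ⟨h.wm (swapV b z) a b (b + 1) hab (by omega) (by omega) ?_ ?_, Or.inl ?_⟩
      · rw [swapV_self, swapV_succ]
        exact h2
      · rw [swapV_self, swapV_of_ne b z (by omega) (by omega), h1, h2]
        linear_combination (-(q ^ 3 + 1) * z (b + 1)) * hq3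
      · rw [h2]
        linear_combination (-q * z (b + 1)) * hq3
    obtain ⟨s0, s1⟩ := h.wp (swapV i z) (Equiv.swap i (i + 1) a) (Equiv.swap i (i + 1) b)
      (Equiv.swap i (i + 1) c) (by rw [swap_eq, swap_eq]; split_ifs <;> omega)
      (by rw [swap_eq, swap_eq]; split_ifs <;> omega) (by rw [swap_eq]; split_ifs <;> omega)
      (by rw [hs, hs, h1]) (by rw [hs, hs, h2])
    exact ⟨s0, Or.inr s1⟩
  constructor
  · rw [eval_num, key.1, p0, mul_zero, mul_zero, sub_zero]
  · intro l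
    unfold WheelE.num
    rw [map_sub, pderiv_mul, pderiv_mul, map_sub, map_add, map_add, map_mul, map_mul, map_mul,
      map_mul, p0, p1 l, pderiv_sw, eval_sw, eval_sw, key.1]
    simp only [mul_zero, zero_add, sub_zero, map_sub, map_mul, eval_C, eval_X, add_zero]
    rcases key.2 with h3 | h3
    · rw [h3, zero_mul]
    · rw [h3, mul_zero]

/-! ### closure -/

lemma closure_aux (Q : MvPolynomial ℕ ℂ) (i : ℕ) (z w : ℕ → ℂ) (hw : w i ≠ w (i + 1))
    (h : ∀ t : ℂ, (z i + t * w i) - (z (i + 1) + t * w (i + 1)) ≠ 0 →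
      eval (fun k => z k + t * w k) Q = 0) : eval z Q = 0 := by
  have hcont : Continuous fun t : ℂ => eval (fun k => z k + t * w k) Q :=
    (continuous_eval Q).comp (continuous_pi fun k => by fun_prop)
  have hclosed : IsClosed {t : ℂ | eval (fun k => z k + t * w k) Q = 0} :=
    isClosed_eq hcont continuous_const
  have hdense : Dense {t : ℂ | eval (fun k => z k + t * w k) Q = 0} := by
    refine (dense_compl_singleton (-(z i - z (i + 1)) / (w i - w (i + 1)))).mono ?_
    intro t ht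
    apply h t
    intro h5
    apply ht
    rw [Set.mem_singleton_iff, eq_div_iff (sub_ne_zero.2 hw)]
    linear_combination h5
  have h0 : (0 : ℂ) ∈ {t : ℂ | eval (fun k => z k + t * w k) Q = 0} := by
    rw [← hclosed.closure_eq, hdense.closure_eq]
    exact Set.mem_univ _
  simpa using h0

/-- a direction in the wheel subspace -/
lemma exists_dir (hq : q ^ 2 + q + 1 = 0) (i : ℕ) {a b c : ℕ} (hab : a ≠ b) (hbc : b ≠ c)
    (hac : a ≠ c) : ∃ w : ℕ → ℂ, w a = q ^ 2 * w b ∧ w b = q ^ 2 * w c ∧ w i ≠ w (i + 1) := by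
  have hq3 := q_cube hq
  let w : ℕ → ℂ := fun k => if k = c then 1 else if k = b then q ^ 2 else if k = a then q
      else (5 + k : ℕ)
  have hwc : w c = 1 := if_pos rfl
  have hwb : w b = q ^ 2 := by
    simp only [w]
    rw [if_neg hbc]
    simp
  have hwa : w a = q := by
    simp only [w]
    rw [if_neg hac, if_neg hab]
    simp
  have hwo : ∀ k, ¬ (k = a ∨ k = b ∨ k = c) → w k = (5 + k : ℕ) := by
    intro k hk
    push Not at hk
    simp only [w]
    rw [if_neg hk.2.2, if_neg hk.2.1, if_neg hk.1]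
  have hnq := norm_q hq
  have hnorm : ∀ k, k = a ∨ k = b ∨ k = c → ‖w k‖ = 1 := by
    rintro k (rfl | rfl | rfl)
    · rw [hwa, hnq]
    · rw [hwb, norm_pow, hnq, one_pow]
    · rw [hwc, norm_one]
  have hnorm' : ∀ k, ¬ (k = a ∨ k = b ∨ k = c) → ‖w k‖ = 5 + k := by
    intro k hk
    rw [hwo k hk, Complex.norm_natCast]
    push_cast
    ring
  have hqq : q ≠ q ^ 2 := by
    intro h
    have h7 : q * (q - 1) = 0 := by linear_combination -h
    rcases mul_eq_zero.1 h7 with h8 | h8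
    · exact q_ne_zero hq h8
    · exact q_ne_one hq (sub_eq_zero.1 h8)
  refine ⟨w, ?_, ?_, ?_⟩
  · rw [hwa, hwb]
    linear_combination (-q) * hq3
  · rw [hwb, hwc, mul_one]
  · intro hcon
    by_cases h3 : i = a ∨ i = b ∨ i = c
    · by_cases h4 : i + 1 = a ∨ i + 1 = b ∨ i + 1 = c
      · rcases h3 with h3 | h3 | h3 <;> rcases h4 with h4 | h4 | h4 <;>
          first
          | omega
          | (rw [h4, h3, hwa, hwb] at hcon; exact hqq hcon)
          | (rw [h4, h3, hwb, hwa] at hcon; exact hqq hcon.symm)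
          | (rw [h4, h3, hwa, hwc] at hcon; exact q_ne_one hq hcon)
          | (rw [h4, h3, hwc, hwa] at hcon; exact q_ne_one hq hcon.symm)
          | (rw [h4, h3, hwb, hwc] at hcon; exact q2_ne_one hq hcon)
          | (rw [h4, h3, hwc, hwb] at hcon; exact q2_ne_one hq hcon.symm)
      · have h5 := hnorm i h3
        have h6 := hnorm' (i + 1) h4
        rw [hcon, h6] at h5
        push_cast at h5
        have : (0 : ℝ) ≤ i := Nat.cast_nonneg i
        linarith
    · by_cases h4 : i + 1 = a ∨ i + 1 = b ∨ i + 1 = c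
      · have h5 := hnorm' i h3
        have h6 := hnorm (i + 1) h4
        rw [hcon, h6] at h5
        have : (0 : ℝ) ≤ i := Nat.cast_nonneg i
        linarith
      · have h5 := hnorm' i h3
        have h6 := hnorm' (i + 1) h4
        rw [hcon, h6] at h5
        push_cast at h5
        linarith

/-! ### the quotient -/

lemma eval_quot {i : ℕ} {Q : MvPolynomial ℕ ℂ} (hQ : (X i - X (i + 1)) * Q = num q i P)
    {z : ℕ → ℂ} (hz : z i - z (i + 1) ≠ 0) (hn : eval z (num q i P) = 0) : eval z Q = 0 := by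
  rw [← hQ, map_mul, map_sub, eval_X, eval_X] at hn
  exact (mul_eq_zero.1 hn).resolve_left hz

lemma pderiv_quot {i : ℕ} {Q : MvPolynomial ℕ ℂ} (hQ : (X i - X (i + 1)) * Q = num q i P)
    {z : ℕ → ℂ} (hz : z i - z (i + 1) ≠ 0) (hn : eval z (num q i P) = 0) {l : ℕ}
    (hl : eval z (pderiv l (num q i P)) = 0) : eval z (pderiv l Q) = 0 := by
  have h0 := eval_quot hQ hz hn
  rw [← hQ, pderiv_mul, map_add, map_mul, map_mul, h0, mul_zero, zero_add, map_sub, eval_X,
    eval_X] at hl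
  exact (mul_eq_zero.1 hl).resolve_left hz

lemma dw_quot (h : DW q L P) (hq : q ^ 2 + q + 1 = 0) {i : ℕ} (hi : i + 1 < L)
    {Q : MvPolynomial ℕ ℂ} (hQ : (X i - X (i + 1)) * Q = num q i P) : DW q L Q := by
  have hne : (X i - X (i + 1) : MvPolynomial ℕ ℂ) ≠ 0 := X_sub_X_ne (by omega)
  by_cases hQ0 : Q = 0
  · subst hQ0
    exact dw_zero
  refine ⟨?_, ?_, tot_quot h hi hQ, ?_, ?_⟩
  · intro k hk
    have h0 : (X i - X (i + 1) : MvPolynomial ℕ ℂ).degreeOf k + Q.degreeOf k =
        (num q i P).degreeOf k := by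
      rw [← hQ, degreeOf_mul_eq hne hQ0]
    have h1 := degreeOf_num_le q i k P (h.out k hk).le
      (by rw [degreeOf_sw_of_ne (by omega) (by omega)]; exact (h.out k hk).le)
    rw [if_neg (by omega)] at h1
    omega
  · intro d hd A hA
    have h1 : degA A (X i - X (i + 1) : MvPolynomial ℕ ℂ) + degA A Q = degA A (num q i P) := by
      rw [← hQ, degA_mul A hne hQ0]
    have h2 := degA_num_le h hi hA
    have h3 := le_degA_X_sub_X A i
    have h4 := (DWA.degA_le_iff A Q _).mp le_rfl d hd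
    omega
  · intro z a b c hab hbc hc h1 h2
    obtain ⟨w, w1, w2, w3⟩ := exists_dir hq i (a := a) (b := b) (c := c) (by omega) (by omega)
      (by omega)
    have hn : ∀ t : ℂ, eval (fun k => z k + t * w k) (num q i P) = 0 ∧
        ∀ l, eval (fun k => z k + t * w k) (pderiv l (num q i P)) = 0 := fun t =>
      wp_num h hq hi hab hbc hc (by rw [h1, w1]; ring) (by rw [h2, w2]; ring)
    constructor
    · exact closure_aux Q i z w w3 fun t ht => eval_quot hQ ht (hn t).1
    · intro l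
      exact closure_aux _ i z w w3 fun t ht => pderiv_quot hQ ht (hn t).1 ((hn t).2 l)
  · intro z a b c hab hbc hc h1 h2
    obtain ⟨w, w1, w2, w3⟩ := exists_dir hq i (a := c) (b := b) (c := a) (by omega) (by omega)
      (by omega)
    exact closure_aux Q i z w w3 fun t ht => eval_quot hQ ht
      (wm_num h hq hi hab hbc hc (by rw [h1, w1]; ring) (by rw [h2, w2]; ring))

end DWE

theorem DW.exists_E (hq : q ^ 2 + q + 1 = 0) (h : DW q L P) {i : ℕ} (hi : i + 1 < L) :
    ∃ Q, DW q L Q ∧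
      (∀ z, (z i - z (i + 1)) * eval z Q = (q * z (i + 1) - q ^ 2 * z i) * eval (swapV i z) P -
        (q * z i - q ^ 2 * z (i + 1)) * eval z P) := by
  obtain ⟨Q, hQ⟩ := WheelE.exists_quot hq i P
  refine ⟨Q, DWE.dw_quot h hq hi hQ, fun z => ?_⟩
  rw [← WheelE.eval_num, ← hQ, map_mul, map_sub, eval_X, eval_X]

end Pool.Agent.Perc
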