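import Pool.Agent.Lib.MP_6bd702_perq.DWE
import Pool.Agent.Lib.MP_6bd702_perq.DWC

/-!
# The double wheel space: values of `E_i P` at the states (task DWV)
-/

set_option autoImplicit false

namespace Pool.Agent.Perc

open Finset MvPolynomial

variable {q : ℂ} {m : ℕ} {P Q : MvPolynomial ℕ ℂ}

namespace DWV

/-- the defining relation, for functions -/
def Rel (q : ℂ) (i : ℕ) (P Q : MvPolynomial ℕ ℂ) : Prop :=
  ∀ z, (z i - z (i + 1)) * eval z Q = (q * z (i + 1) - q ^ 2 * z i) * eval (swapV i z) P -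
        (q * z i - q ^ 2 * z (i + 1)) * eval z P

theorem q_ne_one (hq : q ^ 2 + q + 1 = 0) : q ≠ 1 := by
  rintro rfl
  norm_num at hq

theorem q_ne_zero (hq : q ^ 2 + q + 1 = 0) : q ≠ 0 := by
  rintro rfl
  norm_num at hq

theorem q_cube (hq : q ^ 2 + q + 1 = 0) : q ^ 3 = 1 := by linear_combination (q - 1) * hq

theorem q2_ne_one (hq : q ^ 2 + q + 1 = 0) : q ^ 2 ≠ 1 := by
  intro h
  apply q_ne_one hq
  have h3 := q_cube hq
  calc q = q ^ 3 := by rw [pow_succ, h, one_mul]
    _ = 1 := h3

/-- `v ∏ (z_k - q v)² ≠ 0` for some `v` -/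
theorem exists_prod_ne (hq : q ^ 2 + q + 1 = 0) (N : ℕ) (z : ℕ → ℂ) :
    ∃ v : ℂ, v * (∏ k ∈ range N, (z k - q * v) ^ 2) ≠ 0 := by
  have hfin : ({0} ∪ ⋃ k ∈ range N, {v : ℂ | z k - q * v = 0}).Finite := by
    refine (Set.finite_singleton _).union ?_
    refine Set.Finite.biUnion (Finset.finite_toSet _) fun k _ => ?_
    refine (Set.finite_singleton (z k / q)).subset ?_
    intro v hv
    rw [Set.mem_singleton_iff, eq_div_iff (q_ne_zero hq)]
    have hv' : z k - q * v = 0 := hv
    linear_combination -hv'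
  obtain ⟨v, hv⟩ := hfin.exists_notMem
  refine ⟨v, mul_ne_zero ?_ ?_⟩
  · rintro rfl
    exact hv (Or.inl rfl)
  rw [Finset.prod_ne_zero_iff]
  intro k hk h0
  exact hv (Or.inr (Set.mem_biUnion hk (pow_eq_zero_iff (two_ne_zero) |>.1 h0)))

/-- two polynomials which agree up to a factor `∏ (x_k - c x_j)²` where `x_j ≠ 0` are equal -/
theorem eq_of_mul_prod (N j : ℕ) (c : ℂ) (hc : c ≠ 1) {A B : MvPolynomial ℕ ℂ}
    (hAB : ∀ z : ℕ → ℂ, z j ≠ 0 → (∏ k ∈ range N, (z k - c * z j) ^ 2) * eval z A =
      (∏ k ∈ range N, (z k - c * z j) ^ 2) * eval z B) : A = B := by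
  have h1 : (X j * ∏ k ∈ range N, (X k - C c * X j) ^ 2) * (A - B) = (0 : MvPolynomial ℕ ℂ) := by
    apply MvPolynomial.funext
    intro z
    rw [map_mul, map_mul, map_prod, map_sub, map_zero, eval_X]
    simp only [map_sub, map_mul, map_pow, eval_X, eval_C]
    by_cases hz : z j = 0
    · rw [hz]; ring
    · have := hAB z hz
      linear_combination (z j) * this
  rcases mul_eq_zero.1 h1 with h2 | h2
  · exfalso
    rcases mul_eq_zero.1 h2 with h3 | h3
    · exact X_ne_zero j h3
    · rw [Finset.prod_eq_zero_iff] at h3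
      obtain ⟨k, hk, h4'⟩ := h3
      have h4 : (X k - C c * X j : MvPolynomial ℕ ℂ) = 0 := pow_eq_zero_iff (two_ne_zero) |>.1 h4'
      have h5 := congrArg (eval (fun l => if l = j then (1 : ℂ) else c + 1)) h4
      simp only [map_sub, map_mul, eval_X, eval_C, map_zero] at h5
      by_cases hkj : k = j
      · subst hkj
        simp only [if_true] at h5
        apply hc
        linear_combination -h5
      · rw [if_neg hkj] at h5
        simp only [if_true] at h5
        have : (1 : ℂ) = 0 := by linear_combination h5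
        exact one_ne_zero this
  · exact sub_eq_zero.1 h2

theorem insV_of_lt {i k : ℕ} (h : k < i) (u v : ℂ) (z : ℕ → ℂ) : insV i u v z k = z k := if_pos h

theorem insV_self (i : ℕ) (u v : ℂ) (z : ℕ → ℂ) : insV i u v z i = u := by
  simp [insV]

theorem insV_succ (i : ℕ) (u v : ℂ) (z : ℕ → ℂ) : insV i u v z (i + 1) = v := by
  simp [insV]

theorem insV_of_gt {i k : ℕ} (h : i + 1 < k) (u v : ℂ) (z : ℕ → ℂ) :
    insV i u v z k = z (k - 2) := by
  rw [insV, if_neg (by omega), if_neg (by omega), if_neg (by omega)]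

theorem swapV_def (i : ℕ) (z : ℕ → ℂ) (k : ℕ) :
    swapV i z k = if k = i then z (i + 1) else if k = i + 1 then z i else z k := by
  rw [swapV, Equiv.swap_apply_def]
  split_ifs <;> rfl

theorem rotV_swapV {L i : ℕ} (hi : i + 2 < L) (z : ℕ → ℂ) :
    rotV L (swapV (i + 1) z) = swapV i (rotV L z) := by
  funext k
  simp only [rotV, swapV_def]
  split_ifs <;> first | rfl | omega | contradiction

theorem rotV_of_lt {L k : ℕ} (hk : k + 1 < L) (z : ℕ → ℂ) : rotV L z k = z (k + 1) := if_pos hk

theorem case_eq (hq : q ^ 2 + q + 1 = 0) {i : ℕ} (hR : Rel q i P Q)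
    {z : ℕ → ℂ} (h1 : z i = q ^ 2) (h2 : z (i + 1) = 1) : eval z Q = eval z P := by
  have h := hR z
  rw [h1, h2] at h
  have h3 : q ^ 2 - 1 ≠ 0 := sub_ne_zero.2 (q2_ne_one hq)
  apply mul_left_cancel₀ h3
  rw [h]
  linear_combination ((-(q ^ 2 - q)) * eval (swapV i z) P) * hq +
    (1 - q) * eval z P * hq

/-- the arc of i+1 and i+2 -/
theorem case_succ (hq : q ^ 2 + q + 1 = 0) (h : DW q (2 * m + 2) P)
    (hQ : DW q (2 * m + 2) Q) {i : ℕ} (hi : i + 1 ≤ 2 * m) (hR : Rel q i P Q) {s : St}
    (hs : IsAnn (2 * m) s) :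
    eval (zptS q (insL (i + 1) s)) Q = eval (zptS q (insL i s)) P := by
  obtain ⟨RQ, hRQ, hRQ'⟩ := hQ.restrict hq (i := i + 1) (by omega)
  obtain ⟨RP, hRP, hRP'⟩ := h.restrict hq (i := i) (by omega)
  have hRR : RQ = RP := by
    apply eq_of_mul_prod (2 * m) i q (q_ne_one hq)
    intro z hz
    apply mul_left_cancel₀ hz
    rw [← mul_assoc, ← mul_assoc, ← hRQ' (z i) z, ← hRP' (z i) z]
    have h1 := hR (insV (i + 1) (q ^ 2 * z i) (z i) z)
    rw [insV_self, insV_of_lt (by omega)] at h1
    have h2 : swapV i (insV (i + 1) (q ^ 2 * z i) (z i) z) = insV i (q ^ 2 * z i) (z i) z := by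
      funext k
      rw [swapV_def]
      split_ifs with h3 h4
      · rw [h3, insV_self, insV_self]
      · rw [h4, insV_succ, insV_of_lt (by omega)]
      · by_cases h5 : k < i
        · rw [insV_of_lt (by omega), insV_of_lt h5]
        · by_cases h6 : k = i + 2
          · subst h6
            rw [insV_succ, insV_of_gt (by omega)]
            simp
          · rw [insV_of_gt (by omega), insV_of_gt (by omega)]
    rw [h2] at h1
    have h4 : z i - q ^ 2 * z i ≠ 0 := by
      have h5 : z i - q ^ 2 * z i = z i * (1 - q ^ 2) := by ring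
      rw [h5]
      exact mul_ne_zero hz (sub_ne_zero.2 (Ne.symm (q2_ne_one hq)))
    apply mul_left_cancel₀ h4
    rw [h1]
    linear_combination ((q - 1) * z i * eval (insV i (q ^ 2 * z i) (z i) z) P) * hq +
      ((q ^ 2 - q) * z i * eval (insV (i + 1) (q ^ 2 * z i) (z i) z) P) * hq
  have e1 := zptS_insL q hs (i := i + 1) (by omega)
  have e2 := zptS_insL q hs (i := i) (by omega)
  have e3 := hRQ' 1 (zptS q s)
  have e4 := hRP' 1 (zptS q s)
  rw [mul_one, ← e1] at e3
  rw [mul_one, ← e2] at e4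
  rw [e3, e4, hRR]

/-- the arc of i-1 and i -/
theorem case_pred (hq : q ^ 2 + q + 1 = 0) (h : DW q (2 * m + 2) P)
    (hQ : DW q (2 * m + 2) Q) {i : ℕ} (hi : i + 1 ≤ 2 * m) (hR : Rel q (i + 1) P Q)
    {s : St} (hs : IsAnn (2 * m) s) :
    eval (zptS q (insL i s)) Q = eval (zptS q (insL (i + 1) s)) P := by
  obtain ⟨RQ, hRQ, hRQ'⟩ := hQ.restrict hq (i := i) (by omega)
  obtain ⟨RP, hRP, hRP'⟩ := h.restrict hq (i := i + 1) (by omega)
  have hc := q_cube hq
  have hRR : RQ = RP := by
    apply eq_of_mul_prod (2 * m) i (q ^ 2) (q2_ne_one hq)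
    intro z hz
    have f1 := hRQ' (q * z i) z
    have f2 := hRP' (q * z i) z
    have f3 : ∀ k, z k - q * (q * z i) = z k - q ^ 2 * z i := fun k => by ring
    have f4 : q ^ 2 * (q * z i) = z i := by linear_combination (z i) * hc
    simp only [f3, f4] at f1 f2
    apply mul_left_cancel₀ (mul_ne_zero (q_ne_zero hq) hz)
    rw [← mul_assoc, ← mul_assoc, ← f1, ← f2]
    have h1 := hR (insV i (z i) (q * z i) z)
    rw [insV_succ, insV_of_gt (by omega)] at h1
    have f5 : i + 1 + 1 - 2 = i := by omega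
    rw [f5] at h1
    have h2 : swapV (i + 1) (insV i (z i) (q * z i) z) = insV (i + 1) (z i) (q * z i) z := by
      funext k
      rw [swapV_def]
      split_ifs with h3 h4
      · rw [h3, insV_of_gt (by omega), f5, insV_self]
      · rw [h4, insV_succ, insV_succ]
      · by_cases h5 : k < i
        · rw [insV_of_lt (by omega), insV_of_lt (by omega)]
        · by_cases h6 : k = i
          · subst h6
            rw [insV_self, insV_of_lt (by omega)]
          · rw [insV_of_gt (by omega), insV_of_gt (by omega)]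
    rw [h2] at h1
    have h4 : q * z i - z i ≠ 0 := by
      have h5 : q * z i - z i = z i * (q - 1) := by ring
      rw [h5]
      exact mul_ne_zero hz (sub_ne_zero.2 (q_ne_one hq))
    apply mul_left_cancel₀ h4
    rw [h1]
    linear_combination ((1 - q) * z i * eval (insV (i + 1) (z i) (q * z i) z) P) * hq
  have e1 := zptS_insL q hs (i := i) (by omega)
  have e2 := zptS_insL q hs (i := i + 1) (by omega)
  have e3 := hRQ' 1 (zptS q s)
  have e4 := hRP' 1 (zptS q s)
  rw [mul_one, ← e1] at e3
  rw [mul_one, ← e2] at e4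
  rw [e3, e4, hRR]

/-- the arcs which do not meet `i`, `i + 1` -/
theorem case_far (hq : q ^ 2 + q + 1 = 0) (h : DW q (2 * m + 2) P)
    (hQ : DW q (2 * m + 2) Q) {i i' k : ℕ} (hk : k ≤ 2 * m) (hi' : i' + 1 < 2 * m)
    (hik : (i + 1 < k ∧ i' = i) ∨ (k + 2 ≤ i ∧ i' = i - 2)) (hR : Rel q i P Q)
    (ih : ∀ P' Q' : MvPolynomial ℕ ℂ, DW q (2 * m) P' → DW q (2 * m) Q' → Rel q i' P' Q' →
      ∀ s, IsAnn (2 * m) s → eval (zptS q s) Q' = eval (zptS q (eL i' s)) P')
    {s : St} (hs : IsAnn (2 * m) s) :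
    eval (zptS q (insL k s)) Q = eval (zptS q (insL k (eL i' s))) P := by
  obtain ⟨RQ, hRQ, hRQ'⟩ := hQ.restrict hq (i := k) (by omega)
  obtain ⟨RP, hRP, hRP'⟩ := h.restrict hq (i := k) (by omega)
  have hrel : Rel q i' RP RQ := by
    intro z
    obtain ⟨v, hv⟩ := exists_prod_ne hq (2 * m) z
    have h1 := hR (insV k (q ^ 2 * v) v z)
    have e1 : insV k (q ^ 2 * v) v z i = z i' := by
      rcases hik with ⟨h2, rfl⟩ | ⟨h2, rfl⟩
      · rw [insV_of_lt (by omega)]
      · rw [insV_of_gt (by omega)]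
    have e2 : insV k (q ^ 2 * v) v z (i + 1) = z (i' + 1) := by
      rcases hik with ⟨h2, rfl⟩ | ⟨h2, rfl⟩
      · rw [insV_of_lt (by omega)]
      · rw [insV_of_gt (by omega)]
        congr 1
        omega
    have e3 : swapV i (insV k (q ^ 2 * v) v z) = insV k (q ^ 2 * v) v (swapV i' z) := by
      funext l
      rw [swapV_def]
      by_cases h3 : l < k
      · rw [insV_of_lt h3 _ _ (swapV i' z), swapV_def, e1, e2]
        rcases hik with ⟨h2, rfl⟩ | ⟨h2, rfl⟩
        · split_ifs <;> first | rfl | (rw [insV_of_lt (by omega)])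
        · rw [if_neg (by omega), if_neg (by omega), if_neg (by omega), if_neg (by omega),
            insV_of_lt h3]
      · by_cases h4 : l = k
        · subst h4
          rw [if_neg (by omega), if_neg (by omega), insV_self, insV_self]
        · by_cases h5 : l = k + 1
          · subst h5
            rw [if_neg (by omega), if_neg (by omega), insV_succ, insV_succ]
          · rw [insV_of_gt (by omega) _ _ (swapV i' z), swapV_def, e1, e2]
            rcases hik with ⟨h2, rfl⟩ | ⟨h2, rfl⟩
            · rw [if_neg (by omega), if_neg (by omega), if_neg (by omega), if_neg (by omega),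
                insV_of_gt (by omega)]
            · by_cases h6 : l = i
              · subst h6
                rw [if_pos rfl, if_pos rfl]
              · by_cases h7 : l = i + 1
                · subst h7
                  rw [if_neg (by omega), if_pos rfl, if_neg (by omega), if_pos (by omega)]
                · rw [if_neg h6, if_neg h7, if_neg (by omega), if_neg (by omega),
                    insV_of_gt (by omega)]
    have e4 : (∏ l ∈ range (2 * m), (swapV i' z l - q * v) ^ 2) =
        ∏ l ∈ range (2 * m), (z l - q * v) ^ 2 := by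
      have h5 : ∏ l ∈ range (2 * m), (z l - q * v) ^ 2 =
          ∏ l ∈ range (2 * m), (z (Equiv.swap i' (i' + 1) l) - q * v) ^ 2 := by
        symm
        refine Finset.prod_bij (fun l _ => Equiv.swap i' (i' + 1) l) ?_ ?_ ?_ ?_
        · intro l hl
          rw [mem_range] at hl ⊢
          rw [Equiv.swap_apply_def]
          split_ifs <;> omega
        · intro a _ b _ hab
          exact (Equiv.swap i' (i' + 1)).injective hab
        · intro b hb
          refine ⟨Equiv.swap i' (i' + 1) b, ?_, Equiv.swap_apply_self _ _ _⟩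
          rw [mem_range] at hb ⊢
          rw [Equiv.swap_apply_def]
          split_ifs <;> omega
        · intro l _
          rfl
      rw [h5]
      rfl
    rw [e1, e2, e3, hRQ', hRP', hRP', e4] at h1
    apply mul_left_cancel₀ hv
    linear_combination h1
  have hE : IsAnn (2 * m) (eL i' s) := hs.eL hi'
  have e1 := zptS_insL q hs (i := k) (by omega)
  have e2 := zptS_insL q hE (i := k) (by omega)
  have e3 := hRQ' 1 (zptS q s)
  have e4 := hRP' 1 (zptS q (eL i' s))
  rw [mul_one, ← e1, mul_one, prod_zptS hq hs] at e3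
  rw [mul_one, ← e2, mul_one, prod_zptS hq hE] at e4
  rw [e3, e4, ih RP RQ hRP hRQ hrel s hs]

/-- a state with a small arc away from the seam -/
theorem step (hq : q ^ 2 + q + 1 = 0)
    (ih : ∀ (i : ℕ) (P' Q' : MvPolynomial ℕ ℂ), i + 1 < 2 * m → DW q (2 * m) P' →
      DW q (2 * m) Q' → Rel q i P' Q' →
      ∀ s, IsAnn (2 * m) s → eval (zptS q s) Q' = eval (zptS q (eL i s)) P')
    {i : ℕ} (hi : i + 1 < 2 * m + 2) (hP : DW q (2 * m + 2) P) (hQ : DW q (2 * m + 2) Q)
    (hR : Rel q i P Q) {k : ℕ} (hk : k ≤ 2 * m) {s : St} (hs : IsAnn (2 * m) s) :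
    eval (zptS q (insL k s)) Q = eval (zptS q (eL i (insL k s))) P := by
  by_cases h1 : k = i
  · subst h1
    rw [eL_insL_self hs hk, zptS_insL q hs hk]
    exact case_eq hq hR (insV_self _ _ _ _) (insV_succ _ _ _ _)
  by_cases h2 : k = i + 1
  · subst h2
    rw [eL_insL_succ hs hk]
    exact case_succ hq hP hQ hk hR hs
  by_cases h3 : k + 1 = i
  · subst h3
    rw [eL_succ_insL hs (by omega)]
    exact case_pred hq hP hQ (by omega) hR hs
  rcases Nat.lt_or_ge (i + 1) k with h4 | h4
  · rw [eL_insL_of_lt hs h4 hk]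
    exact case_far hq hP hQ (i' := i) hk (by omega) (Or.inl ⟨h4, rfl⟩) hR
      (fun P' Q' a b c => ih i P' Q' (by omega) a b c) hs
  · rw [eL_insL_of_le hs (by omega) hi]
    exact case_far hq hP hQ (i' := i - 2) hk (by omega) (Or.inr ⟨by omega, rfl⟩) hR
      (fun P' Q' a b c => ih (i - 2) P' Q' (by omega) a b c) hs

theorem main (hq : q ^ 2 + q + 1 = 0) (m : ℕ) : ∀ (i : ℕ) (P Q : MvPolynomial ℕ ℂ),
    i + 1 < 2 * m → DW q (2 * m) P → DW q (2 * m) Q → Rel q i P Q →
    ∀ s, IsAnn (2 * m) s → eval (zptS q s) Q = eval (zptS q (eL i s)) P := by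
  induction m with
  | zero => intro i P Q hi; omega
  | succ m ih =>
    intro i P Q hi hP hQ hR s hs
    have hs' : IsAnn (2 * m + 2) s := hs
    have hP' : DW q (2 * m + 2) P := hP
    have hQ' : DW q (2 * m + 2) Q := hQ
    have hi' : i + 1 < 2 * m + 2 := hi
    rcases hs'.exists_small with ⟨k, hk, h1, h2⟩ | ⟨h1, h2⟩
    · obtain ⟨s₁, hs₁, rfl⟩ := hs'.exists_del hk h1 h2
      exact step hq ih hi' hP' hQ' hR hk hs₁
    · obtain ⟨s₁, hs₁, rfl⟩ := hs'.exists_delCup h1 h2
      by_cases hm : m = 0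
      · -- two sites
        subst hm
        have hi0 : i = 0 := by omega
        subst hi0
        have hIs : IsAnn 2 (eL 0 (cupL 0 s₁)) := hs'.eL (by omega)
        have e0 : rotL 2 (insL 0 s₁) = cupL 0 s₁ := rotL_insL_zero hs₁
        have hz : zptS q (cupL (2 * 0) s₁) = rotV 2 (insV 0 (q ^ 2) 1 (zptS q s₁)) := by
          rw [← zptS_insL q hs₁ (le_refl 0), ← zptS_rotL q (hs₁.insL (le_refl 0)), e0]
        obtain ⟨s₂, hs₂, he⟩ := hIs.exists_del (N := 0) (i := 0) (le_refl 0)
          (eL_small hs' hi').1 (eL_small hs' hi').2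
        have hz' : zptS q (eL 0 (cupL 0 s₁)) = insV 0 (q ^ 2) 1 (zptS q s₂) := by
          rw [he, zptS_insL q hs₂ (le_refl 0)]
        have hR0 := hR (zptS q (cupL (2 * 0) s₁))
        have hz0 : zptS q (cupL (2 * 0) s₁) 0 = 1 := by
          rw [hz, rotV_of_lt (by omega)]
          exact insV_succ _ _ _ _
        have hz1 : zptS q (cupL (2 * 0) s₁) 1 = q ^ 2 := by
          rw [hz]
          simp [rotV, insV]
        have hz2 : eval (swapV 0 (zptS q (cupL (2 * 0) s₁))) P =
            eval (zptS q (eL 0 (cupL (2 * 0) s₁))) P := by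
          apply hP'.eval_congr
          intro k hk
          have hz3 : zptS q (eL 0 (cupL (2 * 0) s₁)) = insV 0 (q ^ 2) 1 (zptS q s₂) := hz'
          rw [hz3, swapV_def]
          have hk' : k = 0 ∨ k = 1 := by omega
          rcases hk' with rfl | rfl
          · rw [if_pos rfl, insV_self]
            exact hz1
          · rw [if_neg (by omega), if_pos rfl, hz0]
            exact (insV_succ _ _ _ _).symm
        rw [zero_add, hz0, hz1, hz2] at hR0
        have h3 : 1 - q ^ 2 ≠ 0 := sub_ne_zero.2 (Ne.symm (q2_ne_one hq))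
        apply mul_left_cancel₀ h3
        rw [hR0]
        linear_combination ((q - 1) * eval (zptS q (eL 0 (cupL (2 * 0) s₁))) P) * hq +
          ((q ^ 2 - q) * eval (zptS q (cupL (2 * 0) s₁)) P) * hq
      · rcases Nat.lt_or_ge (i + 2) (2 * m + 2) with h3 | h3
        · -- rotate to the left
          obtain ⟨P', hP1, hP2⟩ := hP'.exists_rot hq
          obtain ⟨Q', hQ1, hQ2⟩ := hQ'.exists_rot hq
          have hR' : Rel q (i + 1) P' Q' := by
            intro z
            have h4 := hR (rotV (2 * m + 2) z)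
            rw [rotV_of_lt (by omega), rotV_of_lt (by omega), ← rotV_swapV (by omega)] at h4
            rw [hP2, hP2, hQ2]
            exact h4
          have hins : IsAnn (2 * m + 2) (insL 0 s₁) := hs₁.insL (Nat.zero_le _)
          have h5 := step hq ih (by omega) hP1 hQ1 hR' (Nat.zero_le _) hs₁
          rw [hP2, hQ2, ← zptS_rotL q hins, ← zptS_rotL q (hins.eL (by omega)),
            rotL_eL hins (by omega), rotL_insL_zero hs₁] at h5
          exact h5
        · -- rotate to the right
          obtain ⟨j, rfl⟩ : ∃ j, i = j + 1 := ⟨i - 1, by omega⟩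
          obtain ⟨P', hP1, hP2⟩ := hP'.exists_rot_iterate hq (2 * m + 1)
          obtain ⟨Q', hQ1, hQ2⟩ := hQ'.exists_rot_iterate hq (2 * m + 1)
          have hrr : ∀ z, (rotV (2 * m + 2))^[2 * m + 1] (rotV (2 * m + 2) z) = z := by
            intro z
            exact (Function.iterate_succ_apply (rotV (2 * m + 2)) (2 * m + 1) z).symm.trans
              (rotV_iterate (2 * m + 2) z)
          have hrr' : ∀ z, rotV (2 * m + 2) ((rotV (2 * m + 2))^[2 * m + 1] z) = z := by
            intro z
            exact (Function.iterate_succ_apply' (rotV (2 * m + 2)) (2 * m + 1) z).symm.trans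
              (rotV_iterate (2 * m + 2) z)
          have hP3 : ∀ z, eval (rotV (2 * m + 2) z) P' = eval z P := by
            intro z
            rw [hP2, hrr]
          have hQ3 : ∀ z, eval (rotV (2 * m + 2) z) Q' = eval z Q := by
            intro z
            rw [hQ2, hrr]
          have hR' : Rel q j P' Q' := by
            intro w
            obtain ⟨z, rfl⟩ : ∃ z, w = rotV (2 * m + 2) z := ⟨_, (hrr' w).symm⟩
            have h4 := hR z
            rw [rotV_of_lt (by omega), rotV_of_lt (by omega), ← rotV_swapV (by omega), hP3, hP3,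
              hQ3]
            exact h4
          have h5 := step hq ih (i := j) (by omega) hP1 hQ1 hR' (le_refl (2 * m)) hs₁
          rw [← rotL_cupL hs₁, ← rotL_eL hs' (by omega), zptS_rotL q hs',
            zptS_rotL q (hs'.eL hi'), hP3, hQ3] at h5
          exact h5

end DWV

theorem DW.eval_E (hq : q ^ 2 + q + 1 = 0) (h : DW q (2 * m) P) (h' : DW q (2 * m) Q) {i : ℕ}
    (hi : i + 1 < 2 * m)
    (hE : ∀ z, (z i - z (i + 1)) * eval z Q =
      (q * z (i + 1) - q ^ 2 * z i) * eval (swapV i z) P -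
        (q * z i - q ^ 2 * z (i + 1)) * eval z P)
    {s : St} (hs : IsAnn (2 * m) s) : eval (zptS q s) Q = eval (zptS q (eL i s)) P :=
  DWV.main hq m i P Q hi h h' hE s hs

end Pool.Agent.Perc
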