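import Pool.Agent.Lib.MP_6bd702_perq.DWB
import Pool.Agent.Lib.MP_6bd702_perq.DWV
import Pool.Agent.Lib.MP_6bd702_perq.DWF

/-!
# The double wheel space: the dual basis (task DWG)
-/

set_option autoImplicit false

namespace Pool.Agent.Perc

open Finset MvPolynomial

namespace DWG

variable {q : ℂ} {L m : ℕ} {P Q : MvPolynomial ℕ ℂ}

lemma dw_zero : DW q L (0 : MvPolynomial ℕ ℂ) := by
  refine ⟨fun k _ => by simp, fun d hd => by simp at hd, fun d hd => by simp at hd,
    fun z i j k _ _ _ _ _ => ⟨by simp, fun l => by simp⟩, fun z i j k _ _ _ _ _ => by simp⟩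

lemma dw_add (hP : DW q L P) (hQ : DW q L Q) : DW q L (P + Q) := by
  classical
  refine ⟨fun k hk => ?_, fun d hd A hA => ?_, fun d hd => ?_, fun z i j k h1 h2 h3 h4 h5 => ?_,
    fun z i j k h1 h2 h3 h4 h5 => ?_⟩
  · have h1 := degreeOf_add_le k P Q
    rw [hP.out k hk, hQ.out k hk] at h1
    simpa using h1
  · rcases Finset.mem_union.1 (support_add hd) with h | h
    · exact hP.maj d h A hA
    · exact hQ.maj d h A hA
  · rcases Finset.mem_union.1 (support_add hd) with h | h
    · exact hP.tot d h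
    · exact hQ.tot d h
  · obtain ⟨a1, a2⟩ := hP.wp z i j k h1 h2 h3 h4 h5
    obtain ⟨b1, b2⟩ := hQ.wp z i j k h1 h2 h3 h4 h5
    refine ⟨by rw [map_add, a1, b1, add_zero], fun l => ?_⟩
    rw [map_add, map_add, a2, b2, add_zero]
  · rw [map_add, hP.wm z i j k h1 h2 h3 h4 h5, hQ.wm z i j k h1 h2 h3 h4 h5, add_zero]

lemma dw_smul (c : ℂ) (hP : DW q L P) : DW q L (C c * P) := by
  have hsup : ∀ d ∈ (C c * P).support, d ∈ P.support := by
    intro d hd
    rw [mem_support_iff, coeff_C_mul] at hd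
    rw [mem_support_iff]
    exact right_ne_zero_of_mul hd
  refine ⟨fun k hk => ?_, fun d hd A hA => hP.maj d (hsup d hd) A hA,
    fun d hd => hP.tot d (hsup d hd), fun z i j k h1 h2 h3 h4 h5 => ?_,
    fun z i j k h1 h2 h3 h4 h5 => ?_⟩
  · have h1 := degreeOf_C_mul_le P k c
    rw [hP.out k hk] at h1
    simpa using h1
  · obtain ⟨a1, a2⟩ := hP.wp z i j k h1 h2 h3 h4 h5
    refine ⟨by rw [map_mul, a1, mul_zero], fun l => ?_⟩
    rw [pderiv_C_mul, map_mul, a2, mul_zero]
  · rw [map_mul, hP.wm z i j k h1 h2 h3 h4 h5, mul_zero]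

/-- the function `f` of the state is given by the evaluations of a polynomial of the space -/
def Rep (q : ℂ) (m : ℕ) (f : St → ℂ) : Prop :=
  ∃ P, DW q (2 * m) P ∧ ∀ s, IsAnn (2 * m) s → eval (zptS q s) P = f s

lemma Rep.zero : Rep q m (fun _ => 0) := ⟨0, dw_zero, fun s _ => by simp⟩

lemma Rep.add {f g : St → ℂ} (hf : Rep q m f) (hg : Rep q m g) :
    Rep q m (fun s => f s + g s) := by
  obtain ⟨P, hP, hPf⟩ := hf
  obtain ⟨Q, hQ, hQg⟩ := hg
  exact ⟨P + Q, dw_add hP hQ, fun s hs => by rw [map_add, hPf s hs, hQg s hs]⟩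

lemma Rep.smul {f : St → ℂ} (c : ℂ) (hf : Rep q m f) : Rep q m (fun s => c * f s) := by
  obtain ⟨P, hP, hPf⟩ := hf
  exact ⟨C c * P, dw_smul c hP, fun s hs => by rw [map_mul, hPf s hs, eval_C]⟩

lemma Rep.sum {ι : Type*} (S : Finset ι) {f : ι → St → ℂ} (hf : ∀ x ∈ S, Rep q m (f x)) :
    Rep q m (fun s => ∑ x ∈ S, f x s) := by
  classical
  induction S using Finset.induction_on with
  | empty => simpa using Rep.zero
  | insert a S ha ih =>
    have h1 := (hf a (mem_insert_self a S)).add (ih fun x hx => hf x (mem_insert_of_mem hx))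
    simpa only [sum_insert ha] using h1

lemma Rep.congr {f g : St → ℂ} (hf : Rep q m f) (hfg : ∀ s, IsAnn (2 * m) s → f s = g s) :
    Rep q m g := by
  obtain ⟨P, hP, hPf⟩ := hf
  exact ⟨P, hP, fun s hs => by rw [hPf s hs, hfg s hs]⟩

lemma Rep.comp_eL (hq : q ^ 2 + q + 1 = 0) {f : St → ℂ} (hf : Rep q m f) {i : ℕ}
    (hi : i + 1 < 2 * m) : Rep q m (fun s => f (eL i s)) := by
  obtain ⟨P, hP, hPf⟩ := hf
  obtain ⟨Q, hQ, hE⟩ := hP.exists_E hq hi
  exact ⟨Q, hQ, fun s hs => by rw [DW.eval_E hq hP hQ hi hE hs, hPf _ (hs.eL hi)]⟩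

lemma Rep.comp_rotL (hq : q ^ 2 + q + 1 = 0) {f : St → ℂ} (hf : Rep q m f) :
    Rep q m (fun s => f (rotL (2 * m) s)) := by
  obtain ⟨P, hP, hPf⟩ := hf
  obtain ⟨Q, hQ, hQe⟩ := hP.exists_rot hq
  refine ⟨Q, hQ, fun s hs => ?_⟩
  rw [hQe, ← zptS_rotL q hs, hPf _ hs.rotL]

lemma isAnn_iterate {N : ℕ} {s : St} (hs : IsAnn N s) (k : ℕ) : IsAnn N ((rotL N)^[k] s) := by
  induction k with
  | zero => exact hs
  | succ k ih =>
    rw [Function.iterate_succ_apply']
    exact ih.rotL

lemma Rep.comp_iterate (hq : q ^ 2 + q + 1 = 0) {f : St → ℂ} (hf : Rep q m f) (k : ℕ) :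
    Rep q m (fun s => f ((rotL (2 * m))^[k] s)) := by
  induction k with
  | zero => exact hf
  | succ k ih =>
    have := ih.comp_rotL hq
    simpa only [Function.iterate_succ_apply] using this

lemma iterate_mul {N : ℕ} {s : St} (hs : IsAnn N s) (k : ℕ) : (rotL N)^[N * k] s = s := by
  induction k with
  | zero => rfl
  | succ k ih =>
    rw [Nat.mul_succ, Function.iterate_add_apply, rotL_iterate hs, ih]

lemma iterate_inj {N : ℕ} (k : ℕ) : ∀ {s s' : St}, IsAnn N s → IsAnn N s' →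
    (rotL N)^[k] s = (rotL N)^[k] s' → s = s' := by
  induction k with
  | zero => exact fun _ _ h => h
  | succ k ih =>
    intro s s' hs hs' h
    rw [Function.iterate_succ_apply', Function.iterate_succ_apply'] at h
    exact ih hs hs' (rotL_inj (isAnn_iterate hs k) (isAnn_iterate hs' k) h)

/-- rotations can be inverted by rotations -/
lemma exists_inv {s₀ : St} (h₀ : IsAnn (2 * m) s₀) (k : ℕ) : ∃ j, ∀ s, IsAnn (2 * m) s →
    (s = (rotL (2 * m))^[k] s₀ ↔ (rotL (2 * m))^[j] s = s₀) := by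
  rcases Nat.eq_zero_or_pos m with hm | hm
  · subst hm
    refine ⟨0, fun s hs => ?_⟩
    have e1 : s = nestS 0 := isAnn_zero hs
    have e2 : s₀ = nestS 0 := isAnn_zero h₀
    have e3 : (rotL (2 * 0))^[k] s₀ = nestS 0 := isAnn_zero (isAnn_iterate h₀ k)
    rw [e3, e2, e1]
    exact ⟨fun _ => rfl, fun _ => rfl⟩
  · refine ⟨k * (2 * m - 1), fun s hs => ?_⟩
    have e : k * (2 * m - 1) + k = 2 * m * k := by
      obtain ⟨M, hM⟩ : ∃ M, 2 * m = M + 1 := ⟨2 * m - 1, by omega⟩
      rw [hM, Nat.add_sub_cancel]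
      ring
    constructor
    · intro h
      rw [h, ← Function.iterate_add_apply, e, iterate_mul h₀]
    · intro h
      refine iterate_inj (k * (2 * m - 1)) hs (isAnn_iterate h₀ k) ?_
      rw [h, ← Function.iterate_add_apply, e, iterate_mul h₀]

open Classical in
lemma rep_rot (hq : q ^ 2 + q + 1 = 0) {s₀ : St} (h₀ : IsAnn (2 * m) s₀)
    (h : Rep q m (fun s => if s = s₀ then 1 else 0)) (k : ℕ) :
    Rep q m (fun s => if s = (rotL (2 * m))^[k] s₀ then 1 else 0) := by
  obtain ⟨j, hj⟩ := exists_inv h₀ k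
  refine (h.comp_iterate hq j).congr fun s hs => ?_
  by_cases hs' : s = (rotL (2 * m))^[k] s₀
  · rw [if_pos hs', if_pos ((hj s hs).1 hs')]
  · rw [if_neg hs', if_neg (fun h => hs' ((hj s hs).2 h))]

open Classical in
lemma rep_nest (hq : q ^ 2 + q + 1 = 0) :
    Rep q m (fun s => if s = nestS m then 1 else 0) := by
  have hq0 : q ≠ 0 := by
    rintro rfl
    norm_num at hq
  have hq1 : (1 : ℂ) - q ≠ 0 := by
    intro h
    have : q = 1 := by linear_combination -h
    rw [this] at hq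
    norm_num at hq
  have hc : (-3 * q) ^ (m * (m - 1) / 2) * (1 - q) ^ (m ^ 2) ≠ 0 :=
    mul_ne_zero (pow_ne_zero _ (mul_ne_zero (by norm_num) hq0)) (pow_ne_zero _ hq1)
  have h1 : Rep q m (fun s => eval (zptS q s) (minPoly q (2 * m))) :=
    ⟨minPoly q (2 * m), dw_minPoly hq _, fun s _ => rfl⟩
  refine (h1.smul ((-3 * q) ^ (m * (m - 1) / 2) * (1 - q) ^ (m ^ 2))⁻¹).congr fun s hs => ?_
  by_cases hss : s = nestS m
  · rw [if_pos hss, hss, eval_minPoly_nestS hq, inv_mul_cancel₀ hc]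
  · rw [if_neg hss, eval_minPoly_of_ne hq hs hss, mul_zero]

open Classical in
lemma rep_delta (hq : q ^ 2 + q + 1 = 0) : ∀ (n : ℕ) {s : St}, IsAnn (2 * m) s →
    2 * m * (2 * m) - totS (2 * m) s = n → Rep q m (fun s' => if s' = s then 1 else 0) := by
  intro n
  induction n using Nat.strong_induction_on with
  | _ n ih =>
  intro s hs hn
  rcases nested_or_valley hs with ⟨k, rfl⟩ | ⟨k, π, hπ, rfl, i, hi, h1, h2, h3⟩
  · exact rep_rot hq (isAnn_nestS m) (rep_nest hq) k
  · refine rep_rot hq hπ ?_ k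
    have htot : ∀ k, totS (2 * m) ((rotL (2 * m))^[k] π) = totS (2 * m) π := by
      intro k
      induction k with
      | zero => rfl
      | succ k ih =>
        rw [Function.iterate_succ_apply', totS_rotL (isAnn_iterate hπ k), ih]
    rw [htot k] at hn
    -- states of larger total length
    have hIH : ∀ s', IsAnn (2 * m) s' → totS (2 * m) π < totS (2 * m) s' →
        Rep q m (fun s'' => if s'' = s' then 1 else 0) := by
      intro s' hs' hlt
      have := totS_le (2 * m) hs'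
      exact ih _ (by omega) hs' rfl
    have hne : eL i π ≠ π := by
      intro h
      have := (eL_small hπ hi).1
      rw [h] at this
      exact h3 this
    have hf := (hIH (eL i π) (hπ.eL hi) (totS_lt hπ hi h1 h2 h3 (hπ.eL hi)
      (eL_idem hπ hi) hne)).comp_eL hq hi
    set S : Finset St := (finite_ann (2 * m)).toFinset.filter
      (fun s' => s' ≠ π ∧ eL i s' = eL i π) with hS
    have hrest : ∀ s' ∈ S, Rep q m (fun s'' => if s'' = s' then 1 else 0) := by
      intro s' hs'
      rw [hS, mem_filter, Set.Finite.mem_toFinset] at hs'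
      obtain ⟨hnc, hne', he⟩ := hs'
      exact hIH s' hnc (totS_lt hπ hi h1 h2 h3 hnc he hne')
    refine (hf.add ((Rep.sum S hrest).smul (-1))).congr fun s' hs' => ?_
    by_cases hpp : s' = π
    · subst hpp
      have h0 : ∑ x ∈ S, (if s' = x then (1 : ℂ) else 0) = 0 := by
        refine sum_eq_zero fun x hx => ?_
        rw [hS, mem_filter] at hx
        rw [if_neg (fun e => hx.2.1 e.symm)]
      simp [h0]
    · by_cases he : eL i s' = eL i π
      · have hmem : s' ∈ S := by
          rw [hS, mem_filter, Set.Finite.mem_toFinset]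
          exact ⟨hs', hpp, he⟩
        have h0 : ∑ x ∈ S, (if s' = x then (1 : ℂ) else 0) = 1 := by
          rw [sum_ite_eq, if_pos hmem]
        rw [h0, if_pos he, if_neg hpp]
        ring
      · have hmem : s' ∉ S := by
          rw [hS, mem_filter]
          exact fun h => he h.2.2
        have h0 : ∑ x ∈ S, (if s' = x then (1 : ℂ) else 0) = 0 := by
          rw [sum_ite_eq, if_neg hmem]
        rw [h0, if_neg he, if_neg hpp]
        ring

end DWG

open Classical in
theorem exists_dualS {q : ℂ} (hq : q ^ 2 + q + 1 = 0) {m : ℕ} {s : St} (hs : IsAnn (2 * m) s) :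
    ∃ P, DW q (2 * m) P ∧
      ∀ s', IsAnn (2 * m) s' → eval (zptS q s') P = if s' = s then 1 else 0 :=
  DWG.rep_delta hq _ hs rfl

end Pool.Agent.Perc
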