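import Pool.Agent.Lib.MP_6bd702_perq.PairB

/-!
# The pairing of states: planarity (task PairD)
-/

set_option autoImplicit false

namespace Pool.Agent.Perc

open Finset

variable {N : ℕ} {s s' : St}

namespace PairD

open Classical in
/-- The number of sites of `K` below `w`. -/
noncomputable def cnt (K : ℕ → Prop) (w : ℕ) : ℕ := ((range w).filter K).card

theorem cnt_zero (K : ℕ → Prop) : cnt K 0 = 0 := by
  simp [cnt]

open Classical in
theorem cnt_succ (K : ℕ → Prop) (w : ℕ) : cnt K (w + 1) = cnt K w + if K w then 1 else 0 := by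
  unfold cnt
  rw [range_add_one, filter_insert]
  split_ifs with h
  · rw [card_insert_of_notMem (by simp)]
  · rfl

open Classical in
theorem cnt_add (K : ℕ → Prop) {x y : ℕ} (hxy : x ≤ y) :
    cnt K y = cnt K x + ((Ico x y).filter K).card := by
  unfold cnt
  rw [range_eq_Ico, range_eq_Ico, ← Ico_union_Ico_eq_Ico (Nat.zero_le x) hxy, filter_union,
    card_union_of_disjoint]
  exact disjoint_filter_filter (Ico_disjoint_Ico_consecutive 0 x y)

/-- A finite set with a fixed point free involution has an even number of elements. -/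
theorem even_card {S : Finset ℕ} {f : ℕ → ℕ} (h1 : ∀ x ∈ S, f x ∈ S)
    (h2 : ∀ x ∈ S, f (f x) = x) (h3 : ∀ x ∈ S, f x ≠ x) : S.card % 2 = 0 := by
  have h := Finset.prod_involution (s := S) (f := fun _ => (-1 : ℤ)) (fun x _ => f x)
    (by intros; norm_num) (by intro x hx _; exact h3 x hx) (by intro x hx; exact h1 x hx)
    (by intro x hx; exact h2 x hx)
  rw [Finset.prod_const] at h
  rcases Nat.even_or_odd S.card with he | ho
  · exact Nat.even_iff.mp he
  · rw [ho.neg_one_pow] at h
    norm_num at h

/-- An involution which exchanges `P` and its complement. -/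
theorem two_mul_card {T : Finset ℕ} {f : ℕ → ℕ} (h1 : ∀ x ∈ T, f x ∈ T)
    (h2 : ∀ x ∈ T, f (f x) = x) (P : ℕ → Prop) [DecidablePred P]
    (h3 : ∀ x ∈ T, (P (f x) ↔ ¬ P x)) : 2 * (T.filter P).card = T.card := by
  have e : (T.filter fun x => ¬ P x).card = (T.filter P).card := by
    refine Finset.card_nbij' f f ?_ ?_ ?_ ?_
    · intro x hx
      simp only [coe_filter, Set.mem_ofPred_eq] at hx ⊢
      exact ⟨h1 x hx.1, (h3 x hx.1).mpr hx.2⟩
    · intro x hx
      simp only [coe_filter, Set.mem_ofPred_eq] at hx ⊢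
      exact ⟨h1 x hx.1, fun h => ((h3 x hx.1).mp h) hx.2⟩
    · intro x hx
      simp only [coe_filter, Set.mem_ofPred_eq] at hx
      exact h2 x hx.1
    · intro x hx
      simp only [coe_filter, Set.mem_ofPred_eq] at hx
      exact h2 x hx.1
  have h := T.card_filter_add_card_filter_not P
  omega

theorem cnt_partner_aux {p : ℕ → ℕ} (h : NC N p) {K : ℕ → Prop} (hK : ∀ x, K x → K (p x))
    {x : ℕ} (hx : ¬ K x) (hlt : x < p x) : cnt K x % 2 = cnt K (p x) % 2 := by
  classical
  have hxN : x < N := by
    by_contra hc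
    have := h.out x (by omega)
    omega
  have hpN := h.lt x hxN
  have he : ((Ico x (p x)).filter K).card % 2 = 0 := by
    refine even_card (f := p) ?_ ?_ ?_
    · intro z hz
      rw [mem_filter, mem_Ico] at hz ⊢
      have hne : x ≠ z := fun e => hx (e ▸ hz.2)
      have := h.nc x z (by omega) hz.1.2
      exact ⟨⟨by omega, this.2⟩, hK z hz.2⟩
    · intro z _
      exact h.inv z
    · intro z hz
      rw [mem_filter, mem_Ico] at hz
      exact h.ne z (by omega)
  rw [cnt_add K hlt.le]
  omega

theorem cnt_partner {p : ℕ → ℕ} (h : NC N p) {K : ℕ → Prop} (hK : ∀ x, K x → K (p x))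
    {x : ℕ} (hx : ¬ K x) : cnt K x % 2 = cnt K (p x) % 2 := by
  rcases lt_trichotomy x (p x) with hlt | heq | hgt
  · exact cnt_partner_aux h hK hx hlt
  · rw [← heq]
  · have hx' : ¬ K (p x) := by
      intro hc
      have := hK _ hc
      rw [h.inv] at this
      exact hx this
    have := cnt_partner_aux h hK hx' (by rw [h.inv]; exact hgt)
    rw [h.inv] at this
    exact this.symm

/-- The number of sites of a union of loops `K` below `x` has the same parity for all `x` of
another loop. -/
theorem cnt_loop (h' : NC N s'.1) (h : NC N s.1) {K : ℕ → Prop} (hK' : ∀ x, K x → K (s'.1 x))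
    (hK : ∀ x, K x → K (s.1 x)) {x y : ℕ} (hx : ¬ K x) (hxy : LoopR s' s x y) :
    ¬ K y ∧ cnt K x % 2 = cnt K y % 2 := by
  unfold LoopR at hxy
  induction hxy with
  | refl => exact ⟨hx, rfl⟩
  | tail _ hbc ih =>
    rename_i b c _
    obtain ⟨hb, hc⟩ := ih
    rcases hbc with e | e
    · subst e
      refine ⟨fun hk => ?_, ?_⟩
      · have := hK' _ hk
        rw [h'.inv] at this
        exact hb this
      · rw [hc]
        exact cnt_partner h' hK' hb
    · subst e
      refine ⟨fun hk => ?_, ?_⟩
      · have := hK _ hk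
        rw [h.inv] at this
        exact hb this
      · rw [hc]
        exact cnt_partner h hK hb

theorem label_card (h : IsAnn N s) {g : ℕ} (hg : Marks N s g) {K : ℕ → Prop}
    (hK : ∀ x, K x → K (s.1 x)) [DecidablePred fun x => x % 2 = 0 ∧ s.2 x = true ∧ K x] :
    ((range N).filter fun x => x % 2 = 0 ∧ s.2 x = true ∧ K x).card % 2 = cnt K g % 2 := by
  classical
  set T := (range N).filter fun x => s.2 x = true ∧ K x with hT
  have hT1 : ∀ x ∈ T, s.1 x ∈ T := by
    intro x hx
    rw [hT, mem_filter, mem_range] at hx ⊢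
    exact ⟨h.nc.lt x hx.1, by rw [h.label_partner hx.1]; exact hx.2.1, hK x hx.2.2⟩
  have hT2 : ∀ x ∈ T, s.1 (s.1 x) = x := fun x _ => h.nc.inv x
  have e1 := two_mul_card hT1 hT2 (fun x => x % 2 = 0) (by
    intro x hx
    rw [hT, mem_filter, mem_range] at hx
    have := h.nc.parity hx.1
    show s.1 x % 2 = 0 ↔ ¬ x % 2 = 0
    omega)
  have e2 := two_mul_card hT1 hT2 (fun x => x < g) (by
    intro x hx
    rw [hT, mem_filter, mem_range] at hx
    have := (hg.2 x hx.1).mp hx.2.1
    show s.1 x < g ↔ ¬ x < g
    tauto)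
  have e3 : (range N).filter (fun x => x % 2 = 0 ∧ s.2 x = true ∧ K x) =
      T.filter fun x => x % 2 = 0 := by
    ext x
    rw [hT, filter_filter, mem_filter, mem_filter]
    tauto
  have e4 : ((range g).filter K).card = (T.filter fun x => x < g).card +
      ((range g).filter fun x => s.2 x = false ∧ K x).card := by
    rw [← card_union_of_disjoint]
    · congr 1
      ext x
      have hgN := hg.1
      simp only [hT, mem_union, mem_filter, mem_range]
      constructor
      · rintro ⟨hx, hk⟩
        rcases Bool.eq_false_or_eq_true (s.2 x) with e | e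
        · exact Or.inl ⟨⟨by omega, e, hk⟩, hx⟩
        · exact Or.inr ⟨hx, e, hk⟩
      · rintro (⟨⟨_, _, hk⟩, hx⟩ | ⟨hx, _, hk⟩)
        · exact ⟨hx, hk⟩
        · exact ⟨hx, hk⟩
    · rw [disjoint_left]
      intro x hx hx'
      simp only [hT, mem_filter, mem_range] at hx hx'
      rw [hx.1.2.1] at hx'
      exact absurd hx'.2.1 (by simp)
  have e5 : ((range g).filter fun x => s.2 x = false ∧ K x).card % 2 = 0 := by
    have hgN := hg.1
    refine even_card (f := s.1) ?_ ?_ ?_
    · intro x hx
      rw [mem_filter, mem_range] at hx ⊢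
      have hxN : x < N := by omega
      have hm := hg.2 x hxN
      have : x < g ↔ s.1 x < g := by
        by_contra hc
        have := hm.mpr hc
        rw [hx.2.1] at this
        exact absurd this (by simp)
      exact ⟨this.mp hx.1, by rw [h.label_partner hxN]; exact hx.2.1, hK x hx.2.2⟩
    · intro x _
      exact h.nc.inv x
    · intro x hx
      rw [mem_filter, mem_range] at hx
      exact h.nc.ne x (by omega)
  have e6 : cnt K g = ((range g).filter K).card := rfl
  rw [e3, e6, e4]
  omega

/-- Between the last site of `K` and an odd point there is no site of `K₀`. -/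
theorem cnt_odd {K K₀ : ℕ → Prop} {ε : ℕ} (hd : ∀ y, K y → ¬ K₀ y)
    (h1 : ∀ z, K₀ z → cnt K z % 2 = 0) (h2 : ∀ y, K y → cnt K₀ y % 2 = ε) :
    ∀ g, cnt K g % 2 = 1 → cnt K₀ g % 2 = ε := by
  classical
  intro g
  induction g with
  | zero =>
    intro h
    rw [cnt_zero] at h
    omega
  | succ g ih =>
    intro h
    rw [cnt_succ] at h ⊢
    by_cases hk : K g
    · rw [if_neg (hd g hk)]
      exact h2 g hk
    · rw [if_neg hk] at h
      by_cases hk0 : K₀ g
      · have := h1 g hk0
        omega
      · rw [if_neg hk0]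
        exact ih h

theorem loopA_mul_loopB (h' : IsAnn N s') (h : IsAnn N s) (hN : 0 < N) (hnc : NCat N s' s 0)
    {x₀ : ℕ} (hx₀ : x₀ < N) : 2 ∣ loopA N s' s x₀ * loopB N s' s x₀ := by
  classical
  have E := loopR_equivalence h' h
  obtain ⟨g, hg⟩ := h.mark
  obtain ⟨g', hg'⟩ := h'.mark
  have hcl' : ∀ a x, LoopR s' s a x → LoopR s' s a (s'.1 x) :=
    fun a x hx => Relation.ReflTransGen.tail hx (Or.inl rfl)
  have hcl : ∀ a x, LoopR s' s a x → LoopR s' s a (s.1 x) :=
    fun a x hx => Relation.ReflTransGen.tail hx (Or.inr rfl)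
  have hA : ∀ a, loopA N s' s a % 2 = cnt (LoopR s' s a) g' % 2 := fun a =>
    label_card h' hg' (hcl' a)
  have hB : ∀ a, loopB N s' s a % 2 = cnt (LoopR s' s a) g % 2 := fun a =>
    label_card h hg (hcl a)
  by_cases h0 : LoopR s' s 0 x₀
  · have hAe : loopA N s' s x₀ = loopA N s' s 0 := by
      unfold loopA
      congr 1
      ext x
      simp only [mem_filter]
      exact and_congr_right fun _ => and_congr_right fun _ => and_congr_right fun _ =>
        ⟨fun hx => E.trans h0 hx, fun hx => E.trans (E.symm h0) hx⟩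
    have hBe : loopB N s' s x₀ = loopB N s' s 0 := by
      unfold loopB
      congr 1
      ext x
      simp only [mem_filter]
      exact and_congr_right fun _ => and_congr_right fun _ => and_congr_right fun _ =>
        ⟨fun hx => E.trans h0 hx, fun hx => E.trans (E.symm h0) hx⟩
    rw [hAe, hBe]
    unfold NCat at hnc
    rcases Nat.even_or_odd (loopA N s' s 0) with he | ho
    · exact Dvd.dvd.mul_right he.two_dvd _
    · have : loopB N s' s 0 % 2 = 0 := by
        have := Nat.odd_iff.mp ho
        omega
      exact Dvd.dvd.mul_left (Nat.dvd_of_mod_eq_zero this) _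
  · have h0' : ¬ LoopR s' s x₀ 0 := fun hc => h0 (E.symm hc)
    have hd : ∀ y, LoopR s' s x₀ y → ¬ LoopR s' s 0 y := fun y hy hy' =>
      h0 (E.trans hy' (E.symm hy))
    have h1 : ∀ z, LoopR s' s 0 z → cnt (LoopR s' s x₀) z % 2 = 0 := by
      intro z hz
      have := (cnt_loop h'.nc h.nc (hcl' x₀) (hcl x₀) h0' hz).2
      rw [cnt_zero] at this
      omega
    have h2 : ∀ y, LoopR s' s x₀ y → cnt (LoopR s' s 0) y % 2 = cnt (LoopR s' s 0) x₀ % 2 := by
      intro y hy
      exact (cnt_loop h'.nc h.nc (hcl' 0) (hcl 0) h0 hy).2.symm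
    have h3 := cnt_odd hd h1 h2 g
    have h4 := cnt_odd hd h1 h2 g'
    unfold NCat at hnc
    have hA0 := hA 0
    have hB0 := hB 0
    have hA1 := hA x₀
    have hB1 := hB x₀
    rcases Nat.even_or_odd (loopA N s' s x₀) with he | ho
    · exact Dvd.dvd.mul_right he.two_dvd _
    · rcases Nat.even_or_odd (loopB N s' s x₀) with he2 | ho2
      · exact Dvd.dvd.mul_left he2.two_dvd _
      · exfalso
        have ho' := Nat.odd_iff.mp ho
        have ho2' := Nat.odd_iff.mp ho2
        have a1 := h3 (by omega)
        have a2 := h4 (by omega)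
        omega

open Classical in
theorem loopN_eq_sum (N : ℕ) (s' s : St) : loopN N s' s =
    ∑ x ∈ (range N).filter (fun x => x % 2 = 0 ∧ s'.2 x = true), loopB N s' s x := by
  unfold loopN
  rw [card_filter, sum_product, sum_filter]
  refine sum_congr rfl fun x _ => ?_
  rw [← card_filter]
  split_ifs with hx
  · unfold loopB
    congr 1
    ext y
    simp only [mem_filter]
    tauto
  · rw [card_eq_zero, filter_eq_empty_iff]
    intro y _ hy
    exact hx ⟨hy.1, hy.2.2.1⟩

theorem even_loopN (h' : IsAnn N s') (h : IsAnn N s) (hN : 0 < N) (hnc : NCat N s' s 0) :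
    2 ∣ loopN N s' s := by
  classical
  have E := loopR_equivalence h' h
  rw [loopN_eq_sum]
  set A := (range N).filter (fun x => x % 2 = 0 ∧ s'.2 x = true) with hA
  set f : ℕ → Finset ℕ := fun x => (range N).filter (LoopR s' s x) with hf
  rw [← sum_fiberwise_of_maps_to (s := A) (t := A.image f) (g := f)
    (fun x hx => mem_image_of_mem f hx)]
  refine dvd_sum fun c hc => ?_
  obtain ⟨x₀, hx₀, rfl⟩ := mem_image.mp hc
  have hx₀N : x₀ < N := by
    rw [hA, mem_filter, mem_range] at hx₀
    exact hx₀.1
  have hrel : ∀ x < N, f x = f x₀ ↔ LoopR s' s x₀ x := by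
    intro x hx
    constructor
    · intro he
      have : x ∈ f x := by
        rw [hf, mem_filter, mem_range]
        exact ⟨hx, E.refl x⟩
      rw [he, hf, mem_filter] at this
      exact this.2
    · intro hr
      rw [hf]
      ext y
      simp only [mem_filter]
      exact and_congr_right fun _ => ⟨fun hy => E.trans hr hy, fun hy => E.trans (E.symm hr) hy⟩
  have e1 : ∀ x ∈ A.filter (fun x => f x = f x₀), loopB N s' s x = loopB N s' s x₀ := by
    intro x hx
    rw [mem_filter, hA, mem_filter, mem_range] at hx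
    have hr := (hrel x hx.1.1).mp hx.2
    unfold loopB
    congr 1
    ext y
    simp only [mem_filter]
    exact and_congr_right fun _ => and_congr_right fun _ => and_congr_right fun _ =>
      ⟨fun hy => E.trans hr hy, fun hy => E.trans (E.symm hr) hy⟩
  rw [sum_congr rfl e1, sum_const, smul_eq_mul]
  have e2 : (A.filter fun x => f x = f x₀).card = loopA N s' s x₀ := by
    unfold loopA
    congr 1
    ext x
    simp only [hA, mem_filter, mem_range]
    constructor
    · rintro ⟨⟨hx, h1, h2⟩, h3⟩
      exact ⟨hx, h1, h2, (hrel x hx).mp h3⟩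
    · rintro ⟨hx, h1, h2, h3⟩
      exact ⟨⟨hx, h1, h2⟩, (hrel x hx).mpr h3⟩
  rw [e2]
  exact loopA_mul_loopB h' h hN hnc hx₀N

end PairD

/-- If the loop of the site `0` is not contractible then no loop surrounds the seam point. -/
theorem BS_of_NCat (h' : IsAnn N s') (h : IsAnn N s) (hN : 0 < N) (hnc : NCat N s' s 0) :
    BS N s' s = 1 := by
  unfold BS
  exact (even_iff_two_dvd.mpr (PairD.even_loopN h' h hN hnc)).neg_one_pow

end Pool.Agent.Perc
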