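import Pool.Agent.Lib.MP_6bd702_perq.QSchur
import Pool.Agent.Lib.MP_6bd702_perc.QAsym

/-!
# Asymptotics of the exact probability (task QNum)
-/

set_option autoImplicit false

namespace Pool.Agent.Perc

open Finset MvPolynomial

theorem pv_eq_asym (m : ℕ) : pv m = QAsym.pv m := by
  have h := QAsym.pv_eq m
  have h1 := eval_TP_one m
  have h2 := eval_GP_one m
  have h3 : eval (fun _ => 1) (TP m) = eval (fun _ => 1) (schur (2 * (2 * m)) eS3) := by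
    unfold TP
    rw [eval_rename, show 2 * (2 * m) = 4 * m by ring]
    rfl
  have h4 : eval (fun _ => 1) (GP m) =
      eval (fun _ => 1) (schur (2 * m) eS3) * eval (fun _ => 1) (schur (2 * m) SumB.eP) := by
    unfold GP
    rw [QSchurQ.eP2_eq, map_mul]
  have h5 : ((pv m : ℝ) : ℂ) = ((QAsym.pv m : ℝ) : ℂ) := by
    rw [h, ← h3, ← h4, h1, h2]
    unfold pv
    push_cast
    ring
  exact_mod_cast h5

theorem pv_pos (m : ℕ) : 0 < pv m := by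
  rw [pv_eq_asym]; exact QAsym.pv_pos m

theorem pv_ge_third (m : ℕ) (hm : 0 < m) : 1 / 3 * (m : ℝ) ^ (-(1 / 4 : ℝ)) ≤ pv m := by
  rw [pv_eq_asym]; exact QAsym.pv_lower_rpow m hm

theorem pv_le_one (m : ℕ) (hm : 0 < m) : pv m ≤ (m : ℝ) ^ (-(1 / 4 : ℝ)) := by
  rw [pv_eq_asym]; exact QAsym.pv_upper_rpow m hm

theorem pv_ge : ∃ c : ℝ, 0 < c ∧ ∀ m : ℕ, 0 < m → c * (m : ℝ) ^ (-(1 / 4 : ℝ)) ≤ pv m :=
  ⟨1 / 3, by norm_num, pv_ge_third⟩

theorem pv_le : ∃ c : ℝ, 0 < c ∧ ∀ m : ℕ, 0 < m → pv m ≤ c * (m : ℝ) ^ (-(1 / 4 : ℝ)) :=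
  ⟨1, by norm_num, fun m hm => by rw [one_mul]; exact pv_le_one m hm⟩

end Pool.Agent.Perc
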