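import Pool.Agent.Lib.MP_6bd702_perq.IdentA
import Pool.Agent.Lib.MP_6bd702_perq.PairD
import Pool.Agent.Lib.MP_6bd702_perq.QNum
import Pool.Agent.Lib.MP_6bd702_perq.TwoC

/-!
# The exact probability of a non-contractible loop (task IdentB)
-/

set_option autoImplicit false

namespace Pool.Agent.Perc

open Finset MvPolynomial

open Classical in
/-- The stationary probability that the loop of the site `0` is not contractible. -/
theorem exSt_NCat {q : ℂ} (hq : q ^ 2 + q + 1 = 0) {n : ℕ} (hn : 0 < n) :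
    exSt q n (fun s' s => if NCat (2 * n) s' s 0 then 1 else 0) = ((pv n : ℝ) : ℂ) := by
  have h1 := sum_NCat hq hn
  have h2 := sum_PsiS_ne hq n
  rw [exSt, div_eq_iff (pow_ne_zero 2 h2), ← h1]
  refine Finset.sum_congr rfl fun s' hs' => Finset.sum_congr rfl fun s hs => ?_
  by_cases h : NCat (2 * n) s' s 0
  · rw [if_pos h, if_pos h, BS_of_NCat (mem_anns.1 hs') (mem_anns.1 hs) (by omega) h]
  · rw [if_neg h, if_neg h]

theorem IdentB.exists_q : ∃ q : ℂ, q ^ 2 + q + 1 = 0 := by
  obtain ⟨q, hq⟩ := IsAlgClosed.exists_root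
    (Polynomial.X ^ 2 + Polynomial.X + 1 : Polynomial ℂ) (by
      have : (Polynomial.X ^ 2 + Polynomial.X + 1 : Polynomial ℂ).degree = 2 := by
        compute_degree!
      rw [this]; norm_num)
  refine ⟨q, ?_⟩
  simpa [Polynomial.IsRoot] using hq

/-- The two-arm probability: exact lower bound. -/
theorem pv_le_p2 {n : ℕ} (hn : 0 < n) : pv n ≤ p2 n := by
  classical
  obtain ⟨q, hq⟩ := IdentB.exists_q
  have h := p2_ge_exSt hq hn (sum_PsiS_ne hq n)
  have h1 := exSt_NCat hq hn
  rw [h1, Complex.ofReal_re] at h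
  exact h

/-- The two-arm probability is at least a constant times `n ^ (-1/4)`. -/
theorem p2_ge' {n : ℕ} (hn : 0 < n) : 1 / 3 * (n : ℝ) ^ (-(1 / 4 : ℝ)) ≤ p2 n :=
  (pv_ge_third n hn).trans (pv_le_p2 hn)

end Pool.Agent.Perc
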