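import Pool.Agent.Lib.MP_6bd702_perq.LowDefs

/-!
# Lowest coefficients of the solution (task LowA)
-/

set_option autoImplicit false

namespace Pool.Agent.Perc

open Finset MvPolynomial

variable {q : ℂ} {m : ℕ}

namespace LowA

open Classical in
theorem sum_single_apply (T : Finset St) (c : St → ℂ) (s' : St) :
    (∑ s ∈ T, Finsupp.single s (c s)) s' = if s' ∈ T then c s' else 0 := by
  rw [Finsupp.finsetSum_apply]
  simp only [Finsupp.single_apply]
  rw [Finset.sum_ite_eq' T s' c]

open Classical in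
theorem mapDomain_sum_single_apply (T : Finset St) (c : St → ℂ) (φ : St → St) (s' : St) :
    ((∑ s ∈ T, Finsupp.single s (c s)).mapDomain φ) s' =
      ∑ s ∈ T, if φ s = s' then c s else 0 := by
  rw [Finsupp.mapDomain_finsetSum, Finsupp.finsetSum_apply]
  refine Finset.sum_congr rfl fun s _ => ?_
  rw [Finsupp.mapDomain_single, Finsupp.single_apply]

theorem eval_aeval (f : ℕ → Polynomial ℂ) (P : MvPolynomial ℕ ℂ) (t : ℂ) :
    (aeval f P).eval t = eval (fun k => (f k).eval t) P := by
  induction P using MvPolynomial.induction_on with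
  | C a => simp
  | add p r hp hr => simp [hp, hr]
  | mul_X p k hp => simp [hp]

theorem eval_putX (j : ℕ) (a b : ℂ) (z : ℕ → ℂ) (t : ℂ) :
    (fun k => (putX j a b z k).eval t) = put2 j (a * t) (b * t) z := by
  funext k
  simp only [putX, put2]
  split_ifs <;> simp

theorem eval_aeval_putX (j : ℕ) (a b : ℂ) (z : ℕ → ℂ) (P : MvPolynomial ℕ ℂ) (t : ℂ) :
    (aeval (putX j a b z) P).eval t = eval (put2 j (a * t) (b * t) z) P := by
  rw [eval_aeval, eval_putX]

theorem putX_coeff_zero (j : ℕ) (a b a' b' : ℂ) (z : ℕ → ℂ) (k : ℕ) :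
    (putX j a b z k).coeff 0 = (putX j a' b' z k).coeff 0 := by
  simp only [putX]
  split_ifs <;> simp

theorem putX_coeff_one (j : ℕ) (a b : ℂ) (z : ℕ → ℂ) (k : ℕ) :
    (putX j a b z k).coeff 1 =
      a * (putX j 1 0 z k).coeff 1 + b * (putX j 0 1 z k).coeff 1 := by
  simp only [putX]
  split_ifs <;> simp

theorem aeval_coeff_zero (j : ℕ) (a b a' b' : ℂ) (z : ℕ → ℂ) (P : MvPolynomial ℕ ℂ) :
    (aeval (putX j a b z) P).coeff 0 = (aeval (putX j a' b' z) P).coeff 0 := by
  induction P using MvPolynomial.induction_on with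
  | C c => simp
  | add p r hp hr => simp [hp, hr]
  | mul_X p k hp =>
    rw [map_mul, map_mul, aeval_X, aeval_X, Polynomial.mul_coeff_zero, Polynomial.mul_coeff_zero,
      hp, putX_coeff_zero j a b a' b' z k]

theorem aeval_coeff_one (j : ℕ) (a b : ℂ) (z : ℕ → ℂ) (P : MvPolynomial ℕ ℂ) :
    (aeval (putX j a b z) P).coeff 1 =
      a * (aeval (putX j 1 0 z) P).coeff 1 + b * (aeval (putX j 0 1 z) P).coeff 1 := by
  induction P using MvPolynomial.induction_on with
  | C c => simp
  | add p r hp hr =>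
    simp only [map_add, Polynomial.coeff_add, hp, hr]
    ring
  | mul_X p k hp =>
    simp only [map_mul, aeval_X, Polynomial.mul_coeff_one]
    rw [hp, putX_coeff_one j a b z k, aeval_coeff_zero j a b 1 0 z p,
      putX_coeff_zero j a b 1 0 z k, aeval_coeff_zero j 0 1 1 0 z p,
      putX_coeff_zero j 0 1 1 0 z k]
    ring

theorem put2_self {j : ℕ} (hj : 0 < j) (x y : ℂ) (z : ℕ → ℂ) : put2 j x y z j = y := by
  unfold put2
  rw [if_neg (by omega), if_neg (by omega), if_pos rfl]

theorem put2_succ {j : ℕ} (x y : ℂ) (z : ℕ → ℂ) : put2 j x y z (j + 1) = z (j - 1) := by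
  unfold put2
  rw [if_neg (by omega), if_neg (by omega), if_neg (by omega)]
  congr 1

theorem swapV_put2 {j : ℕ} (hj : 0 < j) (x y : ℂ) (z : ℕ → ℂ) :
    swapV j (put2 j x y z) = put2 (j + 1) x y z := by
  funext k
  rw [swapV, Equiv.swap_apply_def]
  simp only [put2]
  split_ifs <;> first | rfl | omega | contradiction | (congr 1; omega)

theorem swapV_put2_one (x y : ℂ) (z : ℕ → ℂ) :
    swapV 0 (put2 1 x y z) = put2 1 y x z := by
  funext k
  rw [swapV, Equiv.swap_apply_def]
  simp only [put2]
  split_ifs <;> first | rfl | omega | contradiction | (congr 1; omega)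

theorem insV_zero (x y : ℂ) (z : ℕ → ℂ) : insV 0 x y z = put2 1 x y z := by
  funext k
  simp only [insV, put2]
  split_ifs <;> first | rfl | omega | contradiction | (congr 1; omega)

theorem two_le (n : ℕ) : ∑ j ∈ range (n + 2), j = ∑ j ∈ range n, (n + 2 - 1 - j) + 1 := by
  rw [← Finset.sum_range_reflect (fun j => j) (n + 2), sum_range_succ, sum_range_succ]
  have h1 : n + 2 - 1 - n = 1 := by omega
  have h2 : n + 2 - 1 - (n + 1) = 0 := by omega
  rw [h1, h2]

open Classical in
/-- the linear coefficient of a solution of a recursion with an insertion -/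
theorem chi_of_forall (q : ℂ) (m j : ℕ) (a b : ℂ) (z : ℕ → ℂ) (g : St →₀ ℂ)
    (h : ∀ v : ℂ, PsiSV q (m + 1) (put2 j (a * v) (b * v) z) =
      (v * (∏ k ∈ range (2 * m), (z k - q * v) ^ 2) / (9 * q) ^ m) • g) :
    chiS q m j a b z = ((∏ k ∈ range (2 * m), z k ^ 2) / (9 * q) ^ m) • g := by
  ext s'
  have hpoly : (if s' ∈ anns (2 * m + 2) then aeval (putX j a b z) (PsiS q (m + 1) s') else 0) =
      Polynomial.C (g s' / (9 * q) ^ m) * (∏ k ∈ range (2 * m),
        (Polynomial.C (z k) - Polynomial.C q * Polynomial.X) ^ 2) * Polynomial.X := by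
    apply Polynomial.funext
    intro v
    have h1 := DFunLike.congr_fun (h v) s'
    rw [PsiSV, show 2 * (m + 1) = 2 * m + 2 from rfl, sum_single_apply, Finsupp.smul_apply,
      smul_eq_mul] at h1
    rw [Polynomial.eval_mul, Polynomial.eval_mul, Polynomial.eval_C, Polynomial.eval_X,
      Polynomial.eval_prod]
    simp only [Polynomial.eval_pow, Polynomial.eval_sub, Polynomial.eval_mul, Polynomial.eval_C,
      Polynomial.eval_X]
    rw [apply_ite (Polynomial.eval v), Polynomial.eval_zero, eval_aeval_putX, h1]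
    ring
  have h2 := congrArg (fun p : Polynomial ℂ => p.coeff 1) hpoly
  simp only [Polynomial.coeff_mul_X, Polynomial.mul_coeff_zero, Polynomial.coeff_C_zero] at h2
  rw [chiS, sum_single_apply, Finsupp.smul_apply, smul_eq_mul]
  have h3 : (∏ k ∈ range (2 * m), (Polynomial.C (z k) - Polynomial.C q * Polynomial.X) ^ 2).coeff
      0 = ∏ k ∈ range (2 * m), z k ^ 2 := by
    rw [Polynomial.coeff_zero_eq_eval_zero, Polynomial.eval_prod]
    simp
  rw [h3] at h2
  rw [apply_ite (fun p : Polynomial ℂ => p.coeff 1), Polynomial.coeff_zero] at h2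
  rw [h2]
  ring

end LowA

open LowA

/-- The components vanish when two variables vanish. -/
theorem eval_PsiS_eq_zero (hq : q ^ 2 + q + 1 = 0) (m : ℕ) (s : St) {z : ℕ → ℂ} {i j : ℕ}
    (hij : i ≠ j) (hi : i < 2 * m) (hj : j < 2 * m) (hzi : z i = 0) (hzj : z j = 0) :
    eval z (PsiS q m s) = 0 := by
  have hD := dw_PsiS hq m s
  rw [MvPolynomial.eval_eq]
  refine Finset.sum_eq_zero fun d hd => ?_
  have h1 := hD.tot d hd
  have h2 := hD.maj d hd (((range (2 * m)).erase i).erase j)
    ((Finset.erase_subset _ _).trans (Finset.erase_subset _ _))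
  have hjm : j ∈ (range (2 * m)).erase i := Finset.mem_erase.2 ⟨hij.symm, mem_range.2 hj⟩
  have hc : (((range (2 * m)).erase i).erase j).card = 2 * m - 2 := by
    rw [Finset.card_erase_of_mem hjm, Finset.card_erase_of_mem (mem_range.2 hi), card_range]
    omega
  rw [hc] at h2
  have h3 := Finset.sum_erase_add (range (2 * m)) (fun k => d k) (mem_range.2 hi)
  have h4 := Finset.sum_erase_add ((range (2 * m)).erase i) (fun k => d k) hjm
  have h5 := two_le (2 * m - 2)
  have h6 : 2 * m - 2 + 2 = 2 * m := by omega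
  rw [h6] at h5
  have h7 : d i ≠ 0 ∨ d j ≠ 0 := by omega
  apply mul_eq_zero_of_right
  rcases h7 with h7 | h7
  · refine Finset.prod_eq_zero (Finsupp.mem_support_iff.2 h7) ?_
    rw [hzi, zero_pow h7]
  · refine Finset.prod_eq_zero (Finsupp.mem_support_iff.2 h7) ?_
    rw [hzj, zero_pow h7]

open Classical in
theorem suppA_chiS (q : ℂ) (m j : ℕ) (a b : ℂ) (z : ℕ → ℂ) :
    SuppA (2 * m + 2) (chiS q m j a b z) := by
  intro s hs
  rw [chiS, sum_single_apply] at hs
  by_contra hc
  exact hs (if_neg fun h => hc (mem_anns.1 h))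

open Classical in
theorem chiS_linear (q : ℂ) (m j : ℕ) (a b : ℂ) (z : ℕ → ℂ) :
    chiS q m j a b z = a • chiS q m j 1 0 z + b • chiS q m j 0 1 z := by
  ext s
  simp only [chiS, Finsupp.add_apply, Finsupp.smul_apply, smul_eq_mul, sum_single_apply]
  split_ifs
  · exact aeval_coeff_one j a b z _
  · ring

theorem coeff_zero_putX_PsiS (hq : q ^ 2 + q + 1 = 0) (m : ℕ) (s : St) {j : ℕ} (hj : 0 < j)
    (hjm : j < 2 * m + 2) (a b : ℂ) (z : ℕ → ℂ) :
    (aeval (putX j a b z) (PsiS q (m + 1) s)).coeff 0 = 0 := by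
  rw [Polynomial.coeff_zero_eq_eval_zero, eval_aeval_putX]
  refine eval_PsiS_eq_zero hq (m + 1) s (i := 0) (j := j) (by omega) (by omega) (by omega) ?_ ?_
  · simp [put2]
  · rw [put2_self hj, mul_zero]

/-- Moving the place `j`. -/
theorem chiS_succ (hq : q ^ 2 + q + 1 = 0) (m : ℕ) {j : ℕ} (hj : 0 < j) (hjm : j < 2 * m + 1)
    (a b : ℂ) {z : ℕ → ℂ} (hz : ∀ k < 2 * m, z k ≠ 0) :
    chiS q m (j + 1) a b z =
      (-q) • chiS q m j a b z + (-q ^ 2) • (chiS q m j a b z).mapDomain (eL j) := by
  classical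
  ext s'
  have hq0 : q ≠ 0 := by
    rintro rfl
    norm_num at hq
  have hx : z (j - 1) ≠ 0 := hz _ (by omega)
  have hIs : ∀ s, s ∈ anns (2 * m + 2) → eL j s ∈ anns (2 * m + 2) := fun s hs =>
    mem_anns.2 ((mem_anns.1 hs).eL (by omega))
  by_cases hs' : s' ∈ anns (2 * m + 2)
  · set A := aeval (putX (j + 1) a b z) (PsiS q (m + 1) s') with hA
    set B := aeval (putX j a b z) (PsiS q (m + 1) s') with hB
    set E := ∑ s ∈ anns (2 * m + 2),
      if eL j s = s' then aeval (putX j a b z) (PsiS q (m + 1) s) else 0 with hE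
    have hpoly : (Polynomial.C (q * z (j - 1)) - Polynomial.C (q ^ 2 * b) * Polynomial.X) * A =
        (Polynomial.C (q * b) * Polynomial.X - Polynomial.C (q ^ 2 * z (j - 1))) * B +
          (Polynomial.C b * Polynomial.X - Polynomial.C (z (j - 1))) * E := by
      apply Polynomial.funext
      intro t
      have h1 := DFunLike.congr_fun (exchangeS (m := m + 1) hq (i := j) (by omega)
        (put2 j (a * t) (b * t) z)) s'
      rw [Finsupp.add_apply, Finsupp.smul_apply, Finsupp.smul_apply, Finsupp.smul_apply,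
        swapV_put2 hj, smul_eq_mul, smul_eq_mul, smul_eq_mul, PsiSV, PsiSV,
        show 2 * (m + 1) = 2 * m + 2 from rfl, sum_single_apply, sum_single_apply, if_pos hs',
        if_pos hs', mapDomain_sum_single_apply] at h1
      rw [put2_self hj, put2_succ] at h1
      simp only [Polynomial.eval_mul, Polynomial.eval_add, Polynomial.eval_sub, Polynomial.eval_C,
        Polynomial.eval_X]
      rw [hA, hB, hE, eval_aeval_putX, eval_aeval_putX, Polynomial.eval_finsetSum]
      have e3 : ∀ s, Polynomial.eval t (if eL j s = s' then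
          aeval (putX j a b z) (PsiS q (m + 1) s) else 0) = if eL j s = s' then
            eval (put2 j (a * t) (b * t) z) (PsiS q (m + 1) s) else 0 := by
        intro s
        split_ifs
        · exact eval_aeval_putX _ _ _ _ _ _
        · exact Polynomial.eval_zero
      simp only [e3]
      linear_combination h1
    have hA0 : A.coeff 0 = 0 := coeff_zero_putX_PsiS hq m s' (by omega) (by omega) a b z
    have hB0 : B.coeff 0 = 0 := coeff_zero_putX_PsiS hq m s' (by omega) (by omega) a b z
    have hE0 : E.coeff 0 = 0 := by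
      rw [hE, Polynomial.finsetSum_coeff]
      refine Finset.sum_eq_zero fun s _ => ?_
      split_ifs
      · exact coeff_zero_putX_PsiS hq m s (by omega) (by omega) a b z
      · exact Polynomial.coeff_zero 0
    have h2 := congrArg (fun p : Polynomial ℂ => p.coeff 1) hpoly
    simp only [Polynomial.coeff_add, Polynomial.mul_coeff_one, hA0, hB0, hE0,
      Polynomial.coeff_sub, Polynomial.coeff_C_zero, Polynomial.mul_coeff_zero,
      Polynomial.coeff_X_zero, mul_zero, zero_mul, add_zero, sub_zero, zero_sub] at h2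
    have hE1 : E.coeff 1 = ∑ s ∈ anns (2 * m + 2), if eL j s = s' then
        (aeval (putX j a b z) (PsiS q (m + 1) s)).coeff 1 else 0 := by
      rw [hE, Polynomial.finsetSum_coeff]
      refine Finset.sum_congr rfl fun s _ => ?_
      split_ifs
      · rfl
      · exact Polynomial.coeff_zero 1
    rw [Finsupp.add_apply, Finsupp.smul_apply, Finsupp.smul_apply, chiS, chiS, sum_single_apply,
      sum_single_apply, if_pos hs', if_pos hs', mapDomain_sum_single_apply, ← hE1, ← hA, ← hB,
      smul_eq_mul, smul_eq_mul]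
    have h3 : q * z (j - 1) ≠ 0 := mul_ne_zero hq0 hx
    apply mul_left_cancel₀ h3
    rw [h2]
    linear_combination (z (j - 1) * (q - 1) * E.coeff 1) * hq
  · rw [Finsupp.add_apply, Finsupp.smul_apply, Finsupp.smul_apply, chiS, chiS, sum_single_apply,
      sum_single_apply, if_neg hs', if_neg hs', mapDomain_sum_single_apply]
    rw [Finset.sum_eq_zero]
    · simp
    · intro s hs
      rw [if_neg]
      rintro rfl
      exact hs' (hIs s hs)

/-- Exchange of the places `0` and `1`. -/
theorem chiS_one (hq : q ^ 2 + q + 1 = 0) (m : ℕ) (z : ℕ → ℂ) :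
    chiS q m 1 1 0 z =
      (-q) • chiS q m 1 0 1 z + (-q ^ 2) • (chiS q m 1 0 1 z).mapDomain (eL 0) := by
  classical
  ext s'
  have hq0 : q ≠ 0 := by
    rintro rfl
    norm_num at hq
  have hIs : ∀ s, s ∈ anns (2 * m + 2) → eL 0 s ∈ anns (2 * m + 2) := fun s hs =>
    mem_anns.2 ((mem_anns.1 hs).eL (by omega))
  by_cases hs' : s' ∈ anns (2 * m + 2)
  · set A := aeval (putX 1 1 0 z) (PsiS q (m + 1) s') with hA
    set B := aeval (putX 1 0 1 z) (PsiS q (m + 1) s') with hB
    set E := ∑ s ∈ anns (2 * m + 2),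
      if eL 0 s = s' then aeval (putX 1 0 1 z) (PsiS q (m + 1) s) else 0 with hE
    have hpoly : (Polynomial.C q * A) * Polynomial.X =
        (Polynomial.C (-q ^ 2) * B - E) * Polynomial.X := by
      apply Polynomial.funext
      intro t
      have h1 := DFunLike.congr_fun (exchangeS (m := m + 1) hq (i := 0) (by omega)
        (put2 1 (0 * t) (1 * t) z)) s'
      rw [Finsupp.add_apply, Finsupp.smul_apply, Finsupp.smul_apply, Finsupp.smul_apply,
        swapV_put2_one, smul_eq_mul, smul_eq_mul, smul_eq_mul, PsiSV, PsiSV,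
        show 2 * (m + 1) = 2 * m + 2 from rfl, sum_single_apply, sum_single_apply, if_pos hs',
        if_pos hs', mapDomain_sum_single_apply] at h1
      have e1 : put2 1 (0 * t) (1 * t) z 0 = 0 := by
        simp [put2]
      have e2 : put2 1 (0 * t) (1 * t) z (0 + 1) = t := by
        simp [put2]
      rw [e1, e2] at h1
      simp only [Polynomial.eval_mul, Polynomial.eval_sub, Polynomial.eval_C,
        Polynomial.eval_X]
      rw [hA, hB, hE, eval_aeval_putX, eval_aeval_putX, Polynomial.eval_finsetSum]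
      have e3 : ∀ s, Polynomial.eval t (if eL 0 s = s' then
          aeval (putX 1 0 1 z) (PsiS q (m + 1) s) else 0) = if eL 0 s = s' then
            eval (put2 1 (0 * t) (1 * t) z) (PsiS q (m + 1) s) else 0 := by
        intro s
        split_ifs
        · exact eval_aeval_putX _ _ _ _ _ _
        · exact Polynomial.eval_zero
      simp only [e3]
      linear_combination h1
    have h2 := congrArg (fun p : Polynomial ℂ => p.coeff (1 + 1)) hpoly
    simp only [Polynomial.coeff_mul_X, Polynomial.coeff_sub, Polynomial.coeff_C_mul] at h2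
    have hE1 : E.coeff 1 = ∑ s ∈ anns (2 * m + 2), if eL 0 s = s' then
        (aeval (putX 1 0 1 z) (PsiS q (m + 1) s)).coeff 1 else 0 := by
      rw [hE, Polynomial.finsetSum_coeff]
      refine Finset.sum_congr rfl fun s _ => ?_
      split_ifs
      · rfl
      · exact Polynomial.coeff_zero 1
    rw [Finsupp.add_apply, Finsupp.smul_apply, Finsupp.smul_apply, chiS, chiS, sum_single_apply,
      sum_single_apply, if_pos hs', if_pos hs', mapDomain_sum_single_apply, ← hE1, ← hA, ← hB,
      smul_eq_mul, smul_eq_mul]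
    apply mul_left_cancel₀ hq0
    rw [h2]
    linear_combination ((q - 1) * E.coeff 1) * hq
  · rw [Finsupp.add_apply, Finsupp.smul_apply, Finsupp.smul_apply, chiS, chiS, sum_single_apply,
      sum_single_apply, if_neg hs', if_neg hs', mapDomain_sum_single_apply]
    rw [Finset.sum_eq_zero]
    · simp
    · intro s hs
      rw [if_neg]
      rintro rfl
      exact hs' (hIs s hs)

theorem chiS_ins (hq : q ^ 2 + q + 1 = 0) (m : ℕ) (z : ℕ → ℂ) :
    chiS q m 1 (q ^ 2) 1 z =
      ((∏ k ∈ range (2 * m), z k ^ 2) / (9 * q) ^ m) • (PsiSV q m z).mapDomain (insL 0) := by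
  apply chi_of_forall
  intro v
  rw [one_mul, ← insV_zero]
  exact PsiSV_insV hq m (Nat.zero_le _) v z

theorem chiS_seam (hq : q ^ 2 + q + 1 = 0) (m : ℕ) (z : ℕ → ℂ) :
    chiS q m (2 * m + 1) 1 (q ^ 2) z =
      ((∏ k ∈ range (2 * m), z k ^ 2) / (9 * q) ^ m) •
        (PsiSV q m z).mapDomain (cupL (2 * m)) := by
  apply chi_of_forall
  intro v
  rw [one_mul]
  exact PsiSV_seam hq m v z

end Pool.Agent.Perc
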