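import Pool.Agent.Lib.MP_6bd702_perq.LowDefs

/-!
# Lowest coefficients of the reciprocal solution (task LowM)
-/

set_option autoImplicit false

namespace Pool.Agent.Perc

open Finset MvPolynomial

variable {q : ℂ} {m : ℕ}

namespace LowM

open Classical in
theorem sum_single_apply (T : Finset St) (c : St → ℂ) (s' : St) :
    (∑ s ∈ T, Finsupp.single s (c s)) s' = if s' ∈ T then c s' else 0 := by
  rw [Finsupp.finsetSum_apply]
  simp only [Finsupp.single_apply]
  rw [Finset.sum_ite_eq' T s' c]

open Classical in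
theorem mapDomain_sum_single_apply (T : Finset St) (c : St → ℂ) (φ : St → St) (s' : St) :
    ((∑ s ∈ T, Finsupp.single s (c s)).mapDomain φ) s' =
      ∑ s ∈ T, if φ s = s' then c s else 0 := by
  rw [Finsupp.mapDomain_finsetSum, Finsupp.finsetSum_apply]
  refine Finset.sum_congr rfl fun s _ => ?_
  rw [Finsupp.mapDomain_single, Finsupp.single_apply]

theorem eval_aeval (f : ℕ → Polynomial ℂ) (P : MvPolynomial ℕ ℂ) (t : ℂ) :
    (aeval f P).eval t = eval (fun k => (f k).eval t) P := by
  induction P using MvPolynomial.induction_on with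
  | C a => simp
  | add p r hp hr => simp [hp, hr]
  | mul_X p k hp => simp [hp]

theorem eval_putX (j : ℕ) (a b : ℂ) (z : ℕ → ℂ) (t : ℂ) :
    (fun k => (putX j a b z k).eval t) = put2 j (a * t) (b * t) z := by
  funext k
  simp only [putX, put2]
  split_ifs <;> simp

theorem eval_aeval_putX (j : ℕ) (a b : ℂ) (z : ℕ → ℂ) (P : MvPolynomial ℕ ℂ) (t : ℂ) :
    (aeval (putX j a b z) P).eval t = eval (put2 j (a * t) (b * t) z) P := by
  rw [eval_aeval, eval_putX]

theorem putX_coeff_zero (j : ℕ) (a b a' b' : ℂ) (z : ℕ → ℂ) (k : ℕ) :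
    (putX j a b z k).coeff 0 = (putX j a' b' z k).coeff 0 := by
  simp only [putX]
  split_ifs <;> simp

theorem putX_coeff_one (j : ℕ) (a b : ℂ) (z : ℕ → ℂ) (k : ℕ) :
    (putX j a b z k).coeff 1 =
      a * (putX j 1 0 z k).coeff 1 + b * (putX j 0 1 z k).coeff 1 := by
  simp only [putX]
  split_ifs <;> simp

theorem aeval_coeff_zero (j : ℕ) (a b a' b' : ℂ) (z : ℕ → ℂ) (P : MvPolynomial ℕ ℂ) :
    (aeval (putX j a b z) P).coeff 0 = (aeval (putX j a' b' z) P).coeff 0 := by
  induction P using MvPolynomial.induction_on with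
  | C c => simp
  | add p r hp hr => simp [hp, hr]
  | mul_X p k hp =>
    rw [map_mul, map_mul, aeval_X, aeval_X, Polynomial.mul_coeff_zero, Polynomial.mul_coeff_zero,
      hp, putX_coeff_zero j a b a' b' z k]

theorem aeval_coeff_one (j : ℕ) (a b : ℂ) (z : ℕ → ℂ) (P : MvPolynomial ℕ ℂ) :
    (aeval (putX j a b z) P).coeff 1 =
      a * (aeval (putX j 1 0 z) P).coeff 1 + b * (aeval (putX j 0 1 z) P).coeff 1 := by
  induction P using MvPolynomial.induction_on with
  | C c => simp
  | add p r hp hr =>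
    simp only [map_add, Polynomial.coeff_add, hp, hr]
    ring
  | mul_X p k hp =>
    simp only [map_mul, aeval_X, Polynomial.mul_coeff_one]
    rw [hp, putX_coeff_one j a b z k, aeval_coeff_zero j a b 1 0 z p,
      putX_coeff_zero j a b 1 0 z k, aeval_coeff_zero j 0 1 1 0 z p,
      putX_coeff_zero j 0 1 1 0 z k]
    ring

theorem put2_self {j : ℕ} (hj : 0 < j) (x y : ℂ) (z : ℕ → ℂ) : put2 j x y z j = y := by
  unfold put2
  rw [if_neg (by omega), if_neg (by omega), if_pos rfl]

theorem put2_succ {j : ℕ} (x y : ℂ) (z : ℕ → ℂ) : put2 j x y z (j + 1) = z (j - 1) := by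
  unfold put2
  rw [if_neg (by omega), if_neg (by omega), if_neg (by omega)]
  congr 1

theorem swapV_put2 {j : ℕ} (hj : 0 < j) (x y : ℂ) (z : ℕ → ℂ) :
    swapV j (put2 j x y z) = put2 (j + 1) x y z := by
  funext k
  rw [swapV, Equiv.swap_apply_def]
  simp only [put2]
  split_ifs <;> first | rfl | omega | contradiction | (congr 1; omega)

theorem swapV_put2_one (x y : ℂ) (z : ℕ → ℂ) :
    swapV 0 (put2 1 x y z) = put2 1 y x z := by
  funext k
  rw [swapV, Equiv.swap_apply_def]
  simp only [put2]
  split_ifs <;> first | rfl | omega | contradiction | (congr 1; omega)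

theorem insV_zero (x y : ℂ) (z : ℕ → ℂ) : insV 0 x y z = put2 1 x y z := by
  funext k
  simp only [insV, put2]
  split_ifs <;> first | rfl | omega | contradiction | (congr 1; omega)

open Classical in
/-- the linear coefficient of a solution of a recursion with an insertion -/
theorem chi_of_forall (q : ℂ) (m j : ℕ) (a b : ℂ) (z : ℕ → ℂ) (g : St →₀ ℂ)
    (h : ∀ v : ℂ, PsiMV q (m + 1) (put2 j (a * v) (b * v) z) =
      (v * (∏ k ∈ range (2 * m), (z k - q * v) ^ 2) / (9 * q) ^ m) • g) :
    chiM q m j a b z = ((∏ k ∈ range (2 * m), z k ^ 2) / (9 * q) ^ m) • g := by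
  ext s'
  have hpoly : (if s' ∈ anns (2 * m + 2) then aeval (putX j a b z) (PsiM q (m + 1) s') else 0) =
      Polynomial.C (g s' / (9 * q) ^ m) * (∏ k ∈ range (2 * m),
        (Polynomial.C (z k) - Polynomial.C q * Polynomial.X) ^ 2) * Polynomial.X := by
    apply Polynomial.funext
    intro v
    have h1 := DFunLike.congr_fun (h v) s'
    rw [PsiMV, show 2 * (m + 1) = 2 * m + 2 from rfl, sum_single_apply, Finsupp.smul_apply,
      smul_eq_mul] at h1
    rw [Polynomial.eval_mul, Polynomial.eval_mul, Polynomial.eval_C, Polynomial.eval_X,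
      Polynomial.eval_prod]
    simp only [Polynomial.eval_pow, Polynomial.eval_sub, Polynomial.eval_mul, Polynomial.eval_C,
      Polynomial.eval_X]
    rw [apply_ite (Polynomial.eval v), Polynomial.eval_zero, eval_aeval_putX, h1]
    ring
  have h2 := congrArg (fun p : Polynomial ℂ => p.coeff 1) hpoly
  simp only [Polynomial.coeff_mul_X, Polynomial.mul_coeff_zero, Polynomial.coeff_C_zero] at h2
  rw [chiM, sum_single_apply, Finsupp.smul_apply, smul_eq_mul]
  have h3 : (∏ k ∈ range (2 * m), (Polynomial.C (z k) - Polynomial.C q * Polynomial.X) ^ 2).coeff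
      0 = ∏ k ∈ range (2 * m), z k ^ 2 := by
    rw [Polynomial.coeff_zero_eq_eval_zero, Polynomial.eval_prod]
    simp
  rw [h3] at h2
  rw [apply_ite (fun p : Polynomial ℂ => p.coeff 1), Polynomial.coeff_zero] at h2
  rw [h2]
  ring

end LowM

open LowM

/-- The components vanish when two variables vanish. -/
theorem eval_PsiM_eq_zero (hq : q ^ 2 + q + 1 = 0) (m : ℕ) (s : St) {z : ℕ → ℂ} {i j : ℕ}
    (hij : i ≠ j) (hi : i < 2 * m) (hj : j < 2 * m) (hzi : z i = 0) (hzj : z j = 0) :
    eval z (PsiM q m s) = 0 := by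
  have hD := dw_PsiS hq m s
  unfold PsiM
  refine eval_recP_eq_zero (2 * m) hij hi hj (fun d hd => ?_) hzi hzj
  have h2 := hD.maj d hd {i, j} (by
    intro k hk
    rcases Finset.mem_insert.1 hk with rfl | hk
    · exact mem_range.2 hi
    · rw [Finset.mem_singleton.1 hk]
      exact mem_range.2 hj)
  rw [Finset.card_pair hij, Finset.sum_pair hij, Finset.sum_range_succ, Finset.sum_range_succ,
    Finset.sum_range_zero] at h2
  omega

open Classical in
theorem suppA_chiM (q : ℂ) (m j : ℕ) (a b : ℂ) (z : ℕ → ℂ) :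
    SuppA (2 * m + 2) (chiM q m j a b z) := by
  intro s hs
  rw [chiM, sum_single_apply] at hs
  by_contra hc
  exact hs (if_neg fun h => hc (mem_anns.1 h))

open Classical in
theorem chiM_linear (q : ℂ) (m j : ℕ) (a b : ℂ) (z : ℕ → ℂ) :
    chiM q m j a b z = a • chiM q m j 1 0 z + b • chiM q m j 0 1 z := by
  ext s
  simp only [chiM, Finsupp.add_apply, Finsupp.smul_apply, smul_eq_mul, sum_single_apply]
  split_ifs
  · exact aeval_coeff_one j a b z _
  · ring

theorem coeff_zero_putX_PsiM (hq : q ^ 2 + q + 1 = 0) (m : ℕ) (s : St) {j : ℕ} (hj : 0 < j)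
    (hjm : j < 2 * m + 2) (a b : ℂ) (z : ℕ → ℂ) :
    (aeval (putX j a b z) (PsiM q (m + 1) s)).coeff 0 = 0 := by
  rw [Polynomial.coeff_zero_eq_eval_zero, eval_aeval_putX]
  refine eval_PsiM_eq_zero hq (m + 1) s (i := 0) (j := j) (by omega) (by omega) (by omega) ?_ ?_
  · simp [put2]
  · rw [put2_self hj, mul_zero]

/-- Moving the place `j`. -/
theorem chiM_succ (hq : q ^ 2 + q + 1 = 0) (m : ℕ) {j : ℕ} (hj : 0 < j) (hjm : j < 2 * m + 1)
    (a b : ℂ) {z : ℕ → ℂ} (hz : ∀ k < 2 * m, z k ≠ 0) :
    chiM q m (j + 1) a b z =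
      (-q ^ 2) • chiM q m j a b z + (-q) • (chiM q m j a b z).mapDomain (eL j) := by
  classical
  ext s'
  have hq0 : q ≠ 0 := by
    rintro rfl
    norm_num at hq
  have hx : z (j - 1) ≠ 0 := hz _ (by omega)
  have hIs : ∀ s, s ∈ anns (2 * m + 2) → eL j s ∈ anns (2 * m + 2) := fun s hs =>
    mem_anns.2 ((mem_anns.1 hs).eL (by omega))
  by_cases hs' : s' ∈ anns (2 * m + 2)
  · set A := aeval (putX (j + 1) a b z) (PsiM q (m + 1) s') with hA
    set B := aeval (putX j a b z) (PsiM q (m + 1) s') with hB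
    set E := ∑ s ∈ anns (2 * m + 2),
      if eL j s = s' then aeval (putX j a b z) (PsiM q (m + 1) s) else 0 with hE
    have hpoly : (Polynomial.C (q * b) * Polynomial.X - Polynomial.C (q ^ 2 * z (j - 1))) * A =
        (Polynomial.C (q * z (j - 1)) - Polynomial.C (q ^ 2 * b) * Polynomial.X) * B -
          (Polynomial.C b * Polynomial.X - Polynomial.C (z (j - 1))) * E := by
      apply Polynomial.funext
      intro t
      have h1 := DFunLike.congr_fun (exchangeM (m := m + 1) hq (i := j) (by omega)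
        (put2 j (a * t) (b * t) z)) s'
      rw [Finsupp.sub_apply, Finsupp.smul_apply, Finsupp.smul_apply, Finsupp.smul_apply,
        swapV_put2 hj, smul_eq_mul, smul_eq_mul, smul_eq_mul, PsiMV, PsiMV,
        show 2 * (m + 1) = 2 * m + 2 from rfl, sum_single_apply, sum_single_apply, if_pos hs',
        if_pos hs', mapDomain_sum_single_apply] at h1
      rw [put2_self hj, put2_succ] at h1
      simp only [Polynomial.eval_mul, Polynomial.eval_add, Polynomial.eval_sub, Polynomial.eval_C,
        Polynomial.eval_X]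
      rw [hA, hB, hE, eval_aeval_putX, eval_aeval_putX, Polynomial.eval_finsetSum]
      have e3 : ∀ s, Polynomial.eval t (if eL j s = s' then
          aeval (putX j a b z) (PsiM q (m + 1) s) else 0) = if eL j s = s' then
            eval (put2 j (a * t) (b * t) z) (PsiM q (m + 1) s) else 0 := by
        intro s
        split_ifs
        · exact eval_aeval_putX _ _ _ _ _ _
        · exact Polynomial.eval_zero
      simp only [e3]
      linear_combination h1
    have hA0 : A.coeff 0 = 0 := coeff_zero_putX_PsiM hq m s' (by omega) (by omega) a b z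
    have hB0 : B.coeff 0 = 0 := coeff_zero_putX_PsiM hq m s' (by omega) (by omega) a b z
    have hE0 : E.coeff 0 = 0 := by
      rw [hE, Polynomial.finsetSum_coeff]
      refine Finset.sum_eq_zero fun s _ => ?_
      split_ifs
      · exact coeff_zero_putX_PsiM hq m s (by omega) (by omega) a b z
      · exact Polynomial.coeff_zero 0
    have h2 := congrArg (fun p : Polynomial ℂ => p.coeff 1) hpoly
    simp only [Polynomial.coeff_add, Polynomial.mul_coeff_one, hA0, hB0, hE0,
      Polynomial.coeff_sub, Polynomial.coeff_C_zero, Polynomial.mul_coeff_zero,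
      Polynomial.coeff_X_zero, mul_zero, zero_mul, add_zero, sub_zero, zero_sub] at h2
    have hE1 : E.coeff 1 = ∑ s ∈ anns (2 * m + 2), if eL j s = s' then
        (aeval (putX j a b z) (PsiM q (m + 1) s)).coeff 1 else 0 := by
      rw [hE, Polynomial.finsetSum_coeff]
      refine Finset.sum_congr rfl fun s _ => ?_
      split_ifs
      · rfl
      · exact Polynomial.coeff_zero 1
    rw [Finsupp.add_apply, Finsupp.smul_apply, Finsupp.smul_apply, chiM, chiM, sum_single_apply,
      sum_single_apply, if_pos hs', if_pos hs', mapDomain_sum_single_apply, ← hE1, ← hA, ← hB,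
      smul_eq_mul, smul_eq_mul]
    have h3 : -(q ^ 2 * z (j - 1)) ≠ 0 := neg_ne_zero.2 (mul_ne_zero (pow_ne_zero 2 hq0) hx)
    apply mul_left_cancel₀ h3
    linear_combination h2 - (z (j - 1) * (q - 1) * (q * B.coeff 1 + E.coeff 1)) * hq
  · rw [Finsupp.add_apply, Finsupp.smul_apply, Finsupp.smul_apply, chiM, chiM, sum_single_apply,
      sum_single_apply, if_neg hs', if_neg hs', mapDomain_sum_single_apply]
    rw [Finset.sum_eq_zero]
    · simp
    · intro s hs
      rw [if_neg]
      rintro rfl
      exact hs' (hIs s hs)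

/-- Exchange of the places `0` and `1`. -/
theorem chiM_one (hq : q ^ 2 + q + 1 = 0) (m : ℕ) (z : ℕ → ℂ) :
    chiM q m 1 1 0 z =
      (-q ^ 2) • chiM q m 1 0 1 z + (-q) • (chiM q m 1 0 1 z).mapDomain (eL 0) := by
  classical
  ext s'
  have hq0 : q ≠ 0 := by
    rintro rfl
    norm_num at hq
  have hIs : ∀ s, s ∈ anns (2 * m + 2) → eL 0 s ∈ anns (2 * m + 2) := fun s hs =>
    mem_anns.2 ((mem_anns.1 hs).eL (by omega))
  by_cases hs' : s' ∈ anns (2 * m + 2)
  · set A := aeval (putX 1 1 0 z) (PsiM q (m + 1) s') with hA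
    set B := aeval (putX 1 0 1 z) (PsiM q (m + 1) s') with hB
    set E := ∑ s ∈ anns (2 * m + 2),
      if eL 0 s = s' then aeval (putX 1 0 1 z) (PsiM q (m + 1) s) else 0 with hE
    have hpoly : (Polynomial.C (-q ^ 2) * A) * Polynomial.X =
        (Polynomial.C q * B + E) * Polynomial.X := by
      apply Polynomial.funext
      intro t
      have h1 := DFunLike.congr_fun (exchangeM (m := m + 1) hq (i := 0) (by omega)
        (put2 1 (0 * t) (1 * t) z)) s'
      rw [Finsupp.sub_apply, Finsupp.smul_apply, Finsupp.smul_apply, Finsupp.smul_apply,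
        swapV_put2_one, smul_eq_mul, smul_eq_mul, smul_eq_mul, PsiMV, PsiMV,
        show 2 * (m + 1) = 2 * m + 2 from rfl, sum_single_apply, sum_single_apply, if_pos hs',
        if_pos hs', mapDomain_sum_single_apply] at h1
      have e1 : put2 1 (0 * t) (1 * t) z 0 = 0 := by
        simp [put2]
      have e2 : put2 1 (0 * t) (1 * t) z (0 + 1) = t := by
        simp [put2]
      rw [e1, e2] at h1
      simp only [Polynomial.eval_mul, Polynomial.eval_add, Polynomial.eval_C,
        Polynomial.eval_X]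
      rw [hA, hB, hE, eval_aeval_putX, eval_aeval_putX, Polynomial.eval_finsetSum]
      have e3 : ∀ s, Polynomial.eval t (if eL 0 s = s' then
          aeval (putX 1 0 1 z) (PsiM q (m + 1) s) else 0) = if eL 0 s = s' then
            eval (put2 1 (0 * t) (1 * t) z) (PsiM q (m + 1) s) else 0 := by
        intro s
        split_ifs
        · exact eval_aeval_putX _ _ _ _ _ _
        · exact Polynomial.eval_zero
      simp only [e3]
      linear_combination h1
    have h2 := congrArg (fun p : Polynomial ℂ => p.coeff (1 + 1)) hpoly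
    simp only [Polynomial.coeff_mul_X, Polynomial.coeff_add, Polynomial.coeff_C_mul] at h2
    have hE1 : E.coeff 1 = ∑ s ∈ anns (2 * m + 2), if eL 0 s = s' then
        (aeval (putX 1 0 1 z) (PsiM q (m + 1) s)).coeff 1 else 0 := by
      rw [hE, Polynomial.finsetSum_coeff]
      refine Finset.sum_congr rfl fun s _ => ?_
      split_ifs
      · rfl
      · exact Polynomial.coeff_zero 1
    rw [Finsupp.add_apply, Finsupp.smul_apply, Finsupp.smul_apply, chiM, chiM, sum_single_apply,
      sum_single_apply, if_pos hs', if_pos hs', mapDomain_sum_single_apply, ← hE1, ← hA, ← hB,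
      smul_eq_mul, smul_eq_mul]
    have h3 : -q ^ 2 ≠ 0 := neg_ne_zero.2 (pow_ne_zero 2 hq0)
    apply mul_left_cancel₀ h3
    linear_combination h2 - ((q - 1) * (q * B.coeff 1 + E.coeff 1)) * hq
  · rw [Finsupp.add_apply, Finsupp.smul_apply, Finsupp.smul_apply, chiM, chiM, sum_single_apply,
      sum_single_apply, if_neg hs', if_neg hs', mapDomain_sum_single_apply]
    rw [Finset.sum_eq_zero]
    · simp
    · intro s hs
      rw [if_neg]
      rintro rfl
      exact hs' (hIs s hs)

theorem chiM_ins (hq : q ^ 2 + q + 1 = 0) (m : ℕ) (z : ℕ → ℂ) :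
    chiM q m 1 1 (q ^ 2) z =
      ((∏ k ∈ range (2 * m), z k ^ 2) / (9 * q) ^ m) • (PsiMV q m z).mapDomain (insL 0) := by
  apply chi_of_forall
  intro v
  rw [one_mul, ← insV_zero]
  exact PsiMV_insV hq m (Nat.zero_le _) v z

theorem chiM_seam (hq : q ^ 2 + q + 1 = 0) (m : ℕ) (z : ℕ → ℂ) :
    chiM q m (2 * m + 1) (q ^ 2) 1 z =
      ((∏ k ∈ range (2 * m), z k ^ 2) / (9 * q) ^ m) •
        (PsiMV q m z).mapDomain (cupL (2 * m)) := by
  apply chi_of_forall
  intro v
  rw [one_mul]
  exact PsiMV_seam hq m v z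

end Pool.Agent.Perc
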