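import Pool.Agent.Lib.MP_6bd702_perq.LowA
import Pool.Agent.Lib.MP_6bd702_perq.LowM
import Pool.Agent.Lib.MP_6bd702_perq.SHatA

/-!
# The lowest coefficient of the pairing (task LowB)
-/

set_option autoImplicit false

namespace Pool.Agent.Perc

open Finset MvPolynomial

variable {q : ℂ} {m : ℕ}

namespace LowB

/-- The pairing of the linear coefficients does not depend on the place. -/
theorem BV_indep (hq : q ^ 2 + q + 1 = 0) (m : ℕ) {z : ℕ → ℂ} (hz : ∀ k < 2 * m, z k ≠ 0)
    (a' b' a b : ℂ) (j : ℕ) (hj : j < 2 * m + 1) :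
    BV (2 * m + 2) (chiM q m (j + 1) a' b' z) (chiS q m (j + 1) a b z) =
      BV (2 * m + 2) (chiM q m 1 a' b' z) (chiS q m 1 a b z) := by
  induction j with
  | zero => rfl
  | succ j ih =>
    rw [chiM_succ hq m (j := j + 1) (by omega) (by omega) a' b' hz,
      chiS_succ hq m (j := j + 1) (by omega) (by omega) a b hz,
      BV_adj hq (suppA_chiM q m _ _ _ z) (suppA_chiS q m _ _ _ z) (by omega), ih (by omega)]

theorem BV_bilin (f f' g g' : St →₀ ℂ) (N : ℕ) (a' b' a b : ℂ) :
    BV N (a' • f' + b' • f) (a • g' + b • g) =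
      a' * a * BV N f' g' + a' * b * BV N f' g + b' * a * BV N f g' + b' * b * BV N f g := by
  rw [BV_add_left, BV_add_right, BV_add_right, BV_smul_left, BV_smul_left, BV_smul_left,
    BV_smul_left, BV_smul_right, BV_smul_right, BV_smul_right, BV_smul_right]
  ring

end LowB

open LowB

/-- The pairing of the lowest coefficients. -/
theorem BV_chi (hq : q ^ 2 + q + 1 = 0) (m : ℕ) {z : ℕ → ℂ} (hz : ∀ k < 2 * m, z k ≠ 0) :
    3 * q ^ 2 * BV (2 * m + 2) (chiM q m 1 0 1 z) (chiS q m 1 0 1 z) =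
      (∏ k ∈ range (2 * m), z k ^ 4) / (9 * q) ^ (2 * m) *
        BV (2 * m) (PsiMV q m z) (PsiSV q m z) := by
  set N := 2 * m + 2 with hN
  set f := chiM q m 1 0 1 z with hf
  set g := chiS q m 1 0 1 z with hg
  set α := BV N f g with hα
  set E := BV N f (g.mapDomain (eL 0)) with hE
  set K : ℂ := (∏ k ∈ range (2 * m), z k ^ 2) / (9 * q) ^ m with hK
  set T : ℂ := K * (K * BV (2 * m) (PsiMV q m z) (PsiSV q m z)) with hT
  have hsf : SuppA N f := suppA_chiM q m _ _ _ z
  have hsg : SuppA N g := suppA_chiS q m _ _ _ z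
  have hE' : BV N (f.mapDomain (eL 0)) g = E := BV_eL hsf hsg (by omega)
  -- the four pairings
  have e1 : BV N (chiM q m 1 1 0 z) (chiS q m 1 1 0 z) = α := by
    rw [chiM_one hq m z, chiS_one hq m z, BV_adj hq hsf hsg (by omega)]
  have e2 : BV N (chiM q m 1 1 0 z) g = -q ^ 2 * α - q * E := by
    rw [chiM_one hq m z, BV_add_left, BV_smul_left, BV_smul_left, hE']
    ring
  have e3 : BV N f (chiS q m 1 1 0 z) = -q * α - q ^ 2 * E := by
    rw [chiS_one hq m z, BV_add_right, BV_smul_right, BV_smul_right]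
    ring
  -- insertion
  have e4 : BV N (chiM q m 1 1 (q ^ 2) z) (chiS q m 1 (q ^ 2) 1 z) = T := by
    rw [chiM_ins hq m z, chiS_ins hq m z, BV_smul_left, BV_smul_right,
      BV_insL_insL (suppA_PsiMV q m z) (suppA_PsiSV q m z) (by omega)]
  -- seam
  have e5 : BV N (chiM q m 1 (q ^ 2) 1 z) (chiS q m 1 1 (q ^ 2) z) = -T := by
    rw [← BV_indep hq m hz _ _ _ _ (2 * m) (by omega), chiM_seam hq m z, chiS_seam hq m z,
      BV_smul_left, BV_smul_right, BV_cupL_cupL (suppA_PsiMV q m z) (suppA_PsiSV q m z), hT]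
    ring
  rw [chiM_linear, chiS_linear, ← hf, ← hg, BV_bilin, e1, e2, e3, ← hα] at e4
  rw [chiM_linear, chiS_linear, ← hf, ← hg, BV_bilin, e1, e2, e3, ← hα] at e5
  have hTE : T = q ^ 2 * E := by
    linear_combination -e4 + (-q ^ 2 * (q - 1) * α - (1 + (q - 1) * (1 + q ^ 3)) * E) * hq
  have hfin : 3 * q ^ 2 * α = T := by
    linear_combination e5 - 2 * hTE +
      ((1 + (q - 1) * (q ^ 3 + 1)) * α + q ^ 2 * (q - 1) * E) * hq
  rw [hfin, hT, hK, ← mul_assoc, div_mul_div_comm, ← Finset.prod_mul_distrib, ← pow_add,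
    ← two_mul]
  congr 2
  refine Finset.prod_congr rfl fun k _ => ?_
  ring

/-- The lowest coefficient of the pairing. -/
theorem coeff_SH (hq : q ^ 2 + q + 1 = 0) (m : ℕ) {z : ℕ → ℂ} (hz : ∀ k < 2 * m, z k ≠ 0) :
    (aeval (putX 1 0 1 z) (SH q (m + 1))).coeff 0 = 0 ∧
    (aeval (putX 1 0 1 z) (SH q (m + 1))).coeff 1 = 0 ∧
    (aeval (putX 1 0 1 z) (SH q (m + 1))).coeff 2 =
      (∏ k ∈ range (2 * m), z k ^ 4) / (3 * q ^ 2 * (9 * q) ^ (2 * m)) * eval z (SH q m) := by
  have hq0 : q ≠ 0 := by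
    rintro rfl
    norm_num at hq
  have hexp : aeval (putX 1 0 1 z) (SH q (m + 1)) = ∑ s' ∈ anns (2 * m + 2), ∑ s ∈ anns (2 * m + 2),
      Polynomial.C (BS (2 * m + 2) s' s) * (aeval (putX 1 0 1 z) (PsiM q (m + 1) s') *
        aeval (putX 1 0 1 z) (PsiS q (m + 1) s)) := by
    rw [SH, map_sum]
    refine Finset.sum_congr rfl fun s' _ => ?_
    rw [map_sum]
    refine Finset.sum_congr rfl fun s _ => ?_
    rw [map_mul, map_mul, aeval_C]
    rfl
  have hM := fun s' => coeff_zero_putX_PsiM hq m s' (j := 1) (by omega) (by omega) 0 1 z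
  have hS := fun s => coeff_zero_putX_PsiS hq m s (j := 1) (by omega) (by omega) 0 1 z
  have hcoef : ∀ s' s : St, (Polynomial.C (BS (2 * m + 2) s' s) *
      (aeval (putX 1 0 1 z) (PsiM q (m + 1) s') * aeval (putX 1 0 1 z) (PsiS q (m + 1) s))).coeff 2 =
      (aeval (putX 1 0 1 z) (PsiM q (m + 1) s')).coeff 1 *
        (aeval (putX 1 0 1 z) (PsiS q (m + 1) s)).coeff 1 * BS (2 * m + 2) s' s := by
    intro s' s
    rw [Polynomial.coeff_C_mul, Polynomial.coeff_mul, Finset.Nat.sum_antidiagonal_eq_sum_range_succ_mk,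
      Finset.sum_range_succ, Finset.sum_range_succ, Finset.sum_range_one]
    simp only [hM, hS, zero_mul, Nat.sub_self, mul_zero, zero_add, add_zero]
    rw [show 2 - 1 = 1 from rfl]
    ring
  refine ⟨?_, ?_, ?_⟩
  · rw [hexp, Polynomial.finsetSum_coeff]
    refine Finset.sum_eq_zero fun s' _ => ?_
    rw [Polynomial.finsetSum_coeff]
    refine Finset.sum_eq_zero fun s _ => ?_
    rw [Polynomial.coeff_C_mul, Polynomial.mul_coeff_zero, hM, zero_mul, mul_zero]
  · rw [hexp, Polynomial.finsetSum_coeff]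
    refine Finset.sum_eq_zero fun s' _ => ?_
    rw [Polynomial.finsetSum_coeff]
    refine Finset.sum_eq_zero fun s _ => ?_
    rw [Polynomial.coeff_C_mul, Polynomial.coeff_mul,
      Finset.Nat.sum_antidiagonal_eq_sum_range_succ_mk, Finset.sum_range_succ, Finset.sum_range_one]
    simp only [hM, hS, zero_mul, Nat.sub_self, mul_zero, zero_add]
  · have h1 : (aeval (putX 1 0 1 z) (SH q (m + 1))).coeff 2 =
        BV (2 * m + 2) (chiM q m 1 0 1 z) (chiS q m 1 0 1 z) := by
      rw [hexp, Polynomial.finsetSum_coeff, BV]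
      refine Finset.sum_congr rfl fun s' hs' => ?_
      rw [Polynomial.finsetSum_coeff]
      refine Finset.sum_congr rfl fun s hs => ?_
      rw [hcoef]
      have h2 : chiM q m 1 0 1 z s' = (aeval (putX 1 0 1 z) (PsiM q (m + 1) s')).coeff 1 := by
        classical
        rw [chiM, Finsupp.finsetSum_apply, Finset.sum_eq_single s']
        · rw [Finsupp.single_eq_same]
        · intro b _ hb
          rw [Finsupp.single_eq_of_ne (Ne.symm hb)]
        · intro h
          exact absurd hs' h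
      have h3 : chiS q m 1 0 1 z s = (aeval (putX 1 0 1 z) (PsiS q (m + 1) s)).coeff 1 := by
        classical
        rw [chiS, Finsupp.finsetSum_apply, Finset.sum_eq_single s]
        · rw [Finsupp.single_eq_same]
        · intro b _ hb
          rw [Finsupp.single_eq_of_ne (Ne.symm hb)]
        · intro h
          exact absurd hs h
      rw [h2, h3]
    have h4 := BV_chi hq m hz
    rw [h1, eval_SH]
    have h5 : (3 * q ^ 2 : ℂ) ≠ 0 := mul_ne_zero (by norm_num) (pow_ne_zero _ hq0)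
    apply mul_left_cancel₀ h5
    rw [h4]
    have h6 : (9 * q) ^ (2 * m) ≠ 0 := pow_ne_zero _ (mul_ne_zero (by norm_num) hq0)
    field_simp

end Pool.Agent.Perc
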