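import Pool.Agent.Lib.MP_6bd702_perq.PsiMA

/-!
# Lowest coefficients: definitions
-/

set_option autoImplicit false

namespace Pool.Agent.Perc

open Finset MvPolynomial

/-- The substitution of `a X` at the place `0` and `b X` at the place `j`. -/
noncomputable def putX (j : ℕ) (a b : ℂ) (z : ℕ → ℂ) : ℕ → Polynomial ℂ := fun k =>
  if k = 0 then Polynomial.C a * Polynomial.X else if k < j then Polynomial.C (z (k - 1))
    else if k = j then Polynomial.C b * Polynomial.X else Polynomial.C (z (k - 2))

/-- The linear coefficient of the solution in the direction `(a, b)`. -/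
noncomputable def chiS (q : ℂ) (m j : ℕ) (a b : ℂ) (z : ℕ → ℂ) : St →₀ ℂ :=
  ∑ s ∈ anns (2 * m + 2), Finsupp.single s ((aeval (putX j a b z) (PsiS q (m + 1) s)).coeff 1)

/-- The linear coefficient of the reciprocal solution in the direction `(a, b)`. -/
noncomputable def chiM (q : ℂ) (m j : ℕ) (a b : ℂ) (z : ℕ → ℂ) : St →₀ ℂ :=
  ∑ s ∈ anns (2 * m + 2), Finsupp.single s ((aeval (putX j a b z) (PsiM q (m + 1) s)).coeff 1)

end Pool.Agent.Perc
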