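import Pool.Agent.Lib.MP_6bd702_perq.PairB

/-!
# The pairing of states: generators, seam, rotation (task PairC)
-/

set_option autoImplicit false

namespace Pool.Agent.Perc

open Finset

variable {N : ℕ} {s s' : St}

namespace PairC

variable {t t' : St}

theorem loopR_map (h' : IsAnn N s') (h : IsAnn N s) (f : ℕ → ℕ)
    (h1 : ∀ x < N, t'.1 (f x) = f (s'.1 x)) (h2 : ∀ x < N, t.1 (f x) = f (s.1 x))
    {x y : ℕ} (hx : x < N) (hxy : LoopR s' s x y) : LoopR t' t (f x) (f y) := by
  unfold LoopR at hxy ⊢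
  induction hxy with
  | refl => exact Relation.ReflTransGen.refl
  | @tail b c hab hbc ih =>
    have hb : b < N := loopR_lt h' h hx hab
    refine Relation.ReflTransGen.tail ih ?_
    rcases hbc with hbc | hbc
    · left
      rw [hbc, h1 _ hb]
    · right
      rw [hbc, h2 _ hb]

theorem loopR_map_conv (h' : IsAnn N s') (h : IsAnn N s) (f : ℕ → ℕ)
    (h1 : ∀ x < N, t'.1 (f x) = f (s'.1 x)) (h2 : ∀ x < N, t.1 (f x) = f (s.1 x))
    {x z : ℕ} (hx : x < N) (hxz : LoopR t' t (f x) z) : ∃ y < N, z = f y ∧ LoopR s' s x y := by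
  unfold LoopR at hxz
  induction hxz with
  | refl => exact ⟨x, hx, rfl, Relation.ReflTransGen.refl⟩
  | @tail b c hab hbc ih =>
    obtain ⟨y, hy, rfl, hxy⟩ := ih
    rcases hbc with hbc | hbc
    · exact ⟨s'.1 y, h'.nc.lt y hy, by rw [hbc, h1 _ hy],
        Relation.ReflTransGen.tail hxy (Or.inl rfl)⟩
    · exact ⟨s.1 y, h.nc.lt y hy, by rw [hbc, h2 _ hy],
        Relation.ReflTransGen.tail hxy (Or.inr rfl)⟩

theorem loopR_map_iff (h' : IsAnn N s') (h : IsAnn N s) (f : ℕ → ℕ)
    (hf : ∀ x < N, ∀ y < N, f x = f y → x = y)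
    (h1 : ∀ x < N, t'.1 (f x) = f (s'.1 x)) (h2 : ∀ x < N, t.1 (f x) = f (s.1 x))
    {x y : ℕ} (hx : x < N) (hy : y < N) : LoopR t' t (f x) (f y) ↔ LoopR s' s x y := by
  constructor
  · intro hxy
    obtain ⟨z, hz, hfz, hxz⟩ := loopR_map_conv h' h f h1 h2 hx hxy
    rw [hf y hy z hz hfz]
    exact hxz
  · exact loopR_map h' h f h1 h2 hx

/-! ### The seam -/

theorem cupO_succ (p : ℕ → ℕ) {x : ℕ} (hx : x < N) : cupO N p (x + 1) = p x + 1 := by
  unfold cupO
  rw [if_neg (by omega), if_neg (by omega), if_pos (by omega)]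
  rfl

theorem cupL_snd_succ (s : St) {x : ℕ} (hx : x < N) : (cupL N s).2 (x + 1) = s.2 x := by
  change (if x + 1 = 0 ∨ x + 1 = N + 1 then true
    else if x + 1 < N + 1 then s.2 (x + 1 - 1) else false) = _
  rw [if_neg (by omega), if_pos (by omega)]
  rfl

theorem cup_class (s' s : St) {x : ℕ} (hx : LoopR (cupL N s') (cupL N s) 0 x) :
    x = 0 ∨ x = N + 1 := by
  unfold LoopR at hx
  induction hx with
  | refl => exact Or.inl rfl
  | @tail b c hab hbc ih =>
    have key : ∀ p : ℕ → ℕ, cupO N p b = 0 ∨ cupO N p b = N + 1 := by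
      intro p
      unfold cupO
      rcases ih with rfl | rfl
      · exact Or.inr (if_pos rfl)
      · left
        rw [if_neg (by omega), if_pos rfl]
    rcases hbc with hbc | hbc
    · rw [hbc]
      exact key s'.1
    · rw [hbc]
      exact key s.1

theorem loopN_cup (h' : IsAnn N s') (h : IsAnn N s) :
    loopN (N + 2) (cupL N s') (cupL N s) = loopN N s' s + 1 := by
  classical
  have hN : N % 2 = 0 := h.nc.even
  have heq := loopR_equivalence h'.cupL h.cupL
  rw [loopN_odd h' h]
  unfold loopN
  have hset : ((range (N + 2) ×ˢ range (N + 2)).filter fun t => t.1 % 2 = 0 ∧ t.2 % 2 = 0 ∧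
      (cupL N s').2 t.1 = true ∧ (cupL N s).2 t.2 = true ∧
      LoopR (cupL N s') (cupL N s) t.1 t.2) =
      insert (0, 0) (((range N ×ˢ range N).filter fun t => t.1 % 2 = 1 ∧ t.2 % 2 = 1 ∧
        s'.2 t.1 = true ∧ s.2 t.2 = true ∧ LoopR s' s t.1 t.2).image
        fun t => (t.1 + 1, t.2 + 1)) := by
    ext ⟨x, y⟩
    simp only [mem_filter, mem_product, mem_range, mem_insert, mem_image, Prod.mk.injEq,
      Prod.exists]
    constructor
    · rintro ⟨⟨hx, hy⟩, hx2, hy2, hlx, hly, hxy⟩
      rcases Nat.eq_zero_or_pos x with rfl | hx0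
      · left
        refine ⟨rfl, ?_⟩
        rcases cup_class s' s hxy with h1 | h1
        · exact h1
        · omega
      · rcases Nat.eq_zero_or_pos y with rfl | hy0
        · exfalso
          rcases cup_class s' s (heq.symm hxy) with h1 | h1 <;> omega
        · right
          refine ⟨x - 1, y - 1, ⟨⟨by omega, by omega⟩, by omega, by omega, ?_, ?_, ?_⟩,
            by omega, by omega⟩
          · rw [← cupL_snd_succ (N := N) s' (by omega : x - 1 < N),
              show x - 1 + 1 = x by omega]
            exact hlx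
          · rw [← cupL_snd_succ (N := N) s (by omega : y - 1 < N),
              show y - 1 + 1 = y by omega]
            exact hly
          · rw [← loopR_map_iff (t' := cupL N s') (t := cupL N s) h' h (fun x => x + 1)
              (fun x _ y _ e => by simpa using e) (fun x hx => cupO_succ s'.1 hx)
              (fun x hx => cupO_succ s.1 hx) (by omega : x - 1 < N) (by omega : y - 1 < N)]
            rw [show x - 1 + 1 = x by omega, show y - 1 + 1 = y by omega]
            exact hxy
    · rintro (⟨rfl, rfl⟩ | ⟨a, b, ⟨⟨ha, hb⟩, ha2, hb2, hla, hlb, hab⟩, rfl, rfl⟩)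
      · exact ⟨⟨by omega, by omega⟩, rfl, rfl, rfl, rfl, heq.refl 0⟩
      · refine ⟨⟨by omega, by omega⟩, by omega, by omega, ?_, ?_, ?_⟩
        · rw [cupL_snd_succ s' ha]
          exact hla
        · rw [cupL_snd_succ s hb]
          exact hlb
        · exact (loopR_map_iff (t' := cupL N s') (t := cupL N s) h' h (fun x => x + 1)
              (fun x _ y _ e => by simpa using e) (fun x hx => cupO_succ s'.1 hx)
              (fun x hx => cupO_succ s.1 hx) ha hb).2 hab
  rw [hset, card_insert_of_notMem, card_image_of_injective]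
  · rintro ⟨a, b⟩ ⟨c, d⟩ e
    simp only [Prod.mk.injEq] at e
    exact Prod.ext (by simpa using e.1) (by simpa using e.2)
  · simp

/-! ### Rotation -/

/-- The new position of the old site. -/
def rs (N x : ℕ) : ℕ := if x = 0 then N - 1 else x - 1

/-- The old position of the new site. -/
def rn (N x : ℕ) : ℕ := if x + 1 = N then 0 else x + 1

theorem rotP_rs (hN : 0 < N) (p : ℕ → ℕ) {x : ℕ} (hx : x < N) :
    rotP N p (rs N x) = rs N (p x) := by
  have h1 : rs N x < N := by
    unfold rs
    split_ifs <;> omega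
  have h2 : (if rs N x + 1 = N then 0 else rs N x + 1) = x := by
    unfold rs
    split_ifs <;> omega
  change (if rs N x < N then
    (if p (if rs N x + 1 = N then 0 else rs N x + 1) = 0 then N - 1
      else p (if rs N x + 1 = N then 0 else rs N x + 1) - 1) else rs N x) = rs N (p x)
  rw [if_pos h1, h2]
  rfl

theorem rs_inj (x : ℕ) (hx : x < N) (y : ℕ) (hy : y < N) (e : rs N x = rs N y) : x = y := by
  unfold rs at e
  split_ifs at e <;> omega

theorem rotL_snd_rs (h : IsAnn N s) (hN : 0 < N) {x : ℕ} (hx : x < N) :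
    (rotL N s).2 (rs N x) = xor (s.2 x) (decide (x = 0 ∨ s.1 x = 0)) := by
  have hev := h.nc.even
  change (if rs N x < N then
    (if rs N x + 1 = N ∨ s.1 (rs N x + 1) = 0 then
      !s.2 (if rs N x + 1 = N then 0 else rs N x + 1) else s.2 (rs N x + 1))
    else false) = _
  rcases Nat.eq_zero_or_pos x with rfl | hx0
  · have : rs N 0 + 1 = N := by
      unfold rs
      rw [if_pos rfl]
      omega
    rw [if_pos (by omega), if_pos (Or.inl this), if_pos this]
    simp
  · have h1 : rs N x + 1 = x := by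
      unfold rs
      rw [if_neg (by omega)]
      omega
    rw [if_pos (by omega), h1]
    have h2 : ¬ x = N := by omega
    have h3 : ¬ x = 0 := by omega
    rw [if_neg h2]
    by_cases h4 : s.1 x = 0
    · rw [if_pos (Or.inr h4)]
      simp [h4]
    · rw [if_neg (by tauto)]
      simp [h3, h4]

theorem loopR_rot (hN : 0 < N) (h' : IsAnn N s') (h : IsAnn N s) {x y : ℕ} (hx : x < N)
    (hy : y < N) : LoopR (rotL N s') (rotL N s) (rs N x) (rs N y) ↔ LoopR s' s x y :=
  loopR_map_iff h' h (rs N) rs_inj (fun _ hx => rotP_rs hN s'.1 hx)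
    (fun _ hx => rotP_rs hN s.1 hx) hx hy

open Classical in
/-- The pairs of the rotated states. -/
theorem loopN_rot (hN : 0 < N) (h' : IsAnn N s') (h : IsAnn N s) :
    loopN N (rotL N s') (rotL N s) = ((range N ×ˢ range N).filter fun t =>
      t.1 % 2 = 1 ∧ t.2 % 2 = 1 ∧ xor (s'.2 t.1) (decide (s'.1 t.1 = 0)) = true ∧
        xor (s.2 t.2) (decide (s.1 t.2 = 0)) = true ∧ LoopR s' s t.1 t.2).card := by
  have hev : N % 2 = 0 := h.nc.even
  unfold loopN
  symm
  refine card_bij (fun t _ => (rs N t.1, rs N t.2)) ?_ ?_ ?_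
  · rintro ⟨x, y⟩ ht
    simp only [mem_filter, mem_product, mem_range] at ht ⊢
    obtain ⟨⟨hx, hy⟩, hx2, hy2, hlx, hly, hxy⟩ := ht
    have hx0 : ¬ x = 0 := by
      rintro rfl
      omega
    have hy0 : ¬ y = 0 := by
      rintro rfl
      omega
    have e1 : rs N x = x - 1 := if_neg hx0
    have e2 : rs N y = y - 1 := if_neg hy0
    refine ⟨⟨by omega, by omega⟩, by omega, by omega, ?_, ?_, (loopR_rot hN h' h hx hy).2 hxy⟩
    · rw [rotL_snd_rs h' hN hx]
      simpa [hx0] using hlx
    · rw [rotL_snd_rs h hN hy]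
      simpa [hy0] using hly
  · rintro ⟨x, y⟩ ht ⟨x', y'⟩ ht' e
    simp only [mem_filter, mem_product, mem_range] at ht ht'
    simp only [Prod.mk.injEq] at e
    exact Prod.ext (rs_inj x ht.1.1 x' ht'.1.1 e.1) (rs_inj y ht.1.2 y' ht'.1.2 e.2)
  · rintro ⟨x, y⟩ ht
    simp only [mem_filter, mem_product, mem_range] at ht
    obtain ⟨⟨hx, hy⟩, hx2, hy2, hlx, hly, hxy⟩ := ht
    have e1 : rs N (x + 1) = x := by
      unfold rs
      rw [if_neg (by omega)]
      omega
    have e2 : rs N (y + 1) = y := by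
      unfold rs
      rw [if_neg (by omega)]
      omega
    refine ⟨(x + 1, y + 1), ?_, ?_⟩
    · simp only [mem_filter, mem_product, mem_range]
      refine ⟨⟨by omega, by omega⟩, by omega, by omega, ?_, ?_, ?_⟩
      · have := rotL_snd_rs h' hN (x := x + 1) (by omega)
        rw [e1, hlx] at this
        simpa using this.symm
      · have := rotL_snd_rs h hN (x := y + 1) (by omega)
        rw [e2, hly] at this
        simpa using this.symm
      · rw [← loopR_rot hN h' h (by omega) (by omega), e1, e2]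
        exact hxy
    · simp only [e1, e2]

/-- The parity of the number of pairs of the rotated states. -/
theorem loopN_rot_mod (hN : 0 < N) (h' : IsAnn N s') (h : IsAnn N s) :
    (loopN N (rotL N s') (rotL N s) : ZMod 2) =
      ((loopN N s' s + (loopA N s' s 0 + loopB N s' s 0 + 1) : ℕ) : ZMod 2) := by
  classical
  have heq := loopR_equivalence h' h
  have hx1 : s'.1 0 < N := h'.nc.lt 0 hN
  have hy1 : s.1 0 < N := h.nc.lt 0 hN
  have hx1p := h'.nc.parity hN
  have hy1p := h.nc.parity hN
  have hx1r : LoopR s' s 0 (s'.1 0) := Relation.ReflTransGen.single (Or.inl rfl)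
  have hy1r : LoopR s' s 0 (s.1 0) := Relation.ReflTransGen.single (Or.inr rfl)
  have hiff' : ∀ x, s'.1 x = 0 ↔ x = s'.1 0 := fun x =>
    ⟨fun e => by rw [← e, h'.nc.inv], fun e => by rw [e, h'.nc.inv]⟩
  have hiff : ∀ x, s.1 x = 0 ↔ x = s.1 0 := fun x =>
    ⟨fun e => by rw [← e, h.nc.inv], fun e => by rw [e, h.nc.inv]⟩
  rw [loopN_rot hN h' h, loopN_odd h' h, loopA_odd h' h, loopB_odd h' h]
  have hA : (((range N).filter fun x => x % 2 = 1 ∧ s'.2 x = true ∧ LoopR s' s 0 x).card : ZMod 2)
      = ∑ t ∈ range N ×ˢ range N, if (t.1 % 2 = 1 ∧ s'.2 t.1 = true ∧ LoopR s' s 0 t.1) ∧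
        t.2 = s.1 0 then (1 : ZMod 2) else 0 := by
    rw [sum_product, card_filter]
    push_cast
    refine sum_congr rfl fun x _ => ?_
    by_cases hc : x % 2 = 1 ∧ s'.2 x = true ∧ LoopR s' s 0 x
    · rw [if_pos hc]
      rw [sum_eq_single (s.1 0)]
      · rw [if_pos ⟨hc, rfl⟩]
      · intro b _ hb
        exact if_neg fun hh => hb hh.2
      · intro hh
        exact absurd (mem_range.2 hy1) hh
    · rw [if_neg hc]
      symm
      exact sum_eq_zero fun b _ => if_neg fun hh => hc hh.1
  have hB : (((range N).filter fun x => x % 2 = 1 ∧ s.2 x = true ∧ LoopR s' s 0 x).card : ZMod 2)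
      = ∑ t ∈ range N ×ˢ range N, if (t.2 % 2 = 1 ∧ s.2 t.2 = true ∧ LoopR s' s 0 t.2) ∧
        t.1 = s'.1 0 then (1 : ZMod 2) else 0 := by
    rw [sum_product_right, card_filter]
    push_cast
    refine sum_congr rfl fun x _ => ?_
    by_cases hc : x % 2 = 1 ∧ s.2 x = true ∧ LoopR s' s 0 x
    · rw [if_pos hc]
      rw [sum_eq_single (s'.1 0)]
      · rw [if_pos ⟨hc, rfl⟩]
      · intro b _ hb
        exact if_neg fun hh => hb hh.2
      · intro hh
        exact absurd (mem_range.2 hx1) hh
    · rw [if_neg hc]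
      symm
      exact sum_eq_zero fun b _ => if_neg fun hh => hc hh.1
  have h1 : ∑ t ∈ range N ×ˢ range N,
      (if t = (s'.1 0, s.1 0) then (1 : ZMod 2) else 0) = 1 := by
    rw [sum_ite_eq' , if_pos (mem_product.2 ⟨mem_range.2 hx1, mem_range.2 hy1⟩)]
  push_cast
  rw [hA, hB, card_filter, card_filter]
  push_cast
  refine Eq.trans ?_ (congrArg (fun w => _ + (_ + _ + w)) h1)
  rw [← sum_add_distrib, ← sum_add_distrib, ← sum_add_distrib]
  refine sum_congr rfl ?_
  rintro ⟨x, y⟩ hxy
  dsimp only
  have e1 : decide (s'.1 x = 0) = decide (x = s'.1 0) := decide_eq_decide.2 (hiff' x)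
  have e2 : decide (s.1 y = 0) = decide (y = s.1 0) := decide_eq_decide.2 (hiff y)
  have h11 : (1 : ZMod 2) + 1 = 0 := by decide
  rw [e1, e2]
  by_cases px : x = s'.1 0
  · have hxo : x % 2 = 1 := by omega
    have hrx : LoopR s' s 0 x := by
      rw [px]
      exact hx1r
    by_cases py : y = s.1 0
    · have hyo : y % 2 = 1 := by omega
      have hry : LoopR s' s 0 y := by
        rw [py]
        exact hy1r
      have hrxy : LoopR s' s x y := heq.trans (heq.symm hrx) hry
      have hp : (x, y) = (s'.1 0, s.1 0) := Prod.ext px py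
      have d1 : decide (x = s'.1 0) = true := decide_eq_true px
      have d2 : decide (y = s.1 0) = true := decide_eq_true py
      rw [d1, d2, if_pos hp]
      cases hax : s'.2 x <;> cases hay : s.2 y <;>
        simp only [hxo, hyo, hrx, hry, hrxy, px.symm, py.symm, h11, Bool.xor_true, Bool.not_true,
          Bool.not_false, if_true, if_false, and_true, and_false,
          reduceCtorEq, add_zero, zero_add]
    · have hp : ¬ (x, y) = (s'.1 0, s.1 0) := fun e => py (Prod.mk.inj e).2
      have d1 : decide (x = s'.1 0) = true := decide_eq_true px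
      have d2 : decide (y = s.1 0) = false := decide_eq_false py
      have hrr : LoopR s' s x y ↔ LoopR s' s 0 y :=
        ⟨fun r => heq.trans hrx r, fun r => heq.trans (heq.symm hrx) r⟩
      rw [d1, d2, if_neg hp]
      cases hax : s'.2 x <;> cases hay : s.2 y <;>
        simp only [hxo, hrx, hrr, px.symm, py, Bool.xor_true, Bool.xor_false, Bool.not_true,
          Bool.not_false, if_false, true_and, and_true, and_false, false_and,
          reduceCtorEq, add_zero, zero_add]
      split_ifs <;> simp [h11]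
  · by_cases py : y = s.1 0
    · have hyo : y % 2 = 1 := by omega
      have hry : LoopR s' s 0 y := by
        rw [py]
        exact hy1r
      have hp : ¬ (x, y) = (s'.1 0, s.1 0) := fun e => px (Prod.mk.inj e).1
      have d1 : decide (x = s'.1 0) = false := decide_eq_false px
      have d2 : decide (y = s.1 0) = true := decide_eq_true py
      have hrr : LoopR s' s x y ↔ LoopR s' s 0 x :=
        ⟨fun r => heq.trans hry (heq.symm r), fun r => heq.trans (heq.symm r) hry⟩
      rw [d1, d2, if_neg hp]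
      cases hax : s'.2 x <;> cases hay : s.2 y <;>
        simp only [hyo, hry, hrr, px, py.symm, Bool.xor_true, Bool.xor_false, Bool.not_true,
          Bool.not_false, if_false, true_and, and_true, and_false, false_and,
          reduceCtorEq, add_zero, zero_add]
      split_ifs <;> simp [h11]
    · have hp : ¬ (x, y) = (s'.1 0, s.1 0) := fun e => px (Prod.mk.inj e).1
      have d1 : decide (x = s'.1 0) = false := decide_eq_false px
      have d2 : decide (y = s.1 0) = false := decide_eq_false py
      rw [d1, d2, if_neg hp, Bool.xor_false, Bool.xor_false]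
      rw [if_neg (fun hh => py hh.2 :
          ¬ ((x % 2 = 1 ∧ s'.2 x = true ∧ LoopR s' s 0 x) ∧ y = s.1 0)),
        if_neg (fun hh => px hh.2 :
          ¬ ((y % 2 = 1 ∧ s.2 y = true ∧ LoopR s' s 0 y) ∧ x = s'.1 0))]
      ring

end PairC

/-- The generators are self-adjoint. -/
theorem BS_eL (h' : IsAnn N s') (h : IsAnn N s) {i : ℕ} (hi : i + 1 < N) :
    BS N (eL i s') s = BS N s' (eL i s) := by
  obtain ⟨M, rfl⟩ : ∃ M, N = M + 2 := ⟨N - 2, by omega⟩
  have hi' : i ≤ M := by omega
  rw [← insL_capL h' hi', ← insL_capL h hi', BS_comm ((h'.capL hi').insL hi') h,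
    BS_insL h (h'.capL hi') hi', BS_insL h' (h.capL hi') hi', BS_comm (h.capL hi') (h'.capL hi')]

theorem BS_insL_insL (h' : IsAnn N s') (h : IsAnn N s) {i : ℕ} (hi : i ≤ N) :
    BS (N + 2) (insL i s') (insL i s) = BS N s' s := by
  rw [BS_insL (h'.insL hi) h hi, capL_insL h' hi]

/-- A loop around the seam point has the weight `-1`. -/
theorem BS_cupL_cupL (h' : IsAnn N s') (h : IsAnn N s) :
    BS (N + 2) (cupL N s') (cupL N s) = -BS N s' s := by
  unfold BS
  rw [PairC.loopN_cup h' h, pow_succ]
  ring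

/-- Moving the seam over the site `0`. -/
theorem BS_rotL (hN : 0 < N) (h' : IsAnn N s') (h : IsAnn N s) :
    BS N (rotL N s') (rotL N s) = BS N s' s * (-1) ^ (loopA N s' s 0 + loopB N s' s 0 + 1) := by
  unfold BS
  have h1 := (ZMod.natCast_eq_natCast_iff' _ _ _).1 (PairC.loopN_rot_mod hN h' h)
  rw [← pow_add, neg_one_pow_eq_pow_mod_two, h1, ← neg_one_pow_eq_pow_mod_two]

open Classical in
theorem BS_add_BS_rotL (hN : 0 < N) (h' : IsAnn N s') (h : IsAnn N s) :
    BS N s' s + BS N (rotL N s') (rotL N s) = if NCat N s' s 0 then 2 * BS N s' s else 0 := by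
  rw [BS_rotL hN h' h]
  unfold NCat
  split_ifs with hc
  · rw [Even.neg_one_pow (by rw [Nat.even_iff]; omega)]
    ring
  · rw [Odd.neg_one_pow (by rw [Nat.odd_iff]; omega)]
    ring

theorem BS_zero (s' s : St) : BS 0 s' s = 1 := by
  unfold BS loopN
  simp

end Pool.Agent.Perc
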