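import Pool.Agent.Lib.MP_6bd702_perq.QStDefs

/-!
# Pairs of states: loops (definitions of helper71)
-/

set_option autoImplicit false

namespace Pool.Agent.Perc

open Finset

/-- The sites `x` and `y` lie on the same loop of the pair of states. -/
def LoopR (s' s : St) (x y : ℕ) : Prop :=
  Relation.ReflTransGen (fun x y => y = s'.1 x ∨ y = s.1 x) x y

open Classical in
/-- The number of arcs of the first state with label `true` on the loop of the site `x₀`
(every arc has exactly one even end). -/
noncomputable def loopA (L : ℕ) (s' s : St) (x₀ : ℕ) : ℕ :=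
  ((range L).filter fun x => x % 2 = 0 ∧ s'.2 x = true ∧ LoopR s' s x₀ x).card

open Classical in
/-- The number of arcs of the second state with label `true` on the loop of the site `x₀`. -/
noncomputable def loopB (L : ℕ) (s' s : St) (x₀ : ℕ) : ℕ :=
  ((range L).filter fun x => x % 2 = 0 ∧ s.2 x = true ∧ LoopR s' s x₀ x).card

/-- The loop of the site `x₀` is non-contractible. -/
def NCat (L : ℕ) (s' s : St) (x₀ : ℕ) : Prop := (loopA L s' s x₀ + loopB L s' s x₀) % 2 = 1

end Pool.Agent.Perc
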