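import Pool.Agent.Lib.MP_6bd702_perq.PairDefs
import Pool.Agent.Lib.MP_6bd702_perq.QStA
import Pool.Agent.Lib.MP_6bd702_perq.QStB

/-!
# The pairing of states: definitions

`s' : St` is the state of the lower half of the cylinder, `s : St` the state of the upper half. The
loops are the classes of the relation generated by `x ∼ s'.1 x` and `x ∼ s.1 x`. For a loop `K` let
`α` be the parity of the number of arcs of `s'` in `K` with label `true` and `β` the same for `s`.
The pairing is the product over the loops of `(-1) ^ (α β)`.
-/

set_option autoImplicit false

namespace Pool.Agent.Perc

open Finset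

/-- Close the sites `i`, `i + 1` by a small arc and remove them. -/
def capL (i : ℕ) (s : St) : St :=
  (delArc i (eAct i s.1), fun x => (eL i s).2 (if x < i then x else x + 2))

open Classical in
/-- The number of pairs of even sites on the same loop, the first one with label `true` in the
lower state, the second one with label `true` in the upper state. -/
noncomputable def loopN (L : ℕ) (s' s : St) : ℕ :=
  ((range L ×ˢ range L).filter fun t => t.1 % 2 = 0 ∧ t.2 % 2 = 0 ∧ s'.2 t.1 = true ∧
    s.2 t.2 = true ∧ LoopR s' s t.1 t.2).card

/-- The pairing of two states. -/
noncomputable def BS (L : ℕ) (s' s : St) : ℂ := (-1) ^ loopN L s' s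

end Pool.Agent.Perc
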