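import Pool.Agent.Lib.MP_6bd702_perq.PsiSDefs

/-!
# The polynomial solution on the punctured disc: exchange relation (task PsiSA)
-/

set_option autoImplicit false

namespace Pool.Agent.Perc

open Finset MvPolynomial

variable {q : ℂ} {m : ℕ} {s : St}

theorem dw_PsiS (hq : q ^ 2 + q + 1 = 0) (m : ℕ) (s : St) : DW q (2 * m) (PsiS q m s) := by
  classical
  unfold PsiS
  split_ifs with h
  · exact (exists_dualS h.1 h.2).choose_spec.1
  · exact dw_zero

open Classical in
theorem eval_zptS_PsiS (hq : q ^ 2 + q + 1 = 0) (hs : IsAnn (2 * m) s) {s' : St}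
    (h : IsAnn (2 * m) s') : eval (zptS q s') (PsiS q m s) = if s' = s then 1 else 0 := by
  unfold PsiS
  rw [dif_pos ⟨hq, hs⟩]
  exact (exists_dualS hq hs).choose_spec.2 s' h

/-- Expansion in the dual basis. -/
theorem DW.eq_sum_PsiS (hq : q ^ 2 + q + 1 = 0) {P : MvPolynomial ℕ ℂ} (h : DW q (2 * m) P) :
    P = ∑ s ∈ anns (2 * m), C (eval (zptS q s) P) * PsiS q m s := by
  classical
  rw [← sub_eq_zero]
  have hneg : P - ∑ s ∈ anns (2 * m), C (eval (zptS q s) P) * PsiS q m s =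
      P + C (-1) * ∑ s ∈ anns (2 * m), C (eval (zptS q s) P) * PsiS q m s := by
    rw [C_neg, C_1, neg_one_mul, sub_eq_add_neg]
  have hDW : DW q (2 * m) (P - ∑ s ∈ anns (2 * m), C (eval (zptS q s) P) * PsiS q m s) := by
    rw [hneg]
    exact h.add ((DW.sum _ _ fun s _ => (dw_PsiS hq m s).smul _).smul _)
  refine hDW.eq_zero hq ?_
  intro p hp
  rw [map_sub, map_sum, Finset.sum_eq_single p]
  · rw [map_mul, eval_C, eval_zptS_PsiS hq hp hp, if_pos rfl, mul_one, sub_self]
  · intro π hπ hne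
    rw [map_mul, eval_zptS_PsiS hq (mem_anns.mp hπ) hp, if_neg (fun h => hne h.symm), mul_zero]
  · intro hp'
    exact absurd (mem_anns.mpr hp) hp'

theorem PsiSV_apply (z : ℕ → ℂ) (hs : IsAnn (2 * m) s) :
    PsiSV q m z s = eval z (PsiS q m s) := by
  classical
  unfold PsiSV
  rw [Finsupp.finsetSum_apply, Finset.sum_eq_single s]
  · rw [Finsupp.single_eq_same]
  · intro b _ hb
    rw [Finsupp.single_eq_of_ne (Ne.symm hb)]
  · intro h
    exact absurd (mem_anns.mpr hs) h

theorem PsiSV_apply_of_not (z : ℕ → ℂ) (hs : ¬ IsAnn (2 * m) s) : PsiSV q m z s = 0 := by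
  classical
  unfold PsiSV
  rw [Finsupp.finsetSum_apply]
  refine Finset.sum_eq_zero fun b hb => ?_
  rw [Finsupp.single_eq_of_ne]
  rintro rfl
  exact hs (mem_anns.mp hb)

theorem PsiSV_congr (hq : q ^ 2 + q + 1 = 0) {z z' : ℕ → ℂ} (h : ∀ k < 2 * m, z k = z' k) :
    PsiSV q m z = PsiSV q m z' := by
  unfold PsiSV
  refine Finset.sum_congr rfl fun s _ => ?_
  rw [(dw_PsiS hq m s).eval_congr h]

namespace PsiSA

/-- Coefficients of the push-forward. -/
theorem mapDomain_PsiSV (q : ℂ) (m : ℕ) (z : ℕ → ℂ) (f : St → St) :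
    (PsiSV q m z).mapDomain f =
      ∑ s ∈ anns (2 * m), Finsupp.single (f s) (eval z (PsiS q m s)) := by
  unfold PsiSV
  rw [Finsupp.mapDomain_finsetSum]
  exact Finset.sum_congr rfl fun π _ => Finsupp.mapDomain_single

open Classical in
theorem mapDomain_PsiSV_apply (q : ℂ) (m : ℕ) (z : ℕ → ℂ) (f : St → St) (s : St) :
    (PsiSV q m z).mapDomain f s =
      ∑ p ∈ anns (2 * m), (if f p = s then eval z (PsiS q m p) else 0) := by
  rw [mapDomain_PsiSV, Finsupp.finsetSum_apply]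
  refine Finset.sum_congr rfl fun p _ => ?_
  rw [Finsupp.single_apply]

open Classical in
/-- A push-forward, evaluated by a polynomial of the space with prescribed values. -/
theorem eval_eq_mapDomain (hq : q ^ 2 + q + 1 = 0) {Q : MvPolynomial ℕ ℂ} (hQ : DW q (2 * m) Q)
    (f : St → St) (s : St) (c : ℂ)
    (h : ∀ p, IsAnn (2 * m) p → eval (zptS q p) Q = if f p = s then c else 0) (z : ℕ → ℂ) :
    eval z Q = c * (PsiSV q m z).mapDomain f s := by
  conv_lhs => rw [hQ.eq_sum_PsiS hq]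
  rw [map_sum, mapDomain_PsiSV_apply, Finset.mul_sum]
  refine Finset.sum_congr rfl fun p hp => ?_
  rw [map_mul, eval_C, h p (mem_anns.mp hp)]
  split_ifs <;> simp

theorem mapDomain_apply_zero (z : ℕ → ℂ) (f : St → St) (s : St)
    (h : ∀ p, IsAnn (2 * m) p → f p ≠ s) : (PsiSV q m z).mapDomain f s = 0 := by
  classical
  rw [mapDomain_PsiSV_apply]
  refine Finset.sum_eq_zero fun p hp => ?_
  rw [if_neg (h p (mem_anns.mp hp))]

end PsiSA

open PsiSA

/-- Exchange relation. -/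
theorem exchangeS (hq : q ^ 2 + q + 1 = 0) {i : ℕ} (hi : i + 1 < 2 * m) (z : ℕ → ℂ) :
    (q * z (i + 1) - q ^ 2 * z i) • PsiSV q m (swapV i z) =
      (q * z i - q ^ 2 * z (i + 1)) • PsiSV q m z +
        (z i - z (i + 1)) • (PsiSV q m z).mapDomain (eL i) := by
  classical
  ext s
  rw [Finsupp.add_apply, Finsupp.smul_apply, Finsupp.smul_apply, Finsupp.smul_apply,
    smul_eq_mul, smul_eq_mul, smul_eq_mul]
  by_cases hs : IsAnn (2 * m) s
  · rw [PsiSV_apply _ hs, PsiSV_apply _ hs]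
    obtain ⟨Q, hQ, h1⟩ := (dw_PsiS hq m s).exists_E hq hi
    have h3 : eval z Q = 1 * (PsiSV q m z).mapDomain (eL i) s :=
      eval_eq_mapDomain hq hQ (eL i) s 1 (fun p hp => by
        rw [(dw_PsiS hq m s).eval_E hq hQ hi h1 hp, eval_zptS_PsiS hq hs (hp.eL hi)]) z
    rw [one_mul] at h3
    rw [← h3]
    have h4 := h1 z
    linear_combination -h4
  · rw [PsiSV_apply_of_not _ hs, PsiSV_apply_of_not _ hs, mapDomain_apply_zero z (eL i) s]
    · ring
    · rintro p hp rfl
      exact hs (hp.eL hi)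

end Pool.Agent.Perc
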