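import Pool.Agent.Lib.MP_6bd702_perq.PsiSA

/-!
# The polynomial solution on the punctured disc: rotation, insertion, product component
(task PsiSB)
-/

set_option autoImplicit false

namespace Pool.Agent.Perc

open Finset MvPolynomial

variable {q : ℂ} {m : ℕ}

namespace PsiSB

theorem q_ne_zero (hq : q ^ 2 + q + 1 = 0) : q ≠ 0 := by
  rintro rfl
  norm_num at hq

theorem one_sub_q_ne_zero (hq : q ^ 2 + q + 1 = 0) : 1 - q ≠ 0 := by
  intro h
  have h1 : q = 1 := by linear_combination -h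
  rw [h1] at hq
  norm_num at hq

theorem mapDomain_PsiSV (q : ℂ) (m : ℕ) (z : ℕ → ℂ) (f : St → St) :
    (PsiSV q m z).mapDomain f =
      ∑ s ∈ anns (2 * m), Finsupp.single (f s) (eval z (PsiS q m s)) := by
  unfold PsiSV
  rw [Finsupp.mapDomain_finsetSum]
  exact Finset.sum_congr rfl fun s _ => Finsupp.mapDomain_single

open Classical in
theorem mapDomain_PsiSV_apply (q : ℂ) (m : ℕ) (z : ℕ → ℂ) (f : St → St) (s : St) :
    (PsiSV q m z).mapDomain f s =
      ∑ p ∈ anns (2 * m), (if f p = s then eval z (PsiS q m p) else 0) := by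
  rw [mapDomain_PsiSV, Finsupp.finsetSum_apply]
  refine Finset.sum_congr rfl fun p _ => ?_
  rw [Finsupp.single_apply]

open Classical in
/-- A push-forward, evaluated by a polynomial of the space with prescribed values. -/
theorem eval_eq_mapDomain (hq : q ^ 2 + q + 1 = 0) {Q : MvPolynomial ℕ ℂ}
    (hQ : DW q (2 * m) Q) (f : St → St) (s : St) (c : ℂ)
    (h : ∀ p, IsAnn (2 * m) p → eval (zptS q p) Q = if f p = s then c else 0) (z : ℕ → ℂ) :
    eval z Q = c * (PsiSV q m z).mapDomain f s := by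
  conv_lhs => rw [hQ.eq_sum_PsiS hq]
  rw [map_sum, mapDomain_PsiSV_apply, Finset.mul_sum]
  refine Finset.sum_congr rfl fun p hp => ?_
  rw [map_mul, eval_C, h p (mem_anns.mp hp)]
  split_ifs <;> simp

theorem mapDomain_apply_zero (z : ℕ → ℂ) (f : St → St) (s : St)
    (h : ∀ p, IsAnn (2 * m) p → f p ≠ s) : (PsiSV q m z).mapDomain f s = 0 := by
  classical
  rw [mapDomain_PsiSV_apply]
  refine Finset.sum_eq_zero fun p hp => ?_
  rw [if_neg (h p (mem_anns.mp hp))]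

theorem eval_minPoly (q : ℂ) (L : ℕ) (z : ℕ → ℂ) :
    eval z (minPoly q L) = ∏ j ∈ range L, ∏ i ∈ range j, (z i - q ^ 2 * z j) := by
  simp [minPoly]

end PsiSB

open PsiSB

theorem PsiSV_rot (hq : q ^ 2 + q + 1 = 0) (m : ℕ) (z : ℕ → ℂ) :
    PsiSV q m (rotV (2 * m) z) = (PsiSV q m z).mapDomain (rotL (2 * m)) := by
  classical
  ext s
  by_cases hs : IsAnn (2 * m) s
  · rw [PsiSV_apply _ hs]
    obtain ⟨Q, hQ, h1⟩ := (dw_PsiS hq m s).exists_rot hq
    rw [← h1 z, eval_eq_mapDomain hq hQ (rotL (2 * m)) s 1 (fun p hp => ?_) z, one_mul]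
    rw [h1, ← zptS_rotL q hp, eval_zptS_PsiS hq hs hp.rotL]
  · rw [PsiSV_apply_of_not _ hs, mapDomain_apply_zero]
    rintro p hp rfl
    exact hs hp.rotL

theorem PsiSV_insV (hq : q ^ 2 + q + 1 = 0) (m : ℕ) {i : ℕ} (hi : i ≤ 2 * m) (v : ℂ)
    (z : ℕ → ℂ) : PsiSV q (m + 1) (insV i (q ^ 2 * v) v z) =
      (v * (∏ k ∈ range (2 * m), (z k - q * v) ^ 2) / (9 * q) ^ m) •
        (PsiSV q m z).mapDomain (insL i) := by
  classical
  have hq0 := q_ne_zero hq
  have h3 : (9 * q : ℂ) ^ m ≠ 0 := pow_ne_zero _ (mul_ne_zero (by norm_num) hq0)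
  ext s
  rw [Finsupp.smul_apply, smul_eq_mul]
  by_cases hs : IsAnn (2 * (m + 1)) s
  · rw [PsiSV_apply _ hs]
    obtain ⟨R, hR, h1⟩ := DW.restrict (m := 2 * m) hq (dw_PsiS hq (m + 1) s) (i := i) hi
    rw [h1 v z, eval_eq_mapDomain hq hR (insL i) s (1 / (9 * q) ^ m) (fun p hp => ?_) z]
    · ring
    · have h4 := h1 1 (zptS q p)
      rw [mul_one, mul_one, one_mul, ← zptS_insL q hp hi, prod_zptS hq hp] at h4
      rw [eval_zptS_PsiS hq hs (hp.insL hi)] at h4
      rw [eq_comm, mul_comm] at h4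
      rw [eq_div_of_mul_eq h3 h4]
      split_ifs <;> simp
  · rw [PsiSV_apply_of_not _ hs, mapDomain_apply_zero, mul_zero]
    rintro p hp rfl
    exact hs (hp.insL hi)

theorem eval_PsiS_nestS (hq : q ^ 2 + q + 1 = 0) (m : ℕ) (z : ℕ → ℂ) :
    eval z (PsiS q m (nestS m)) =
      (∏ j ∈ range (2 * m), ∏ i ∈ range j, (z i - q ^ 2 * z j)) /
        ((-3 * q) ^ (m * (m - 1) / 2) * (1 - q) ^ (m ^ 2)) := by
  have hc : ((-3 * q) ^ (m * (m - 1) / 2) * (1 - q) ^ (m ^ 2) : ℂ) ≠ 0 :=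
    mul_ne_zero (pow_ne_zero _ (mul_ne_zero (by norm_num) (q_ne_zero hq)))
      (pow_ne_zero _ (one_sub_q_ne_zero hq))
  have h1 := (dw_minPoly hq (2 * m)).eq_sum_PsiS hq
  rw [Finset.sum_eq_single (nestS m)] at h1
  · rw [eval_minPoly_nestS hq m] at h1
    have h2 := congrArg (eval z) h1
    rw [eval_minPoly, map_mul, eval_C] at h2
    rw [h2, mul_div_cancel_left₀ _ hc]
  · intro s hs hne
    rw [eval_minPoly_of_ne hq (mem_anns.mp hs) hne, C_0, zero_mul]
  · intro h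
    exact absurd (mem_anns.mpr (isAnn_nestS m)) h

theorem PsiSV_zero (hq : q ^ 2 + q + 1 = 0) (z : ℕ → ℂ) :
    PsiSV q 0 z = Finsupp.single (nestS 0) 1 := by
  have h1 : anns (2 * 0) = {nestS 0} := by
    ext s
    rw [mem_anns, Finset.mem_singleton]
    exact ⟨fun h => isAnn_zero h, fun h => h ▸ isAnn_nestS 0⟩
  unfold PsiSV
  rw [h1, Finset.sum_singleton, eval_PsiS_nestS hq]
  simp

end Pool.Agent.Perc
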