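import Pool.Agent.Lib.MP_6bd702_perc.AnnA
import Pool.Agent.Lib.MP_6bd702_perc.Wheel

/-!
# Punctured link patterns: rotation, insertion, words

A state `s : St` with `IsAnn N s` is a link pattern on the disc with a puncture (point at
infinity): the label of an arc is `true` if it separates the seam (gap `0`) from the puncture.
-/

set_option autoImplicit false

namespace Pool.Agent.Perc

open Finset

/-- The site `x` is an opening (the puncture is to the left of every arc). -/
def opS (s : St) (x : ℕ) : Bool := xor (decide (x < s.1 x)) (s.2 x)

/-- The evaluation point of a state: `q²` at openings, `1` at closings. -/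
noncomputable def zptS (q : ℂ) (s : St) : ℕ → ℂ := fun k => if opS s k = true then q ^ 2 else 1

/-- Rotation by one site to the left: the old site `0` becomes the site `N - 1`. -/
def rotL (N : ℕ) (s : St) : St :=
  (rotP N s.1, fun x => if x < N then
    (if x + 1 = N ∨ s.1 (x + 1) = 0 then !s.2 (if x + 1 = N then 0 else x + 1) else s.2 (x + 1))
    else false)

/-- Add a small arc (label `false`) at the sites `i`, `i + 1`. -/
def insL (i : ℕ) (s : St) : St :=
  (insArc i s.1, fun x => if x = i ∨ x = i + 1 then false else s.2 (if x < i then x else x - 2))

/-- The pattern of `2 m` sites all of whose arcs cross the seam. -/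
def nestS (m : ℕ) : St := (nest m, fun x => decide (x < 2 * m))

/-- Length of the arc of `x` in the universal cover. -/
def lenS (N : ℕ) (s : St) (x : ℕ) : ℕ :=
  if s.2 x = true then N - ((s.1 x - x) + (x - s.1 x)) else (s.1 x - x) + (x - s.1 x)

/-- Total length (every arc is counted twice). -/
def totS (N : ℕ) (s : St) : ℕ := ∑ x ∈ range N, lenS N s x

end Pool.Agent.Perc
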